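import Pool.Agent.Lib.MP_305fdd_al.F8.PIC.Stm

/-!
# MP_305fdd_al, PIC, piece `X4`: lifting of the conjugation
-/

set_option autoImplicit false

namespace Pool.Agent.F8.PIC

open Pool.Agent.MP_305fdd_al Pool.Agent.Lib.MP_305fdd_al Pool.Agent.F2X Pool.Agent.F8
  Pool.Agent.F8.HN Pool.Agent.F8.AB Pool.Agent.F8.D1
open Pool.Agent.F8.D1.PG (mL TP)
open scoped QuadraticAlgebra

/-! ### Surjectivity of the reduction modulo `4` -/

theorem X4_unit' : ∀ x y : ZMod 4, (∃ u v : ZMod 4, (⟨x, y⟩ : E1 (ZMod 4)) * ⟨u, v⟩ = 1) ∨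
    (⟨2, 2⟩ : E1 (ZMod 4)) * ⟨x, y⟩ = 0 := by
  decide

theorem X4_unit (z : E1 (ZMod 4)) : (∃ w, z * w = 1) ∨ (⟨2, 2⟩ : E1 (ZMod 4)) * z = 0 := by
  obtain ⟨x, y⟩ := z
  rcases X4_unit' x y with ⟨u, v, h⟩ | h
  · exact Or.inl ⟨_, h⟩
  · exact Or.inr h

theorem X4_units' : ∀ x y : ZMod 4, (∃ u v : ZMod 4, (⟨x, y⟩ : E1 (ZMod 4)) * ⟨u, v⟩ = 1) →
    (⟨x, y⟩ : E1 (ZMod 4)) = ⟨1, 0⟩ ∨ (⟨x, y⟩ : E1 (ZMod 4)) = ⟨0, 1⟩ ∨
    (⟨x, y⟩ : E1 (ZMod 4)) = ⟨-1, 0⟩ ∨ (⟨x, y⟩ : E1 (ZMod 4)) = ⟨0, -1⟩ ∨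
    (⟨x, y⟩ : E1 (ZMod 4)) = ⟨1, 2⟩ * ⟨1, 0⟩ ∨ (⟨x, y⟩ : E1 (ZMod 4)) = ⟨1, 2⟩ * ⟨0, 1⟩ ∨
    (⟨x, y⟩ : E1 (ZMod 4)) = ⟨1, 2⟩ * ⟨-1, 0⟩ ∨ (⟨x, y⟩ : E1 (ZMod 4)) = ⟨1, 2⟩ * ⟨0, -1⟩ := by
  decide

theorem X4_units (z w : E1 (ZMod 4)) (h : z * w = 1) : ∃ e e' : O1, e * e' = 1 ∧
    (z = E1m (Int.castRingHom (ZMod 4)) e ∨ z = ⟨1, 2⟩ * E1m (Int.castRingHom (ZMod 4)) e) := by
  obtain ⟨x, y⟩ := z
  obtain ⟨u, v⟩ := w
  rcases X4_units' x y ⟨u, v, h⟩ with h1 | h1 | h1 | h1 | h1 | h1 | h1 | h1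
  · exact ⟨⟨1, 0⟩, ⟨1, 0⟩, by decide, Or.inl (h1.trans (by decide))⟩
  · exact ⟨⟨0, 1⟩, ⟨0, -1⟩, by decide, Or.inl (h1.trans (by decide))⟩
  · exact ⟨⟨-1, 0⟩, ⟨-1, 0⟩, by decide, Or.inl (h1.trans (by decide))⟩
  · exact ⟨⟨0, -1⟩, ⟨0, 1⟩, by decide, Or.inl (h1.trans (by decide))⟩
  · exact ⟨⟨1, 0⟩, ⟨1, 0⟩, by decide, Or.inr (h1.trans (by decide))⟩
  · exact ⟨⟨0, 1⟩, ⟨0, -1⟩, by decide, Or.inr (h1.trans (by decide))⟩
  · exact ⟨⟨-1, 0⟩, ⟨-1, 0⟩, by decide, Or.inr (h1.trans (by decide))⟩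
  · exact ⟨⟨0, -1⟩, ⟨0, 1⟩, by decide, Or.inr (h1.trans (by decide))⟩

theorem X4_lift (z : E1 (ZMod 4)) : ∃ x : O1, E1m (Int.castRingHom (ZMod 4)) x = z := by
  obtain ⟨a, b⟩ := z
  obtain ⟨x, hx⟩ := ZMod.intCast_surjective a
  obtain ⟨y, hy⟩ := ZMod.intCast_surjective b
  refine ⟨⟨x, y⟩, ?_⟩
  rw [E1m_apply]
  apply QuadraticAlgebra.ext
  · exact hx
  · exact hy

theorem X4_U (z : E1 (ZMod 4)) : mU z ∈ (rd 4).range := by
  obtain ⟨x, hx⟩ := X4_lift z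
  refine ⟨mU x, ?_⟩
  unfold rd
  rw [← hx]
  apply G.SL_ext
  · show E1m (Int.castRingHom (ZMod 4)) 1 = 1
    rw [map_one]
  · rfl
  · show E1m (Int.castRingHom (ZMod 4)) 0 = 0
    rw [map_zero]
  · show E1m (Int.castRingHom (ZMod 4)) 1 = 1
    rw [map_one]

theorem X4_B : mB (E1 (ZMod 4)) ∈ (rd 4).range := by
  refine ⟨mB O1, ?_⟩
  unfold rd
  apply G.SL_ext
  · show E1m (Int.castRingHom (ZMod 4)) 0 = 0
    rw [map_zero]
  · show E1m (Int.castRingHom (ZMod 4)) (-1) = -1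
    rw [map_neg, map_one]
  · show E1m (Int.castRingHom (ZMod 4)) 1 = 1
    rw [map_one]
  · show E1m (Int.castRingHom (ZMod 4)) 0 = 0
    rw [map_zero]

section

variable {R : Type} [CommRing R]

theorem X4_mU (x : R) : mU x = mx 1 x 0 1 (by ring) := by
  apply G.SL_ext <;> rfl

theorem X4_mB : mB R = mx 0 (-1) 1 0 (by ring) := by
  apply G.SL_ext <;> rfl

/-- `[[1, 0], [x, 1]]` -/
theorem X4_L (x : R) : mB R * mU (-x) * (mB R)⁻¹ = mx 1 0 x 1 (by ring) := by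
  rw [X4_mU, X4_mB, mx_inv, mx_mul, mx_mul]
  apply mx_congr <;> ring

/-- `diag(a, a')` -/
theorem X4_D (a a' : R) (h : a * a' = 1) :
    mU a * (mB R * mU a' * (mB R)⁻¹) * mU a * mB R = mx a 0 0 a' (by rw [h]; ring) := by
  have h1 := X4_L (-a')
  rw [neg_neg] at h1
  rw [h1, X4_mU, X4_mB, mx_mul, mx_mul, mx_mul]
  apply mx_congr
  · linear_combination (-a) * h
  · linear_combination h
  · linear_combination -h
  · ring

theorem X4_dec (g : SL2 R) (a' : R) (h : g.val 0 0 * a' = 1) :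
    g = (mB R * mU (-(g.val 1 0 * a')) * (mB R)⁻¹) *
      (mU (g.val 0 0) * (mB R * mU a' * (mB R)⁻¹) * mU (g.val 0 0) * mB R) *
      mU (g.val 0 1 * a') := by
  rw [X4_D _ _ h, X4_L, X4_mU, mx_mul, mx_mul]
  conv_lhs => rw [eq_mx g]
  have hd := G.SL_det g
  apply mx_congr
  · ring
  · linear_combination (-g.val 0 1) * h
  · linear_combination (-g.val 1 0) * h
  · linear_combination a' * hd - (g.val 1 1 + g.val 0 1 * g.val 1 0 * a') * h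

end

theorem X4_surj_unit (g : SL2 (E1 (ZMod 4))) (a' : E1 (ZMod 4)) (h : g.val 0 0 * a' = 1) :
    g ∈ (rd 4).range := by
  rw [X4_dec g a' h]
  have hL : ∀ x : E1 (ZMod 4), mB (E1 (ZMod 4)) * mU x * (mB (E1 (ZMod 4)))⁻¹ ∈ (rd 4).range :=
    fun x => Subgroup.mul_mem _ (Subgroup.mul_mem _ X4_B (X4_U x)) (Subgroup.inv_mem _ X4_B)
  refine Subgroup.mul_mem _ (Subgroup.mul_mem _ (hL _) ?_) (X4_U _)
  exact Subgroup.mul_mem _ (Subgroup.mul_mem _ (Subgroup.mul_mem _ (X4_U _) (hL _)) (X4_U _)) X4_B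

theorem X4_surj (g : SL2 (E1 (ZMod 4))) : ∃ x : GG, rd 4 x = g := by
  have key : g ∈ (rd 4).range := by
    rcases X4_unit (g.val 0 0) with ⟨w, hw⟩ | h0
    · exact X4_surj_unit g w hw
    · rcases X4_unit (g.val 1 0) with ⟨w, hw⟩ | h1
      · have h2 : (mB (E1 (ZMod 4)))⁻¹ * g ∈ (rd 4).range := by
          apply X4_surj_unit _ w
          rw [G.SL_mul, X4_mB, mx_inv, mx_00, mx_01]
          linear_combination hw
        have h3 := Subgroup.mul_mem _ X4_B h2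
        rwa [mul_inv_cancel_left] at h3
      · exfalso
        have hd := G.SL_det g
        have h4 : (⟨2, 2⟩ : E1 (ZMod 4)) = 0 := by
          linear_combination (-(⟨2, 2⟩ : E1 (ZMod 4))) * hd + g.val 1 1 * h0 - g.val 0 1 * h1
        revert h4
        decide
  exact key

/-! ### Conjugation with diagonal matrices -/

section

variable {R : Type} [CommRing R]

/-- conjugation with `diag(e, 1)` -/
def X4_dg (e e' : R) (h : e * e' = 1) : SL2 R →* SL2 R where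
  toFun g := mx (g.val 0 0) (e * g.val 0 1) (e' * g.val 1 0) (g.val 1 1) (by
    linear_combination G.SL_det g - g.val 0 1 * g.val 1 0 * h)
  map_one' := by
    rw [mx_one]
    apply mx_congr
    · rfl
    · exact mul_zero _
    · exact mul_zero _
    · rfl
  map_mul' g g' := by
    rw [mx_mul]
    apply mx_congr
    · rw [G.SL_mul]; linear_combination (-g.val 0 1 * g'.val 1 0) * h
    · rw [G.SL_mul]; ring
    · rw [G.SL_mul]; ring
    · rw [G.SL_mul]; linear_combination (-g.val 1 0 * g'.val 0 1) * h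

theorem X4_dg_apply (e e' : R) (h : e * e' = 1) (g : SL2 R) : X4_dg e e' h g =
    mx (g.val 0 0) (e * g.val 0 1) (e' * g.val 1 0) (g.val 1 1) (by
    linear_combination G.SL_det g - g.val 0 1 * g.val 1 0 * h) := rfl

theorem X4_dg_tr (e e' : R) (h : e * e' = 1) (g : SL2 R) : tr (X4_dg e e' h g) = tr g := by
  rw [X4_dg_apply, mx_tr, tr_eq]

theorem X4_tr_conj (c g : SL2 R) : tr (c * g * c⁻¹) = tr g := by
  unfold tr
  rw [Matrix.SpecialLinearGroup.coe_mul, Matrix.trace_mul_comm, ← Matrix.SpecialLinearGroup.coe_mul]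
  congr 2
  group

/-- the conjugation by a matrix `C` of determinant `u` -/
theorem X4_conj (C D : Matrix (Fin 2) (Fin 2) R) (hCD : C * D = 1) (hDC : D * C = 1) (u u' : R)
    (hu : u * u' = 1) (hC : C.det = u) :
    ∃ C₁ : SL2 R, ∀ X Y : SL2 R, Y.val = C * X.val * D →
      Y = X4_dg u u' hu (C₁ * X * C₁⁻¹) := by
  have hdet : C 0 0 * C 1 1 - C 0 1 * C 1 0 = u := by rw [← hC, Matrix.det_fin_two]
  let C₁ : SL2 R := mx (u' * C 0 0) (u' * C 0 1) (C 1 0) (C 1 1) (by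
    linear_combination u' * hdet + hu)
  refine ⟨C₁, ?_⟩
  intro X Y hY
  have h1 : Y.val * C = C * X.val := by
    rw [hY, Matrix.mul_assoc, hDC, Matrix.mul_one]
  have hfac : C = !![u, 0; 0, 1] * C₁.val := by
    ext i j
    fin_cases i <;> fin_cases j
    · show C 0 0 = _
      rw [Matrix.mul_apply, Fin.sum_univ_two]
      show C 0 0 = u * (u' * C 0 0) + 0 * C 1 0
      linear_combination (-C 0 0) * hu
    · show C 0 1 = _
      rw [Matrix.mul_apply, Fin.sum_univ_two]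
      show C 0 1 = u * (u' * C 0 1) + 0 * C 1 1
      linear_combination (-C 0 1) * hu
    · show C 1 0 = _
      rw [Matrix.mul_apply, Fin.sum_univ_two]
      show C 1 0 = 0 * (u' * C 0 0) + 1 * C 1 0
      ring
    · show C 1 1 = _
      rw [Matrix.mul_apply, Fin.sum_univ_two]
      show C 1 1 = 0 * (u' * C 0 1) + 1 * C 1 1
      ring
  have hdg : ∀ Z : SL2 R, (X4_dg u u' hu Z).val * !![u, 0; 0, 1] = !![u, 0; 0, 1] * Z.val := by
    intro Z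
    ext i j
    fin_cases i <;> fin_cases j
    · show ((X4_dg u u' hu Z).val * !![u, 0; 0, 1]) 0 0 = (!![u, 0; 0, 1] * Z.val) 0 0
      rw [Matrix.mul_apply, Fin.sum_univ_two, Matrix.mul_apply, Fin.sum_univ_two]
      show Z.val 0 0 * u + u * Z.val 0 1 * 0 = u * Z.val 0 0 + 0 * Z.val 1 0
      ring
    · show ((X4_dg u u' hu Z).val * !![u, 0; 0, 1]) 0 1 = (!![u, 0; 0, 1] * Z.val) 0 1
      rw [Matrix.mul_apply, Fin.sum_univ_two, Matrix.mul_apply, Fin.sum_univ_two]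
      show Z.val 0 0 * 0 + u * Z.val 0 1 * 1 = u * Z.val 0 1 + 0 * Z.val 1 1
      ring
    · show ((X4_dg u u' hu Z).val * !![u, 0; 0, 1]) 1 0 = (!![u, 0; 0, 1] * Z.val) 1 0
      rw [Matrix.mul_apply, Fin.sum_univ_two, Matrix.mul_apply, Fin.sum_univ_two]
      show u' * Z.val 1 0 * u + Z.val 1 1 * 0 = 0 * Z.val 0 0 + 1 * Z.val 1 0
      linear_combination Z.val 1 0 * hu
    · show ((X4_dg u u' hu Z).val * !![u, 0; 0, 1]) 1 1 = (!![u, 0; 0, 1] * Z.val) 1 1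
      rw [Matrix.mul_apply, Fin.sum_univ_two, Matrix.mul_apply, Fin.sum_univ_two]
      show u' * Z.val 1 0 * 0 + Z.val 1 1 * 1 = 0 * Z.val 0 1 + 1 * Z.val 1 1
      ring
  have h2 : (X4_dg u u' hu (C₁ * X * C₁⁻¹)).val * C = C * X.val := by
    conv_lhs => rw [hfac]
    rw [← Matrix.mul_assoc, hdg, Matrix.mul_assoc, ← Matrix.SpecialLinearGroup.coe_mul]
    conv_rhs => rw [hfac]
    rw [Matrix.mul_assoc, ← Matrix.SpecialLinearGroup.coe_mul]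
    congr 2
    group
  apply Subtype.ext
  calc Y.val = Y.val * C * D := by rw [Matrix.mul_assoc, hCD, Matrix.mul_one]
    _ = (X4_dg u u' hu (C₁ * X * C₁⁻¹)).val * C * D := by rw [h1, h2]
    _ = (X4_dg u u' hu (C₁ * X * C₁⁻¹)).val := by rw [Matrix.mul_assoc, hCD, Matrix.mul_one]

end

theorem X4_dg_map (e e' : O1) (h : e * e' = 1) (g : GG) : rd 4 (X4_dg e e' h g) =
    X4_dg (E1m (Int.castRingHom (ZMod 4)) e) (E1m (Int.castRingHom (ZMod 4)) e')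
      (by rw [← map_mul, h, map_one]) (rd 4 g) := by
  unfold rd
  rw [X4_dg_apply, X4_dg_apply, mx_map]
  apply mx_congr
  · rfl
  · rw [map_mul]; rfl
  · rw [map_mul]; rfl
  · rfl

theorem X4_dl (g : SL2 (E1 (ZMod 4))) : dl g = X4_dg ⟨1, 2⟩ ⟨1, 2⟩ (by decide) g := rfl

theorem X4_dl_dl (g : SL2 (E1 (ZMod 4))) : dl (dl g) = g := by
  have h : (⟨1, 2⟩ : E1 (ZMod 4)) * ⟨1, 2⟩ = 1 := by decide
  rw [X4_dl, X4_dl, X4_dg_apply, X4_dg_apply]
  conv_rhs => rw [eq_mx g]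
  apply mx_congr
  · rfl
  · rw [mx_01, ← mul_assoc, h, one_mul]
  · rw [mx_10, ← mul_assoc, h, one_mul]
  · rfl

theorem p_X4 : S_X4 := by
  intro Λ _ ρ r C D hCD hDC hr
  have hdet : C.det * D.det = 1 := by rw [← Matrix.det_mul, hCD, Matrix.det_one]
  obtain ⟨e, e', he, hu⟩ := X4_units C.det D.det hdet
  have he4 : E1m (Int.castRingHom (ZMod 4)) e * E1m (Int.castRingHom (ZMod 4)) e' = 1 := by
    rw [← map_mul, he, map_one]
  rcases hu with hu | hu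
  · obtain ⟨C₁, hC₁⟩ := X4_conj C D hCD hDC (E1m (Int.castRingHom (ZMod 4)) e)
      (E1m (Int.castRingHom (ZMod 4)) e') he4 hu
    obtain ⟨γ, hγ⟩ := X4_surj C₁
    have hc : ∀ x : GG, rd 4 (γ * x * γ⁻¹) = C₁ * rd 4 x * C₁⁻¹ := by
      intro x
      rw [map_mul, map_mul, map_inv, hγ]
    refine ⟨(X4_dg e e' he).comp ((MulAut.conj γ).toMonoidHom.comp ρ), ?_, Or.inl ?_⟩
    · intro l
      show tr (X4_dg e e' he (γ * ρ l * γ⁻¹)) = tr (ρ l)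
      rw [X4_dg_tr, X4_tr_conj]
    · intro l
      show rd 4 (X4_dg e e' he (γ * ρ l * γ⁻¹)) = r l
      rw [X4_dg_map, hc]
      exact (hC₁ _ _ (hr l)).symm
  · have hκ : (⟨1, 2⟩ : E1 (ZMod 4)) * ⟨1, 2⟩ = 1 := by decide
    obtain ⟨C₁, hC₁⟩ := X4_conj C D hCD hDC (⟨1, 2⟩ * E1m (Int.castRingHom (ZMod 4)) e)
      (⟨1, 2⟩ * E1m (Int.castRingHom (ZMod 4)) e') (by
        linear_combination (E1m (Int.castRingHom (ZMod 4)) e *
          E1m (Int.castRingHom (ZMod 4)) e') * hκ + he4) hu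
    obtain ⟨γ, hγ⟩ := X4_surj C₁
    have hc : ∀ x : GG, rd 4 (γ * x * γ⁻¹) = C₁ * rd 4 x * C₁⁻¹ := by
      intro x
      rw [map_mul, map_mul, map_inv, hγ]
    refine ⟨(X4_dg e e' he).comp ((MulAut.conj γ).toMonoidHom.comp ρ), ?_, Or.inr ?_⟩
    · intro l
      show tr (X4_dg e e' he (γ * ρ l * γ⁻¹)) = tr (ρ l)
      rw [X4_dg_tr, X4_tr_conj]
    · intro l
      show rd 4 (X4_dg e e' he (γ * ρ l * γ⁻¹)) = dl (r l)
      rw [X4_dg_map, hc, hC₁ _ _ (hr l), X4_dl, X4_dg_apply, X4_dg_apply, X4_dg_apply]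
      apply mx_congr
      · rfl
      · rw [mx_01]
        linear_combination (-(E1m (Int.castRingHom (ZMod 4)) e *
          (C₁ * rd 4 (ρ l) * C₁⁻¹).val 0 1)) * hκ
      · rw [mx_10]
        linear_combination (-(E1m (Int.castRingHom (ZMod 4)) e' *
          (C₁ * rd 4 (ρ l) * C₁⁻¹).val 1 0)) * hκ
      · rfl

end Pool.Agent.F8.PIC
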