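import Pool.Agent.Lib.MP_305fdd_al.F8.PIC.Stm
import Pool.Agent.Lib.MP_305fdd_al.F8.D1.G.Gen

/-!
# MP_305fdd_al, PIC: the matrices of the elements with even exponents
-/

set_option autoImplicit false

namespace Pool.Agent.F8.PIC

open Pool.Agent.MP_305fdd_al Pool.Agent.Lib.MP_305fdd_al Pool.Agent.F2X Pool.Agent.F8
  Pool.Agent.F8.HN Pool.Agent.F8.AB Pool.Agent.F8.D1 Pool.Agent.F8.D1.PG
open scoped QuadraticAlgebra

/-- the labels of an element of `A5` -/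
structure e1_Lab (g : SL2 (E1 (ZMod 4))) (a b c : ZMod 4) : Prop where
  mem : g ∈ A5
  l1 : a = (g.val 1 0).re + (g.val 1 0).im
  l2 : b = (g.val 1 0).im
  l3 : c = (g.val 1 0).re + (g.val 1 0).im + 2 * (g.val 0 1).re

theorem e1_Lab.cast {g : SL2 (E1 (ZMod 4))} {a b c a' b' c' : ZMod 4} (h : e1_Lab g a b c)
    (ha : a = a') (hb : b = b') (hc : c = c') : e1_Lab g a' b' c' := by
  subst ha hb hc
  exact h

theorem e1_one : e1_Lab 1 0 0 0 := by
  refine ⟨A5.one_mem, ?_, ?_, ?_⟩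
  · rw [G.one10]; decide
  · rw [G.one10]; decide
  · rw [G.one10, G.one01]; decide

theorem e1_two_re (x y : E1 (ZMod 4)) (h : 2 * x = 2 * y) : 2 * x.re = 2 * y.re := by
  have := congrArg QuadraticAlgebra.re h
  rw [QuadraticAlgebra.re_mul, QuadraticAlgebra.re_mul, show (2 : E1 (ZMod 4)).re = 2 from rfl,
    show (2 : E1 (ZMod 4)).im = 0 from rfl] at this
  simpa using this

theorem e1_Lab.mul {g h : SL2 (E1 (ZMod 4))} {a b c a' b' c' : ZMod 4} (hg : e1_Lab g a b c)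
    (hh : e1_Lab h a' b' c') : e1_Lab (g * h) (a + a') (b + b') (c + c') := by
  obtain ⟨m1, p1, p2, p3⟩ := hg
  obtain ⟨m2, q1, q2, q3⟩ := hh
  have a4 := d_odd g m1.1 m1.2.1
  have b4 := d_odd h m2.1 m2.2.1
  have e1 : (g * h).val 1 0 = g.val 1 0 + h.val 1 0 := by
    rw [G.SL_mul, mul_comm (g.val 1 0), e4_mul _ _ m2.1 m1.2.1, e4_mul _ _ a4 m2.2.1]
  have e2 : 2 * ((g * h).val 0 1).re = 2 * (g.val 0 1 + h.val 0 1).re := by
    apply e1_two_re
    rw [G.SL_mul]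
    linear_combination h.val 0 1 * m1.1 + g.val 0 1 * b4
  refine ⟨A5.mul_mem m1 m2, ?_, ?_, ?_⟩
  · rw [e1, QuadraticAlgebra.re_add, QuadraticAlgebra.im_add, p1, q1]; ring
  · rw [e1, QuadraticAlgebra.im_add, p2, q2]
  · rw [e2, e1, QuadraticAlgebra.re_add, QuadraticAlgebra.im_add, QuadraticAlgebra.re_add, p3, q3]
    ring

theorem e1_Lab.inv {g : SL2 (E1 (ZMod 4))} {a b c : ZMod 4} (hg : e1_Lab g a b c) :
    e1_Lab g⁻¹ (-a) (-b) (-c) := by
  have h' : e1_Lab g⁻¹ _ _ _ := ⟨A5.inv_mem hg.mem, rfl, rfl, rfl⟩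
  have h2 := hg.mul h'
  rw [mul_inv_cancel] at h2
  obtain ⟨-, p1, p2, p3⟩ := h2
  obtain ⟨-, q1, q2, q3⟩ := e1_one
  refine h'.cast ?_ ?_ ?_
  · exact eq_neg_of_add_eq_zero_right (p1.trans q1.symm)
  · exact eq_neg_of_add_eq_zero_right (p2.trans q2.symm)
  · exact eq_neg_of_add_eq_zero_right (p3.trans q3.symm)

theorem e1_Lab.zpow {g : SL2 (E1 (ZMod 4))} {a b c : ZMod 4} (hg : e1_Lab g a b c) (n : ℤ) :
    e1_Lab (g ^ n) (n * a) (n * b) (n * c) := by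
  induction n with
  | zero =>
    rw [zpow_zero]
    refine e1_one.cast ?_ ?_ ?_ <;> push_cast <;> ring
  | succ n ih =>
    rw [zpow_add_one]
    refine (ih.mul hg).cast ?_ ?_ ?_ <;> push_cast <;> ring
  | pred n ih =>
    rw [zpow_sub_one]
    refine (ih.mul hg.inv).cast ?_ ?_ ?_ <;> push_cast <;> ring

/-- `X` is the matrix of `M` up to sign -/
def e1_P (X : GG) (M : SL2 Z1) : Prop := TP X M ∨ TP X (-M)

theorem e1_P_iff (X : GG) (M : SL2 Z1) : e1_P X M ↔ ph X = SLm il M ∨ ph X = -SLm il M := by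
  unfold e1_P
  rw [TP_iff, TP_iff, SLm_neg]

theorem e1_P.mul {X X' : GG} {M M' : SL2 Z1} (h : e1_P X M) (h' : e1_P X' M') :
    e1_P (X * X') (M * M') := by
  rw [e1_P_iff] at *
  rw [map_mul, map_mul]
  rcases h with h | h <;> rcases h' with h' | h' <;> rw [h, h']
  · exact Or.inl rfl
  · exact Or.inr (mul_neg _ _)
  · exact Or.inr (neg_mul _ _)
  · exact Or.inl (neg_mul_neg _ _)

theorem e1_P.inv {X : GG} {M : SL2 Z1} (h : e1_P X M) : e1_P X⁻¹ M⁻¹ := by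
  rw [e1_P_iff] at *
  rw [map_inv, map_inv]
  rcases h with h | h <;> rw [h]
  · exact Or.inl rfl
  · exact Or.inr (inv_eq_of_mul_eq_one_left (by rw [neg_mul_neg, inv_mul_cancel]))

theorem e1_P.zpow {X : GG} {M : SL2 Z1} (h : e1_P X M) (n : ℤ) : e1_P (X ^ n) (M ^ n) := by
  induction n with
  | zero => rw [zpow_zero, zpow_zero, e1_P_iff, map_one, map_one]; exact Or.inl rfl
  | succ n ih => rw [zpow_add_one, zpow_add_one]; exact ih.mul h
  | pred n ih => rw [zpow_sub_one, zpow_sub_one]; exact ih.mul h.inv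

/-- the check of a word -/
def e1_ck (m : O1 × O1 × O1 × O1) (a b c : ℤ) : Prop :=
  (2 * m.1.re - 2) % 4 = 0 ∧ (2 * m.1.im) % 4 = 0 ∧ (2 * m.2.2.1.re) % 4 = 0 ∧
  (2 * m.2.2.1.im) % 4 = 0 ∧ (m.2.1.re + m.2.1.im - m.2.2.1.im) % 4 = 0 ∧
  (m.2.2.1.re + m.2.2.1.im - a) % 4 = 0 ∧ (m.2.2.1.im - b) % 4 = 0 ∧
  (m.2.2.1.re + m.2.2.1.im + 2 * m.2.1.re - c) % 4 = 0

instance (m : O1 × O1 × O1 × O1) (a b c : ℤ) : Decidable (e1_ck m a b c) := by
  unfold e1_ck; infer_instance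

theorem e1_z4 {x : ℤ} (h : x % 4 = 0) : (x : ZMod 4) = 0 :=
  (ZMod.intCast_zmod_eq_zero_iff_dvd x 4).2 (Int.dvd_of_emod_eq_zero h)

theorem e1_gen (l : List Lt) (a b c : ℤ) (h : T00 (qw l)) (hX : e1_ck (toC (qw l)) a b c) :
    ∃ X : GG, TP X (Mw l) ∧ e1_Lab (rd 4 X) a b c := by
  rw [← qw_eq] at h hX
  obtain ⟨C, hC, hC2⟩ := TP_of _ h
  rw [← hC2] at hX
  refine ⟨C, hC, ?_⟩
  obtain ⟨h1, h2, h3, h4, h5, h6, h7, h8⟩ := hX
  have h1 := e1_z4 h1
  have h2 := e1_z4 h2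
  have h3 := e1_z4 h3
  have h4 := e1_z4 h4
  have h5 := e1_z4 h5
  have h6 := e1_z4 h6
  have h7 := e1_z4 h7
  have h8 := e1_z4 h8
  unfold o4 at h1 h2 h3 h4 h5 h6 h7 h8
  push_cast at h1 h2 h3 h4 h5 h6 h7 h8
  have r0 : ∀ i j, ((rd 4 C).val i j).re = (((C.val i j).re : ℤ) : ZMod 4) := fun i j => rfl
  have r1 : ∀ i j, ((rd 4 C).val i j).im = (((C.val i j).im : ℤ) : ZMod 4) := fun i j => rfl
  refine ⟨⟨?_, ?_, ?_⟩, ?_, ?_, ?_⟩
  · apply QuadraticAlgebra.ext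
    · rw [QuadraticAlgebra.re_mul, show (2 : E1 (ZMod 4)).re = 2 from rfl,
        show (2 : E1 (ZMod 4)).im = 0 from rfl, r0]
      linear_combination h1
    · rw [QuadraticAlgebra.im_mul, show (2 : E1 (ZMod 4)).re = 2 from rfl,
        show (2 : E1 (ZMod 4)).im = 0 from rfl, r0, r1]
      linear_combination h2
  · apply QuadraticAlgebra.ext
    · rw [QuadraticAlgebra.re_mul, show (2 : E1 (ZMod 4)).re = 2 from rfl,
        show (2 : E1 (ZMod 4)).im = 0 from rfl, r0, QuadraticAlgebra.re_zero]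
      linear_combination h3
    · rw [QuadraticAlgebra.im_mul, show (2 : E1 (ZMod 4)).re = 2 from rfl,
        show (2 : E1 (ZMod 4)).im = 0 from rfl, r0, r1, QuadraticAlgebra.im_zero]
      linear_combination h4
  · unfold s4
    rw [r0, r1, r1]
    linear_combination h5
  · rw [r0, r1]
    linear_combination -h6
  · rw [r1]
    linear_combination -h7
  · rw [r0, r1, r0]
    linear_combination -h8

theorem e1_uu : T00 (qw [.u, .u]) ∧ e1_ck (toC (qw [.u, .u])) 2 0 0 := by decide +kernel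
theorem e1_vv : T00 (qw [.v, .v]) ∧ e1_ck (toC (qw [.v, .v])) 0 2 0 := by decide +kernel
theorem e1_c : T00 (qw [.v, .u, .v', .u']) ∧ e1_ck (toC (qw [.v, .u, .v', .u'])) 0 0 0 := by
  decide +kernel
theorem e1_d : T00 (qw [.u, .v, .v, .u']) ∧ e1_ck (toC (qw [.u, .v, .v, .u'])) 0 2 0 := by
  decide +kernel
theorem e1_e : T00 (qw [.u, .v, .u, .v']) ∧ e1_ck (toC (qw [.u, .v, .u, .v'])) 2 0 0 := by
  decide +kernel
theorem e1_t : T00 (qw [.t]) ∧ e1_ck (toC (qw [.t])) 0 0 2 := by decide +kernel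

theorem e1_vec_ga0 : vec ga 0 = 1 := by simp [ga]
theorem e1_vec_ga1 : vec ga 1 = 0 := by simp [ga]
theorem e1_vec_gb0 : vec gb 0 = 0 := by simp [gb]
theorem e1_vec_gb1 : vec gb 1 = 1 := by simp [gb]

theorem e1_w0 (w : F) : vec w 0 = (vec w : Fin 2 → ℤ) 0 := rfl

/-- the elements with even exponents and their matrices -/
def e1_K : Subgroup F where
  carrier := {w | ∃ X : GG, e1_P X (rz (iA al1 w)) ∧ e1_Lab (rd 4 X) (vec w 0 : ℤ) (vec w 1 : ℤ) 0}
  one_mem' := by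
    refine ⟨1, ?_, ?_⟩
    · rw [map_one, map_one, e1_P_iff, map_one, map_one]; exact Or.inl rfl
    · rw [map_one]
      refine e1_one.cast ?_ ?_ rfl
      · rw [vec_one]; simp
      · rw [vec_one]; simp
  mul_mem' := by
    rintro w w' ⟨X, h1, h2⟩ ⟨X', h1', h2'⟩
    refine ⟨X * X', ?_, ?_⟩
    · rw [map_mul, map_mul]; exact h1.mul h1'
    · rw [map_mul]
      refine (h2.mul h2').cast ?_ ?_ (add_zero 0)
      · rw [vec_mul, Pi.add_apply]; push_cast; rfl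
      · rw [vec_mul, Pi.add_apply]; push_cast; rfl
  inv_mem' := by
    rintro w ⟨X, h1, h2⟩
    refine ⟨X⁻¹, ?_, ?_⟩
    · rw [map_inv, map_inv]; exact h1.inv
    · rw [map_inv]
      refine h2.inv.cast ?_ ?_ neg_zero
      · rw [vec_inv, Pi.neg_apply]; push_cast; rfl
      · rw [vec_inv, Pi.neg_apply]; push_cast; rfl

theorem e1_ru : rz (iA al1 ga) = lm .u := by rw [rho1_iA, rF1_ga]; exact mu_M
theorem e1_rv : rz (iA al1 gb) = lm .v := by rw [rho1_iA, rF1_gb]; exact mv_M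
theorem e1_rt : rz (tA al1) = lm .t := by rw [rho1_tA]; exact mt_M

theorem p_e1 (hf5 : S_f5) : S_e1 := by
  intro w n h0 h1
  have hw : w ∈ e1_K := by
    apply hf5 e1_K
    · obtain ⟨X, hX, hl⟩ := e1_gen _ _ _ _ e1_uu.1 e1_uu.2
      refine ⟨X, Or.inl ?_, hl.cast ?_ ?_ (by push_cast; rfl)⟩
      · rw [map_mul, map_mul, e1_ru]
        have e : Mw [.u, .u] = lm .u * lm .u := by simp only [Mw, mul_one]
        rw [← e]; exact hX
      · simp
      · simp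
    · obtain ⟨X, hX, hl⟩ := e1_gen _ _ _ _ e1_vv.1 e1_vv.2
      refine ⟨X, Or.inl ?_, hl.cast ?_ ?_ (by push_cast; rfl)⟩
      · rw [map_mul, map_mul, e1_rv]
        have e : Mw [.v, .v] = lm .v * lm .v := by simp only [Mw, mul_one]
        rw [← e]; exact hX
      · simp
      · simp
    · obtain ⟨X, hX, hl⟩ := e1_gen _ _ _ _ e1_c.1 e1_c.2
      refine ⟨X, Or.inl ?_, hl.cast ?_ ?_ (by push_cast; rfl)⟩
      · simp only [map_mul, map_inv]
        rw [e1_rv, e1_ru]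
        have e : Mw [.v, .u, .v', .u'] = lm .v * lm .u * (lm .v)⁻¹ * (lm .u)⁻¹ := by
          simp only [Mw, mul_one, mul_assoc]; rfl
        rw [← e]; exact hX
      · simp
      · simp
    · obtain ⟨X, hX, hl⟩ := e1_gen _ _ _ _ e1_d.1 e1_d.2
      refine ⟨X, Or.inl ?_, hl.cast ?_ ?_ (by push_cast; rfl)⟩
      · simp only [map_mul, map_inv]
        rw [e1_rv, e1_ru]
        have e : Mw [.u, .v, .v, .u'] = lm .u * lm .v * lm .v * (lm .u)⁻¹ := by
          simp only [Mw, mul_one, mul_assoc]; rfl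
        rw [← e]; exact hX
      · simp
      · simp
    · obtain ⟨X, hX, hl⟩ := e1_gen _ _ _ _ e1_e.1 e1_e.2
      refine ⟨X, Or.inl ?_, hl.cast ?_ ?_ (by push_cast; rfl)⟩
      · simp only [map_mul, map_inv]
        rw [e1_rv, e1_ru]
        have e : Mw [.u, .v, .u, .v'] = lm .u * lm .v * lm .u * (lm .v)⁻¹ := by
          simp only [Mw, mul_one, mul_assoc]; rfl
        rw [← e]; exact hX
      · simp
      · simp
    · exact h0
    · exact h1
  obtain ⟨X, hX, hl⟩ := hw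
  obtain ⟨T, hT, ht⟩ := e1_gen _ _ _ _ e1_t.1 e1_t.2
  have hT' : e1_P T (rz (tA al1)) := by
    left
    rw [e1_rt]
    have e : Mw [.t] = lm .t := by simp only [Mw, mul_one]
    rw [← e]; exact hT
  have h3 := hX.mul (hT'.zpow n)
  have h4 := hl.mul (ht.zpow n)
  rw [← map_zpow, ← map_mul] at h3
  rw [← map_zpow, ← map_mul] at h4
  obtain ⟨m, p1, p2, p3⟩ := h4
  refine ⟨X * T ^ n, m, h3, ?_, ?_, ?_⟩
  · rw [Int.cast_add]
    refine Eq.trans ?_ p1
    push_cast; ring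
  · refine Eq.trans ?_ p2
    push_cast; ring
  · push_cast
    refine Eq.trans ?_ p3
    push_cast; ring

end Pool.Agent.F8.PIC
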