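import Pool.Agent.Lib.MP_305fdd_al.F8.PIC.Stm
import Pool.Agent.Lib.MP_305fdd_al.F8.D1.G.Fin

/-!
# MP_305fdd_al, PIC, piece e2: every element of `G5` is the matrix of an element with even exponents
-/

set_option autoImplicit false

namespace Pool.Agent.F8.PIC

open Pool.Agent.MP_305fdd_al Pool.Agent.Lib.MP_305fdd_al Pool.Agent.F2X Pool.Agent.F8
  Pool.Agent.F8.HN Pool.Agent.F8.AB Pool.Agent.F8.D1
open Pool.Agent.F8.D1.PG (mL TP TP_iff Mu Mv Mk O_ext O_re_mul O_im_mul)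
open scoped QuadraticAlgebra

noncomputable section

/-! ### The entries of a matrix in `G5` -/

theorem e2_four (n : ℤ) (h : (n : ZMod 4) = 0) : (4 : ℤ) ∣ n := by
  have := (ZMod.intCast_zmod_eq_zero_iff_dvd n 4).1 h
  exact_mod_cast this

theorem e2_re (z w : E1 (ZMod 4)) (h : 2 * z = w) : 2 * z.re = w.re := by
  have := congrArg QuadraticAlgebra.re h
  rw [QuadraticAlgebra.re_mul, show (2 : E1 (ZMod 4)).re = 2 from rfl,
    show (2 : E1 (ZMod 4)).im = 0 from rfl] at this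
  simpa using this

theorem e2_im (z w : E1 (ZMod 4)) (h : 2 * z = w) : 2 * z.im = w.im := by
  have := congrArg QuadraticAlgebra.im h
  rw [QuadraticAlgebra.im_mul, show (2 : E1 (ZMod 4)).re = 2 from rfl,
    show (2 : E1 (ZMod 4)).im = 0 from rfl] at this
  simpa using this

theorem e2_even (z : O1) (h : 2 * E1m (Int.castRingHom (ZMod 4)) z = 0) :
    (2 : ℤ) ∣ z.re ∧ (2 : ℤ) ∣ z.im := by
  have h1 : 2 * (z.re : ZMod 4) = 0 := e2_re _ _ h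
  have h2 : 2 * (z.im : ZMod 4) = 0 := e2_im _ _ h
  have h3 := e2_four (2 * z.re) (by push_cast; exact h1)
  have h4 := e2_four (2 * z.im) (by push_cast; exact h2)
  constructor <;> omega

theorem e2_odd (z : O1) (h : 2 * E1m (Int.castRingHom (ZMod 4)) z = 2) :
    ∃ e : O1, z = 1 + 2 * e := by
  have h1 : 2 * (z.re : ZMod 4) = 2 := e2_re _ _ h
  have h2 : 2 * (z.im : ZMod 4) = 0 := e2_im _ _ h
  have h3 := e2_four (2 * z.re - 2) (by push_cast; rw [h1]; exact sub_self _)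
  have h4 := e2_four (2 * z.im) (by push_cast; exact h2)
  refine ⟨⟨(z.re - 1) / 2, z.im / 2⟩, ?_⟩
  apply O_ext
  · rw [QuadraticAlgebra.re_add, O_re_mul, show (2 : O1).re = 2 from rfl,
      show (2 : O1).im = 0 from rfl, QuadraticAlgebra.re_one]
    show z.re = 1 + (2 * ((z.re - 1) / 2) - 0 * (z.im / 2))
    omega
  · rw [QuadraticAlgebra.im_add, O_im_mul, show (2 : O1).re = 2 from rfl,
      show (2 : O1).im = 0 from rfl, QuadraticAlgebra.im_one]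
    show z.im = 0 + (2 * (z.im / 2) + 0 * ((z.re - 1) / 2))
    omega

theorem e2_ent (X : GG) (hX : X ∈ G5) : ∃ e b c e' : O1, X.val 0 0 = 1 + 2 * e ∧
    X.val 0 1 = ⟨1, 1⟩ * b ∧ X.val 1 0 = ⟨1, 1⟩ * (⟨1, 1⟩ * c) ∧ X.val 1 1 = 1 + 2 * e' := by
  obtain ⟨h1, h2, h3⟩ := hX
  obtain ⟨e, he⟩ := e2_odd _ h1
  obtain ⟨e', he'⟩ := e2_odd _ (d_odd _ h1 h2)
  obtain ⟨k1, k2⟩ := e2_even _ h2
  have k3 : ((X.val 0 1).re : ZMod 4) + ((X.val 0 1).im : ZMod 4) = ((X.val 1 0).im : ZMod 4) := h3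
  have k4 := e2_four ((X.val 0 1).re + (X.val 0 1).im - (X.val 1 0).im)
    (by push_cast; rw [k3]; exact sub_self _)
  refine ⟨e, ⟨((X.val 0 1).re + (X.val 0 1).im) / 2, ((X.val 0 1).im - (X.val 0 1).re) / 2⟩,
    ⟨(X.val 1 0).im / 2, -((X.val 1 0).re / 2)⟩, e', he, ?_, ?_, he'⟩
  · apply O_ext
    · rw [O_re_mul]
      show (X.val 0 1).re = 1 * (((X.val 0 1).re + (X.val 0 1).im) / 2) -
        1 * (((X.val 0 1).im - (X.val 0 1).re) / 2)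
      omega
    · rw [O_im_mul]
      show (X.val 0 1).im = 1 * (((X.val 0 1).im - (X.val 0 1).re) / 2) +
        1 * (((X.val 0 1).re + (X.val 0 1).im) / 2)
      omega
  · apply O_ext
    · rw [O_re_mul, O_re_mul, O_im_mul]
      show (X.val 1 0).re = 1 * (1 * ((X.val 1 0).im / 2) - 1 * (-((X.val 1 0).re / 2))) -
        1 * (1 * (-((X.val 1 0).re / 2)) + 1 * ((X.val 1 0).im / 2))
      omega
    · rw [O_im_mul, O_re_mul, O_im_mul]
      show (X.val 1 0).im = 1 * (1 * (-((X.val 1 0).re / 2)) + 1 * ((X.val 1 0).im / 2)) +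
        1 * (1 * ((X.val 1 0).im / 2) - 1 * (-((X.val 1 0).re / 2)))
      omega

/-! ### The matrix over `Z1` -/

theorem e2_sf (z : O1) : sf ℤ (c1 ℤ z) = c1 ℤ z := by
  rw [sf_apply, c1_apply]
  simp only [ks_a, ks_b, kk1_a, kk1_b, neg_zero, K1.zero_a, K1.zero_b]
  rfl

theorem e2_se (z : O1) : se ℤ (c1 ℤ z) = c1 ℤ z := by
  rw [se_apply, c1_apply]
  simp only [ks_a, ks_b, neg_zero]

/-- the matrix of an element of `G5` -/
theorem e2_M (X : GG) (hX : X ∈ G5) : ∃ M : SL2 Z1, TP X M ∧ tw (sf ℤ) M = M ∧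
    SLm (se ℤ) M = M ∧ M ∈ NQ (D1.ff ℤ ^ 6) := by
  obtain ⟨e, b, c, e', ha, hb, hc, hd⟩ := e2_ent X hX
  obtain ⟨I, hIe⟩ : ∃ I, I = c1 ℤ ⟨0, 1⟩ := ⟨_, rfl⟩
  have hI : I * I = -1 := by
    rw [hIe, ← map_mul, ← map_one (c1 ℤ), ← map_neg]
    congr 1
  have h11 : c1 ℤ ⟨1, 1⟩ = 1 + I := by
    rw [hIe, ← map_one (c1 ℤ), ← map_add]
    congr 1
  have hf : D1.ff ℤ ^ 2 = 1 + I := by rw [ff_sq, ← h11]; rfl
  have h2 : c1 ℤ 2 = 2 := map_ofNat (c1 ℤ) 2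
  have A : c1 ℤ (X.val 0 0) = 1 + 2 * c1 ℤ e := by
    rw [ha, map_add, map_mul, map_one, h2]
  have B : c1 ℤ (X.val 0 1) = (1 + I) * c1 ℤ b := by rw [hb, map_mul, h11]
  have C : c1 ℤ (X.val 1 0) = (1 + I) * ((1 + I) * c1 ℤ c) := by
    rw [hc, map_mul, map_mul, h11]
  have D : c1 ℤ (X.val 1 1) = 1 + 2 * c1 ℤ e' := by
    rw [hd, map_add, map_mul, map_one, h2]
  have hdet := congrArg (c1 ℤ) (G.SL_det X)
  rw [map_sub, map_mul, map_mul, map_one, A, B, C, D] at hdet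
  have hff6 : D1.ff ℤ ^ 6 = -2 + 2 * I := by
    have : D1.ff ℤ ^ 6 = (D1.ff ℤ ^ 2) * (D1.ff ℤ ^ 2) * (D1.ff ℤ ^ 2) := by ring
    rw [this, hf]
    linear_combination (3 + I) * hI
  have hs1 : sf ℤ I = I := by rw [hIe]; exact e2_sf _
  have hs2 : se ℤ I = I := by rw [hIe]; exact e2_se _
  refine ⟨mx (1 + 2 * c1 ℤ e) (D1.ff ℤ * ((1 + I) * c1 ℤ b)) (D1.ff ℤ * ((1 + I) * c1 ℤ c))
    (1 + 2 * c1 ℤ e') ?_, ⟨?_, ?_, ?_, ?_⟩, ?_, ?_, ?_⟩
  · linear_combination hdet - (1 + I) * (1 + I) * c1 ℤ b * c1 ℤ c * hf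
  · rw [mx_00, A]
  · rw [mx_01, B]
  · rw [mx_10, C]
    linear_combination (1 + I) * c1 ℤ c * hf
  · rw [mx_11, D]
  · rw [tw_mx]
    apply mx_congr <;>
      simp only [map_add, map_mul, map_one, map_ofNat, e2_sf, sf_ff, hs1] <;> ring
  · rw [mx_map]
    apply mx_congr <;>
      simp only [map_add, map_mul, map_one, map_ofNat, e2_se, se_ff, hs2]
  · rw [hff6]
    apply PG.NQ_of _ (-(1 + I) * (c1 ℤ e + c1 ℤ e ^ 2) - c1 ℤ b ^ 2)
      (-I * D1.ff ℤ * ((1 + 2 * c1 ℤ e) * c1 ℤ c - c1 ℤ b * (1 + 2 * c1 ℤ e')))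
      (c1 ℤ c ^ 2 + (1 + I) * (c1 ℤ e' + c1 ℤ e' ^ 2))
    · rw [mx_00, mx_01]
      linear_combination (2 * (c1 ℤ e + c1 ℤ e ^ 2) - c1 ℤ b ^ 2 * (I + 3)) * hI -
        (1 + I) ^ 2 * c1 ℤ b ^ 2 * hf
    · rw [mx_00, mx_01, mx_10, mx_11]
      linear_combination (2 * D1.ff ℤ * ((1 + 2 * c1 ℤ e) * c1 ℤ c -
        c1 ℤ b * (1 + 2 * c1 ℤ e'))) * hI
    · rw [mx_10, mx_11]
      linear_combination (c1 ℤ c ^ 2 * (I + 3) - 2 * (c1 ℤ e' + c1 ℤ e' ^ 2)) * hI +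
        (1 + I) ^ 2 * c1 ℤ c ^ 2 * hf

/-! ### The types -/

theorem e2_nn (g : SL2 Z1) (h : g = -g) : False := by
  have h0 : ∀ i k : Fin 2, g.val i k = 0 := by
    intro i k
    apply PG.two_nd
    have h1 : g.val i k = -(g.val i k) := congrArg (fun g : SL2 Z1 => g.val i k) h
    linear_combination h1
  have hd := G.SL_det g
  rw [h0, h0, h0, h0] at hd
  have h1 : (0 : Z1) = 1 := by linear_combination hd
  exact absurd h1 (by decide +kernel)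

theorem e2_tw_u : tw (sf ℤ) Mu = -Mu := by
  unfold Mu
  rw [tw_mx, mx_neg]
  apply mx_congr <;> decide +kernel

theorem e2_tw_t : tw (sf ℤ) PG.Mt = PG.Mt := by
  unfold PG.Mt
  rw [tw_mx]
  apply mx_congr <;> decide +kernel

theorem e2_se_u : SLm (se ℤ) Mu = -Mu := by
  unfold Mu
  rw [mx_map, mx_neg]
  apply mx_congr <;> decide +kernel

theorem e2_se_t : SLm (se ℤ) PG.Mt = PG.Mt := by
  unfold PG.Mt
  rw [mx_map]
  apply mx_congr <;> decide +kernel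

/-- the representation of `F` -/
abbrev e2_r : F →* SL2 Z1 := rF1 (D1.ee ℤ) (D1.ff ℤ) (ee_eq ℤ) (ff_eq ℤ)

theorem e2_F (S : Subgroup F) (ha : ga ∈ S) (hb : gb ∈ S) (w : F) : w ∈ S := by
  have e : S.subtype.comp (liF (⟨ga, ha⟩ : S) ⟨gb, hb⟩) = MonoidHom.id F := by
    apply hom_ext
    · rw [MonoidHom.comp_apply, liF_ga]; rfl
    · rw [MonoidHom.comp_apply, liF_gb]; rfl
  have e1 := DFunLike.congr_fun e w
  have e2 : S.subtype (liF (⟨ga, ha⟩ : S) ⟨gb, hb⟩ w) = w := e1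
  rw [← e2]
  exact (liF (⟨ga, ha⟩ : S) ⟨gb, hb⟩ w).2

/-- signs -/
theorem e2_sgn (σ : SL2 Z1 →* SL2 Z1) (hσ : ∀ g, σ (-g) = -σ g) (a b : ℤ)
    (hu : (Even a ∧ σ Mu = Mu) ∨ (¬ Even a ∧ σ Mu = -Mu))
    (hv : (Even b ∧ σ Mv = Mv) ∨ (¬ Even b ∧ σ Mv = -Mv)) (w : F) :
    (Even (a * vec w 0 + b * vec w 1) ∧ σ (e2_r w) = e2_r w) ∨
      (¬ Even (a * vec w 0 + b * vec w 1) ∧ σ (e2_r w) = -e2_r w) := by
  let S : Subgroup F :=
    { carrier := {w | (Even (a * vec w 0 + b * vec w 1) ∧ σ (e2_r w) = e2_r w) ∨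
        (¬ Even (a * vec w 0 + b * vec w 1) ∧ σ (e2_r w) = -e2_r w)}
      one_mem' := by
        left
        refine ⟨?_, by rw [map_one, map_one]⟩
        rw [vec_one]
        simp
      mul_mem' := by
        intro x y hx hy
        have hv : a * vec (x * y) 0 + b * vec (x * y) 1 =
            (a * vec x 0 + b * vec x 1) + (a * vec y 0 + b * vec y 1) := by
          rw [vec_mul, Pi.add_apply, Pi.add_apply]; ring
        show (Even (a * vec (x * y) 0 + b * vec (x * y) 1) ∧ _) ∨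
          (¬ Even (a * vec (x * y) 0 + b * vec (x * y) 1) ∧ _)
        rw [hv, map_mul, map_mul, Int.even_add]
        rcases hx with ⟨h1, h2⟩ | ⟨h1, h2⟩ <;> rcases hy with ⟨h3, h4⟩ | ⟨h3, h4⟩
        · left; exact ⟨⟨fun _ => h3, fun _ => h1⟩, by rw [h2, h4]⟩
        · right; exact ⟨fun h => h3 (h.1 h1), by rw [h2, h4, mul_neg]⟩
        · right; exact ⟨fun h => h1 (h.2 h3), by rw [h2, h4, neg_mul]⟩
        · left
          exact ⟨⟨fun h => absurd h h1, fun h => absurd h h3⟩, by rw [h2, h4, neg_mul_neg]⟩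
      inv_mem' := by
        intro x hx
        have hv : a * vec x⁻¹ 0 + b * vec x⁻¹ 1 = -(a * vec x 0 + b * vec x 1) := by
          rw [vec_inv, Pi.neg_apply, Pi.neg_apply]; ring
        show (Even (a * vec x⁻¹ 0 + b * vec x⁻¹ 1) ∧ _) ∨
          (¬ Even (a * vec x⁻¹ 0 + b * vec x⁻¹ 1) ∧ _)
        rw [hv, map_inv, map_inv, even_neg]
        rcases hx with ⟨h1, h2⟩ | ⟨h1, h2⟩
        · left; exact ⟨h1, by rw [h2]⟩
        · right; exact ⟨h1, by rw [h2, PG.neg_inv']⟩ }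
  apply e2_F S
  · show (Even (a * vec ga 0 + b * vec ga 1) ∧ _) ∨ (¬ Even (a * vec ga 0 + b * vec ga 1) ∧ _)
    have h1 : a * vec ga 0 + b * vec ga 1 = a := by simp [ga]
    have h2 : e2_r ga = Mu := by rw [← PG.mu_M]; exact rF1_ga _ _ _ _
    rw [h1, h2]
    exact hu
  · show (Even (a * vec gb 0 + b * vec gb 1) ∧ _) ∨ (¬ Even (a * vec gb 0 + b * vec gb 1) ∧ _)
    have h1 : a * vec gb 0 + b * vec gb 1 = b := by simp [gb]
    have h2 : e2_r gb = Mv := by rw [← PG.mv_M]; exact rF1_gb _ _ _ _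
    rw [h1, h2]
    exact hv

theorem e2_rz (w : F) (n : ℤ) : rz (iA al1 w * tA al1 ^ n) = e2_r w * PG.Mt ^ n := by
  rw [map_mul, map_zpow, rho1_iA, rho1_tA, PG.mt_M]

/-- a sign -/
theorem e2_even' (σ : SL2 Z1 →* SL2 Z1) (hσ : ∀ g, σ (-g) = -σ g) (a b : ℤ)
    (hu : (Even a ∧ σ Mu = Mu) ∨ (¬ Even a ∧ σ Mu = -Mu))
    (hv : (Even b ∧ σ Mv = Mv) ∨ (¬ Even b ∧ σ Mv = -Mv)) (ht : σ PG.Mt = PG.Mt) (M : SL2 Z1)
    (hM : σ M = M) (w : F) (n : ℤ) (h : M = rz (iA al1 w * tA al1 ^ n) ∨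
      M = -rz (iA al1 w * tA al1 ^ n)) : Even (a * vec w 0 + b * vec w 1) := by
  by_contra hc
  rcases e2_sgn σ hσ a b hu hv w with ⟨h1, -⟩ | ⟨-, h2⟩
  · exact hc h1
  have h3 : σ (rz (iA al1 w * tA al1 ^ n)) = -rz (iA al1 w * tA al1 ^ n) := by
    rw [e2_rz, map_mul, map_zpow, h2, ht, neg_mul]
  rcases h with h | h
  · rw [h, h3] at hM
    exact e2_nn _ hM.symm
  · rw [h, hσ, h3] at hM
    exact e2_nn _ (by rw [hM])

/-- the exponents of an element of type zero -/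
theorem e2_ev (M : SL2 Z1) (h1 : tw (sf ℤ) M = M) (h2 : SLm (se ℤ) M = M) (g : G1)
    (h : pj Z1 M = pj Z1 (rz g)) : ∃ (w : F) (n : ℤ), Even (vec w 0) ∧ Even (vec w 1) ∧
      (M = rz (iA al1 w * tA al1 ^ n) ∨ M = -rz (iA al1 w * tA al1 ^ n)) := by
  obtain ⟨w, n, rfl⟩ := GA_cases al1 g
  have h3 := pj_eq h
  have e1 : Even (1 * vec w 0 + 0 * vec w 1) := e2_even' (tw (sf ℤ)) (tw_neg _) 1 0
    (Or.inr ⟨by decide, e2_tw_u⟩) (Or.inl ⟨by decide, PG.tw_Mv⟩) e2_tw_t M h1 w n h3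
  have e2 : Even (1 * vec w 0 + 1 * vec w 1) := e2_even' (SLm (se ℤ)) (PG.SLm_neg _) 1 1
    (Or.inr ⟨by decide, e2_se_u⟩) (Or.inr ⟨by decide, PG.se_Mv⟩) e2_se_t M h2 w n h3
  rw [one_mul, zero_mul, add_zero] at e1
  rw [one_mul, one_mul, Int.even_add] at e2
  exact ⟨w, n, e1, e2.1 e1, h3⟩

/-! ### The element `u v k` -/

/-- the matrix of `u v k` -/
def e2_N : SL2 Z1 := Mu * Mv * Mk

theorem e2_N_tw : tw (sf ℤ) e2_N = e2_N := by
  unfold e2_N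
  rw [map_mul, map_mul, e2_tw_u, PG.tw_Mv, PG.tw_Mk, neg_mul, neg_mul_neg]

theorem e2_N_se : SLm (se ℤ) e2_N = e2_N := by
  unfold e2_N
  rw [map_mul, map_mul, e2_se_u, PG.se_Mv, PG.se_Mk, neg_mul_neg]

theorem e2_N_q : PG.q4 e2_N = (PG.zz (-1) (-2) 0 0 0 0 0 0, PG.zz 0 0 1 (-1) 0 0 0 0,
    PG.zz 0 0 2 0 0 0 0 0, PG.zz (-1) 2 0 0 0 0 0 0) := by
  unfold e2_N
  rw [PG.q4_mul, PG.q4_mul]
  decide +kernel

theorem e2_N_not (Y : GG) (hY : Y ∈ G5) (h : TP Y e2_N ∨ TP Y (-e2_N)) : False := by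
  have n1 : e2_N.val 0 1 = PG.zz 0 0 1 (-1) 0 0 0 0 :=
    congrArg (fun q : Z1 × Z1 × Z1 × Z1 => q.2.1) e2_N_q
  have n2 : e2_N.val 1 0 = PG.zz 0 0 2 0 0 0 0 0 :=
    congrArg (fun q : Z1 × Z1 × Z1 × Z1 => q.2.2.1) e2_N_q
  obtain ⟨-, -, h3⟩ := hY
  have h4 : s4 (E1m (Int.castRingHom (ZMod 4)) (Y.val 0 1)) =
      (E1m (Int.castRingHom (ZMod 4)) (Y.val 1 0)).im := h3
  rcases h with h | h
  · have hb := h.b
    have hc := h.c
    rw [n1, PG.ff_c1] at hb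
    rw [n2, PG.c1_re] at hc
    have b1 : Y.val 0 1 = ⟨1, -1⟩ := by
      have := congrArg (fun z : Z1 => z.a.b) hb
      exact this.symm
    have c1' : Y.val 1 0 = ⟨2, 2⟩ := by
      have e : PG.zz (Y.val 1 0).re (Y.val 1 0).im 0 0 0 0 0 0 = PG.zz 2 2 0 0 0 0 0 0 := by
        rw [← hc]; decide +kernel
      exact congrArg (fun z : Z1 => z.a.a) e
    rw [b1, c1'] at h4
    revert h4
    decide
  · have hb := h.b
    have hc := h.c
    rw [G.SL_neg, n1, PG.ff_c1] at hb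
    rw [G.SL_neg, n2, PG.c1_re] at hc
    have b1 : Y.val 0 1 = -⟨1, -1⟩ := by
      have := congrArg (fun z : Z1 => z.a.b) hb
      exact this.symm
    have c1' : Y.val 1 0 = ⟨-2, -2⟩ := by
      have e : PG.zz (Y.val 1 0).re (Y.val 1 0).im 0 0 0 0 0 0 = PG.zz (-2) (-2) 0 0 0 0 0 0 := by
        rw [← hc]; decide +kernel
      exact congrArg (fun z : Z1 => z.a.a) e
    rw [b1, c1'] at h4
    revert h4
    decide

theorem e2_TP_mul {X X' : GG} {M M' : SL2 Z1} (h : TP X M) (h' : TP X' M') :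
    TP (X'⁻¹ * X) (M'⁻¹ * M) := by
  rw [TP_iff] at h h' ⊢
  rw [map_mul, map_mul, map_inv, map_inv, h, h']

theorem e2_TP_neg {X : GG} {M : SL2 Z1} (h : TP X M) : TP (-X) (-M) := by
  rw [TP_iff] at h ⊢
  rw [PG.ph_neg, PG.SLm_neg, h]

/-- [PIC e2] every element of `G5` is such a matrix. -/
theorem p_e2 (h1 : S_e1) : S_e2 := by
  intro X hX
  obtain ⟨M, hTP, htw, hse, hNQ⟩ := e2_M X hX
  obtain ⟨z, hz⟩ := PG.ex_zero M htw hse hNQ
  obtain ⟨g, hg | hg⟩ := K_cases kp1 z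
  · have h2 : pj Z1 M = pj Z1 (rz g) := by
      rw [← hz, hg]
      exact Th1s_iK _ _ _ _ g
    obtain ⟨w, n, e1, e2, h3⟩ := e2_ev M htw hse g h2
    refine ⟨w, n, e1, e2, ?_⟩
    rcases h3 with h3 | h3
    · left; rw [← h3]; exact hTP
    · right; rw [← h3]; exact hTP
  · exfalso
    have h2 : pj Z1 (M * e2_N⁻¹) = pj Z1 (rz (g * (iA al1 (ga * gb))⁻¹)) := by
      have k1 : D1.Th1 (PG.nu * PG.nv * PG.nk) = pj Z1 e2_N := by
        unfold e2_N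
        rw [map_mul, map_mul, PG.Th_nu, PG.Th_nv, PG.Th_nk, map_mul, map_mul]
      have k2 : iK kp1 (g * (iA al1 (ga * gb))⁻¹) = z * (PG.nu * PG.nv * PG.nk)⁻¹ := by
        rw [hg, map_mul, map_inv, map_mul, map_mul]
        group
      have k3 : D1.Th1 (iK kp1 (g * (iA al1 (ga * gb))⁻¹)) = pj Z1 (rz (g * (iA al1 (ga * gb))⁻¹)) :=
        Th1s_iK _ _ _ _ _
      rw [← k3, k2, map_mul, map_inv, map_mul D1.Th1, map_inv D1.Th1, k1, hz]
    obtain ⟨w, n, e1, e2, h3⟩ := e2_ev (M * e2_N⁻¹)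
      (by rw [map_mul, map_inv, htw, e2_N_tw]) (by rw [map_mul, map_inv, hse, e2_N_se]) _ h2
    obtain ⟨X', hX', h4, -⟩ := h1 w n e1 e2
    have h5 : TP X' (M * e2_N⁻¹) ∨ TP X' (-(M * e2_N⁻¹)) := by
      rcases h3 with h3 | h3 <;> rcases h4 with h4 | h4
      · left; rw [h3]; exact h4
      · right; rw [h3]; exact h4
      · right; rw [h3, neg_neg]; exact h4
      · left; rw [h3]; exact h4
    apply e2_N_not (X'⁻¹ * X) (G5.mul_mem (G5.inv_mem hX') hX)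
    rcases h5 with h5 | h5
    · left
      have h6 := e2_TP_mul hTP h5
      have h7 : (M * e2_N⁻¹)⁻¹ * M = e2_N := by group
      rwa [h7] at h6
    · right
      have h6 := e2_TP_mul hTP h5
      have h7 : (-(M * e2_N⁻¹))⁻¹ * M = -e2_N := by
        rw [PG.neg_inv', neg_mul]
        congr 1
        group
      rwa [h7] at h6

end

end Pool.Agent.F8.PIC
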