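import Pool.Agent.Lib.MP_305fdd_al.F8.PIC.Stm
import Pool.Agent.Lib.MP_305fdd_al.F8.D1.G.Fin

/-!
# MP_305fdd_al, the Picard group: the homomorphism `G5 → G1`
-/

set_option autoImplicit false

namespace Pool.Agent.F8.PIC

open Pool.Agent.MP_305fdd_al Pool.Agent.Lib.MP_305fdd_al Pool.Agent.F2X Pool.Agent.F8
  Pool.Agent.F8.HN Pool.Agent.F8.AB Pool.Agent.F8.D1
open Pool.Agent.F8.D1.PG (mL TP TP_iff ph ph_neg il mp mp_inj mp_pj SLm_neg SLm_val Th_injective
  c1_inj ff_c1 ff_nd)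
open Pool.Agent.F8.G (SL_ext SL_mul SL_det SL_neg one00 one01 one10 one11)
open scoped QuadraticAlgebra

/-- the injective homomorphism `G1 → SL₂(L) / ±1` -/
noncomputable def eta_Ps : G1 →* SL2 PG.L ⧸ pm PG.L := mp.comp (D1.Th1.comp (iK kp1))

theorem eta_Ps_apply (g : G1) : eta_Ps g = pj PG.L (SLm il (rz g)) := by
  show mp (D1.Th1s _ _ _ _ (iK kp1 g)) = _
  rw [Th1s_iK, mp_pj]

theorem eta_Ps_inj : Function.Injective eta_Ps := by
  intro x y h
  exact SemidirectProduct.inl_injective (Th_injective (mp_inj h))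

theorem eta_TP {X : GG} {g : G1} :
    (TP X (rz g) ∨ TP X (-rz g)) ↔ pj PG.L (ph X) = eta_Ps g := by
  rw [eta_Ps_apply]
  constructor
  · rintro (h | h)
    · rw [(TP_iff _ _).1 h]
    · rw [(TP_iff _ _).1 h, SLm_neg, pj_neg]
  · intro h
    rcases pj_eq h with h | h
    · left; exact (TP_iff _ _).2 h
    · right; rw [← SLm_neg] at h; exact (TP_iff _ _).2 h

theorem eta_ex (h2 : S_e2) (X : G5) : ∃ g : G1, pj PG.L (ph X.val) = eta_Ps g := by
  obtain ⟨w, n, -, -, h⟩ := h2 X.val X.2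
  exact ⟨_, eta_TP.1 h⟩

/-- the homomorphism -/
noncomputable def eta_hom (h2 : S_e2) : G5 →* G1 where
  toFun X := Classical.choose (eta_ex h2 X)
  map_one' := by
    apply eta_Ps_inj
    rw [← Classical.choose_spec (eta_ex h2 1), map_one eta_Ps]
    show pj PG.L (ph 1) = 1
    rw [map_one ph, map_one]
  map_mul' X Y := by
    apply eta_Ps_inj
    rw [map_mul eta_Ps, ← Classical.choose_spec (eta_ex h2 (X * Y)),
      ← Classical.choose_spec (eta_ex h2 X), ← Classical.choose_spec (eta_ex h2 Y)]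
    show pj PG.L (ph (X.val * Y.val)) = _
    rw [map_mul ph, map_mul]

theorem eta_spec (h2 : S_e2) (X : G5) : pj PG.L (ph X.val) = eta_Ps (eta_hom h2 X) :=
  Classical.choose_spec (eta_ex h2 X)

theorem eta_eq (h2 : S_e2) {X : G5} {g : G1} (h : TP X.val (rz g) ∨ TP X.val (-rz g)) :
    eta_hom h2 X = g := by
  apply eta_Ps_inj
  rw [← eta_spec, eta_TP.1 h]

theorem eta_ker (h2 : S_e2) (x : G5) : eta_hom h2 x = 1 ↔ x.val = 1 ∨ x.val = -1 := by
  constructor
  · intro h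
    have h3 := eta_spec h2 x
    rw [h] at h3
    have h4 := eta_TP.2 h3
    rw [map_one] at h4
    rcases h4 with h2 | h2
    · left
      apply SL_ext
      · apply c1_inj; rw [← h2.a, one00, one00, map_one]
      · have := h2.b
        rw [one01, ff_c1] at this
        rw [one01]
        have h5 := congrArg (fun z : Z1 => z.a.b) this
        exact h5.symm
      · apply c1_inj; rw [← h2.c, one10, one10, map_zero, mul_zero]
      · apply c1_inj; rw [← h2.d, one11, one11, map_one]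
    · right
      apply SL_ext
      · apply c1_inj; rw [← h2.a, SL_neg, SL_neg, one00, one00, map_neg, map_one]
      · have := h2.b
        rw [SL_neg, one01, neg_zero, ff_c1] at this
        rw [SL_neg, one01, neg_zero]
        have h5 := congrArg (fun z : Z1 => z.a.b) this
        exact h5.symm
      · apply c1_inj; rw [← h2.c, SL_neg, SL_neg, one10, one10, neg_zero, neg_zero, map_zero,
          mul_zero]
      · apply c1_inj; rw [← h2.d, SL_neg, SL_neg, one11, one11, map_neg, map_one]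
  · intro h
    apply eta_Ps_inj
    rw [← eta_spec, map_one]
    rcases h with h | h
    · rw [h, map_one, map_one]
    · rw [h, ph_neg, pj_neg, map_one, map_one]

theorem eta_uniq {w w' : F} {n n' : ℤ} (h : iA al1 w * tA al1 ^ n = iA al1 w' * tA al1 ^ n') :
    w = w' ∧ n = n' := by
  have h1 := congrArg (nA al1) h
  rw [map_mul, map_mul, map_zpow, map_zpow, nA_iA, nA_iA, nA_tA, one_mul, one_mul,
    ← ofAdd_zsmul, ← ofAdd_zsmul] at h1
  have h2 : n • (1 : ℤ) = n' • (1 : ℤ) := Multiplicative.ofAdd.injective h1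
  have h3 : n = n' := by simpa using h2
  subst h3
  exact ⟨iA_injective al1 (mul_right_cancel h), rfl⟩

theorem eta_neg4 : ∀ a : ZMod 4, 2 * a = 0 → -a = a := by decide

theorem eta_two4 : ∀ a : ZMod 4, 2 * -a = 2 * a := by decide

theorem eta_c {X : GG} (hX : X ∈ G5) : 2 * (((X.val 1 0).re : ℤ) : ZMod 4) = 0 ∧
    2 * (((X.val 1 0).im : ℤ) : ZMod 4) = 0 := by
  have h : 2 * (rd 4 X).val 1 0 = 0 := hX.2.1
  have h1 := congrArg QuadraticAlgebra.re h
  have h2 := congrArg QuadraticAlgebra.im h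
  rw [QuadraticAlgebra.re_mul, show (2 : E1 (ZMod 4)).re = 2 from rfl,
    show (2 : E1 (ZMod 4)).im = 0 from rfl, mul_zero, zero_mul, add_zero] at h1
  rw [QuadraticAlgebra.im_mul, show (2 : E1 (ZMod 4)).re = 2 from rfl,
    show (2 : E1 (ZMod 4)).im = 0 from rfl, zero_mul, mul_zero, zero_mul, add_zero, add_zero] at h2
  exact ⟨h1, h2⟩

theorem eta_lab (h1 : S_e1) (h2 : S_e2) (x : G5) (w : F) (n : ℤ)
    (h : eta_hom h2 x = iA al1 w * tA al1 ^ n) :
    ((vec w 0 : ℤ) : ZMod 4) = (((x.val.val 1 0).re + (x.val.val 1 0).im : ℤ) : ZMod 4) ∧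
    ((vec w 1 : ℤ) : ZMod 4) = (((x.val.val 1 0).im : ℤ) : ZMod 4) ∧
    ((2 * n : ℤ) : ZMod 4) = (((x.val.val 1 0).re + (x.val.val 1 0).im +
      2 * (x.val.val 0 1).re : ℤ) : ZMod 4) := by
  obtain ⟨w', n', e0, e1, h3⟩ := h2 x.val x.2
  have h4 := eta_eq h2 h3
  rw [h] at h4
  obtain ⟨rfl, rfl⟩ := eta_uniq h4
  obtain ⟨X, hX, h5, l1, l2, l3⟩ := h1 w n e0 e1
  have h6 : eta_hom h2 ⟨X, hX⟩ = eta_hom h2 x := by
    rw [h]
    exact eta_eq h2 h5
  have h7 : eta_hom h2 ((⟨X, hX⟩ : G5)⁻¹ * x) = 1 := by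
    rw [map_mul, map_inv, h6, inv_mul_cancel]
  rcases (eta_ker h2 _).1 h7 with h8 | h8
  · have h9 : x.val = X := by
      have : X⁻¹ * x.val = 1 := h8
      rw [inv_mul_eq_one] at this
      exact this.symm
    rw [h9]
    exact ⟨l1, l2, l3⟩
  · have h9 : x.val = -X := by
      have : X⁻¹ * x.val = -1 := h8
      rw [inv_mul_eq_iff_eq_mul, mul_neg, mul_one] at this
      exact this
    obtain ⟨c1, c2⟩ := eta_c hX
    rw [h9, SL_neg, SL_neg, QuadraticAlgebra.re_neg, QuadraticAlgebra.im_neg,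
      QuadraticAlgebra.re_neg]
    push_cast at l1 l2 l3 ⊢
    rw [eta_neg4 _ c1, eta_neg4 _ c2, eta_two4]
    exact ⟨l1, l2, l3⟩

/-- the lower left entry is zero -/
def eta_UT : Subgroup (SL2 Z1) where
  carrier := {M | M.val 1 0 = 0}
  one_mem' := one10
  mul_mem' := by
    intro M N hM hN
    show (M * N).val 1 0 = 0
    have h1 : M.val 1 0 = 0 := hM
    have h2 : N.val 1 0 = 0 := hN
    rw [SL_mul, h1, h2, zero_mul, mul_zero, add_zero]
  inv_mem' := by
    intro M hM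
    have h1 : M.val 1 0 = 0 := hM
    show (M⁻¹).val 1 0 = 0
    rw [Matrix.SpecialLinearGroup.SL2_inv_expl]
    show -M.val 1 0 = 0
    rw [h1, neg_zero]

theorem eta_cc : rz (iA al1 cc) = PG.Mw [.u, .v', .u', .v] := by
  unfold cc
  rw [rho1_iA, map_mul, map_mul, map_mul, map_inv, map_inv, rF1_ga, rF1_gb, PG.mu_M, PG.mv_M]
  show _ = PG.Mu * (PG.Mv⁻¹ * (PG.Mu⁻¹ * (PG.Mv * 1)))
  rw [mul_one, ← mul_assoc, ← mul_assoc]

theorem eta_cc10 : (PG.qw [.u, .v', .u', .v]).2.2.1 = 0 := by decide +kernel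

theorem eta_par1 (g : G1) (hg : g ∈ Subgroup.closure {iA al1 cc, tA al1}) :
    (rz g).val 1 0 = 0 := by
  have h : Subgroup.closure {iA al1 cc, tA al1} ≤ eta_UT.comap rz := by
    rw [Subgroup.closure_le]
    rintro x (rfl | rfl)
    · show (rz (iA al1 cc)).val 1 0 = 0
      rw [eta_cc]
      have := congrArg (fun q : Z1 × Z1 × Z1 × Z1 => q.2.2.1) (PG.qw_eq [.u, .v', .u', .v])
      rw [eta_cc10] at this
      exact this
    · show (rz (tA al1)).val 1 0 = 0
      rw [rho1_tA]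
      rfl
  exact h hg

theorem eta_par (h2 : S_e2) (x : G5)
    (hx : eta_hom h2 x ∈ Subgroup.closure {iA al1 cc, tA al1}) : x.val.val 1 0 = 0 := by
  have h3 := eta_par1 _ hx
  have h4 := eta_TP.2 (eta_spec h2 x)
  apply c1_inj
  rcases h4 with h4 | h4
  · rw [← h4.c, h3, map_zero, mul_zero]
  · rw [← h4.c, SL_neg, h3, map_zero, neg_zero, mul_zero]

theorem p_eta (h1 : S_e1) (h2 : S_e2) : S_eta := by
  refine ⟨eta_hom h2, eta_ker h2, ?_, eta_lab h1 h2, eta_par h2⟩
  intro w n e0 e1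
  obtain ⟨X, hX, h5, -⟩ := h1 w n e0 e1
  exact ⟨⟨X, hX⟩, eta_eq h2 h5⟩

end Pool.Agent.F8.PIC
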