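import Pool.Agent.Lib.MP_305fdd_al.F8.PIC.Stm

/-!
# Piece f5: generators of the subgroup of `F` of the elements with even exponents
-/

set_option autoImplicit false

namespace Pool.Agent.F8.PIC

open Pool.Agent.MP_305fdd_al Pool.Agent.Lib.MP_305fdd_al Pool.Agent.F2X Pool.Agent.F8
  Pool.Agent.F8.HN Pool.Agent.F8.AB Pool.Agent.F8.D1

/-- `w` lies in the coset of `K` given by the parities of its exponents -/
def f5_Q (K : Subgroup F) (w : F) : Prop :=
  (Even (vec w 0) → Even (vec w 1) → w ∈ K) ∧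
  (¬ Even (vec w 0) → Even (vec w 1) → w * ga⁻¹ ∈ K) ∧
  (Even (vec w 0) → ¬ Even (vec w 1) → w * gb⁻¹ ∈ K) ∧
  (¬ Even (vec w 0) → ¬ Even (vec w 1) → w * (ga * gb)⁻¹ ∈ K)

theorem f5_ga (w : F) : (Even (vec (w * ga) 0) ↔ ¬ Even (vec w 0)) ∧
    (Even (vec (w * ga) 1) ↔ Even (vec w 1)) := by
  simp [Int.even_add]

theorem f5_ga' (w : F) : (Even (vec (w * ga⁻¹) 0) ↔ ¬ Even (vec w 0)) ∧
    (Even (vec (w * ga⁻¹) 1) ↔ Even (vec w 1)) := by
  simp [Int.even_add]

theorem f5_gb (w : F) : (Even (vec (w * gb) 0) ↔ Even (vec w 0)) ∧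
    (Even (vec (w * gb) 1) ↔ ¬ Even (vec w 1)) := by
  simp [Int.even_add]

theorem f5_gb' (w : F) : (Even (vec (w * gb⁻¹) 0) ↔ Even (vec w 0)) ∧
    (Even (vec (w * gb⁻¹) 1) ↔ ¬ Even (vec w 1)) := by
  simp [Int.even_add]

theorem p_f5 : S_f5 := by
  intro K y1 y2 y3 y4 y5
  -- the set of all the elements which preserve the property
  let S : Subgroup F :=
    { carrier := {z | ∀ w, f5_Q K w → f5_Q K (w * z) ∧ f5_Q K (w * z⁻¹)}
      one_mem' := fun w hw => by
        rw [mul_one, inv_one, mul_one]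
        exact ⟨hw, hw⟩
      mul_mem' := by
        intro y z hy hz w hw
        rw [← mul_assoc, mul_inv_rev, ← mul_assoc]
        exact ⟨(hz _ (hy w hw).1).1, (hy _ (hz w hw).2).2⟩
      inv_mem' := by
        intro z hz w hw
        rw [inv_inv]
        exact ⟨(hz w hw).2, (hz w hw).1⟩ }
  have hga : ga ∈ S := by
    intro w hw
    obtain ⟨h1, h2, h3, h4⟩ := hw
    obtain ⟨a0, a1⟩ := f5_ga w
    obtain ⟨b0, b1⟩ := f5_ga' w
    constructor
    · refine ⟨?_, ?_, ?_, ?_⟩
      · intro p q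
        have := K.mul_mem (h2 (a0.1 p) (a1.1 q)) y1
        have e : w * ga⁻¹ * (ga * ga) = w * ga := by group
        rwa [e] at this
      · intro p q
        have := h1 (by by_contra hc; exact p (a0.2 hc)) (a1.1 q)
        have e : w * ga * ga⁻¹ = w := by group
        rwa [e]
      · intro p q
        have := K.mul_mem (h4 (a0.1 p) (fun hc => q (a1.2 hc))) y5
        have e : w * (ga * gb)⁻¹ * (ga * gb * ga * gb⁻¹) = w * ga * gb⁻¹ := by group
        rwa [e] at this
      · intro p q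
        have := K.mul_mem (h3 (by by_contra hc; exact p (a0.2 hc)) (fun hc => q (a1.2 hc))) y3
        have e : w * gb⁻¹ * (gb * ga * gb⁻¹ * ga⁻¹) = w * ga * (ga * gb)⁻¹ := by group
        rwa [e] at this
    · refine ⟨?_, ?_, ?_, ?_⟩
      · intro p q
        exact h2 (b0.1 p) (b1.1 q)
      · intro p q
        have := K.mul_mem (h1 (by by_contra hc; exact p (b0.2 hc)) (b1.1 q)) (K.inv_mem y1)
        have e : w * (ga * ga)⁻¹ = w * ga⁻¹ * ga⁻¹ := by group
        rwa [e] at this
      · intro p q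
        have := K.mul_mem (h4 (b0.1 p) (fun hc => q (b1.2 hc))) (K.inv_mem y3)
        have e : w * (ga * gb)⁻¹ * (gb * ga * gb⁻¹ * ga⁻¹)⁻¹ = w * ga⁻¹ * gb⁻¹ := by group
        rwa [e] at this
      · intro p q
        have := K.mul_mem (h3 (by by_contra hc; exact p (b0.2 hc)) (fun hc => q (b1.2 hc)))
          (K.inv_mem y5)
        have e : w * gb⁻¹ * (ga * gb * ga * gb⁻¹)⁻¹ = w * ga⁻¹ * (ga * gb)⁻¹ := by group
        rwa [e] at this
  have hgb : gb ∈ S := by
    intro w hw
    obtain ⟨h1, h2, h3, h4⟩ := hw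
    obtain ⟨a0, a1⟩ := f5_gb w
    obtain ⟨b0, b1⟩ := f5_gb' w
    constructor
    · refine ⟨?_, ?_, ?_, ?_⟩
      · intro p q
        have := K.mul_mem (h3 (a0.1 p) (a1.1 q)) y2
        have e : w * gb⁻¹ * (gb * gb) = w * gb := by group
        rwa [e] at this
      · intro p q
        have := K.mul_mem (h4 (fun hc => p (a0.2 hc)) (a1.1 q)) y4
        have e : w * (ga * gb)⁻¹ * (ga * gb * gb * ga⁻¹) = w * gb * ga⁻¹ := by group
        rwa [e] at this
      · intro p q
        have := h1 (a0.1 p) (by by_contra hc; exact q (a1.2 hc))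
        have e : w * gb * gb⁻¹ = w := by group
        rwa [e]
      · intro p q
        have := h2 (fun hc => p (a0.2 hc)) (by by_contra hc; exact q (a1.2 hc))
        have e : w * gb * (ga * gb)⁻¹ = w * ga⁻¹ := by group
        rwa [e]
    · refine ⟨?_, ?_, ?_, ?_⟩
      · intro p q
        exact h3 (b0.1 p) (b1.1 q)
      · intro p q
        have := h4 (fun hc => p (b0.2 hc)) (b1.1 q)
        have e : w * (ga * gb)⁻¹ = w * gb⁻¹ * ga⁻¹ := by group
        rwa [e] at this
      · intro p q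
        have := K.mul_mem (h1 (b0.1 p) (by by_contra hc; exact q (b1.2 hc))) (K.inv_mem y2)
        have e : w * (gb * gb)⁻¹ = w * gb⁻¹ * gb⁻¹ := by group
        rwa [e] at this
      · intro p q
        have := K.mul_mem (h2 (fun hc => p (b0.2 hc)) (by by_contra hc; exact q (b1.2 hc)))
          (K.inv_mem y4)
        have e : w * ga⁻¹ * (ga * gb * gb * ga⁻¹)⁻¹ = w * gb⁻¹ * (ga * gb)⁻¹ := by group
        rwa [e] at this
  have hS : ∀ z : F, z ∈ S := by
    intro z
    have h1 : Subgroup.closure (Set.range (FreeGroup.of : Fin 2 → F)) ≤ S := by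
      rw [Subgroup.closure_le]
      rintro _ ⟨i, rfl⟩
      fin_cases i
      · exact hga
      · exact hgb
    have h2 : z ∈ Subgroup.closure (Set.range (FreeGroup.of : Fin 2 → F)) := by
      rw [FreeGroup.closure_range_of]
      exact Subgroup.mem_top z
    exact h1 h2
  intro w e0 e1
  have hone : f5_Q K 1 := by
    refine ⟨fun _ _ => K.one_mem, ?_, ?_, ?_⟩
    · intro h; exact absurd (by simp) h
    · intro _ h; exact absurd (by simp) h
    · intro h; exact absurd (by simp) h
  have := (hS w 1 hone).1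
  rw [one_mul] at this
  exact this.1 e0 e1

end Pool.Agent.F8.PIC
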