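import Pool.Agent.Lib.MP_305fdd_al.F8.PIC.Stm

/-!
# MP_305fdd_al, PIC, piece `ha`: a cocycle by counting dimensions (Fox calculus)
-/

set_option autoImplicit false

namespace Pool.Agent.F8.PIC

open Pool.Agent.MP_305fdd_al Pool.Agent.Lib.MP_305fdd_al Pool.Agent.F2X Pool.Agent.F8
  Pool.Agent.F8.HN Pool.Agent.F8.AB Pool.Agent.F8.D1

section

variable {k W G0 : Type} [Field k] [AddCommGroup W] [Module k W] [Group G0]

theorem ha_inv_apply (σ : G0 →* Module.End k W) (g : G0) (x : W) : σ g⁻¹ (σ g x) = x := by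
  rw [← Module.End.mul_apply, ← map_mul, inv_mul_cancel, map_one, Module.End.one_apply]

theorem ha_apply_inv (σ : G0 →* Module.End k W) (g : G0) (x : W) : σ g (σ g⁻¹ x) = x := by
  rw [← Module.End.mul_apply, ← map_mul, mul_inv_cancel, map_one, Module.End.one_apply]

theorem ha_mul (σ : G0 →* Module.End k W) (g h : G0) (x : W) : σ (g * h) x = σ g (σ h x) := by
  rw [map_mul, Module.End.mul_apply]

/-- the action on `Multiplicative W` -/
def ha_phi (σ : G0 →* Module.End k W) : G0 →* MulAut (Multiplicative W) where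
  toFun g :=
    { toFun := fun x => Multiplicative.ofAdd (σ g (Multiplicative.toAdd x))
      invFun := fun x => Multiplicative.ofAdd (σ g⁻¹ (Multiplicative.toAdd x))
      left_inv := fun x => by
        show Multiplicative.ofAdd (σ g⁻¹ (σ g (Multiplicative.toAdd x))) = x
        rw [ha_inv_apply, ofAdd_toAdd]
      right_inv := fun x => by
        show Multiplicative.ofAdd (σ g (σ g⁻¹ (Multiplicative.toAdd x))) = x
        rw [ha_apply_inv, ofAdd_toAdd]
      map_mul' := fun x y => by
        rw [toAdd_mul, map_add, ofAdd_add] }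
  map_one' := by
    ext x
    show Multiplicative.ofAdd (σ 1 (Multiplicative.toAdd x)) = x
    rw [map_one, Module.End.one_apply, ofAdd_toAdd]
  map_mul' g h := by
    ext x
    show Multiplicative.ofAdd (σ (g * h) (Multiplicative.toAdd x)) = Multiplicative.ofAdd
      (σ g (Multiplicative.toAdd (Multiplicative.ofAdd (σ h (Multiplicative.toAdd x)))))
    rw [toAdd_ofAdd, ha_mul]

theorem ha_phi_apply (σ : G0 →* Module.End k W) (g : G0) (x : Multiplicative W) :
    ha_phi σ g x = Multiplicative.ofAdd (σ g (Multiplicative.toAdd x)) := rfl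

/-- the group of the affine maps -/
abbrev ha_Q (σ : G0 →* Module.End k W) : Type := Multiplicative W ⋊[ha_phi σ] G0

/-- the cocycles on `F` -/
def ha_C (σ : G0 →* Module.End k W) (i : F →* G0) : Submodule k (F → W) where
  carrier := {z | ∀ g h, z (g * h) = z g + σ (i g) (z h)}
  add_mem' := by
    intro y z hy hz g h
    rw [Pi.add_apply, Pi.add_apply, Pi.add_apply, hy, hz, map_add]; abel
  zero_mem' := by
    intro g h
    simp
  smul_mem' := by
    intro c z hz g h
    rw [Pi.smul_apply, Pi.smul_apply, Pi.smul_apply, hz, smul_add, map_smul]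

theorem ha_mem (σ : G0 →* Module.End k W) (i : F →* G0) (z : F → W) :
    z ∈ ha_C σ i ↔ ∀ g h, z (g * h) = z g + σ (i g) (z h) := Iff.rfl

theorem ha_one (σ : G0 →* Module.End k W) (i : F →* G0) (z : F → W) (hz : z ∈ ha_C σ i) :
    z 1 = 0 := by
  have h := hz 1 1
  rw [mul_one, map_one, map_one, Module.End.one_apply] at h
  exact left_eq_add.mp h

theorem ha_zinv (σ : G0 →* Module.End k W) (i : F →* G0) (z : F → W) (hz : z ∈ ha_C σ i) (g : F) :
    z g⁻¹ = -σ (i g⁻¹) (z g) := by
  have h := hz g⁻¹ g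
  rw [inv_mul_cancel, ha_one σ i z hz] at h
  exact eq_neg_of_add_eq_zero_left h.symm

/-- the homomorphism to the affine group -/
def ha_th (σ : G0 →* Module.End k W) (i : F →* G0) (z : F → W) (hz : z ∈ ha_C σ i) :
    F →* ha_Q σ where
  toFun g := ⟨Multiplicative.ofAdd (z g), i g⟩
  map_one' := by
    rw [ha_one σ i z hz, map_one, ofAdd_zero]
    rfl
  map_mul' g h := by
    apply SemidirectProduct.ext
    · rw [SemidirectProduct.mul_left, ha_phi_apply, hz g h, ofAdd_add, toAdd_ofAdd]
    · rw [SemidirectProduct.mul_right, map_mul]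

theorem ha_uniq (σ : G0 →* Module.End k W) (i : F →* G0) (y z : F → W) (hy : y ∈ ha_C σ i)
    (hz : z ∈ ha_C σ i) (ha : y ga = z ga) (hb : y gb = z gb) : y = z := by
  have h : ha_th σ i y hy = ha_th σ i z hz := by
    apply hom_ext
    · show (⟨Multiplicative.ofAdd (y ga), i ga⟩ : ha_Q σ) = ⟨Multiplicative.ofAdd (z ga), i ga⟩
      rw [ha]
    · show (⟨Multiplicative.ofAdd (y gb), i gb⟩ : ha_Q σ) = ⟨Multiplicative.ofAdd (z gb), i gb⟩
      rw [hb]
  funext g
  have h1 := congrArg SemidirectProduct.left (DFunLike.congr_fun h g)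
  exact Multiplicative.ofAdd.injective h1

theorem ha_exists (σ : G0 →* Module.End k W) (i : F →* G0) (a b : W) :
    ∃ z ∈ ha_C σ i, z ga = a ∧ z gb = b := by
  let θ : F →* ha_Q σ := liF ⟨Multiplicative.ofAdd a, i ga⟩ ⟨Multiplicative.ofAdd b, i gb⟩
  have ha' : θ ga = ⟨Multiplicative.ofAdd a, i ga⟩ := liF_ga _ _
  have hb' : θ gb = ⟨Multiplicative.ofAdd b, i gb⟩ := liF_gb _ _
  have hr : SemidirectProduct.rightHom.comp θ = i := by
    apply hom_ext
    · show SemidirectProduct.rightHom (θ ga) = i ga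
      rw [ha']; rfl
    · show SemidirectProduct.rightHom (θ gb) = i gb
      rw [hb']; rfl
  have hr' : ∀ g, (θ g).right = i g := fun g => DFunLike.congr_fun hr g
  refine ⟨fun g => Multiplicative.toAdd (θ g).left, ?_, ?_, ?_⟩
  · intro g h
    show Multiplicative.toAdd (θ (g * h)).left = Multiplicative.toAdd (θ g).left +
      σ (i g) (Multiplicative.toAdd (θ h).left)
    rw [map_mul, SemidirectProduct.mul_left, ha_phi_apply, hr', toAdd_mul, toAdd_ofAdd]
  · show Multiplicative.toAdd (θ ga).left = a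
    rw [ha', toAdd_ofAdd]
  · show Multiplicative.toAdd (θ gb).left = b
    rw [hb', toAdd_ofAdd]

/-- the values at the generators -/
def ha_ev (σ : G0 →* Module.End k W) (i : F →* G0) : ha_C σ i →ₗ[k] W × W where
  toFun z := (z.val ga, z.val gb)
  map_add' _ _ := rfl
  map_smul' _ _ := rfl

/-- cocycles are determined by their values at the generators -/
noncomputable def ha_eqv (σ : G0 →* Module.End k W) (i : F →* G0) : ha_C σ i ≃ₗ[k] W × W :=
  LinearEquiv.ofBijective (ha_ev σ i) (by
    constructor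
    · intro y z h
      have h1 : y.val ga = z.val ga := congrArg Prod.fst h
      have h2 : y.val gb = z.val gb := congrArg Prod.snd h
      exact Subtype.ext (ha_uniq σ i y.val z.val y.property z.property h1 h2)
    · rintro ⟨a, b⟩
      obtain ⟨z, hz, h1, h2⟩ := ha_exists σ i a b
      exact ⟨⟨z, hz⟩, Prod.ext h1 h2⟩)

/-- the stabiliser of a linear form -/
def ha_S (σ : G0 →* Module.End k W) (lam : W →ₗ[k] k) : Subgroup G0 where
  carrier := {g | ∀ x, lam (σ g x) = lam x}
  one_mem' := by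
    intro x
    rw [map_one, Module.End.one_apply]
  mul_mem' := by
    intro g h hg hh x
    rw [ha_mul, hg, hh]
  inv_mem' := by
    intro g hg x
    rw [← hg (σ g⁻¹ x), ha_apply_inv]

/-- the value at `cc` -/
theorem ha_cc (σ : G0 →* Module.End k W) (i : F →* G0) (z : F → W) (hz : z ∈ ha_C σ i) :
    z cc = z ga - σ (i (ga * gb⁻¹)) (z gb) - σ (i (ga * gb⁻¹ * ga⁻¹)) (z ga) +
      σ (i (ga * gb⁻¹ * ga⁻¹)) (z gb) := by
  unfold cc
  rw [hz, hz, hz, ha_zinv σ i z hz gb, ha_zinv σ i z hz ga, map_neg, map_neg, ← ha_mul, ← ha_mul,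
    ← map_mul, ← map_mul]
  abel

end

section

variable {k W : Type} [Field k] [AddCommGroup W] [Module k W] {α : MulAut F}

/-- the map `E` -/
def ha_E (σ : GA α →* Module.End k W) :
    (ha_C σ (iA α) × W) →ₗ[k] ha_C σ ((iA α).comp α.toMonoidHom) where
  toFun p := ⟨fun g => p.2 + σ (tA α) (p.1.val g) - σ (iA α (α g)) p.2 - p.1.val (α g), by
    intro g h
    have hz := p.1.property
    show p.2 + σ (tA α) (p.1.val (g * h)) - σ (iA α (α (g * h))) p.2 - p.1.val (α (g * h)) =
      p.2 + σ (tA α) (p.1.val g) - σ (iA α (α g)) p.2 - p.1.val (α g) +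
      σ (iA α (α g)) (p.2 + σ (tA α) (p.1.val h) - σ (iA α (α h)) p.2 - p.1.val (α h))
    have ht : σ (tA α) (σ (iA α g) (p.1.val h)) = σ (iA α (α g)) (σ (tA α) (p.1.val h)) := by
      rw [← ha_mul, ← ha_mul, ← tA_conj]
      congr 2
      group
    rw [hz g h, map_mul, hz (α g) (α h), map_mul, ha_mul, map_add, ht, map_sub, map_sub, map_add]
    abel⟩
  map_add' p q := by
    apply Subtype.ext
    funext g
    show (p.2 + q.2) + σ (tA α) (p.1.val g + q.1.val g) - σ (iA α (α g)) (p.2 + q.2) -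
      (p.1.val (α g) + q.1.val (α g)) =
      (p.2 + σ (tA α) (p.1.val g) - σ (iA α (α g)) p.2 - p.1.val (α g)) +
      (q.2 + σ (tA α) (q.1.val g) - σ (iA α (α g)) q.2 - q.1.val (α g))
    rw [map_add, map_add]
    abel
  map_smul' c p := by
    apply Subtype.ext
    funext g
    show c • p.2 + σ (tA α) (c • p.1.val g) - σ (iA α (α g)) (c • p.2) - c • p.1.val (α g) =
      c • (p.2 + σ (tA α) (p.1.val g) - σ (iA α (α g)) p.2 - p.1.val (α g))
    rw [map_smul, map_smul, smul_sub, smul_sub, smul_add]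

theorem ha_E_apply (σ : GA α →* Module.End k W) (p : ha_C σ (iA α) × W) (g : F) :
    (ha_E σ p).val g =
      p.2 + σ (tA α) (p.1.val g) - σ (iA α (α g)) p.2 - p.1.val (α g) := rfl

/-- the coboundaries -/
def ha_B (σ : GA α →* Module.End k W) : W →ₗ[k] (ha_C σ (iA α) × W) where
  toFun f := (⟨fun g => f - σ (iA α g) f, by
    intro g h
    show f - σ (iA α (g * h)) f = f - σ (iA α g) f + σ (iA α g) (f - σ (iA α h) f)
    rw [map_mul, ha_mul, map_sub]
    abel⟩, f - σ (tA α) f)
  map_add' f f' := by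
    apply Prod.ext
    · apply Subtype.ext
      funext g
      show (f + f') - σ (iA α g) (f + f') = (f - σ (iA α g) f) + (f' - σ (iA α g) f')
      rw [map_add]; abel
    · show (f + f') - σ (tA α) (f + f') = (f - σ (tA α) f) + (f' - σ (tA α) f')
      rw [map_add]; abel
  map_smul' c f := by
    apply Prod.ext
    · apply Subtype.ext
      funext g
      show c • f - σ (iA α g) (c • f) = c • (f - σ (iA α g) f)
      rw [map_smul, smul_sub]
    · show c • f - σ (tA α) (c • f) = c • (f - σ (tA α) f)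
      rw [map_smul, smul_sub]

theorem ha_not_surj (hα : α cc = cc) (σ : GA α →* Module.End k W) (lam : W →ₗ[k] k)
    (hc : ∀ x, lam (σ (iA α cc) x) = lam x) (ht : ∀ x, lam (σ (tA α) x) = lam x)
    (hn : ∃ g x, lam (σ g x) ≠ lam x) : LinearMap.range (ha_E σ) ≠ ⊤ := by
  intro hE
  obtain ⟨g0, x0', hgx⟩ := hn
  apply hgx
  -- all cocycles have `lam (D cc) = 0`
  have h0 : ∀ D ∈ ha_C σ ((iA α).comp α.toMonoidHom), lam (D cc) = 0 := by
    intro D hD
    obtain ⟨p, hp⟩ := LinearMap.range_eq_top.mp hE ⟨D, hD⟩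
    have h1 : D cc = (ha_E σ p).val cc := by rw [hp]
    rw [h1, ha_E_apply, hα, map_sub, map_sub, map_add, ht, hc]
    ring
  have h1 : ∀ a b : W, lam (a - σ (iA α (α (ga * gb⁻¹))) b - σ (iA α (α (ga * gb⁻¹ * ga⁻¹))) a +
      σ (iA α (α (ga * gb⁻¹ * ga⁻¹))) b) = 0 := by
    intro a b
    obtain ⟨D, hD, h2, h3⟩ := ha_exists σ ((iA α).comp α.toMonoidHom) a b
    have h4 := h0 D hD
    rw [ha_cc σ _ D hD, h2, h3] at h4
    exact h4
  have hp : iA α (α (ga * gb⁻¹ * ga⁻¹)) ∈ ha_S σ lam := by
    intro x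
    have h2 := h1 x 0
    rw [map_zero, map_zero, sub_zero, add_zero, map_sub] at h2
    exact (sub_eq_zero.mp h2).symm
  have hq : iA α (α (ga * gb⁻¹)) ∈ ha_S σ lam := by
    intro x
    have h2 := h1 0 x
    rw [map_zero, zero_sub, sub_zero, map_add, map_neg, hp x] at h2
    exact (neg_add_eq_zero.mp h2)
  have hA : iA α (α ga) ∈ ha_S σ lam := by
    have h2 := (ha_S σ lam).mul_mem ((ha_S σ lam).inv_mem hp) hq
    have h3 : (iA α (α (ga * gb⁻¹ * ga⁻¹)))⁻¹ * iA α (α (ga * gb⁻¹)) = iA α (α ga) := by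
      rw [← map_inv, ← map_inv, ← map_mul, ← map_mul]
      congr 2
      group
    rwa [h3] at h2
  have hB : iA α (α gb) ∈ ha_S σ lam := by
    have h2 := (ha_S σ lam).mul_mem ((ha_S σ lam).inv_mem hq) hA
    have h3 : (iA α (α (ga * gb⁻¹)))⁻¹ * iA α (α ga) = iA α (α gb) := by
      rw [← map_inv, ← map_inv, ← map_mul, ← map_mul]
      congr 2
      group
    rwa [h3] at h2
  have hF : ∀ w : F, iA α (α w) ∈ ha_S σ lam := by
    intro w
    have h2 : (⊤ : Subgroup F) ≤ (ha_S σ lam).comap ((iA α).comp α.toMonoidHom) := by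
      have h3 : (⊤ : Subgroup F) = Subgroup.closure (Set.range (FreeGroup.of : Fin 2 → F)) :=
        (FreeGroup.closure_range_of _).symm
      rw [h3, Subgroup.closure_le]
      rintro _ ⟨j, rfl⟩
      fin_cases j
      · exact hA
      · exact hB
    exact h2 (Subgroup.mem_top w)
  have hT : g0 ∈ ha_S σ lam := by
    obtain ⟨w, n, rfl⟩ := GA_cases α g0
    refine (ha_S σ lam).mul_mem ?_ ((ha_S σ lam).zpow_mem ht n)
    have := hF (α⁻¹ w)
    rwa [MulAut.apply_inv_self] at this
  exact hT x0'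

end

theorem p_ha : S_ha := by
  intro α hα k W _ _ _ _ σ lam hc ht hn
  have hE := ha_not_surj hα σ lam hc ht hn
  have e1 := ha_eqv σ (iA α)
  have e2 := ha_eqv σ ((iA α).comp α.toMonoidHom)
  have : FiniteDimensional k (ha_C σ (iA α)) := e1.symm.finiteDimensional
  have : FiniteDimensional k (ha_C σ ((iA α).comp α.toMonoidHom)) := e2.symm.finiteDimensional
  have d1 : Module.finrank k (ha_C σ (iA α) × W) = 3 * Module.finrank k W := by
    rw [Module.finrank_prod, e1.finrank_eq, Module.finrank_prod]; ring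
  have d2 : Module.finrank k (ha_C σ ((iA α).comp α.toMonoidHom)) = 2 * Module.finrank k W := by
    rw [e2.finrank_eq, Module.finrank_prod]; ring
  have d3 := LinearMap.finrank_range_add_finrank_ker (ha_E σ)
  have d4 : Module.finrank k (LinearMap.range (ha_E σ)) < 2 * Module.finrank k W := by
    rw [← d2]
    exact Submodule.finrank_lt hE
  have d5 : Module.finrank k (LinearMap.range (ha_B σ)) ≤ Module.finrank k W :=
    LinearMap.finrank_range_le _
  have d6 : ¬ LinearMap.ker (ha_E σ) ≤ LinearMap.range (ha_B σ) := by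
    intro h
    have := Submodule.finrank_mono h
    omega
  obtain ⟨⟨z, c⟩, hz, hnz⟩ := SetLike.not_le_iff_exists.mp d6
  have hz' : ∀ w, z.val (α w) + σ (iA α (α w)) c = c + σ (tA α) (z.val w) := by
    intro w
    have h1 : (ha_E σ (z, c)).val w = 0 := by
      rw [LinearMap.mem_ker.mp hz]; rfl
    rw [ha_E_apply] at h1
    have h2 : c + σ (tA α) (z.val w) - σ (iA α (α w)) c - z.val (α w) = 0 := h1
    rw [sub_sub, sub_eq_zero, add_comm (σ (iA α (α w)) c)] at h2
    exact h2.symm
  have hs : ∀ w, ha_th σ (iA α) z.val z.property (α w) =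
      (⟨Multiplicative.ofAdd c, tA α⟩ : ha_Q σ) * ha_th σ (iA α) z.val z.property w *
        (⟨Multiplicative.ofAdd c, tA α⟩ : ha_Q σ)⁻¹ := by
    intro w
    rw [eq_mul_inv_iff_mul_eq]
    apply SemidirectProduct.ext
    · show Multiplicative.ofAdd (z.val (α w)) * Multiplicative.ofAdd (σ (iA α (α w)) c) =
        Multiplicative.ofAdd c * Multiplicative.ofAdd (σ (tA α) (z.val w))
      rw [← ofAdd_add, ← ofAdd_add, hz']
    · show iA α (α w) * tA α = tA α * iA α w
      rw [← tA_conj]; group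
  let Θ : GA α →* ha_Q σ := liftA (ha_th σ (iA α) z.val z.property) ⟨Multiplicative.ofAdd c, tA α⟩ hs
  have hΘi : ∀ w, Θ (iA α w) = ⟨Multiplicative.ofAdd (z.val w), iA α w⟩ :=
    fun w => liftA_iA _ _ hs w
  have hΘt : Θ (tA α) = ⟨Multiplicative.ofAdd c, tA α⟩ := liftA_tA _ _ hs
  have hr : SemidirectProduct.rightHom.comp Θ = MonoidHom.id (GA α) := by
    apply homA_ext
    · intro w
      show (Θ (iA α w)).right = iA α w
      rw [hΘi]
    · show (Θ (tA α)).right = tA α
      rw [hΘt]
  have hr' : ∀ g, (Θ g).right = g := fun g => DFunLike.congr_fun hr g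
  refine ⟨fun g => Multiplicative.toAdd (Θ g).left, ?_, ?_⟩
  · intro g h
    show Multiplicative.toAdd (Θ (g * h)).left = Multiplicative.toAdd (Θ g).left +
      σ g (Multiplicative.toAdd (Θ h).left)
    rw [map_mul, SemidirectProduct.mul_left, ha_phi_apply, hr', toAdd_mul, toAdd_ofAdd]
  · rintro ⟨f, hf⟩
    apply hnz
    refine ⟨f, ?_⟩
    apply Prod.ext
    · apply Subtype.ext
      funext w
      show f - σ (iA α w) f = z.val w
      have := hf (iA α w)
      rw [← this]
      show Multiplicative.toAdd (Θ (iA α w)).left = z.val w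
      rw [hΘi, toAdd_ofAdd]
    · show f - σ (tA α) f = c
      have := hf (tA α)
      rw [← this]
      show Multiplicative.toAdd (Θ (tA α)).left = c
      rw [hΘt, toAdd_ofAdd]

end Pool.Agent.F8.PIC
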