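import Pool.Agent.Lib.MP_305fdd_al.F8.PIC.Defs
import Pool.Agent.Lib.MP_305fdd_al.F8.EG.Main
import Pool.Agent.Lib.MP_305fdd_al.F8.D1.G.Mat

/-!
# MP_305fdd_al, the Picard group `PSL₂(ℤ[i])` is profinitely rigid: the statements

THEOREM. The Picard group `PSL₂(ℤ[i])` is determined among the finitely generated residually finite groups by its
finite quotients.

The proof. (PSL) It is enough to do `GG = SL₂(ℤ[i])`. (U, Ex) A representation of `GG` over an algebraically closed field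
(`2 ≠ 0`) which is irreducible on `Γ₁(2 + i)` and has a non-trivial cocycle on `Γ₁(2 + i)` has the character of
one of the two standard representations `i ↦ w`, `i ↦ -w`; and these have such a cocycle. (TR) So a group `Λ` with
the same finite quotients has exactly two such characters, with values in `ℤ[i]`, congruent to the matched
characters. (E) There is `ρ : Λ → SL₂(ℤ[i])` with this character. (X) `ρ(Λ)` is dense in the congruence topology, and modulo
`4` `ρ` is the matched representation after a conjugation. (G5, H5) The subgroup `G5` of level `4` is `± (F₅ ⋊ ℤ)`, a subgroup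
of index `4` of the once-punctured torus bundle group `G1 = F ⋊ ℤ`, and `ρ(Λ) ∩ G5` has no epimorphism onto `S₃` with
the sign `(-1) ^ n`: the reason is that the matched group `G5` has none. (A) Hence `ρ(Λ) ∩ F` is finitely generated.
(INF) A finitely generated subgroup of `F` which is normalised by `w t ^ k` and has an element with nonzero exponents
has finite index. (HL, C) If the index of `ρ(Λ)` is finite and not one, then a congruence subgroup of `ρ(Λ)` has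
too many homomorphisms to `ℤ / p`. So `ρ` is onto, and then it is injective.

Every piece may use the statements named in its docstring (Uses ..) as hypotheses.
-/

set_option autoImplicit false

namespace Pool.Agent.F8.PIC

open Pool.Agent.MP_305fdd_al Pool.Agent.Lib.MP_305fdd_al Pool.Agent.F2X Pool.Agent.F8
  Pool.Agent.F8.HN Pool.Agent.F8.AB Pool.Agent.F8.D1
open Pool.Agent.F8.D1.PG (mL TP)
open scoped QuadraticAlgebra

noncomputable section

/-! ## PSL: from `PSL₂` to `SL₂` -/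

/-- [PIC prd] natural bijections for products with a finite group.

Proof. For `θ : G × B →* Q` put `Ψ θ (l, b) = Φ (θ ∘ inl) l * θ (1, b)`. It is a homomorphism because every element of the range of
`Φ (θ ∘ inl)` is in the range of `θ ∘ inl` (`NatBij.range_eq`), whose elements commute with `θ (1, b)`
(`MonoidHom.noncommCoprod` needs `Commute`). The inverse is the same construction with `Φ.symm`; `(Ψ θ) ∘ inl = Φ (θ ∘ inl)`.
Naturality: `Φ.nat`. -/
def S_prd : Prop := ∀ (G Λ B : Type) [Group G] [Group Λ] [Group B] [Finite B] (Φ : NatBij G Λ),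
  ∃ Ψ : NatBij (G × B) (Λ × B), ∀ (Q : Type) [Group Q] [Finite Q],
    (∀ θ : G →* Q, Ψ.toFun Q (θ.comp (MonoidHom.fst G B)) = (Φ.toFun Q θ).comp (MonoidHom.fst Λ B)) ∧
    ∀ β : B →* Q, Ψ.toFun Q (β.comp (MonoidHom.snd G B)) = β.comp (MonoidHom.snd Λ B)

/-- [PIC psl] from `SL₂` to `PSL₂`. (Uses `S_prd`.)

Proof. Let `P = SL2 O1 ⧸ pm O1` and let `Λ` be in the genus of `P`; `Φ : NatBij P Λ` (`exists_natBij`; `P` is finitely generated as a
quotient of `SL2 O1`, see `PG.SL_sub`). Let `B = SL2 (ZMod 5)`, `Q = B ⧸ pm (ZMod 5)`, `q : P →* Q` induced by `r5` (`QuotientGroup.map`),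
`q' = Φ q`. `G' = {(x, b) ∈ P × B | q x = pj b}`, `Λ' = {(l, b) ∈ Λ × B | q' l = pj b}`: both are `comap` of the subgroup
`{(x, y) | x = y}` of `Q × Q` under `(q ∘ fst).prod (pj ∘ snd)` and the corresponding homomorphism, so there is `NatBij G' Λ'`
(`S_prd`, `natBij_comap`/`natBij_sub`, `pair_prod`). `SL2 O1 ≅ G'` by `g ↦ (pj g, r5 g)`: injective (if `pj g = 1` and `r5 g = 1` then
`g = ± 1` and `g = 1` because `-1 ≠ 1` modulo `5`), onto (if `q (pj g) = pj b` then `b = ± r5 g = r5 (± g)`). So `Λ'` and `SL2 O1` have the same finite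
quotients (a `NatBij` preserves ranges, `NatBij.range_eq`), `Λ'` is residually finite and finitely generated (subgroup of
finite index of `Λ × B`), so there is an isomorphism `f : Λ' ≃* SL2 O1`. The kernel of the projection `Λ' → Λ`
(onto) is `{(1, b) | b = ± 1}`, of order two. An element `x ≠ 1` of `SL2 O1` with `x * x = 1` is `-1` (Cayley-Hamilton: `x + x⁻¹ = tr x`,
so `2 x = tr x`, `x` is scalar). So `f` maps the kernel to `pm O1` and `Λ ≅ Λ' ⧸ ker ≅ P`. -/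
def S_psl : Prop := ProfinitelyRigid GG → ProfinitelyRigid (SL2 O1 ⧸ pm O1)

/-! ## Ex: the presentation of `Γ₁(2 + i)` and its cocycle -/

/-- [PIC tab] the table. (Uses nothing; `PG.pres`.)

Adapt `D1/G/Table.lean`, `Gen.lean`, `End.lean` with the group `Q2 O1` (or any group `N` with `a, b, y` satisfying
`a b = b a`, `b z b z b = a y a`, `z = y⁻¹ a⁻¹ y⁻¹`) in place of `N2A kp1`: 12 cosets, representatives `x r_i = ± r_j h`. Representatives
(`a, b` = inverse of `A`, `U`; leftmost letter applied last): `1, B, L, AB, aB, UB, uB, LB, LAB, LaB, BUB, LUB` where here `a = A⁻¹`,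
`u = U⁻¹`. Tables (`x = A, U, B, L`; `j` for `i = 0..11`, then the words `h` in `t, u, y`, capital = inverse):
A: `0 3 2 6 1 4 5 9 7 11 8 10`; `t, 1, T, y, 1, y, UytyU, 1, 1, Y, Yu, YTYu`.
U: `0 5 2 4 6 3 1 10 11 8 9 7`; `u, 1, U, y, uYTYu, uYTYu, 1, U, UytyU, Y, Uyty, 1`.
B: `1 0 7 4 3 10 11 2 9 8 5 6`; `1, 1, 1, T, t, 1, U, 1, T, t, 1, u`.
L: `2 7 0 8 9 11 10 1 3 4 6 5`; `1, 1, 1, 1, 1, 1, U, 1, 1, 1, u, 1`.
Values in `Q2 O1`: `t ↦ (1, tt, 0)`, `u ↦ (1, uu, (-1 + 2 i, 0))`, `y ↦ (1, yy, (1 + i, 0))`. (Checked by computer: the relations `Rel` hold in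
`Perm (Fin 12 × Q2 O1)`; `decide +kernel` in an explicit model of `Q2 O1` as tuples of integers, as `omul` in `D1/G/Mat.lean`.)
`pres` gives `f : SL2 O1 →* Perm (Fin 12 × Q2 O1)`. As in `End.lean` (`TT`): for every `g`, `f g` commutes with right
multiplications, `± g r_i = r_j (mH c)` if `f g (i, 1) = (j, c)`, and `j` is determined by `r5 g` and `i`; `c` is in the subgroup `C` generated by the
three values, whose `mH` image is in `GP`. For `g ∈ GP`: `f g (0, 1) = (0, Θ g)`; `mH (Θ g) = ± g`, both in `GP`, so `= g` (`-1 ∉ GP`); `tH = 1`.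
First claim: a subgroup `H` with `tt, uu, yy ∈ H` contains `mH C`, so `GP ≤ H`. Last claim: `g = t y`, `h = u`:
`W (Θ (t y)) (Θ u) 0 = -1 + 2 i`. -/
def S_tab : Prop := (∀ H : Subgroup GG, tt ∈ H → uu ∈ H → yy ∈ H → GP ≤ H) ∧
  ∃ Θ : GP →* Q2 O1, Q2.mH.comp Θ = GP.subtype ∧ Q2.tH.comp Θ = 1 ∧
    ∃ g h : GP, Q2.W (Θ g) (Θ h) 0 = ⟨-1, 2⟩

/-! ## U: uniqueness -/

/-- [PIC nf] the normal form of a representation which is not abelian.

Proof. Write `L, B, T, U` for the images of `mL, mB, tt, uu`, `E = ρ (-1)`. In `SL2 O1`: `mL² = mB² = (mB mL)² = -1`, `(tt mL)² = (uu mL)² = -1`,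
`(tt mB)³ = -1`, `(uu mB mL)³ = 1`, `tt uu = uu tt` (all by `decide`). `E * E = 1`, `2 ≠ 0`, so `E = 1` or `E = -1` (`2 E = tr E`). If `E = 1` then `L² = B² = 1`, so `L, B = ± 1`,
and then `T² = 1`, `U² = 1`, so `T, U = ± 1` and `ρ` is abelian (`PG.SL_sub`), contradiction. So `E = -1`. `L² = -1`: `tr L = 0`; let `w² = -1`
(`w ≠ -w`), so `L` has eigenvectors for `w`, `-w`; in this basis `L = diag(w, -w)`, `B L = -L B` gives `B = [[0, b], [c, 0]]`, `b c = -1`; scale one basis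
vector: `B = [[0, -1], [1, 0]]`; scale both to have determinant one (`K` algebraically closed). `tr (T L) = 0`: `T = [[p, x], [y, p]]`; same for
`U = [[q, x'], [y', q]]`. `(T B)³ = -1`: `T B = -1` or `tr (T B) = x - y = 1`. `(U B L)³ = 1`: `B L = [[0, w], [w, 0]]`: `U B L = 1` or `tr (U B L) = w (x' + y') = -1`.
If `T B = -1`: `T = B`, `U` commutes with `B`: `x' = -y'`, `w (x' + y') = 0`, contradiction to both alternatives (`U B L = 1` has trace `2 ≠ 0`). If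
`U B L = 1`: `U = (B L)⁻¹ = -B L`, which commutes with `T`: `x = y`, contradiction to `x - y = 1`. So `x - y = 1`, `w (x' + y') = -1`, and `T U = U T` gives
`x y' = x' y`, so `(x', y') = λ (x, y)`. `s = x + y`, `λ w s = -1`, `λ = w / s`, `x = (s + 1) / 2`, `y = (s - 1) / 2`. The determinants give `e1`, `e2`. -/
def S_nf : Prop := ∀ (K : Type) [Field K] [IsAlgClosed K], (2 : K) ≠ 0 → ∀ ρ : GG →* SL2 K,
  Irr ρ → ∃ (C : SL2 K) (w s p q : K), NF ((MulAut.conj C).toMonoidHom.comp ρ) w s p q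

/-- [PIC std] the standard representations.

Proof. `s² = 1` by `e1`. `s = 1`: `T = [[1, 1], [0, 1]]`, `U = [[1, w], [0, 1]]`: `ρ = SLm (ev1 .. w)` on the generators, so everywhere
(`PG.SL_sub` for the equaliser). `s = -1`: `T = [[1, 0], [-1, 1]]`, `U = [[1, 0], [w, 1]]`; conjugation with `B` maps `[[a, b], [c, d]]` to `[[d, -c], [-b, a]]`, so
`B ρ B⁻¹ = SLm (ev1 .. (-w))`. -/
def S_std : Prop := ∀ (K : Type) [Field K], (2 : K) ≠ 0 → ∀ (ρ : GG →* SL2 K) (w s : K),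
  NF ρ w s 1 1 → ∃ (w' : K) (hw : w' * w' = -1), ∀ g, tr (ρ g) = ev1 (Int.castRingHom K) w' hw (tr g)

/-- [PIC alg] the equations.

Proof. Let `P = 1 - p`, `Q = 1 - q`. `e1, e2`: `4 P (P - 2) = s² - 1 = -4 s² Q (Q - 2)`. The last equation is `P (s - w) = w s Q (s + w)` (multiply with `s`; `w w = -1`:
`1 - w s = -w (s + w)`). If `P = 0`: `Q = 0` or `s = -w`; `s = -w` gives `s² = -1`, `e1`: `4 = 2`, contradiction. If `Q = 0`: `P = 0` or `s = w`, and the
latter gives `-4 = -2` in `e2`. If `P, Q ≠ 0`: `s ≠ ± w`; `P (P - 2) = -s² Q (Q - 2)` divided by `Q`, with `P = w s Q (s + w) / (s - w)`: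
`w (s + w) (P - 2) = -s (s - w) (Q - 2)`; so `w (s + w) P + s (s - w) Q = 2 (s² - 1)`; eliminate `P`: `Q s (-(s + w)² + (s - w)²) / (s - w) = 2 (s² - 1)`, so
`Q = w (s² - 1) (s - w) / (2 s²)`, `P = -(s + w) (s² - 1) / (2 s)`. `s² = 1` would give `P = 0`. `4 P (P - 2) = s² - 1` gives
`(s + w)² (s² - 1) + 4 s (s + w) = s²`, which is `(s² + w s + 1)² = 0`. So `s² = -w s - 1`, `1 / s = -(s + w)` and `p = (w s - 1) / 2`, `q = -w s / 2`. -/
def S_alg : Prop := ∀ (K : Type) [Field K], (2 : K) ≠ 0 → ∀ w s p q : K, w * w = -1 → s ≠ 0 →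
  4 * p ^ 2 = s ^ 2 + 3 → 4 * s ^ 2 * q ^ 2 = 3 * s ^ 2 + 1 →
  (1 - p) * (1 - w / s) + (1 - q) * (1 - w * s) = 0 →
  (p = 1 ∧ q = 1) ∨ (s ^ 2 + w * s + 1 = 0 ∧ 2 * p = w * s - 1 ∧ 2 * q = -(w * s))

/-- [PIC det] the determinant.

A computation with explicit matrices; certificates for `linear_combination` can be produced by the division
algorithm with the relations `w² = -1`, `s s' = 1`, `p² = (s² + 3) / 4`, `q² = (3 + s'²) / 4` (variables `w, s, s', p, q`, `s' = 1 / s`). `T, U` as in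
`NF`, `Y = B T² U B⁻¹`, `Z = Y T Y`, `D = T + (U Z⁻¹ + T Y T U⁻¹) (1 + Y T)`. -/
def S_det : Prop := ∀ (K : Type) [Field K], (2 : K) ≠ 0 → ∀ w s p q : K, w * w = -1 → s ≠ 0 →
  4 * p ^ 2 = s ^ 2 + 3 → 4 * s ^ 2 * q ^ 2 = 3 * s ^ 2 + 1 → ∀ T U B Y : SL2 K,
  T.val = !![p, (s + 1) / 2; (s - 1) / 2, p] →
  U.val = !![q, w / s * ((s + 1) / 2); w / s * ((s - 1) / 2), q] → B.val = !![0, -1; 1, 0] →
  Y = B * T * T * U * B⁻¹ →
  (T.val + (U.val * (Y * T * Y)⁻¹.val + T.val * Y.val * T.val * U⁻¹.val) *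
    (1 + Y.val * T.val)).det = 2 * ((1 - p) * (1 - w / s) + (1 - q) * (1 - w * s))

/-- [PIC coc] the representations with a cocycle. (Uses `S_tab`, `S_alg`, `S_det`.)

Proof. `T, U, Y` the images of `tt, uu, yy`; `yy = mB tt² uu mB⁻¹`, `uu z⁻¹ uu z⁻¹ uu = tt yy tt` with `z = yy tt yy` (`decide`). Suppose `(p, q) ≠ (1, 1)`. Let
`Θ : GP →* Q2 K` be as in `Ex1` (the translation parts `ζ g = (Θ g).v` satisfy `ζ (g h) = ζ g + ρ g ζ h`). `det (T - 1) = 2 - 2 p`, `det (U - 1) = 2 - 2 q`, so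
one of `T - 1`, `U - 1` is invertible; subtracting a coboundary (this does not change `Q2.W`: conjugate `Θ` with a translation) we
get `ζ tt = 0` or `ζ uu = 0` and then, as `(T - 1) ζ uu = (U - 1) ζ tt`, both. Let `η = ζ yy`. `ζ z = (1 + Y T) η`, `ζ z⁻¹ = -Z⁻¹ ζ z`, so the relation gives
`-(U Z⁻¹ + U Z⁻¹ U Z⁻¹) (1 + Y T) η = T η`, and `U Z⁻¹ U Z⁻¹ = T Y T U⁻¹`: `D η = 0` with `D` of `S_det`. If `det D ≠ 0` then `η = 0`, `ζ` is zero on the generators, so on `GP`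
(`S_tab`, first part, for the subgroup of the `g ∈ GP` with `ζ g = 0`), so all `W` are zero, contradiction to `NC`. If `det D = 0`: `S_alg`; in the second case
`T T U = 1` (entries: `q = 2 p² - 1`, `w / s = 1 - w s = -2 p`), so `Y = B T² U B⁻¹ = 1`, `U = T⁻²`, the image of `GP` is generated by `T`, abelian, and
`tr ρ [g, h] = 2` for `g, h ∈ GP`, contradiction to `Irr`. -/
def S_coc : Prop := ∀ (K : Type) [Field K], (2 : K) ≠ 0 → ∀ (ρ : GG →* SL2 K) (w s p q : K),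
  NF ρ w s p q → Pt GP ρ → p = 1 ∧ q = 1

/-- [PIC pf] functoriality of property P.

Proof. Field homomorphisms are injective; `Ex1`: `(Q2.map f).comp Θ`, `S_wm`-type statement for `Q2.W` (`P/wm.lean`); as `P/P2m.lean`. Third part:
conjugation with `C : SL2 K`: `Θ' g = c Θ g c⁻¹`, `c = ⟨1, C, 0⟩ : Q2 K`; `Q2.W` is multiplied with `C`. -/
def S_pf : Prop := (∀ (L : Type) [Group L] (P : Subgroup L) (K K' : Type) [Field K] [Field K']
    (f : K →+* K') (ρ : L →* SL2 K), Pt P ρ → Pt P ((SLm f).comp ρ)) ∧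
  (∀ (L : Type) [Group L] (P : Subgroup L) (K K' : Type) [Field K] [Field K'] (_ : K →+* K')
    (N : ℕ), GdP P K N → GdP P K' N) ∧
  ∀ (L : Type) [Group L] (P : Subgroup L) (K : Type) [Field K] (C : SL2 K) (ρ : L →* SL2 K),
    Pt P ρ → Pt P ((MulAut.conj C).toMonoidHom.comp ρ)

/-- [PIC g3] at most two characters. (Uses `S_nf`, `S_std`, `S_coc`, `S_pf`.)

Proof. By `S_pf` we may replace `k` by its algebraic closure `K`. For `i : Fin 3` `S_nf` (`Irr` of the restriction to `GP` implies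
`Irr`), `S_pf` (third part), `S_coc`, `S_std` give `w_i`, `w_i² = -1`, `tr (ρ_i g) = ev1 .. w_i (tr g)` (conjugation does not change the trace). Two of the
three `w_i` are equal (`w_i² = w_0²`, so `w_i = ± w_0`), then the two characters are equal. -/
def S_g3 : Prop := ∀ (k : Type) [Field k], (2 : k) ≠ 0 → ¬ GdP GP k 3

/-! ## TR: the transfer -/

/-- [PIC px] matching of property P.

Proof. `Ψ : NatBij GP (LP Φ)` from `natBij_comap`. `ρ i : Λ →* SL2 k` corresponds to `ρ' i = Φ.invFun _ (ρ i)`;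
`Ψ ((ρ' i).comp GP.subtype) = (ρ i).comp (LP Φ).subtype`. `Ex1`: `Ψ.invFun _ Θ` (as `S_exT` in `StmNT.lean`, `P/mt.lean`: `S_mt`), `Irr`: the same. Different
characters: `S_mp` (`P/mp.lean`) for the pair `ρ i`, `ρ j`. -/
def S_px : Prop := ∀ (Λ : Type) [Group Λ] (Φ : NatBij GG Λ) (k : Type) [Field k] [Finite k]
  (N : ℕ), GdP (LP Φ) k N → GdP GP k N

/-- [PIC sp] specialisation.

Proof. As `P/s2.lean` or `NG/T/P_spc.lean`, with `S_spt` (`StmNT.lean`; its proof is available: `NG/T` imports it, search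
`S_spt`). The finitely generated group `Λ × P` (`P` has finite index, `Subgroup.fg_of_index_ne_zero`); the set `T` of affine
representations: `(q0 (ρ i)) ∘ fst`, `Θ i ∘ snd`; the set `X` of elements: `2`, the `Q2.W` values of the witnesses of `NC`, `tr (ρ i [g, h]) - 2` for the witnesses of
`Irr`, `tr (ρ i g) - tr (ρ j g)` for the witnesses of the inequality of the characters. After the specialisation: `ρ'' i`, `Θ'' i` with
`mH ∘ Θ'' i = ρ'' i` on `P`, `tH = 1` (`R → K` is injective). -/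
def S_sp : Prop := ∀ (Λ : Type) [Group Λ] [Group.FG Λ] (P : Subgroup Λ), P.FiniteIndex →
  ∀ (K : Type) [Field K] [CharZero K] (N : ℕ), GdP P K N →
  (∃ (k : Type) (_ : Field k) (_ : Finite k), (2 : k) ≠ 0 ∧ GdP P k N) ∧
    GdP P (AlgebraicClosure ℚ) N

/-- [PIC lim] limits for `E1`. (As `P/lq.lean`.) -/
def S_lim : Prop := ∀ (R : Type) [CommRing R] (Rk : ℕ → Type) [∀ k, CommRing (Rk k)]
  (π : ∀ k, R →+* Rk k) (p : ∀ k, Rk (k + 1) →+* Rk k), IsLim R Rk π p →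
  IsLim (E1 R) (fun k => E1 (Rk k)) (fun k => E1m (π k)) (fun k => E1m (p k))

/-- [PIC dat] the `p`-adic representation. (Uses `S_tab`, `S_lim`, `S_lz`, `S_lh`.)

Proof. `r`: as `P/L2.lean`, the limit of `Φ.toFun _ (q0 (rd (p ^ k)))` (`E1m (tz p k)`, `E1m` of `E1m`). Let `Θ₀ : GP →* Q2 O1` be as in `S_tab`,
`Θ_k = (Q2.map (E1m (Int.castRingHom (ZMod (p ^ k))))).comp Θ₀`, `Ψ : NatBij GP (LP Φ)` (`natBij_comap`), `Θ' : LP Φ →* Q2 (E1 ℤ_p)` the limit of the `Ψ Θ_k`.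
`mH ∘ Θ' = r ∘ subtype` and `tH ∘ Θ' = 1` by the uniqueness of limits. Let `j : E1 ℤ_p →+* K`. `Θ = (Q2.map j).comp Θ'`. `NC`: let `g, h` be as in `S_tab`,
`k = 2`: there are `l, l'` with `Ψ Θ_2 l = Θ_2 g`, `Ψ Θ_2 l' = Θ_2 h` (`range_eq`), so `x = W (Θ' l) (Θ' l') 0` is congruent to `-1 + 2 i` modulo `p ^ 2`, its
norm `re² + im²` to `5`, not `0` modulo `p ^ 2`. A `z : E1 ℤ_p` with `z.re ^ 2 + z.im ^ 2 ≠ 0` is not in the kernel of `j`: `z * cj z` is this element of `ℤ_p`, and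
`j` is injective on `ℤ_p` (`S_nz`, its proof in `P/nz.lean`). `Irr`: the same with `g = tt`, `h = yy` (in `GP`), `tr [tt, yy] - 2 = (2 + i)²`, norm
`25`, `k = 3`. `ne`: `g ∈ GG` with trace `i` (`uu * mB`), `k = 1`: `l` with `r l` congruent to `g` modulo `p`: `im (tr (r l))` is congruent to `1`. -/
def S_dat : Prop := ∀ (Λ : Type) [Group Λ] (Φ : NatBij GG Λ) (p : ℕ) [Fact p.Prime],
  ∃ r : Λ →* SL2 (E1 ℤ_[p]), DatP Φ p r

/-- [PIC d4] sum and product of the two characters are integers. (Uses `S_pf`, `S_gal`, `S_int`.)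

Proof. As `P/D2.lean`, `P/D3.lean`, `P/D4.lean` (there `P2`, here `Pt (LP Φ)`; `hu` is `S_u2`). Two `p`-adic representations: `SLm j₁ ∘ r`, `SLm j₂ ∘ r` with
`j₁ = ev1 (iz p) w`, `j₂ = ev1 (iz p) (-w)`, `w ∈ Fl p` a root of `w² = -1`; their characters are different by `DatP.ne`; the sum and the product are
`iz p (2 re)`, `iz p (re² + im²)`. -/
def S_d4 : Prop := ∀ (Λ : Type) [Group Λ] [Group.FG Λ] (Φ : NatBij GG Λ),
  (∀ (K : Type) [Field K] [CharZero K], ¬ GdP (LP Φ) K 3) →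
  (∀ (p : ℕ) [Fact p.Prime], ∃ r : Λ →* SL2 (E1 ℤ_[p]), DatP Φ p r) →
  ∀ s₁ s₂ : Λ →* SL2 (AlgebraicClosure ℚ), Pt (LP Φ) s₁ → Pt (LP Φ) s₂ →
  (∃ g, tr (s₁ g) ≠ tr (s₂ g)) →
  ∀ l : Λ, ∃ S P : ℤ, tr (s₁ l) + tr (s₂ l) = (S : AlgebraicClosure ℚ) ∧
    tr (s₁ l) * tr (s₂ l) = (P : AlgebraicClosure ℚ) ∧
    ∀ (p : ℕ) [Fact p.Prime] (r : Λ →* SL2 (E1 ℤ_[p])), DatP Φ p r →
      (S : ℤ_[p]) = 2 * (tr (r l)).re ∧
      (P : ℤ_[p]) = (tr (r l)).re ^ 2 + (tr (r l)).im ^ 2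

/-- [PIC sq] a local-global principle for squares.

Proof. `p = 2`: `4 ∣ D`, `D = -4 N`, `N = y²` in `ℤ_p` for all `p`. As `P/sq.lean`. -/
def S_sq1 : Prop := ∀ D : ℤ, (∀ (p : ℕ) [Fact p.Prime], ∃ y : ℤ_[p], (D : ℤ_[p]) = -4 * (y * y)) →
  ∃ m : ℤ, D = -4 * (m * m)

/-- [PIC d5] one value.

Proof. `(2 c - S)² = S² - 4 P = -4 m² = (2 m w)²`, so `2 c - S = ± 2 m w`. `S` is even (`S² = 4 P - 4 m²`). `T = ⟨S / 2, ± m⟩`. -/
def S_d5 : Prop := ∀ (K : Type) [Field K] [CharZero K] (w : K) (hw : w * w = -1) (c c' : K)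
  (S P m : ℤ), c + c' = S → c * c' = P → S * S - 4 * P = -4 * (m * m) →
  ∃ T : O1, c = ev1 (Int.castRingHom K) w hw T ∧ c' = ev1 (Int.castRingHom K) w hw (cj ℤ T)

/-- [PIC d6] comparison with the `p`-adic character. (Uses `S_pf`. As `P/D6.lean`, with the two `p`-adic representations of
`S_d4`.) -/
def S_d6 : Prop := ∀ (Λ : Type) [Group Λ] [Group.FG Λ] (Φ : NatBij GG Λ),
  (∀ (K : Type) [Field K] [CharZero K], ¬ GdP (LP Φ) K 3) →
  ∀ s₁ s₂ : Λ →* SL2 (AlgebraicClosure ℚ), Pt (LP Φ) s₁ → Pt (LP Φ) s₂ →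
  (∃ g, tr (s₁ g) ≠ tr (s₂ g)) →
  ∀ (w : AlgebraicClosure ℚ) (hw : w * w = -1) (T : Λ → O1),
  (∀ g, tr (s₁ g) = ev1 (Int.castRingHom _) w hw (T g) ∧
    tr (s₂ g) = ev1 (Int.castRingHom _) w hw (cj ℤ (T g))) →
  ∀ (p : ℕ) [Fact p.Prime] (r : Λ →* SL2 (E1 ℤ_[p])), DatP Φ p r →
  (∀ g, tr (r g) = E1m (Int.castRingHom ℤ_[p]) (T g)) ∨
    (∀ g, tr (r g) = E1m (Int.castRingHom ℤ_[p]) (cj ℤ (T g)))

/-- [PIC out] MAIN RESULT of the transfer. (Uses `S_pf`, `S_g3`, `S_px`, `S_sp`, `S_dat`, `S_d4`, `S_sq1`, `S_d5`, `S_d6`.)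

Proof. `¬ GdP (LP Φ) K 3` in characteristic zero: `S_sp`, `S_px`, `S_g3` (`(LP Φ).FiniteIndex`: it contains the kernel of a homomorphism
to a finite group). `S_dat` for `p = 2` and the two roots give `GdP (LP Φ) (Fl 2) 2`, so `GdP (LP Φ) (AlgebraicClosure ℚ) 2`. Then as the end of
`StmD.lean` (`S_D`, proof: `P/end.lean` or search `S_D`). -/
def S_out : Prop := ∀ (Λ : Type) [Group Λ] [Group.FG Λ] (Φ : NatBij GG Λ),
  ∃ (T : Λ → O1) (s : Λ →* SL2 (AlgebraicClosure ℚ)) (w : AlgebraicClosure ℚ) (hw : w * w = -1),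
    OutP Φ T s w hw

/-! ## E, X: the representation over `ℤ[i]` -/

/-- [PIC sig] the reductions modulo all `m`.

Proof. `Nat.recOnPosPrimePosCoprime` (or `Nat.recOnPrimeCoprime`): for `m = p ^ k` `e = 1` or `e = -1` (`OutP.red`, `cj`). For `m = a b`, `a, b` coprime, `e` with
`e = e_a` modulo `a`, `e = e_b` modulo `b` (`ZMod.chineseRemainder`); the reductions of `rd (a b)` modulo `a` is `rd a` (naturality of `Φ` for
`SLm (E1m (ZMod.castHom ..))`), and an element of `ZMod (a b)` is determined by its images in `ZMod a`, `ZMod b`. -/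
def S_sig : Prop := ∀ (Λ : Type) [Group Λ] (Φ : NatBij GG Λ) (T : Λ → O1)
  (s : Λ →* SL2 (AlgebraicClosure ℚ)) (w : AlgebraicClosure ℚ) (hw : w * w = -1),
  OutP Φ T s w hw → ∀ (m : ℕ) [NeZero m], ∃ (e : ZMod m) (he : e * e = 1), ∀ l,
    E1m (Int.castRingHom (ZMod m)) (T l) = sge e he (tr (Φ.toFun _ (rd m) l))

/-- [PIC E] from characters to matrices. (Uses `S_sig`.)

Proof. `EG.E_gen leg1 dvd_n1 j hj s T ..` as in `D1/E/Main.lean`; `Loc T`: for `m > 0` the ring `E1 (ZMod m)`, the representation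
`SLm (sge e he) ∘ Φ (rd m)`. `j = ev1 .. w` is injective (`ev1 z = 0` implies `re² + im² = 0`). -/
def S_E : Prop := ∀ (Λ : Type) [Group Λ] (Φ : NatBij GG Λ) (T : Λ → O1)
  (s : Λ →* SL2 (AlgebraicClosure ℚ)) (w : AlgebraicClosure ℚ) (hw : w * w = -1),
  OutP Φ T s w hw → ∃ ρ : Λ →* GG, ∀ l, tr (ρ l) = T l

/-- [PIC gr] the trace form.

Proof. Let `D` be the determinant of the `4 × 4` matrix with the rows (coordinates of) `1, x, y, x y`. Polynomial identity (with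
`det x = det y = 1`): `D = ± ((tr x)² + (tr y)² + (tr x y)² - tr x tr y tr x y - 4) = ± 1`. The four equations say that this matrix times the
vector of the entries of `N` (transposed) is zero; multiply with the adjugate (cofactors as coefficients of
`linear_combination`). -/
def S_gr : Prop := ∀ (R : Type) [CommRing R] (x y : SL2 R), tr x = 2 → tr y = 2 → tr (x * y) = 3 →
  ∀ N : Matrix (Fin 2) (Fin 2) R, N.trace = 0 → (N * x.val).trace = 0 → (N * y.val).trace = 0 →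
  (N * (x * y).val).trace = 0 → N = 0

/-- [PIC X1] the congruence kernels. (Uses `S_gr`, `S_sig`.)

Proof. `r = Φ (rd m)`, `r' = rd m ∘ ρ`, `tr (r' l) = sge e (tr (r l))`. `l₁, l₂` with `r l₁ = [[1, 1], [0, 1]]`, `r l₂ = [[1, 0], [1, 1]]` (`range_eq`); the traces at
`l₁, l₂, l₁ l₂` are `2, 2, 3`, for `r` and for `r'`. If `r l = 1` then `tr ((r' l - 1) r' l') = sge e (tr (r (l l')) - tr (r l')) = 0`, for all `l'`; `S_gr` with
`x = r' l₁`, `y = r' l₂`, `N = r' l - 1`. The converse is the same (`sge_sge`). Second part: both kernels are equal, so the images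
of `r` and `r'` have the same number of elements, the index of the kernel; the image of `r` is the range of `rd m` (`range_eq`), which contains
the image of `r'`, everything is finite. -/
def S_X1 : Prop := ∀ (Λ : Type) [Group Λ] (Φ : NatBij GG Λ) (T : Λ → O1)
  (s : Λ →* SL2 (AlgebraicClosure ℚ)) (w : AlgebraicClosure ℚ) (hw : w * w = -1),
  OutP Φ T s w hw → ∀ ρ : Λ →* GG, (∀ l, tr (ρ l) = T l) →
  (∀ (m : ℕ) [NeZero m] (l : Λ), rd m (ρ l) = 1 ↔ Φ.toFun _ (rd m) l = 1) ∧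
    ∀ (m : ℕ) [NeZero m] (g : GG), ∃ l, rd m (ρ l) = rd m g

/-- [PIC X3] two representations modulo `4` with the same character are conjugate. (Uses `S_gr`.)

Proof. `R = E1 (ZMod 4)` is a local ring: `res : R → ZMod 2`, `⟨x, y⟩ ↦ x + y`, is a homomorphism, `z` is a unit iff `res z = 1`. Let `x' = r' l₁`, `b' = r' l₂`,
`N = x' - 1`: `det N = 2 - tr x' = 0`, `N² = tr N N = 0`, `N b' N = tr (N b') N` (identity for `2 × 2` matrices with `det N = 0`), `tr (N b') = tr (r (l₁ l₂)) - tr (r l₂) =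
tr (mU 1 * mB) - tr mB = 1`. So `N b' N = N` and some entry of `N` is a unit (`res (tr (N b')) = 1`); let `v` be the column of `N` with this entry, so `N v = 0`,
`N b' v = v`. `C = (v, b' v)` (columns): `x' v = v`, `x' b' v = b' v + v`, `b' b' v = -v` (`tr b' = 0`), so `C e = x' C` for `e = mU 1`, `C mB = b' C`. `det C` is a unit:
otherwise `res` of it is zero, and `C` modulo `res` has a kernel vector; as `res v ≠ 0` we get `b' v = c v` modulo `res`, and `v = N b' v = c N v = 0`. Now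
`C⁻¹ r' C` and `r` are equal at `l₁`, `l₂` and have the same character; `y₁ = mU 1`, `y₂ = [[1, 0], [1, 1]]` (a word in `mU 1`, `mB`) have traces
`2, 2, 3`: `S_gr` with `N = C⁻¹ r' l C - r l` shows equality (`tr (N r l') = 0` for `l'` in the group generated by `l₁, l₂`). -/
def S_X3 : Prop := ∀ (Λ : Type) [Group Λ] (r r' : Λ →* SL2 (E1 (ZMod 4))),
  (∀ l, tr (r' l) = tr (r l)) → (∃ l, r l = mU 1) → (∃ l, r l = mB _) →
  ∃ C D : Matrix (Fin 2) (Fin 2) (E1 (ZMod 4)), C * D = 1 ∧ D * C = 1 ∧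
    ∀ l, (r l).val = C * (r' l).val * D

/-- [PIC X4] lifting of the conjugation.

Proof. `det C` is a unit of `E1 (ZMod 4)`, so it is `i ^ k` or `(1 + 2 i) i ^ k` (`decide`). First case: `C = diag(i ^ k, 1) C₁` with `det C₁ = 1`; `C₁` is the reduction of
some `γ₁ ∈ GG`: reduction modulo `4` is onto (`SL₂` of the local ring `E1 (ZMod 4)` is generated by elementary matrices: if the
entry `a` is a unit `[[a, b], [c, d]] = [[1, 0], [c / a, 1]] diag(a, 1 / a) [[1, b / a], [0, 1]]`, `diag(a, 1 / a)` is a product of four elementary matrices; otherwise multiply with `mB`).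
`ρ₁ l = diag(i ^ k, 1) γ₁ ρ l (..)⁻¹`, again in `SL₂(ℤ[i])`, and `rd 4 (ρ₁ l) = C (rd 4 (ρ l)) D = r l`. Second case: `C = diag(1 + 2 i, 1) C'` with
`det C' = i ^ k`: apply the first case to `C'` and `r'' l = C' (rd 4 (ρ l)) C'⁻¹`; `r l = dl (r'' l)`, and `dl (dl x) = x`. -/
def S_X4 : Prop := ∀ (Λ : Type) [Group Λ] (ρ : Λ →* GG) (r : Λ →* SL2 (E1 (ZMod 4)))
  (C D : Matrix (Fin 2) (Fin 2) (E1 (ZMod 4))), C * D = 1 → D * C = 1 →
  (∀ l, (r l).val = C * (rd 4 (ρ l)).val * D) →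
  ∃ ρ₁ : Λ →* GG, (∀ l, tr (ρ₁ l) = tr (ρ l)) ∧
    ((∀ l, rd 4 (ρ₁ l) = r l) ∨ ∀ l, rd 4 (ρ₁ l) = dl (r l))

/-! ## G5: the subgroup `G5` and the punctured torus bundle group -/

/-- [PIC f5] generators of the subgroup of `F` of the elements with even exponents.

Proof. Let `K` be a subgroup containing the five elements. Every `w : F` is in `K r` for some `r ∈ {1, u, v, u v}`: the set of the
`z` with `⋃ K r z = ⋃ K r` is a subgroup containing `u`, `v`: `u u = y₁`, `v u = y₃ u v`, `u v u = y₅ v`, `v v = y₂`, `u v v = y₄ u` (`y₁, .., y₅` in the order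
of the statement), and the same for right multiplication with `u⁻¹`, `v⁻¹`. (As `K0_four` in `D1/G/End.lean`.) If `w` has even exponents then `r = 1`. -/
def S_f5 : Prop := ∀ K : Subgroup F, ga * ga ∈ K → gb * gb ∈ K → gb * ga * gb⁻¹ * ga⁻¹ ∈ K →
  ga * gb * gb * ga⁻¹ ∈ K → ga * gb * ga * gb⁻¹ ∈ K →
  ∀ w : F, Even (vec w 0) → Even (vec w 1) → w ∈ K

/-- [PIC e1] the matrices of the elements with even exponents. (Uses `S_f5`.)

`TP X M` (`D1/G/Mat.lean`) says `M = [[a, f b], [c / f, d]]` for `X = [[a, b], [c, d]]`. The set of the `(w, n)` with the property is closed under products and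
inverses (`TP` is multiplicative: `TP_iff`; `A5` is a subgroup; the three labels are additive on elements with even exponents:
`vec (w (al1 ^ n) w') = vec w + vec w'` modulo `4`, because `al1` acts trivially modulo `2`; on matrices in `A5`: `c'' = c + c'` and
`re b'' = re b + re b'` modulo `2`), so by `S_f5` it is enough to check the six generators (`X` for
`u u`: `[[1, 1 - i], [-2, -1 + 2 i]]`; `v v`: `[[-1 + 2 i, 2], [-2 - 2 i, -1 + 2 i]]`; `v u v⁻¹ u⁻¹`: `[[-1 + 4 i, -2 + 2 i], [-4 - 4 i, -1 - 4 i]]`;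
`u v v u⁻¹`: `[[-1 - 2 i, 2 - 4 i], [2 + 2 i, -1 + 6 i]]`; `u v u v⁻¹`: `[[3 + 4 i, -1 + i], [-6 - 4 i, 1 - 2 i]]`; `t`: `[[1, -1 + i], [0, 1]]`, up to sign; `Mw`, `qw` in `D1/G/Gen.lean` compute
the matrices). -/
def S_e1 : Prop := ∀ (w : F) (n : ℤ), Even (vec w 0) → Even (vec w 1) → ∃ X ∈ G5,
  (TP X (rz (iA al1 w * tA al1 ^ n)) ∨
    TP X (-rz (iA al1 w * tA al1 ^ n))) ∧
  ((vec w 0 : ℤ) : ZMod 4) = (((X.val 1 0).re + (X.val 1 0).im : ℤ) : ZMod 4) ∧
  ((vec w 1 : ℤ) : ZMod 4) = (((X.val 1 0).im : ℤ) : ZMod 4) ∧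
  ((2 * n : ℤ) : ZMod 4) = (((X.val 1 0).re + (X.val 1 0).im + 2 * (X.val 0 1).re : ℤ) : ZMod 4)

/-- [PIC e2] every element of `G5` is such a matrix. (Uses `S_e1`.)

Proof. Let `X ∈ G5`, `M = [[a, f b], [f c', d]]`, `c = (1 + i) c'` (so `TP X M`). `M` is of type zero and preserves `x² - y²` modulo `f⁶ = (1 + i)³` (`PG.NQ_of`):
`a² = 1`, `d² = 1` modulo `4`, `b` and `c'` are divisible by `1 + i`. By `PG.ex_zero` there is `z : N2A kp1` with `Th1 z = pj Z1 M`. `K_cases`: `z = iK g` or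
`z = iK g * k`. The types (`chf 1`, `che 1`-like: apply `tw (sf ℤ)`, `SLm (se ℤ)` to `± rho1 g = M`): in the first case `g = (w, n)` with even exponents. In the
second case `g = (w, n)` with odd exponents (`k` has `f`-type one, `e`-type zero); then `g k = g' (u v k)`, `g' = (w', n)` with `w' = w (v⁻¹ u⁻¹) ..` of even exponents
(move `u v` through `t ^ n`), so by `S_e1` there is `X' ∈ G5` for `g'`, and `X'⁻¹ X ∈ G5` is the matrix of `u v k` up to sign; but it is not in `G5`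
(compute it: `PG.ck3` gives `u v k` as a word in `A, U, B`; `ow`). -/
def S_e2 : Prop := ∀ X ∈ G5, ∃ (w : F) (n : ℤ), Even (vec w 0) ∧ Even (vec w 1) ∧
  (TP X (rz (iA al1 w * tA al1 ^ n)) ∨
    TP X (-rz (iA al1 w * tA al1 ^ n)))

/-- [PIC eta] the homomorphism `G5 → G1`. (Uses `S_e1`, `S_e2`; `PG.Th_injective`.)

Proof. `η X = iA w * tA ^ n` for `w, n` from `S_e2` (choice); it is determined by `X` up to sign because `Th1` is injective and `Th1 (iK g) = pj (rho1 g)`, and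
it is multiplicative (`TP_iff`). `ker`: `η X = 1`: `TP X (± 1)`, `X = ± 1` (as in `Th_inj`). `sur`, `lab` from `S_e1` (the `X` of `S_e1` is `± ` the given one; the labels
do not change under `X ↦ -X` because `c` and `2 re b` are even, and `4 = 0`). `par`: the set of the `g : G1` such that `rho1 g` has lower left entry zero is a
subgroup containing `tA` (`mt1`) and `iA cc`: `rF1 cc` is upper triangular (compute; it commutes with `mt1`, `al1_cc`). `TP.c`: `c1 (X 1 0) = ff * 0`. -/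
def S_eta : Prop := ∃ η : G5 →* G1, Eta η

/-- [PIC n3] no cocycle modulo `3` on `G5`. (Uses `S_f5`.)

Proof. `κ x` has matrix part `1`, scalar part `± 1`. `κ (-1)` commutes with `κ x`, `x` with odd `n`: `κ (-1) = (1, 1, v)` and `-v = v`, so `v = 0`. So `κ` depends only on
`η x` (kernel `± 1`): let `f w ∈ (ZMod 3)²` be the translation part of `κ` at `η x = iA w`, `w` with even exponents; a homomorphism, `f (al1 w) = -f w` (conjugate with
`x₀`, `η x₀ = tA`). With `y₁, .., y₅` of `S_f5`, in `F`: `al1 y₁ = y₄⁻¹ y₅ y₃ y₅ y₁ y₁ y₂⁻¹ y₃ y₅ y₃ y₁ y₁`, `al1 y₂ = y₄⁻¹ y₅ y₃ y₅ y₃ y₁ y₁`, `al1 y₃ = y₄⁻¹ y₅ y₃ y₅ y₃ y₅⁻¹ y₃⁻¹ y₅⁻¹ y₄`,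
`al1 y₄ = y₄⁻¹ y₅ y₃ y₅ y₁ y₁ y₂⁻¹ y₃ y₄`, `al1 y₅ = y₄⁻¹ y₅ y₃ y₅ y₁ y₁ y₂⁻¹ y₃ y₅ y₃ y₅ y₁` (check with `group`). So with `f_i = f y_i` modulo `3`: `f₃ = 0`,
`-f₁ - f₂ - f₄ = 0`, `-f₁ + f₂ - f₄ - f₅ = 0`, `-f₁ - f₂ + f₄ - f₅ = 0`, `-f₂ - f₄ - f₅ = 0`, so all `f_i = 0` and `f = 0` (`S_f5`). For `x` with `(κ x).t = 1`: `n` is even, `η x = iA w * tA ^ n =
η (x₁ x₀ ^ n)`, `κ x = κ (x₀) ^ n = 1` because `κ(x₀)² = 1`. -/
def S_n3 : Prop := ∀ η : G5 →* G1, Eta η → ∀ κ : G5 →* Q2 (ZMod 3), Q2.mH.comp κ = 1 →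
  (∀ x, (κ x).t = sn (η x)) → ∀ x, (κ x).t = 1 → κ x = 1

/-- [PIC h5] the subgroup `H5`, first properties.

Proof. `l ∈ L5 Φ ↔ ρ l ∈ G5` (`Rho.four`; `A5` is invariant under `dl`: `s4 (⟨1, 2⟩ * b) = s4 b` if `2 * s4 b = 0`, `⟨1, 2⟩ * c = c` if `2 c = 0`). `fg`: `H5` is the image of `L5 Φ`, a
subgroup of finite index of the finitely generated `Λ`. `ev`: `Eta.lab` and `c` even (`A5`). `odd`, `lab`: for every `x₀ ∈ G5` there is `l` with `rd 4 (ρ l) = rd 4 x₀`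
(`Rho.img`), so `ρ l ∈ G5` and by `Eta.lab` the labels of `η (ρ l)` are those of `η x₀`; take `η x₀ = tA` and `η x₀ = iA (ga * ga)` (`Eta.sur`). -/
def S_h5 : Prop := ∀ (Λ : Type) [Group Λ] [Group.FG Λ] (Φ : NatBij GG Λ) (ρ : Λ →* GG),
  Rho Φ ρ → ∀ η : G5 →* G1, Eta η → (∀ l, l ∈ L5 Φ ↔ ρ l ∈ G5) ∧ (H5 ρ η).FG ∧
  (∀ (w : F) (n : ℤ), iA al1 w * tA al1 ^ n ∈ H5 ρ η → Even (vec w 0) ∧ Even (vec w 1)) ∧
  (∃ x ∈ H5 ρ η, Odd (Multiplicative.toAdd (nA al1 x))) ∧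
  ∃ (w : F) (n : ℤ), iA al1 w * tA al1 ^ n ∈ H5 ρ η ∧ Even n ∧ (4 : ℤ) ∣ vec w 0 - 2

/-- [PIC m3] no cocycle modulo `3` on `H5`. (Uses `S_n3`.)

Proof. Let `f` be given, `κ : L5 Φ →* Q2 (ZMod 3)`, `κ l = ⟨sn (η (ρ l)), 1, ![f (η (ρ l)), 0]⟩`. `Ψ : NatBij G5 (L5 Φ)` from `natBij_comap`, `κ' = Ψ.invFun _ κ`. `mH ∘ κ' = 1` (naturality).
Scalar part: the function `λ` on `A5`, `λ g = 1` if `c.re + c.im + 2 b.re = 0`, `-1` otherwise, is a homomorphism to `(ZMod 3)ˣ`, `λ (dl g) = λ g`, and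
`sn (η x) = λ (rd 4 x)` by `Eta.lab` for all `x : G5`; so `tH ∘ κ = λ ∘ (Φ (rd 4)) = Ψ (λ ∘ rd 4)` and `(κ' x).t = sn (η x)`. By `S_n3` `(κ' x).t = 1` implies `κ' x = 1`. For `l` with
`nA (η (ρ l)) = 1`: `κ l = κ' x` for some `x` (`range_eq`), `(κ l).t = 1`, so `κ l = 1`, `f = 0`. -/
def S_m3 : Prop := ∀ (Λ : Type) [Group Λ] (Φ : NatBij GG Λ) (ρ : Λ →* GG), Rho Φ ρ →
  ∀ η : G5 →* G1, Eta η → (∀ l, l ∈ L5 Φ ↔ ρ l ∈ G5) →
  ∀ f : H5 ρ η → ZMod 3, (∀ x y : H5 ρ η, f (x * y) = f x + (sn x).val * f y) →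
  ∀ x : H5 ρ η, nA al1 x = 1 → f x = 0

/-! ## A: finite generation -/

/-- [PIC frm] a finiteness criterion for modules.

Proof. Let `A = B →₀ ℤ`, `R` the commutative subring of `Module.End ℤ A` generated by `τ`, `τ⁻¹` (`Algebra.adjoin`, `Algebra.adjoinCommRingOfComm`), or `R = MvPolynomial (Fin 2) ℤ` or
`LaurentPolynomial ℤ` acting on `A`. `A` is a finitely generated `R`-module. Let `I = (3, τ + 1)`. `A = I A`: otherwise `A ⧸ I A` is a nonzero vector space over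
`ZMod 3` and has a nonzero functional, which gives `f : A →+ ZMod 3`, `f (τ x) = -f x`, `f ≠ 0`. By Nakayama (`Submodule.exists_sub_one_mem_and_smul_eq_zero_of_fg_of_le_smul`)
there is `r ∈ 1 + I` with `r A = 0`. Write `r = ∑ r_j τ ^ j`, multiply with a power of `τ`: a polynomial `G ∈ ℤ[X]` with `G(τ) = 0` on `A` and `G(-1)` not divisible by `3`, so
`G ≠ 0`; dividing by a power of `X` (`A` is torsion free, `τ` invertible) `G(0) ≠ 0`. So for every `j : ℤ` a nonzero multiple of `τ ^ j x` is in the span of the `τ ^ i x`,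
`0 ≤ i < deg G`, and for every `a ∈ A` a nonzero multiple is in the finitely generated subgroup `A'` spanned by the `τ ^ i x`, `x ∈ S`, `0 ≤ i < deg G`. So the `ℚ`-vector space
`B →₀ ℚ` is finite-dimensional, `B` is finite. -/
def S_frm : Prop := ∀ (B : Type) (τ : (B →₀ ℤ) ≃+ (B →₀ ℤ)) (S : Finset (B →₀ ℤ)),
  (∀ K : AddSubgroup (B →₀ ℤ), (∀ x ∈ S, x ∈ K) → (∀ x ∈ K, τ x ∈ K ∧ τ.symm x ∈ K) → K = ⊤) →
  (∀ f : (B →₀ ℤ) →+ ZMod 3, (∀ x, f (τ x) = -f x) → f = 0) → Finite B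

/-- [PIC frg] a finiteness criterion for free groups. (Uses `S_frm`.)

Proof. `P ≅ FreeGroup B`; the abelianisation of `P` is `B →₀ ℤ` (`FreeAbelianGroup.equivFinsupp`, `FreeAbelianGroup` is the abelianisation of `FreeGroup`), `τ` induces an automorphism of
it. The hypotheses of `S_frm` hold (preimages in `P`), so `B` is finite and `P` is finitely generated. -/
def S_frg : Prop := ∀ (P : Type) [Group P], IsFreeGroup P → ∀ (τ : P ≃* P) (S : Finset P),
  (∀ K : Subgroup P, (∀ x ∈ S, x ∈ K) → (∀ x ∈ K, τ x ∈ K ∧ τ.symm x ∈ K) → K = ⊤) →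
  (∀ f : P →* Multiplicative (ZMod 3), (∀ x, f (τ x) = (f x)⁻¹) → f = 1) → Group.FG P

/-- [PIC afg] the intersection with `F` is finitely generated. (Uses `S_frg`.)

Proof. `P = H.comap (iA al1)`, a free group (`subgroupIsFreeOfIsFree`). `nA` maps `H` onto the multiples of some `k ≥ 1`, `k` is odd (`Hyp5.odd`). Let `h ∈ H` with `n = k`, `h = iA w * tA ^ k`,
`τ x = w * (al1 ^ k) x * w⁻¹` (conjugation with `h`), an automorphism of `P`. `H` is generated by finitely many `s_j = iA p_j * h ^ m_j` (`p_j ∈ P`), and the subgroup generated by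
the `τ ^ i p_j` is normalised by `h`, so its product with `⟨h⟩` is `H` and it is `P`. If `f : P →* Multiplicative (ZMod 3)` satisfies `f (τ x) = (f x)⁻¹` then
`f' (x h ^ m) = f x` (`x ∈ P`, `m ∈ ℤ`) satisfies the equation in `Hyp5.no3`, because `sn (x h ^ m) = (-1) ^ (k m) = (-1) ^ m`; so `f = 1`. -/
def S_afg : Prop := ∀ H : Subgroup G1, Hyp5 H → (H.comap (iA al1)).FG

/-! ## INF: finite index -/

/-- [PIC i0] existence of the chains of the paths.

Proof. `F` is free on `x0`, `ga` (`x0 = gb⁻¹ * ga`, `gb = ga * x0⁻¹`). Let `C = V × Bool →₀ ℝ`. The permutations `X (v, c) = (x0 v, c + e_(x0 v, false))`, `U (v, c) = (ga v, c + e_(ga v, true))` of `V × C`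
give `θ = liF U (U * X⁻¹) : F →* Perm (V × C)`, `θ x0 = X`. `θ g (v, c) = (g v, c + κ g v)` (the set of the `g` with this property for some `κ g` is a subgroup), `κ (g h) v = κ h v + κ g (h v)`. `D v g = κ g (g⁻¹ v)`. -/
def S_i0 : Prop := ∀ (V : Type) [MulAction F V], ∃ D : V → F → (V × Bool →₀ ℝ), IsD D

/-- [PIC i1] the induced map.

Proof. `A e_(v, false) = D (ψ v) (β x0)`, `A e_(v, true) = D (ψ v) (β ga)` (`Finsupp.lsum` / `Finsupp.linearCombination`). The set of the `g` with `A (D v g) = D (ψ v) (β g)` for all `v` is a subgroup of `F` which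
contains `x0`, `ga` (`D v g⁻¹ = -D (g v) g`), so it is `F` (`gb = ga * x0⁻¹`). -/
def S_i1 : Prop := ∀ (V : Type) [MulAction F V] (D : V → F → (V × Bool →₀ ℝ)), IsD D →
  ∀ (β : F →* F) (ψ : V → V), (∀ (g : F) (v : V), ψ (g • v) = β g • ψ v) →
  ∃ A : (V × Bool →₀ ℝ) →ₗ[ℝ] (V × Bool →₀ ℝ), ∀ v g, A (D v g) = D (ψ v) (β g)

/-- [PIC i2] an eigenvector. (Uses `S_i1`.)

Proof. `V = F ⧸ P`, `o = P`. `ψ (g P) = (al1 ^ k) g w⁻¹ P` is well defined and injective because of the condition on `P`. `A` from `S_i1` for `β = al1 ^ k`. For `p ∈ P`: `D o (w β(p) w⁻¹) = D o w + D (w⁻¹ o) (β p) + D (w⁻¹ o) w⁻¹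
= D (w⁻¹ o) (β p) = A (D o p)` (`ψ o = w⁻¹ o`; `β(p)⁻¹ w⁻¹ o = w⁻¹ (w β(p) w⁻¹)⁻¹ o = w⁻¹ o`). `p ↦ D o p` is a homomorphism on `P`, so `Z`, the span of the `D o p`, `p ∈ P`, is finite-dimensional and `A` maps `Z` to `Z`. Let `ℓ : C → ℝ`,
`ℓ e_(v, false) = 1`, `ℓ e_(v, true) = 1 + √2`. `ℓ (D v g) = cx g + (1 + √2) cu g` (`DefsN.lean`: exponent sums of `x0`, `ga`), `ℓ (D v (al1 g)) = (3 + 2 √2) ℓ (D v g)` (check on `x0`, `ga`: `al1 x0 = x0 ga ga`,
`al1 ga = ga x0 ga ga x0 ga ga`), so `ℓ (A c) = (3 + 2 √2) ^ k ℓ c`. `ℓ` is not zero on `Z`: an element `p ∈ P` with `vec p ≠ 0`, `√2` is irrational. So `A - (3 + 2 √2) ^ k` is not onto on `Z` (its range is in the kernel of `ℓ`), hence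
not injective on `Z`. -/
def S_i2 : Prop := ∀ P : Subgroup F, P.FG → (∃ x ∈ P, vec x ≠ 0) → ∀ (w : F) (k : ℕ), 1 ≤ k →
  (∀ x, x ∈ P ↔ w * (al1 ^ k) x * w⁻¹ ∈ P) →
  ∀ D : (F ⧸ P) → F → ((F ⧸ P) × Bool →₀ ℝ), IsD D →
  ∃ ψ : (F ⧸ P) → (F ⧸ P), Function.Injective ψ ∧
    (∀ (g : F) (v : F ⧸ P), ψ (g • v) = (al1 ^ k) g • ψ v) ∧
    ∃ A : ((F ⧸ P) × Bool →₀ ℝ) →ₗ[ℝ] ((F ⧸ P) × Bool →₀ ℝ),
      (∀ v g, A (D v g) = D (ψ v) ((al1 ^ k) g)) ∧
      ∃ z, z ≠ 0 ∧ A z = ((3 + 2 * Real.sqrt 2) ^ k : ℝ) • z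

/-- [PIC i3] the absolute value of the eigenvector.

Proof. `y = |z|` (coefficientwise; `Finsupp.mapRange`), `c = (3 + 2 √2) ^ k > 1`. `A` maps nonnegative chains to nonnegative chains: `(al1 ^ k) x0`, `(al1 ^ k) ga` are in the submonoid generated by `x0`, `ga` (induction on `k`), and `D v g ≥ 0`
for `g` in this submonoid. So `c y = |A z| ≤ A y`. With `ℓ` (`ℓ e_(v, false) = 1`, `ℓ e_(v, true) = 1 + √2`; `ℓ (A x) = c ℓ x`, because `ℓ (D v g) = cx g + (1 + √2) cu g`, and `al1 x0 = x0 ga ga`, `al1 ga = ga x0 ga ga x0 ga ga`):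
`ℓ (A y - c y) = 0`, the coefficients of `A y - c y` are nonnegative, so `A y = c y`. Flow: `∂ : C → (V →₀ ℝ)`, `∂ e_(v, i) = [x_i⁻¹ v] - [v]`, `∂ (D v g) = [g⁻¹ v] - [v]`, so `∂ (A x) = ψ (∂ x)` (`Finsupp.mapDomain`), `c ∂ y = ψ (∂ y)`;
the sum of the absolute values of the coefficients is the same for `∂ y` and `ψ (∂ y)` (`ψ` injective), so `∂ y = 0`. -/
def S_i3 : Prop := ∀ (V : Type) [MulAction F V] (D : V → F → (V × Bool →₀ ℝ)), IsD D →
  ∀ k : ℕ, 1 ≤ k → ∀ ψ : V → V, Function.Injective ψ →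
  (∀ (g : F) (v : V), ψ (g • v) = (al1 ^ k) g • ψ v) →
  ∀ A : (V × Bool →₀ ℝ) →ₗ[ℝ] (V × Bool →₀ ℝ), (∀ v g, A (D v g) = D (ψ v) ((al1 ^ k) g)) →
  ∀ z : V × Bool →₀ ℝ, z ≠ 0 → A z = ((3 + 2 * Real.sqrt 2) ^ k : ℝ) • z →
  ∃ y : V × Bool →₀ ℝ, y ≠ 0 ∧ (∀ e, 0 ≤ y e) ∧ A y = ((3 + 2 * Real.sqrt 2) ^ k : ℝ) • y ∧
    ∀ v, y (v, false) + y (v, true) = y (x0 • v, false) + y (ga • v, true)

/-- [PIC i4] finiteness.

Proof. Let `S` be the support of `y`, finite and nonempty, `V_S` the set of the `v` with `(v, i) ∈ S` for some `i`. By the flow condition `v ∈ V_S` iff `(x0 v, false) ∈ S` or `(ga v, true) ∈ S`. For `(v, i) ∈ S` all the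
edges of `D (ψ v) ((al1 ^ k) x_i)` are in `S` (`A y = c y`, nonnegative coefficients: `D v g ≥ 0` for `g` in the submonoid `M` generated by `x0`, `ga`). `(al1 ^ k) x_i = x_i g = g' ga`, `(al1 ^ k) ga = ga x0 g''` with `g, g', g'' ∈ M`
(`al1 x0 = x0 ga ga`, `al1 ga = ga x0 ga ga x0 ga ga`; `k ≥ 1`). So `(ψ v, i) ∈ S` and `ψ V_S ⊆ V_S`, hence `ψ V_S = V_S` (finite, injective). Every `v ∈ V_S` is `x_i⁻¹ v'` with `(v', i) ∈ S`, the last edge of
`D (ψ v') ((al1 ^ k) x_i)` is `(ga (ψ v), true)`; so `(ga v, true) ∈ S` for all `v ∈ V_S`. So `v ↦ ga v` maps `V_S` to itself, bijectively, and `(v, true) ∈ S` for all `v ∈ V_S`. The second edge of `D (ψ v) ((al1 ^ k) ga)` is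
`(ga⁻¹ (ψ v), false)`, so `(v, false) ∈ S` for all `v ∈ V_S` (`ψ`, `ga⁻¹` are bijections of `V_S`). By the flow condition `x_i⁻¹ v ∈ V_S` for `(v, i) ∈ S`, so `V_S` is closed under `x0⁻¹`, `ga⁻¹`, hence under `F`, and `V_S = V`. -/
def S_i4 : Prop := ∀ (V : Type) [MulAction F V], (∀ v v' : V, ∃ g : F, g • v = v') →
  ∀ D : V → F → (V × Bool →₀ ℝ), IsD D → ∀ k : ℕ, 1 ≤ k →
  ∀ ψ : V → V, Function.Injective ψ → (∀ (g : F) (v : V), ψ (g • v) = (al1 ^ k) g • ψ v) →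
  ∀ A : (V × Bool →₀ ℝ) →ₗ[ℝ] (V × Bool →₀ ℝ), (∀ v g, A (D v g) = D (ψ v) ((al1 ^ k) g)) →
  ∀ (c : ℝ) (y : V × Bool →₀ ℝ), 0 < c → y ≠ 0 → (∀ e, 0 ≤ y e) → A y = c • y →
  (∀ v, y (v, false) + y (v, true) = y (x0 • v, false) + y (ga • v, true)) → Finite V

/-- finitely generated subgroups normalised by `w t ^ k` (from `S_i0`, .., `S_i4`) -/
def S_inf : Prop := ∀ P : Subgroup F, P.FG → (∃ x ∈ P, vec x ≠ 0) → ∀ (w : F) (k : ℕ), 1 ≤ k →
  (∀ x, x ∈ P ↔ w * (al1 ^ k) x * w⁻¹ ∈ P) → P.FiniteIndex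

/-- [PIC fin] the index of `H` is finite. (Uses `S_afg`, `S_inf`.)

Proof. `P = H.comap (iA al1)`, `h = iA w * tA ^ k ∈ H` with `k ≥ 1` the positive generator of the exponents, odd. `P` has an element with `vec ≠ 0`: otherwise every element of
`H` is `x h ^ m` with `vec x = 0`; take the element `iA w' * tA ^ n` of `Hyp5.lab`, `n = k m` even, so `m = 2 m'` is even; its first exponent is that of `h ^ m`; modulo `4` the exponents of products of
elements with even exponents are additive (`al1` acts trivially modulo `2`), so it is `2 m' * (even) = 0` modulo `4`, contradiction. `S_inf`; then `H ⊇ iA P * ⟨h⟩` has finite index. -/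
def S_fin : Prop := ∀ H : Subgroup G1, Hyp5 H → H.FiniteIndex

/-- [PIC fi] the index of `ρ(Λ)` is finite. (Uses `S_eta`, `S_h5`, `S_m3`, `S_fin`.)

Proof. `H5 ρ η` has finite index in `G1`; its preimage in `G5` is `(ρ(Λ) ∩ G5) {± 1}` (`Eta.ker`), so `ρ(Λ) ∩ G5` has finite index in `G5`, and `G5` has finite index in `GG`. -/
def S_fi : Prop := ∀ (Λ : Type) [Group Λ] [Group.FG Λ] (Φ : NatBij GG Λ) (ρ : Λ →* GG), Rho Φ ρ →
  ρ.range.FiniteIndex

/-! ## HL: too many homomorphisms -/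

/-- [PIC ha] a cocycle, linear algebra.

Proof. `u = σ (iA ga)`, `v = σ (iA gb)`, `t = σ (tA)`; for `g : F` write `g` for `σ (iA g)`. For `a, b ∈ W` let `z = z_(a,b) : F → W` be the cocycle (`z (g h) = z g + g z h`) with `z ga = a`, `z gb = b` (from `liF` with values in the
semidirect product, or in `Perm (GA α × W)`, `Perm W`: `g x = σ g x + z g`), linear in `(a, b)`. For `c ∈ W` put `E_g (a, b, c) = c + t z g - α g c - z (α g)` (`g ∈ F`), `E (a, b, c) = (E_ga, E_gb) ∈ W²`, a linear map.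
(i) `E` is not onto. `g ↦ E_g` satisfies `E_(g h) = E_g + α g E_h` (`t g t⁻¹ = α g`). So for `D_e` (`e = (e_u, e_v) ∈ W²`) with `D_e (g h) = D_e g + α g D_e h`, `D_e ga = e_u`, `D_e gb = e_v`:
`D_e cc = (1 - α (u v⁻¹ u⁻¹)) e_u + (α (u v⁻¹ u⁻¹) - α (u v⁻¹)) e_v` (for `e = E (a, b, c)` directly from the rule for `E_(g h)`), and `D_e cc = E_cc = (1 - cc) c + (t - 1) z cc` (`α cc = cc`) for `e = E (a, b, c)`. So
`lam (D_e cc) = 0` for `e` in the range of `E`. If `E` is onto then, with `e_v = 0` and with `e_u = 0`: `lam` is invariant under `α (u v⁻¹ u⁻¹)` and `lam (α (u v⁻¹ u⁻¹) x) = lam (α (u v⁻¹) x)`, hence under `α (u v⁻¹)`, `α u`, `α v`, hence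
under `F` (`α` is onto) and `t`: under `GA α`, contradiction. (ii) `dim ker E ≥ 3 w - (2 w - 1) = w + 1`, `w = dim W`. The coboundaries `f ↦ (f - u f, f - v f, f - t f)` have dimension at most `w`. So there is
`(a, b, c) ∈ ker E` which is not a coboundary; `E_ga = E_gb = 0` imply `E_g = 0` for all `g`, so `z_(a,b)` and `c` define the cocycle on `GA α` (`liftA` with values in a semidirect product or in `Perm W`: `g x = σ g x + z g`; the linear
part must be remembered: use `Perm W × GA α` or the affine group). -/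
def S_ha : Prop := ∀ α : MulAut F, α cc = cc → ∀ (k W : Type) [Field k] [AddCommGroup W]
  [Module k W] [FiniteDimensional k W] (σ : GA α →* Module.End k W) (lam : W →ₗ[k] k),
  (∀ x, lam (σ (iA α cc) x) = lam x) → (∀ x, lam (σ (tA α) x) = lam x) →
  (∃ g x, lam (σ g x) ≠ lam x) →
  ∃ z : GA α → W, (∀ g h, z (g * h) = z g + σ g (z h)) ∧ ¬ ∃ f : W, ∀ g, z g = f - σ g f

/-- [PIC hl1] a cocycle for permutations. (Uses `S_ha`.)

Proof. `k = ZMod p`, `W` = the space of the functions `X → k` with sums zero over the fibres of `π`, `(g f) x = f (g⁻¹ x)`, `P₀ = closure {iA cc, tA}`, `O₁ = P₀ x₁`, `lam f = ∑_(x ∈ O₁) f x`, invariant under `P₀`. `O₁` meets the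
fibre of `y₀ = π x₁` only in `x₁` (an element of `P₀` which fixes `y₀` fixes `x₁`). `g x₁ = x₂`, so `g y₀ = y₀`, `x₃ = g⁻¹ x₁ ≠ x₁`, `f = δ_(x₁) - δ_(x₃) ∈ W`: `lam f = 1`, `lam (g f) = lam (δ_(x₂) - δ_(x₁)) = -1 ≠ 1` as `p ≠ 2`. -/
def S_hl1 : Prop := ∀ α : MulAut F, α cc = cc → ∀ (X Y : Type) [Fintype X] [Fintype Y]
  [DecidableEq Y] [MulAction (GA α) X] [MulAction (GA α) Y] (π : X → Y),
  (∀ (g : GA α) (x : X), π (g • x) = g • π x) → ∀ (p : ℕ) [Fact p.Prime], p ≠ 2 →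
  ∀ x₁ x₂ : X, x₁ ≠ x₂ → π x₁ = π x₂ → (∃ g : GA α, g • x₁ = x₂) →
  (∀ q ∈ Subgroup.closure {iA α cc, tA α}, q • π x₁ = π x₁ → ∀ x, π x = π x₁ → q • x = x) →
  ∃ z : GA α → X → ZMod p, (∀ g h x, z (g * h) x = z g x + z h (g⁻¹ • x)) ∧
    (∀ g y, ∑ x ∈ Finset.univ.filter (fun x => π x = y), z g x = 0) ∧
    ¬ ∃ f : X → ZMod p, (∀ y, ∑ x ∈ Finset.univ.filter (fun x => π x = y), f x = 0) ∧
      ∀ g x, z g x = f x - f (g⁻¹ • x)

/-- [PIC hl2] from a cocycle to the number of homomorphisms.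

Proof. `H` = stabiliser of `x₀`, `N` = stabiliser of `y₀ = π x₀`, `H ≤ N`, index `d` = the number of elements of the fibre, prime to `p`. The restriction `Hom(N, ℤ/p) → Hom(H, ℤ/p)` is injective (the kernel of
`χ ≠ 1` has index `p` in `N`; if it contains `H` then `p ∣ d`). Both sets are finite (`G` is finitely generated, finite index). Suppose that there are not more homomorphisms on `H`: then the
restriction is bijective. `ζ h = z h x₀` is a homomorphism `H → ZMod p`, so `ζ = χ` on `H`, `χ : N → ZMod p`. Choose `r : Y → G`, `r y • y₀ = y`. `b g y = χ (r(y)⁻¹ g r(g⁻¹ y))` satisfies `b (g h) y = b g y + b h (g⁻¹ y)`, and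
`z' g x = z g x - b g (π x)` is a cocycle with `z' h x₀ = 0` for `h ∈ H`. Choose `s : X → G`, `s x • x₀ = x`, `f x = z' (s x) x` (independent of the choice); `z' g x = f x - f (g⁻¹ x)`. Sum over the fibre of `y`:
`0 = d b g y + F y - F (g⁻¹ y)`, `F y = ∑_(π x = y) f x`; so `z g x = f' x - f' (g⁻¹ x)`, `f' x = f x - d⁻¹ F (π x)`, with fibre sums zero, contradiction. -/
def S_hl2 : Prop := ∀ (G : Type) [Group G] [Group.FG G] (X Y : Type) [Fintype X] [Fintype Y]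
  [DecidableEq Y] [MulAction G X] [MulAction G Y] (π : X → Y),
  (∀ (g : G) (x : X), π (g • x) = g • π x) → ∀ (p : ℕ) [Fact p.Prime] (x₀ : X),
  (∀ x, ∃ g : G, g • x₀ = x) →
  ¬ p ∣ (Finset.univ.filter (fun x => π x = π x₀)).card →
  ∀ z : G → X → ZMod p, (∀ g h x, z (g * h) x = z g x + z h (g⁻¹ • x)) →
  (∀ g y, ∑ x ∈ Finset.univ.filter (fun x => π x = y), z g x = 0) →
  (¬ ∃ f : X → ZMod p, (∀ y, ∑ x ∈ Finset.univ.filter (fun x => π x = y), f x = 0) ∧
      ∀ g x, z g x = f x - f (g⁻¹ • x)) →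
  Nat.card (MulAction.stabilizer G (π x₀) →* Multiplicative (ZMod p)) <
    Nat.card (MulAction.stabilizer G x₀ →* Multiplicative (ZMod p))

/-- [PIC con] surjectivity. (Uses `S_eta`, `S_hl1`, `S_hl2`.)

Proof. `H = ρ(Λ)`, `d = [GG : H]`, suppose `d ≥ 2`. `M = 8 * d!`, `N = ker (rd M) ≤ G5`, `L = ker (Φ (rd M))`; `ρ l ∈ N ↔ l ∈ L` (`Rho.ker`), `N H = GG` (`Rho.img`), so there is `n₀ ∈ N` not in `H`. `η` is injective on `N` (`-1 ∉ N`).
`N'' = η(N)`, `H'' = η(H ∩ N)`, subgroups of finite index of `G1` (`Eta.sur`: the image of `η` has index `4`). `X = G1 ⧸ H''`, `Y = G1 ⧸ N''`, `x₁ = H''`, `x₂ = η(n₀) H''`, base point `x₀ = x₁`; the stabilisers are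
`H''`, `N''` (`MulAction.stabilizer_quotient`). Condition on `q ∈ closure {iA cc, tA}`, `q N'' = N''`: `q = η y`, `y ∈ N`, lower left entry zero (`Eta.par`), so `y = [[1, b], [0, 1]]` with `M ∣ b` (the diagonal entries are units, and `1` modulo `M`),
`y = x ^ (d!)`, `x = [[1, b / d!], [0, 1]]`. For `n ∈ N`: `n⁻¹ y n = (n⁻¹ x n) ^ (d!) ∈ H` (`Subgroup.pow_mem_of_index_ne_zero_of_dvd`), so `q` fixes `η(n) H''`. Let `p` be a prime greater than `2` and than the number of the elements of the fibre.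
`S_hl1`, `S_hl2`: `|Hom(N, ℤ/p)| = |Hom(N'', ℤ/p)| < |Hom(H'', ℤ/p)| = |Hom(H ∩ N, ℤ/p)| ≤ |Hom(L, ℤ/p)| = |Hom(N, ℤ/p)|` (`ρ : L → H ∩ N` is onto; `natBij_ker`, `NatBij.equiv`), contradiction. -/
def S_con : Prop := ∀ (Λ : Type) [Group Λ] [Group.FG Λ] (Φ : NatBij GG Λ) (ρ : Λ →* GG), Rho Φ ρ →
  ρ.range.FiniteIndex → Function.Surjective ρ

end

end Pool.Agent.F8.PIC
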