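import Pool.Agent.Lib.MP_305fdd_al.F8.PIC.Stm
import Pool.Agent.Lib.MP_305fdd_al.F8.P.wc

/-!
# MP_305fdd_al, project PIC: piece `coc`, the representations with a cocycle
-/

set_option autoImplicit false

namespace Pool.Agent.F8.PIC

open Pool.Agent.MP_305fdd_al Pool.Agent.Lib.MP_305fdd_al Pool.Agent.F2X Pool.Agent.F8
  Pool.Agent.F8.HN Pool.Agent.F8.AB Pool.Agent.F8.D1
open Pool.Agent.F8.D1.PG (mL TP)
open scoped QuadraticAlgebra

theorem coc_tt : tt ∈ GP := ⟨by decide, by decide, by decide⟩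
theorem coc_uu : uu ∈ GP := ⟨by decide, by decide, by decide⟩
theorem coc_yy : yy ∈ GP := ⟨by decide, by decide, by decide⟩

theorem coc_yy_eq : yy = mB O1 * tt * tt * uu * (mB O1)⁻¹ := by decide

theorem coc_comm : tt * uu = uu * tt := by decide

theorem coc_rel : uu * (yy * tt * yy)⁻¹ * (uu * (yy * tt * yy)⁻¹) = tt * yy * tt * uu⁻¹ := by
  decide

/-- the translation part of a product when the scalar part is one -/
theorem coc_mul_v {K : Type} [CommRing K] (x y : Q2 K) (hx : x.t = 1) :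
    (x * y).v = x.v + x.m.val.mulVec y.v := by
  rw [Q2.mul_v, hx, Units.val_one, one_smul]

theorem coc_inv_v {K : Type} [CommRing K] (x : Q2 K) (hx : x.t = 1) :
    (x⁻¹).v = -((x.m⁻¹).val.mulVec x.v) := by
  rw [Q2.inv_v, hx, inv_one, Units.val_one, one_smul]

/-- the linear equation for the translation part of `y` -/
theorem coc_lin {K : Type} [CommRing K] (a b y : Q2 K) (ha : a.t = 1) (hb : b.t = 1)
    (hy : y.t = 1) (hav : a.v = 0) (hbv : b.v = 0)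
    (hrel : b * (y * a * y)⁻¹ * (b * (y * a * y)⁻¹) = a * y * a * b⁻¹) :
    (a.m.val + (b.m.val * (y.m * a.m * y.m)⁻¹.val + a.m.val * y.m.val * a.m.val * b.m⁻¹.val) *
      (1 + y.m.val * a.m.val)).mulVec y.v = 0 := by
  have h1 : (y * a * y).v = (1 + y.m.val * a.m.val).mulVec y.v := by
    rw [coc_mul_v (y * a) y (by rw [Q2.mul_t, hy, ha, one_mul]), coc_mul_v y a hy, hav,
      Matrix.mulVec_zero, add_zero, Matrix.add_mulVec, Matrix.one_mulVec, Q2.mul_m,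
      Matrix.SpecialLinearGroup.coe_mul]
  have hzt : (y * a * y).t = 1 := by rw [Q2.mul_t, Q2.mul_t, hy, ha, one_mul, one_mul]
  have h2 : (b * (y * a * y)⁻¹).v = -((b.m.val * (y.m * a.m * y.m)⁻¹.val).mulVec
      ((1 + y.m.val * a.m.val).mulVec y.v)) := by
    rw [coc_mul_v b _ hb, hbv, zero_add, coc_inv_v _ hzt, Matrix.mulVec_neg,
      Matrix.mulVec_mulVec, h1]
    rfl
  have hqt : (b * (y * a * y)⁻¹).t = 1 := by rw [Q2.mul_t, Q2.inv_t, hzt, hb, inv_one, one_mul]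
  have hm := congrArg Q2.m hrel
  have hv := congrArg Q2.v hrel
  rw [coc_mul_v _ _ hqt, h2] at hv
  have h3 : (a * y * a * b⁻¹).v = a.m.val.mulVec y.v := by
    rw [coc_mul_v (a * y * a) _ (by rw [Q2.mul_t, Q2.mul_t, hy, ha, one_mul, one_mul]),
      coc_inv_v _ hb, hbv, Matrix.mulVec_zero, neg_zero, Matrix.mulVec_zero, add_zero,
      coc_mul_v (a * y) a (by rw [Q2.mul_t, hy, ha, one_mul]), hav, Matrix.mulVec_zero, add_zero,
      coc_mul_v a y ha, hav, zero_add]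
  rw [h3, Matrix.mulVec_neg, Matrix.mulVec_mulVec _ (b * (y * a * y)⁻¹).m.val] at hv
  have h4 : (b * (y * a * y)⁻¹).m.val * (b.m.val * (y.m * a.m * y.m)⁻¹.val) =
      a.m.val * y.m.val * a.m.val * b.m⁻¹.val := by
    have h5 := congrArg Subtype.val hm
    rw [Q2.mul_m, Q2.mul_m (a * y * a), Q2.mul_m (a * y), Q2.mul_m a,
      Matrix.SpecialLinearGroup.coe_mul, Matrix.SpecialLinearGroup.coe_mul,
      Matrix.SpecialLinearGroup.coe_mul, Matrix.SpecialLinearGroup.coe_mul] at h5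
    rw [← Q2.inv_m, ← h5]
    rfl
  rw [h4] at hv
  rw [Matrix.add_mulVec, ← hv, ← Matrix.mulVec_mulVec y.v _ (1 + y.m.val * a.m.val),
    Matrix.add_mulVec (b.m.val * (y.m * a.m * y.m)⁻¹.val)]
  abel

/-- the common fixed point -/
theorem coc_fix {K : Type} [Field K] (A C : Matrix (Fin 2) (Fin 2) K) (u v : Fin 2 → K)
    (hAC : A * C = C * A) (h : A.mulVec v = C.mulVec u) (hA : A.det ≠ 0) :
    ∃ e : Fin 2 → K, u + A.mulVec e = 0 ∧ v + C.mulVec e = 0 := by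
  refine ⟨A⁻¹.mulVec (-u), ?_, ?_⟩
  · rw [Matrix.mulVec_mulVec, Matrix.mul_nonsing_inv A (isUnit_iff_ne_zero.2 hA),
      Matrix.one_mulVec, add_neg_cancel]
  · apply Matrix.eq_zero_of_mulVec_eq_zero hA
    rw [Matrix.mulVec_add, h, Matrix.mulVec_mulVec _ A, hAC, ← Matrix.mulVec_mulVec _ C,
      Matrix.mulVec_mulVec _ A, Matrix.mul_nonsing_inv A (isUnit_iff_ne_zero.2 hA),
      Matrix.one_mulVec, Matrix.mulVec_neg, add_neg_cancel]

/-- The affine maps without translation part and scalar part. -/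
def coc_S (R : Type) [CommRing R] : Subgroup (Q2 R) where
  carrier := {x | x.v = 0}
  one_mem' := rfl
  mul_mem' := by
    intro x y hx hy
    rw [Set.mem_ofPred_eq] at hx hy ⊢
    rw [Q2.mul_v, hx, hy, Matrix.mulVec_zero, smul_zero, add_zero]
  inv_mem' := by
    intro x hx
    rw [Set.mem_ofPred_eq] at hx ⊢
    rw [Q2.inv_v, hx, Matrix.mulVec_zero, smul_zero, neg_zero]

/-- conjugation with a translation -/
theorem coc_conj {R : Type} [CommRing R] (e : Fin 2 → R) (x : Q2 R) (hx : x.t = 1) :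
    ((⟨1, 1, -e⟩ : Q2 R) * x * (⟨1, 1, -e⟩ : Q2 R)⁻¹).v =
      x.v + (x.m.val - 1).mulVec e := by
  rw [wc_v]
  have hX : Q2.X ((⟨1, 1, -e⟩ : Q2 R) * x * (⟨1, 1, -e⟩ : Q2 R)⁻¹) = x.m.val - 1 := by
    rw [wc_X]
    show (1 : Matrix (Fin 2) (Fin 2) R) * Q2.X x * ((1 : SL2 R)⁻¹).val = _
    rw [inv_one, Matrix.SpecialLinearGroup.coe_one, one_mul, mul_one]
    unfold Q2.X
    rw [hx, Units.val_one, one_smul]
  rw [hX, Units.val_one, one_smul, Matrix.SpecialLinearGroup.coe_one, Matrix.one_mulVec,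
    Matrix.mulVec_neg, sub_neg_eq_add]

theorem coc_main {K : Type} [Field K] (h2 : (2 : K) ≠ 0) (ρ : GG →* SL2 K) (w s p q : K)
    (hNF : NF ρ w s p q) (Θ : GP →* Q2 K) (hm : Q2.mH.comp Θ = ρ.comp GP.subtype)
    (ht : Q2.tH.comp Θ = 1) (hnc : NC Θ) (htab : S_tab)
    (hd : ((ρ tt).val + ((ρ uu).val * (ρ yy * ρ tt * ρ yy)⁻¹.val +
      (ρ tt).val * (ρ yy).val * (ρ tt).val * (ρ uu)⁻¹.val) *
      (1 + (ρ yy).val * (ρ tt).val)).det ≠ 0) (hpq : ¬ (p = 1 ∧ q = 1)) : False := by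
  have hmg : ∀ g : GP, (Θ g).m = ρ g.val := fun g => DFunLike.congr_fun hm g
  have htg : ∀ g : GP, (Θ g).t = 1 := fun g => DFunLike.congr_fun ht g
  have h4 : (4 : K) ≠ 0 := by
    have : (4 : K) = 2 * 2 := by norm_num
    rw [this]; exact mul_ne_zero h2 h2
  have hcm : (ρ tt).val * (ρ uu).val = (ρ uu).val * (ρ tt).val := by
    rw [← Matrix.SpecialLinearGroup.coe_mul, ← Matrix.SpecialLinearGroup.coe_mul, ← map_mul,
      ← map_mul, coc_comm]
  have hcm' : ((ρ tt).val - 1) * ((ρ uu).val - 1) = ((ρ uu).val - 1) * ((ρ tt).val - 1) := by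
    rw [mul_sub, sub_mul, sub_mul, mul_one, one_mul, mul_sub, sub_mul, sub_mul, mul_one, one_mul,
      hcm]
    simp only [mul_one]
    abel
  have hdT : ((ρ tt).val - 1).det = 2 - 2 * p := by
    rw [hNF.T, Matrix.det_fin_two]
    simp only [Matrix.sub_apply, Matrix.of_apply, Matrix.cons_val', Matrix.cons_val_zero,
      Matrix.cons_val_one, Matrix.one_apply_eq]
    have e01 : (1 : Matrix (Fin 2) (Fin 2) K) 0 1 = 0 := rfl
    have e10 : (1 : Matrix (Fin 2) (Fin 2) K) 1 0 = 0 := rfl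
    rw [e01, e10]
    have e1 := hNF.e1
    field_simp
    linear_combination e1
  have hdU : ((ρ uu).val - 1).det = 2 - 2 * q := by
    rw [hNF.U, Matrix.det_fin_two]
    simp only [Matrix.sub_apply, Matrix.of_apply, Matrix.cons_val', Matrix.cons_val_zero,
      Matrix.cons_val_one, Matrix.one_apply_eq]
    have e01 : (1 : Matrix (Fin 2) (Fin 2) K) 0 1 = 0 := rfl
    have e10 : (1 : Matrix (Fin 2) (Fin 2) K) 1 0 = 0 := rfl
    rw [e01, e10]
    have e2 := hNF.e2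
    have hw := hNF.hw
    have hs := hNF.hs
    field_simp
    linear_combination e2 - (s ^ 2 - 1) * hw
  -- the fixed point
  have hfix : ∃ e : Fin 2 → K, (Θ ⟨tt, coc_tt⟩).v + ((ρ tt).val - 1).mulVec e = 0 ∧
      (Θ ⟨uu, coc_uu⟩).v + ((ρ uu).val - 1).mulVec e = 0 := by
    have hc : (⟨tt, coc_tt⟩ : GP) * ⟨uu, coc_uu⟩ = ⟨uu, coc_uu⟩ * ⟨tt, coc_tt⟩ :=
      Subtype.ext coc_comm
    have hc2 := congrArg Q2.v (congrArg Θ hc)
    rw [map_mul, map_mul, coc_mul_v _ _ (htg _), coc_mul_v _ _ (htg _), hmg, hmg] at hc2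
    have hc3 : ((ρ tt).val - 1).mulVec (Θ ⟨uu, coc_uu⟩).v =
        ((ρ uu).val - 1).mulVec (Θ ⟨tt, coc_tt⟩).v := by
      rw [Matrix.sub_mulVec, Matrix.sub_mulVec, Matrix.one_mulVec, Matrix.one_mulVec]
      have := hc2
      have h5 : (ρ tt).val.mulVec (Θ ⟨uu, coc_uu⟩).v = (Θ ⟨uu, coc_uu⟩).v +
          (ρ uu).val.mulVec (Θ ⟨tt, coc_tt⟩).v - (Θ ⟨tt, coc_tt⟩).v := by
        rw [← hc2]; abel
      rw [h5]; abel
    by_cases hp : p = 1
    · have hq : q ≠ 1 := fun h => hpq ⟨hp, h⟩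
      obtain ⟨e, he1, he2⟩ := coc_fix ((ρ uu).val - 1) ((ρ tt).val - 1) (Θ ⟨uu, coc_uu⟩).v
        (Θ ⟨tt, coc_tt⟩).v hcm'.symm hc3.symm (by
          rw [hdU]
          intro h
          apply hq
          have : 2 * (1 - q) = 0 := by linear_combination h
          rcases mul_eq_zero.1 this with h6 | h6
          · exact absurd h6 h2
          · linear_combination -h6)
      exact ⟨e, he2, he1⟩
    · exact coc_fix ((ρ tt).val - 1) ((ρ uu).val - 1) (Θ ⟨tt, coc_tt⟩).v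
        (Θ ⟨uu, coc_uu⟩).v hcm' hc3 (by
          rw [hdT]
          intro h
          apply hp
          have : 2 * (1 - p) = 0 := by linear_combination h
          rcases mul_eq_zero.1 this with h6 | h6
          · exact absurd h6 h2
          · linear_combination -h6)
  obtain ⟨e, he1, he2⟩ := hfix
  -- the conjugate
  set c : Q2 K := ⟨1, 1, -e⟩ with hc
  let Θ' : GP →* Q2 K := (MulAut.conj c).toMonoidHom.comp Θ
  have hΘ' : ∀ g, Θ' g = c * Θ g * c⁻¹ := fun g => rfl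
  have hv' : ∀ g, (Θ' g).v = (Θ g).v + ((ρ g.val).val - 1).mulVec e := by
    intro g
    rw [hΘ', hc, coc_conj e (Θ g) (htg g), hmg]
  have ht' : ∀ g, (Θ' g).t = 1 := by
    intro g
    rw [hΘ', Q2.mul_t, Q2.mul_t, Q2.inv_t, htg]
    show (1 : Kˣ) * 1 * 1⁻¹ = 1
    simp
  have hm' : ∀ g : GP, (Θ' g).m = ρ g.val := by
    intro g
    rw [hΘ', Q2.mul_m, Q2.mul_m, Q2.inv_m, hmg]
    show (1 : SL2 K) * ρ g.val * 1⁻¹ = _
    simp
  have hyt : (Θ' ⟨yy, coc_yy⟩).v = 0 := by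
    have hr : (⟨uu, coc_uu⟩ : GP) * (⟨yy, coc_yy⟩ * ⟨tt, coc_tt⟩ * ⟨yy, coc_yy⟩)⁻¹ *
        (⟨uu, coc_uu⟩ * (⟨yy, coc_yy⟩ * ⟨tt, coc_tt⟩ * ⟨yy, coc_yy⟩)⁻¹) =
        ⟨tt, coc_tt⟩ * ⟨yy, coc_yy⟩ * ⟨tt, coc_tt⟩ * ⟨uu, coc_uu⟩⁻¹ := Subtype.ext coc_rel
    have hr2 := congrArg Θ' hr
    simp only [map_mul, map_inv] at hr2
    have h5 := coc_lin (Θ' ⟨tt, coc_tt⟩) (Θ' ⟨uu, coc_uu⟩) (Θ' ⟨yy, coc_yy⟩) (ht' _) (ht' _)
      (ht' _) (by rw [hv']; exact he1) (by rw [hv']; exact he2) (by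
        rw [hr2.symm])
    rw [hm', hm', hm'] at h5
    exact Matrix.eq_zero_of_mulVec_eq_zero hd h5
  have hall : GP ≤ ((coc_S K).comap Θ').map GP.subtype := by
    apply htab.1
    · exact ⟨⟨tt, coc_tt⟩, by
        show (Θ' ⟨tt, coc_tt⟩).v = 0
        rw [hv']; exact he1, rfl⟩
    · exact ⟨⟨uu, coc_uu⟩, by
        show (Θ' ⟨uu, coc_uu⟩).v = 0
        rw [hv']; exact he2, rfl⟩
    · exact ⟨⟨yy, coc_yy⟩, hyt, rfl⟩
  have hz : ∀ g : GP, (Θ' g).v = 0 := by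
    intro g
    obtain ⟨x, hx, hxg⟩ := hall g.2
    have : x = g := Subtype.ext hxg
    rw [← this]
    exact hx
  obtain ⟨g, k, hgk⟩ := hnc
  apply hgk
  have h6 : Q2.W (Θ' g) (Θ' k) = Q2.W (Θ g) (Θ k) := by
    rw [hΘ', hΘ', pf_wc K c (Θ g) (Θ k), hc]
    rw [Units.val_one, one_smul, Matrix.SpecialLinearGroup.coe_one, Matrix.one_mulVec]
  rw [← h6]
  unfold Q2.W
  rw [hz g, hz k, Matrix.mulVec_zero, Matrix.mulVec_zero, smul_zero, sub_zero]

/-- the abelian case -/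
theorem coc_ab {K : Type} [Field K] (h2 : (2 : K) ≠ 0) (ρ : GG →* SL2 K) (w s p q : K)
    (hNF : NF ρ w s p q) (hirr : Irr (ρ.comp GP.subtype)) (htab : S_tab)
    (h1 : s ^ 2 + w * s + 1 = 0) (hp : 2 * p = w * s - 1) (hq : 2 * q = -(w * s)) : False := by
  have hw := hNF.hw
  have hs := hNF.hs
  have e1 := hNF.e1
  have hl : w / s = -2 * p := by
    rw [div_eq_iff hs]
    linear_combination s * hp + w * h1 - s * hw
  have h4 : (4 : K) ≠ 0 := by
    have : (4 : K) = 2 * 2 := by norm_num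
    rw [this]; exact mul_ne_zero h2 h2
  have hTTU : ρ tt * ρ tt * ρ uu = 1 := by
    obtain ⟨b, hb⟩ : ∃ b : K, b = (s + 1) / 2 := ⟨_, rfl⟩
    obtain ⟨c, hc⟩ : ∃ c : K, c = (s - 1) / 2 := ⟨_, rfl⟩
    have hb2 : b * 2 = s + 1 := by rw [hb, div_mul_cancel₀ _ h2]
    have hc2 : c * 2 = s - 1 := by rw [hc, div_mul_cancel₀ _ h2]
    have hT := hNF.T
    have hU := hNF.U
    rw [hl, ← hb, ← hc] at hU
    rw [← hb, ← hc] at hT
    have t00 : (ρ tt).val 0 0 = p := by rw [hT]; rfl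
    have t01 : (ρ tt).val 0 1 = b := by rw [hT]; rfl
    have t10 : (ρ tt).val 1 0 = c := by rw [hT]; rfl
    have t11 : (ρ tt).val 1 1 = p := by rw [hT]; rfl
    have u00 : (ρ uu).val 0 0 = q := by rw [hU]; rfl
    have u01 : (ρ uu).val 0 1 = -2 * p * b := by rw [hU]; rfl
    have u10 : (ρ uu).val 1 0 = -2 * p * c := by rw [hU]; rfl
    have u11 : (ρ uu).val 1 1 = q := by rw [hU]; rfl
    have hd := G.SL_det (ρ tt)
    rw [t00, t01, t10, t11] at hd
    have hq2 : p * p + b * c = q := by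
      apply mul_left_cancel₀ h4
      linear_combination e1 - 2 * hq + 2 * h1 + (s + 1) * hc2 + c * 2 * hb2
    apply G.SL_ext
    · rw [G.SL_mul, G.SL_mul, G.SL_mul, t00, t01, t10, t11, u00, u10, G.one00, ← hq2]
      linear_combination (p * p - b * c + 1) * hd
    · rw [G.SL_mul, G.SL_mul, G.SL_mul, t00, t01, t10, t11, u01, u11, G.one01, ← hq2]
      ring
    · rw [G.SL_mul, G.SL_mul, G.SL_mul, t00, t01, t10, t11, u00, u10, G.one10, ← hq2]
      ring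
    · rw [G.SL_mul, G.SL_mul, G.SL_mul, t00, t01, t10, t11, u01, u11, G.one11, ← hq2]
      linear_combination (p * p - b * c + 1) * hd
  have hy : ρ yy = 1 := by
    rw [coc_yy_eq, map_mul, map_mul, map_mul, map_mul, map_inv, mul_assoc (ρ (mB O1)),
      mul_assoc (ρ (mB O1)), hTTU, mul_one, mul_inv_cancel]
  have hall : GP ≤ (Subgroup.zpowers (ρ tt)).comap ρ := by
    apply htab.1
    · exact Subgroup.mem_zpowers (ρ tt)
    · show ρ uu ∈ Subgroup.zpowers (ρ tt)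
      have : ρ uu = (ρ tt * ρ tt)⁻¹ := eq_inv_of_mul_eq_one_right hTTU
      rw [this]
      exact Subgroup.inv_mem _ (Subgroup.mul_mem _ (Subgroup.mem_zpowers _)
        (Subgroup.mem_zpowers _))
    · show ρ yy ∈ Subgroup.zpowers (ρ tt)
      rw [hy]
      exact Subgroup.one_mem _
  obtain ⟨g, h, hgh⟩ := hirr
  apply hgh
  obtain ⟨a, ha⟩ := hall g.2
  obtain ⟨b, hb⟩ := hall h.2
  have hc : ρ g.val * ρ h.val = ρ h.val * ρ g.val := by
    have ha' : ρ tt ^ a = ρ g.val := ha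
    have hb' : ρ tt ^ b = ρ h.val := hb
    rw [← ha', ← hb', ← zpow_add, ← zpow_add, add_comm]
  have : (ρ.comp GP.subtype) (g * h * g⁻¹ * h⁻¹) = 1 := by
    show ρ (g.val * h.val * (g.val)⁻¹ * (h.val)⁻¹) = 1
    rw [map_mul, map_mul, map_mul, map_inv, map_inv, hc, mul_inv_cancel_right, mul_inv_cancel]
  rw [this, tr_eq, Matrix.SpecialLinearGroup.coe_one]
  show (1 : K) + 1 = 2
  norm_num

/-- [PIC coc] -/
theorem p_coc (htab : S_tab) (halg : S_alg) (hdet : S_det) : S_coc := by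
  intro K _ h2 ρ w s p q hNF hPt
  obtain ⟨hirr, Θ, hm, ht, hnc⟩ := hPt
  by_contra hpq
  by_cases hd : ((ρ tt).val + ((ρ uu).val * (ρ yy * ρ tt * ρ yy)⁻¹.val +
      (ρ tt).val * (ρ yy).val * (ρ tt).val * (ρ uu)⁻¹.val) *
      (1 + (ρ yy).val * (ρ tt).val)).det = 0
  · have hY : ρ yy = ρ (mB O1) * ρ tt * ρ tt * ρ uu * (ρ (mB O1))⁻¹ := by
      rw [coc_yy_eq, map_mul, map_mul, map_mul, map_mul, map_inv]
    have h5 := hdet K h2 w s p q hNF.hw hNF.hs hNF.e1 hNF.e2 (ρ tt) (ρ uu) (ρ (mB O1)) (ρ yy)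
      hNF.T hNF.U hNF.B hY
    rw [hd] at h5
    have h6 : (1 - p) * (1 - w / s) + (1 - q) * (1 - w * s) = 0 := by
      rcases mul_eq_zero.1 h5.symm with h7 | h7
      · exact absurd h7 h2
      · exact h7
    rcases halg K h2 w s p q hNF.hw hNF.hs hNF.e1 hNF.e2 h6 with h7 | ⟨h7, h8, h9⟩
    · exact hpq h7
    · exact coc_ab h2 ρ w s p q hNF hirr htab h7 h8 h9
  · exact coc_main h2 ρ w s p q hNF Θ hm ht hnc htab hd hpq

end Pool.Agent.F8.PIC
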