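import Pool.Agent.Lib.MP_305fdd_al.F8.PIC.Stm

/-!
# MP_305fdd_al, the Picard group: piece X3
-/

set_option autoImplicit false

namespace Pool.Agent.F8.PIC

open Pool.Agent.MP_305fdd_al Pool.Agent.Lib.MP_305fdd_al Pool.Agent.F2X Pool.Agent.F8
  Pool.Agent.F8.HN Pool.Agent.F8.AB Pool.Agent.F8.D1
open scoped QuadraticAlgebra

/-- an element of `ℤ/4[i]` is a unit or a multiple of `1 + i` -/
theorem X3_unit_or : ∀ a b : ZMod 4,
    (∃ c d : ZMod 4, a * c - b * d = 1 ∧ a * d + b * c = 0) ∨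
    (∃ c d : ZMod 4, a = c - d ∧ b = c + d) := by decide

theorem X3_no : ∀ c d : ZMod 4, ¬ (c - d = 1 ∧ c + d = 0) := by decide

theorem X3_or (x : E1 (ZMod 4)) : (∃ u, x * u = 1) ∨ ∃ y, x = ⟨1, 1⟩ * y := by
  rcases X3_unit_or x.re x.im with ⟨c, d, h1, h2⟩ | ⟨c, d, h1, h2⟩
  · left
    refine ⟨⟨c, d⟩, ?_⟩
    apply QuadraticAlgebra.ext
    · rw [QuadraticAlgebra.re_mul, QuadraticAlgebra.re_one]
      show x.re * c + -1 * x.im * d = 1
      linear_combination h1
    · rw [QuadraticAlgebra.im_mul, QuadraticAlgebra.im_one]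
      show x.re * d + x.im * c + 0 * x.im * d = 0
      linear_combination h2
  · right
    refine ⟨⟨c, d⟩, ?_⟩
    apply QuadraticAlgebra.ext
    · rw [QuadraticAlgebra.re_mul]
      show x.re = 1 * c + -1 * 1 * d
      linear_combination h1
    · rw [QuadraticAlgebra.im_mul]
      show x.im = 1 * d + 1 * c + 0 * 1 * d
      linear_combination h2

theorem X3_ne (y : E1 (ZMod 4)) (h : (⟨1, 1⟩ : E1 (ZMod 4)) * y = 1) : False := by
  apply X3_no y.re y.im
  have h1 := congrArg QuadraticAlgebra.re h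
  have h2 := congrArg QuadraticAlgebra.im h
  rw [QuadraticAlgebra.re_mul, QuadraticAlgebra.re_one] at h1
  rw [QuadraticAlgebra.im_mul, QuadraticAlgebra.im_one] at h2
  change 1 * y.re + -1 * 1 * y.im = 1 at h1
  change 1 * y.im + 1 * y.re + 0 * 1 * y.im = 0 at h2
  constructor
  · linear_combination h1
  · linear_combination h2

theorem X3_units (t m s n q : E1 (ZMod 4)) (h : 2 * t + m * s + n * q = 1) :
    (∃ u, m * u = 1) ∨ ∃ u, n * u = 1 := by
  rcases X3_or m with h1 | ⟨a, rfl⟩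
  · exact Or.inl h1
  · rcases X3_or n with h2 | ⟨b, rfl⟩
    · exact Or.inr h2
    · exfalso
      have h2 : (2 : E1 (ZMod 4)) = ⟨1, 1⟩ * ⟨1, -1⟩ := by decide
      apply X3_ne (⟨1, -1⟩ * t + a * s + b * q)
      rw [← h, h2]; ring

section
variable {R : Type} [CommRing R]

/-- the common part: `v` with `x v = v`, `x b v = b v + v`, `b b v = - v` -/
theorem X3_mat (x b : SL2 R) (v0 v1 w0 w1 dd u : R)
    (e1 : x.val 0 0 * v0 + x.val 0 1 * v1 = v0) (e2 : x.val 1 0 * v0 + x.val 1 1 * v1 = v1)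
    (e3 : x.val 0 0 * w0 + x.val 0 1 * w1 = v0 + w0) (e4 : x.val 1 0 * w0 + x.val 1 1 * w1 = v1 + w1)
    (e5 : b.val 0 0 * v0 + b.val 0 1 * v1 = w0) (e6 : b.val 1 0 * v0 + b.val 1 1 * v1 = w1)
    (e7 : b.val 0 0 * w0 + b.val 0 1 * w1 = -v0) (e8 : b.val 1 0 * w0 + b.val 1 1 * w1 = -v1)
    (e9 : v0 * w1 - v1 * w0 = dd) (e10 : dd * u = 1) :
    ∃ M K : Matrix (Fin 2) (Fin 2) R, M * K = 1 ∧ K * M = 1 ∧
      x.val * M = M * (mU 1).val ∧ b.val * M = M * (mB R).val := by
  refine ⟨!![v0, w0; v1, w1], !![u * w1, -(u * w0); -(u * v1), u * v0], ?_, ?_, ?_, ?_⟩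
  · rw [Matrix.mul_fin_two, Matrix.one_fin_two]
    congr 1
    ext i k
    fin_cases i <;> fin_cases k
    · show v0 * (u * w1) + w0 * (-(u * v1)) = 1
      linear_combination u * e9 + e10
    · show v0 * (-(u * w0)) + w0 * (u * v0) = 0
      ring
    · show v1 * (u * w1) + w1 * (-(u * v1)) = 0
      ring
    · show v1 * (-(u * w0)) + w1 * (u * v0) = 1
      linear_combination u * e9 + e10
  · rw [Matrix.mul_fin_two, Matrix.one_fin_two]
    congr 1
    ext i k
    fin_cases i <;> fin_cases k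
    · show u * w1 * v0 + -(u * w0) * v1 = 1
      linear_combination u * e9 + e10
    · show u * w1 * w0 + -(u * w0) * w1 = 0
      ring
    · show -(u * v1) * v0 + u * v0 * v1 = 0
      ring
    · show -(u * v1) * w0 + u * v0 * w1 = 1
      linear_combination u * e9 + e10
  · ext i k
    rw [Matrix.mul_apply, Matrix.mul_apply, Fin.sum_univ_two, Fin.sum_univ_two]
    fin_cases i <;> fin_cases k
    · show x.val 0 0 * v0 + x.val 0 1 * v1 = v0 * 1 + w0 * 0
      linear_combination e1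
    · show x.val 0 0 * w0 + x.val 0 1 * w1 = v0 * 1 + w0 * 1
      linear_combination e3
    · show x.val 1 0 * v0 + x.val 1 1 * v1 = v1 * 1 + w1 * 0
      linear_combination e2
    · show x.val 1 0 * w0 + x.val 1 1 * w1 = v1 * 1 + w1 * 1
      linear_combination e4
  · ext i k
    rw [Matrix.mul_apply, Matrix.mul_apply, Fin.sum_univ_two, Fin.sum_univ_two]
    fin_cases i <;> fin_cases k
    · show b.val 0 0 * v0 + b.val 0 1 * v1 = v0 * 0 + w0 * 1
      linear_combination e5
    · show b.val 0 0 * w0 + b.val 0 1 * w1 = v0 * (-1) + w0 * 0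
      linear_combination e7
    · show b.val 1 0 * v0 + b.val 1 1 * v1 = v1 * 0 + w1 * 1
      linear_combination e6
    · show b.val 1 0 * w0 + b.val 1 1 * w1 = v1 * (-1) + w1 * 0
      linear_combination e8

theorem X3_core (x b : SL2 R) (h1 : tr x = 2) (h2 : tr b = 0) (h3 : tr (x * b) = 1)
    (hu : (∃ u, x.val 0 1 * u = 1) ∨ ∃ u, x.val 1 0 * u = 1) :
    ∃ M K : Matrix (Fin 2) (Fin 2) R, M * K = 1 ∧ K * M = 1 ∧
      x.val * M = M * (mU 1).val ∧ b.val * M = M * (mB R).val := by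
  rw [tr_eq] at h1 h2
  rw [tr_eq, G.SL_mul, G.SL_mul] at h3
  have hx := G.SL_det x
  have hb := G.SL_det b
  rcases hu with ⟨u, hu⟩ | ⟨u, hu⟩
  · refine X3_mat x b (x.val 0 1) (1 - x.val 0 0)
      (b.val 0 0 * x.val 0 1 + b.val 0 1 * (1 - x.val 0 0))
      (b.val 1 0 * x.val 0 1 + b.val 1 1 * (1 - x.val 0 0)) (x.val 0 1) u
      ?_ ?_ ?_ ?_ rfl rfl ?_ ?_ ?_ hu
    all_goals
      generalize x.val 0 0 = x0 at *
      generalize x.val 0 1 = x1 at *
      generalize x.val 1 0 = x2 at *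
      generalize x.val 1 1 = x3 at *
      generalize b.val 0 0 = b0 at *
      generalize b.val 0 1 = b1 at *
      generalize b.val 1 0 = b2 at *
      generalize b.val 1 1 = b3 at *
      obtain rfl : x3 = 2 - x0 := by linear_combination h1
      obtain rfl : b3 = -b0 := by linear_combination h2
    · ring
    · linear_combination -hx
    · linear_combination x1 * h3 + b1 * hx
    · linear_combination (1 - x0) * h3 - b0 * hx
    · linear_combination -x1 * hb
    · linear_combination -(1 - x0) * hb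
    · linear_combination x1 * h3 + b1 * hx
  · refine X3_mat x b (x.val 0 0 - 1) (x.val 1 0)
      (b.val 0 0 * (x.val 0 0 - 1) + b.val 0 1 * x.val 1 0)
      (b.val 1 0 * (x.val 0 0 - 1) + b.val 1 1 * x.val 1 0) (-x.val 1 0) (-u)
      ?_ ?_ ?_ ?_ rfl rfl ?_ ?_ ?_ (by linear_combination hu)
    all_goals
      generalize x.val 0 0 = x0 at *
      generalize x.val 0 1 = x1 at *
      generalize x.val 1 0 = x2 at *
      generalize x.val 1 1 = x3 at *
      generalize b.val 0 0 = b0 at *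
      generalize b.val 0 1 = b1 at *
      generalize b.val 1 0 = b2 at *
      generalize b.val 1 1 = b3 at *
      obtain rfl : x3 = 2 - x0 := by linear_combination h1
      obtain rfl : b3 = -b0 := by linear_combination h2
    · linear_combination -hx
    · ring
    · linear_combination (x0 - 1) * h3 + b0 * hx
    · linear_combination x2 * h3 + b2 * hx
    · linear_combination -(x0 - 1) * hb
    · linear_combination -x2 * hb
    · linear_combination -x2 * h3 - b2 * hx

theorem X3_zero (N : Matrix (Fin 2) (Fin 2) R) (h1 : N.trace = 0)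
    (h2 : (N * (mU 1).val).trace = 0) (h3 : (N * (mB R).val).trace = 0)
    (h4 : (N * ((mU 1).val * (mB R).val)).trace = 0) : N = 0 := by
  rw [← Matrix.mul_assoc] at h4
  simp only [Matrix.trace_fin_two, Matrix.mul_apply, Fin.sum_univ_two] at h1 h2 h3 h4
  change N 0 0 * 1 + N 0 1 * 0 + (N 1 0 * 1 + N 1 1 * 1) = 0 at h2
  change N 0 0 * 0 + N 0 1 * 1 + (N 1 0 * (-1) + N 1 1 * 0) = 0 at h3
  change (N 0 0 * 1 + N 0 1 * 0) * 0 + (N 0 0 * 1 + N 0 1 * 1) * 1 +
    ((N 1 0 * 1 + N 1 1 * 0) * (-1) + (N 1 0 * 1 + N 1 1 * 1) * 0) = 0 at h4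
  ext i k
  fin_cases i <;> fin_cases k
  · show N 0 0 = 0
    linear_combination h4 - h3
  · show N 0 1 = 0
    linear_combination h3 + h2 - h1
  · show N 1 0 = 0
    linear_combination h2 - h1
  · show N 1 1 = 0
    linear_combination h1 - h4 + h3

end

theorem p_X3 : S_X3 := by
  rintro Λ _ r r' hT ⟨l₁, hl₁⟩ ⟨l₂, hl₂⟩
  have t1 : tr (r' l₁) = 2 := by
    rw [hT, hl₁, tr_eq]
    show (1 : E1 (ZMod 4)) + 1 = 2
    ring
  have t2 : tr (r' l₂) = 0 := by
    rw [hT, hl₂, tr_eq]
    show (0 : E1 (ZMod 4)) + 0 = 0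
    ring
  have t3 : tr (r' l₁ * r' l₂) = 1 := by
    rw [← map_mul, hT, map_mul, hl₁, hl₂, tr_eq, G.SL_mul, G.SL_mul]
    show (1 : E1 (ZMod 4)) * 0 + 1 * 1 + (0 * (-1) + 1 * 0) = 1
    ring
  have hu : (∃ u, (r' l₁).val 0 1 * u = 1) ∨ ∃ u, (r' l₁).val 1 0 * u = 1 := by
    have h1 := t1
    have h2 := t2
    have h3 := t3
    rw [tr_eq] at h1 h2
    rw [tr_eq, G.SL_mul, G.SL_mul] at h3
    refine X3_units (((r' l₁).val 0 0 - 1) * (r' l₂).val 0 0) _ ((r' l₂).val 1 0) _
      ((r' l₂).val 0 1) ?_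
    linear_combination h3 - (r' l₂).val 1 1 * h1 + ((r' l₁).val 0 0 - 2) * h2
  obtain ⟨M, K, hMK, hKM, hx, hb⟩ := X3_core (r' l₁) (r' l₂) t1 t2 t3 hu
  have cx : K * (r' l₁).val * M = (mU 1).val := by
    rw [Matrix.mul_assoc, hx, ← Matrix.mul_assoc, hKM, Matrix.one_mul]
  have cb : K * (r' l₂).val * M = (mB _).val := by
    rw [Matrix.mul_assoc, hb, ← Matrix.mul_assoc, hKM, Matrix.one_mul]
  have hprod : ∀ A B : Matrix (Fin 2) (Fin 2) (E1 (ZMod 4)),
      K * A * M * (K * B * M) = K * (A * B) * M := by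
    intro A B
    calc K * A * M * (K * B * M) = K * A * (M * K) * (B * M) := by
          simp only [Matrix.mul_assoc]
      _ = K * (A * B) * M := by
          rw [hMK, Matrix.mul_one]; simp only [Matrix.mul_assoc]
  have htr : ∀ A : Matrix (Fin 2) (Fin 2) (E1 (ZMod 4)), (K * A * M).trace = A.trace := by
    intro A
    rw [Matrix.mul_assoc, Matrix.trace_mul_comm, Matrix.mul_assoc, hMK, Matrix.mul_one]
  refine ⟨K, M, hKM, hMK, fun l => ?_⟩
  have key : ∀ l' : Λ, K * (r' l').val * M = (r l').val →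
      ((K * (r' l).val * M - (r l).val) * (r l').val).trace = 0 := by
    intro l' h
    rw [Matrix.sub_mul, Matrix.trace_sub]
    nth_rewrite 1 [← h]
    rw [hprod, htr]
    have e1 : (r' l).val * (r' l').val = (r' (l * l')).val := by
      rw [map_mul]; rfl
    have e2 : (r l).val * (r l').val = (r (l * l')).val := by
      rw [map_mul]; rfl
    rw [e1, e2]
    have := hT (l * l')
    unfold tr at this
    rw [this, sub_self]
  have k0 := key 1 (by
    rw [map_one, map_one]
    show K * 1 * M = 1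
    rw [Matrix.mul_one, hKM])
  have k1 := key l₁ (by rw [cx, hl₁])
  have k2 := key l₂ (by rw [cb, hl₂])
  have k3 := key (l₁ * l₂) (by
    rw [map_mul, map_mul]
    show K * ((r' l₁).val * (r' l₂).val) * M = (r l₁).val * (r l₂).val
    rw [← hprod, cx, cb, hl₁, hl₂])
  have hz : K * (r' l).val * M - (r l).val = 0 := by
    refine X3_zero _ ?_ ?_ ?_ ?_
    · rw [map_one] at k0
      have e : ((1 : SL2 (E1 (ZMod 4))).val : Matrix (Fin 2) (Fin 2) (E1 (ZMod 4))) = 1 := rfl
      rw [e, Matrix.mul_one] at k0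
      exact k0
    · rw [hl₁] at k1; exact k1
    · rw [hl₂] at k2; exact k2
    · rw [map_mul, hl₁, hl₂] at k3
      exact k3
  exact (sub_eq_zero.1 hz).symm

end Pool.Agent.F8.PIC
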