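import Pool.Agent.Lib.MP_305fdd_al.F8.PIC.Stm

/-!
# MP_305fdd_al, project PIC, piece fi: the index of `ρ(Λ)` is finite
-/

set_option autoImplicit false

namespace Pool.Agent.F8.PIC

open Pool.Agent.MP_305fdd_al Pool.Agent.Lib.MP_305fdd_al Pool.Agent.F2X Pool.Agent.F8
  Pool.Agent.F8.HN Pool.Agent.F8.AB Pool.Agent.F8.D1
open scoped QuadraticAlgebra

/-- A subgroup has finite index if finitely many translates of it by central elements cover a subgroup of
finite index. -/
theorem fi_cover {G : Type} [Group G] (R B : Subgroup G) [B.FiniteIndex] (e : G)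
    (he : ∀ x : G, e * x = x * e) (h : ∀ b ∈ B, b ∈ R ∨ e * b ∈ R) : R.FiniteIndex := by
  have hsurj : Function.Surjective
      (fun q : (G ⧸ B) × Bool => ((q.1.out * (if q.2 then 1 else e⁻¹) : G) : G ⧸ R)) := by
    intro y
    obtain ⟨x, rfl⟩ := QuotientGroup.mk_surjective y
    have h1 : ((x : G ⧸ B).out)⁻¹ * x ∈ B := by
      rw [← QuotientGroup.eq]
      exact Quotient.out_eq' _
    rcases h _ h1 with h2 | h2
    · refine ⟨((x : G ⧸ B), true), ?_⟩
      show (((x : G ⧸ B).out * (if true = true then 1 else e⁻¹) : G) : G ⧸ R) = (x : G ⧸ R)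
      rw [if_pos rfl, mul_one, QuotientGroup.eq]
      exact h2
    · refine ⟨((x : G ⧸ B), false), ?_⟩
      show (((x : G ⧸ B).out * (if false = true then 1 else e⁻¹) : G) : G ⧸ R) = (x : G ⧸ R)
      rw [if_neg (by decide), QuotientGroup.eq]
      have h3 : ((x : G ⧸ B).out * e⁻¹)⁻¹ * x = e * (((x : G ⧸ B).out)⁻¹ * x) := by
        rw [mul_inv_rev, inv_inv, mul_assoc]
      rw [h3]
      exact h2
  have : Finite (G ⧸ B) := inferInstance
  have : Finite (G ⧸ R) := Finite.of_surjective _ hsurj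
  exact Subgroup.finiteIndex_of_finite_quotient

theorem p_fi (h1 : S_eta) (h2 : S_h5) (h3 : S_m3) (h4 : S_fin) : S_fi := by
  intro Λ _ _ Φ ρ hρ
  obtain ⟨η, hη⟩ := h1
  obtain ⟨hL, hfg, hev, hodd, hlab⟩ := h2 Λ Φ ρ hρ η hη
  have hyp : Hyp5 (H5 ρ η) := ⟨hfg, hev, hodd, hlab, h3 Λ Φ ρ hρ η hη hL⟩
  have hH : (H5 ρ η).FiniteIndex := h4 _ hyp
  have hc : ((H5 ρ η).comap η).FiniteIndex := by
    have : (H5 ρ η).IsFiniteRelIndex η.range := Subgroup.isFiniteRelIndex_of_finiteIndex
    refine ⟨?_⟩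
    rw [Subgroup.index_comap]
    exact Subgroup.relIndex_ne_zero
  have hG5 : G5.FiniteIndex := by
    have : Finite (SL2 (E1 (ZMod 4))) := inferInstance
    have : A5.FiniteIndex := inferInstance
    have : A5.IsFiniteRelIndex (rd 4).range := Subgroup.isFiniteRelIndex_of_finiteIndex
    refine ⟨?_⟩
    unfold G5
    rw [Subgroup.index_comap]
    exact Subgroup.relIndex_ne_zero
  have hB : (((H5 ρ η).comap η).map G5.subtype).FiniteIndex := by
    refine ⟨?_⟩
    rw [Subgroup.index_map_subtype]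
    exact mul_ne_zero hc.index_ne_zero hG5.index_ne_zero
  refine fi_cover ρ.range (((H5 ρ η).comap η).map G5.subtype) (-1) ?_ ?_
  · intro x
    rw [neg_mul, mul_neg, one_mul, mul_one]
  · rintro b ⟨x, hx, rfl⟩
    have hx' : η x ∈ H5 ρ η := hx
    obtain ⟨a, ha, hax⟩ := hx'
    have ha' : a.val ∈ ρ.range := ha
    have h5 : η (a⁻¹ * x) = 1 := by
      rw [map_mul, map_inv, hax, inv_mul_cancel]
    rcases (hη.ker _).1 h5 with h6 | h6
    · left
      have h7 : (x : GG) = a := by
        have h8 : (a : GG)⁻¹ * (x : GG) = 1 := h6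
        exact (inv_mul_eq_one.1 h8).symm
      show (x : GG) ∈ ρ.range
      rw [h7]
      exact ha'
    · right
      have h8 : (a : GG)⁻¹ * (x : GG) = -1 := h6
      have h7 : (x : GG) = -(a : GG) := by
        rw [inv_mul_eq_iff_eq_mul] at h8
        rw [h8, mul_neg, mul_one]
      show (-1 : GG) * (x : GG) ∈ ρ.range
      rw [h7, neg_mul_neg, one_mul]
      exact ha'

end Pool.Agent.F8.PIC
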