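import Pool.Agent.Lib.MP_305fdd_al.F8.PIC.Stm
import Pool.Agent.Lib.MP_305fdd_al.Fr.L.Mat

/-!
# [PIC nf] the normal form of a representation of `SL₂(ℤ[i])`
-/

set_option autoImplicit false
set_option linter.unusedVariables false

namespace Pool.Agent.F8.PIC

open Pool.Agent.MP_305fdd_al Pool.Agent.Lib.MP_305fdd_al Pool.Agent.F2X Pool.Agent.F8
  Pool.Agent.F8.HN Pool.Agent.F8.AB Pool.Agent.F8.D1
open Pool.Agent.F8.D1.PG (mL)

theorem nf_r1 : mL * mL = (-1 : GG) := by decide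
theorem nf_r2 : mB O1 * mB O1 = (-1 : GG) := by decide
theorem nf_r3 : mB O1 * mL = (-1 : GG) * (mL * mB O1) := by decide
theorem nf_r4 : tt * mL * (tt * mL) = (-1 : GG) := by decide
theorem nf_r5 : uu * mL * (uu * mL) = (-1 : GG) := by decide
theorem nf_r6 : tt * mB O1 * (tt * mB O1) * (tt * mB O1) = (-1 : GG) := by decide
theorem nf_r7 : uu * mB O1 * mL * (uu * mB O1 * mL) * (uu * mB O1 * mL) = (1 : GG) := by decide
theorem nf_r8 : tt * uu = uu * tt := by decide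
theorem nf_r9 : (-1 : GG) * (-1) = 1 := by decide

section
variable {K : Type} [Field K]

theorem nf_ext {g h : SL2 K} (h1 : g.val 0 0 = h.val 0 0) (h2 : g.val 0 1 = h.val 0 1)
    (h3 : g.val 1 0 = h.val 1 0) (h4 : g.val 1 1 = h.val 1 1) : g = h := G.SL_ext h1 h2 h3 h4

/-- the square of a matrix -/
theorem nf_CH (g : SL2 K) (i j : Fin 2) :
    (g * g).val i j = tr g * g.val i j - (1 : SL2 K).val i j := by
  have hd := G.SL_det g
  rw [tr_eq, G.SL_mul]
  fin_cases i <;> fin_cases j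
  · show g.val 0 0 * g.val 0 0 + g.val 0 1 * g.val 1 0 = (g.val 0 0 + g.val 1 1) * g.val 0 0 - 1
    linear_combination (-1) * hd
  · show g.val 0 0 * g.val 0 1 + g.val 0 1 * g.val 1 1 = (g.val 0 0 + g.val 1 1) * g.val 0 1 - 0
    ring
  · show g.val 1 0 * g.val 0 0 + g.val 1 1 * g.val 1 0 = (g.val 0 0 + g.val 1 1) * g.val 1 0 - 0
    ring
  · show g.val 1 0 * g.val 0 1 + g.val 1 1 * g.val 1 1 = (g.val 0 0 + g.val 1 1) * g.val 1 1 - 1
    linear_combination (-1) * hd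

/-- the cube of a matrix -/
theorem nf_CH3 (g : SL2 K) (i j : Fin 2) :
    (g * g * g).val i j = (tr g ^ 2 - 1) * g.val i j - tr g * (1 : SL2 K).val i j := by
  have h1 := nf_CH g i j
  rw [G.SL_mul] at h1
  rw [G.SL_mul, nf_CH, nf_CH]
  have h2 : (1 : SL2 K).val i 0 * g.val 0 j + (1 : SL2 K).val i 1 * g.val 1 j = g.val i j := by
    rw [← G.SL_mul, one_mul]
  linear_combination tr g * h1 - h2

theorem nf_sq_one (h2 : (2 : K) ≠ 0) (g : SL2 K) (h : g * g = 1) : g = 1 ∨ g = -1 := by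
  have e1 := nf_CH g 0 1
  have e2 := nf_CH g 1 0
  have e3 := nf_CH g 0 0
  have e4 := nf_CH g 1 1
  rw [h] at e1 e2 e3 e4
  have o1 : (1 : SL2 K).val 0 1 = 0 := G.one01
  have o2 : (1 : SL2 K).val 1 0 = 0 := G.one10
  have o3 : (1 : SL2 K).val 0 0 = 1 := G.one00
  have o4 : (1 : SL2 K).val 1 1 = 1 := G.one11
  rw [o1] at e1
  rw [o2] at e2
  rw [o3] at e3
  rw [o4] at e4
  have ht : tr g ≠ 0 := by
    intro h0
    rw [h0, zero_mul] at e3
    exact h2 (by linear_combination e3)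
  have a1 : g.val 0 1 = 0 := by
    have : tr g * g.val 0 1 = 0 := by linear_combination (-1) * e1
    exact (mul_eq_zero.1 this).resolve_left ht
  have a2 : g.val 1 0 = 0 := by
    have : tr g * g.val 1 0 = 0 := by linear_combination (-1) * e2
    exact (mul_eq_zero.1 this).resolve_left ht
  have a3 : g.val 0 0 = g.val 1 1 := by
    apply mul_left_cancel₀ ht
    linear_combination e4 - e3
  have hd := G.SL_det g
  rw [a1, ← a3] at hd
  have a4 : (g.val 0 0 - 1) * (g.val 0 0 + 1) = 0 := by linear_combination hd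
  rcases mul_eq_zero.1 a4 with a5 | a5
  · left
    have a6 : g.val 0 0 = 1 := by linear_combination a5
    exact nf_ext (by rw [a6, o3]) (by rw [a1, o1]) (by rw [a2, o2]) (by rw [← a3, a6, o4])
  · right
    have a6 : g.val 0 0 = -1 := by linear_combination a5
    exact nf_ext (by rw [a6, G.SL_neg, o3]) (by rw [a1, G.SL_neg, o1, neg_zero])
      (by rw [a2, G.SL_neg, o2, neg_zero]) (by rw [← a3, a6, G.SL_neg, o4])

theorem nf_sq_neg (h2 : (2 : K) ≠ 0) (g : SL2 K) (h : g * g = -1) : tr g = 0 := by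
  have e1 := nf_CH g 0 1
  have e2 := nf_CH g 1 0
  have e3 := nf_CH g 0 0
  have e4 := nf_CH g 1 1
  rw [h, G.SL_neg, G.one01] at e1
  rw [h, G.SL_neg, G.one10] at e2
  rw [h, G.SL_neg, G.one00] at e3
  rw [h, G.SL_neg, G.one11] at e4
  by_contra ht
  have a1 : g.val 0 0 = 0 := by
    have : tr g * g.val 0 0 = 0 := by linear_combination (-1) * e3
    exact (mul_eq_zero.1 this).resolve_left ht
  have a2 : g.val 1 1 = 0 := by
    have : tr g * g.val 1 1 = 0 := by linear_combination (-1) * e4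
    exact (mul_eq_zero.1 this).resolve_left ht
  apply ht
  rw [tr_eq, a1, a2, add_zero]

/-- a matrix with `g ^ 3 = -1` -/
theorem nf_cu_neg (h2 : (2 : K) ≠ 0) (g : SL2 K) (h : g * g * g = -1) : tr g = 1 ∨ g = -1 := by
  have e1 := nf_CH3 g 0 1
  have e2 := nf_CH3 g 1 0
  have e3 := nf_CH3 g 0 0
  have e4 := nf_CH3 g 1 1
  rw [h, G.SL_neg, G.one01] at e1
  rw [h, G.SL_neg, G.one10] at e2
  rw [h, G.SL_neg, G.one00] at e3
  rw [h, G.SL_neg, G.one11] at e4
  by_cases ht : tr g - 1 = 0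
  · left; linear_combination ht
  right
  have a1 : (tr g + 1) * g.val 0 1 = 0 := by
    have : (tr g - 1) * ((tr g + 1) * g.val 0 1) = 0 := by linear_combination (-1) * e1
    exact (mul_eq_zero.1 this).resolve_left ht
  have a2 : (tr g + 1) * g.val 1 0 = 0 := by
    have : (tr g - 1) * ((tr g + 1) * g.val 1 0) = 0 := by linear_combination (-1) * e2
    exact (mul_eq_zero.1 this).resolve_left ht
  have a3 : (tr g + 1) * g.val 0 0 - 1 = 0 := by
    have : (tr g - 1) * ((tr g + 1) * g.val 0 0 - 1) = 0 := by linear_combination (-1) * e3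
    exact (mul_eq_zero.1 this).resolve_left ht
  have a4 : (tr g + 1) * g.val 1 1 - 1 = 0 := by
    have : (tr g - 1) * ((tr g + 1) * g.val 1 1 - 1) = 0 := by linear_combination (-1) * e4
    exact (mul_eq_zero.1 this).resolve_left ht
  have h1 : tr g + 1 ≠ 0 := by
    intro h0
    rw [h0, zero_mul, zero_sub] at a3
    exact one_ne_zero (neg_eq_zero.1 a3)
  have b1 := (mul_eq_zero.1 a1).resolve_left h1
  have b2 := (mul_eq_zero.1 a2).resolve_left h1
  have b3 : g.val 0 0 = g.val 1 1 := by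
    apply mul_left_cancel₀ h1
    linear_combination a3 - a4
  have hd := G.SL_det g
  rw [b1, ← b3] at hd
  rw [tr_eq, ← b3] at a3
  have b4 : g.val 0 0 = -1 := by linear_combination a3 - 2 * hd
  exact nf_ext (by rw [b4, G.SL_neg, G.one00]) (by rw [b1, G.SL_neg, G.one01, neg_zero])
    (by rw [b2, G.SL_neg, G.one10, neg_zero]) (by rw [← b3, b4, G.SL_neg, G.one11])

/-- a matrix with `g ^ 3 = 1` -/
theorem nf_cu_one (h2 : (2 : K) ≠ 0) (g : SL2 K) (h : g * g * g = 1) : tr g = -1 ∨ g = 1 := by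
  have h3 : (-g) * (-g) * (-g) = -1 := by
    rw [neg_mul_neg, mul_neg, h]
  rcases nf_cu_neg h2 (-g) h3 with h4 | h4
  · left
    rw [tr_eq, G.SL_neg, G.SL_neg] at h4
    rw [tr_eq]
    linear_combination (-1) * h4
  · right
    exact neg_injective h4

end

/-- the case `ρ (-1) = 1` does not occur -/
theorem nf_neg {K : Type} [Field K] (h2 : (2 : K) ≠ 0) (ρ : GG →* SL2 K) (hI : Irr ρ) :
    ρ (-1) = -1 := by
  have h1 : ρ (-1) * ρ (-1) = 1 := by rw [← map_mul, nf_r9, map_one]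
  rcases nf_sq_one h2 _ h1 with h3 | h3
  · exfalso
    have hc : ∀ g : SL2 K, g = 1 ∨ g = -1 → g ∈ Subgroup.center (SL2 K) := by
      rintro g (rfl | rfl)
      · exact Subgroup.one_mem _
      · rw [Subgroup.mem_center_iff]
        intro x
        rw [mul_neg, neg_mul, one_mul, mul_one]
    have hL : ρ mL ∈ Subgroup.center (SL2 K) :=
      hc _ (nf_sq_one h2 _ (by rw [← map_mul, nf_r1, h3]))
    have hB : ρ (mB O1) ∈ Subgroup.center (SL2 K) :=
      hc _ (nf_sq_one h2 _ (by rw [← map_mul, nf_r2, h3]))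
    have hT : ρ (tt * mL) ∈ Subgroup.center (SL2 K) :=
      hc _ (nf_sq_one h2 _ (by rw [← map_mul, nf_r4, h3]))
    have hU : ρ (uu * mL) ∈ Subgroup.center (SL2 K) :=
      hc _ (nf_sq_one h2 _ (by rw [← map_mul, nf_r5, h3]))
    rw [map_mul] at hT hU
    have hT' : ρ tt ∈ Subgroup.center (SL2 K) := by
      have := Subgroup.mul_mem _ hT (Subgroup.inv_mem _ hL)
      rwa [mul_inv_cancel_right] at this
    have hU' : ρ uu ∈ Subgroup.center (SL2 K) := by
      have := Subgroup.mul_mem _ hU (Subgroup.inv_mem _ hL)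
      rwa [mul_inv_cancel_right] at this
    have hall : ∀ g : GG, ρ g ∈ Subgroup.center (SL2 K) := fun g =>
      PG.SL_sub ((Subgroup.center (SL2 K)).comap ρ) hT' hU' hB hL g
    obtain ⟨g, h, hgh⟩ := hI
    apply hgh
    have h4 : ρ (g * h * g⁻¹ * h⁻¹) = 1 := by
      have h5 := Subgroup.mem_center_iff.1 (hall g) (ρ h)
      rw [map_mul, map_mul, map_mul, map_inv, map_inv, ← h5, mul_inv_cancel_right,
        mul_inv_cancel]
    rw [h4, tr_eq, G.one00, G.one11]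
    norm_num
  · exact h3

/-- the first step: `mL` and `mB` -/
theorem nf_LB {K : Type} [Field K] [IsAlgClosed K] (h2 : (2 : K) ≠ 0) (ρ : GG →* SL2 K)
    (hE : ρ (-1) = -1) : ∃ (C : SL2 K) (w : K), w * w = -1 ∧
      (C * ρ mL * C⁻¹).val = !![w, 0; 0, -w] ∧ (C * ρ (mB O1) * C⁻¹).val = !![0, -1; 1, 0] := by
  obtain ⟨w, hw⟩ := IsAlgClosed.exists_pow_nat_eq (-1 : K) (n := 2) (by norm_num)
  have hw' : w * w = -1 := by rw [← hw]; ring
  have hw0 : w ≠ 0 := by
    rintro rfl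
    rw [mul_zero] at hw'
    exact one_ne_zero (neg_eq_zero.1 hw'.symm)
  let ψ : Kˣ := ⟨w, -w, by rw [mul_neg, hw', neg_neg], by rw [neg_mul, hw', neg_neg]⟩
  have hψ1 : (ψ : K) = w := rfl
  have hψ2 : ((ψ⁻¹ : Kˣ) : K) = -w := rfl
  have hL0 : tr (ρ mL) = 0 := nf_sq_neg h2 _ (by rw [← map_mul, nf_r1, hE])
  obtain ⟨q, hq⟩ := FrL.exists_diag (ρ mL) ψ (by
    rw [hψ1, hψ2]
    intro h
    apply mul_ne_zero h2 hw0
    linear_combination h) (by
    rw [hψ1, hψ2, add_neg_cancel]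
    exact hL0)
  -- the image of `mB`
  obtain ⟨B', hB'⟩ : ∃ B' : SL2 K, B' = q⁻¹ * ρ (mB O1) * q := ⟨_, rfl⟩
  have hBL : B' * FrL.dg ψ = -(FrL.dg ψ * B') := by
    rw [← hq, hB']
    have h3 : ρ (mB O1) * ρ mL = -(ρ mL * ρ (mB O1)) := by
      rw [← map_mul, nf_r3, map_mul, hE, map_mul, neg_one_mul]
    calc q⁻¹ * ρ (mB O1) * q * (q⁻¹ * ρ mL * q) = q⁻¹ * (ρ (mB O1) * ρ mL) * q := by group
      _ = -(q⁻¹ * (ρ mL * ρ (mB O1)) * q) := by rw [h3, mul_neg, neg_mul]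
      _ = -(q⁻¹ * ρ mL * q * (q⁻¹ * ρ (mB O1) * q)) := by
          congr 1
          group
  have d00 : (FrL.dg ψ).val 0 0 = w := rfl
  have d01 : (FrL.dg ψ).val 0 1 = 0 := rfl
  have d10 : (FrL.dg ψ).val 1 0 = 0 := rfl
  have d11 : (FrL.dg ψ).val 1 1 = -w := rfl
  have b00 : B'.val 0 0 = 0 := by
    have h3 : (B' * FrL.dg ψ).val 0 0 = (-(FrL.dg ψ * B')).val 0 0 := by rw [hBL]
    rw [G.SL_neg, G.SL_mul, G.SL_mul, d00, d10, d01] at h3
    have h4 : (2 * w) * B'.val 0 0 = 0 := by linear_combination h3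
    exact (mul_eq_zero.1 h4).resolve_left (mul_ne_zero h2 hw0)
  have b11 : B'.val 1 1 = 0 := by
    have h3 : (B' * FrL.dg ψ).val 1 1 = (-(FrL.dg ψ * B')).val 1 1 := by rw [hBL]
    rw [G.SL_neg, G.SL_mul, G.SL_mul, d11, d10, d01] at h3
    have h4 : (2 * w) * B'.val 1 1 = 0 := by linear_combination (-1) * h3
    exact (mul_eq_zero.1 h4).resolve_left (mul_ne_zero h2 hw0)
  have hd := G.SL_det B'
  rw [b00, b11, mul_zero, zero_sub] at hd
  have b01 : B'.val 0 1 ≠ 0 := by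
    intro h
    rw [h, zero_mul, neg_zero] at hd
    exact zero_ne_one hd
  obtain ⟨t, ht⟩ := IsAlgClosed.exists_pow_nat_eq (-(B'.val 0 1)) (n := 2) (by norm_num)
  have ht0 : t ≠ 0 := by
    rintro rfl
    rw [zero_pow (by norm_num)] at ht
    exact b01 (neg_eq_zero.1 ht.symm)
  let τ : Kˣ := Units.mk0 t ht0
  have t00 : (FrL.dg τ).val 0 0 = t := rfl
  have t01 : (FrL.dg τ).val 0 1 = 0 := rfl
  have t10 : (FrL.dg τ).val 1 0 = 0 := rfl
  have t11 : (FrL.dg τ).val 1 1 = t⁻¹ := rfl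
  have tt1 : t * t⁻¹ = 1 := mul_inv_cancel₀ ht0
  refine ⟨(q * FrL.dg τ)⁻¹, w, hw', ?_, ?_⟩
  · have h3 : (q * FrL.dg τ)⁻¹ * ρ mL * (q * FrL.dg τ)⁻¹⁻¹ = FrL.dg ψ := by
      have h4 : FrL.dg ψ * FrL.dg τ = FrL.dg τ * FrL.dg ψ := by
        apply nf_ext
        · rw [G.SL_mul, G.SL_mul, d00, d01, d10, t00, t01, t10]; ring
        · rw [G.SL_mul, G.SL_mul, d00, d01, d11, t00, t01, t11]; ring
        · rw [G.SL_mul, G.SL_mul, d00, d10, d11, t00, t10, t11]; ring
        · rw [G.SL_mul, G.SL_mul, d01, d10, d11, t01, t10, t11]; ring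
      calc (q * FrL.dg τ)⁻¹ * ρ mL * (q * FrL.dg τ)⁻¹⁻¹
          = (FrL.dg τ)⁻¹ * (q⁻¹ * ρ mL * q * FrL.dg τ) := by group
        _ = FrL.dg ψ := by rw [hq, h4, inv_mul_cancel_left]
    rw [h3]
    rfl
  · have h3 : (q * FrL.dg τ)⁻¹ * ρ (mB O1) * (q * FrL.dg τ)⁻¹⁻¹ = mB K := by
      have h4 : B' * FrL.dg τ = FrL.dg τ * mB K := by
        apply nf_ext
        · rw [G.SL_mul, G.SL_mul, G.mB00, G.mB10, b00, t10, t01]; ring
        · rw [G.SL_mul, G.SL_mul, G.mB01, G.mB11, b00, t01, t00, t11]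
          linear_combination t⁻¹ * ht - t * tt1
        · rw [G.SL_mul, G.SL_mul, G.mB00, G.mB10, b11, t00, t10, t11]
          have h5 : t ^ 2 * B'.val 1 0 = 1 := by rw [ht]; linear_combination hd
          linear_combination t⁻¹ * h5 - t * B'.val 1 0 * tt1
        · rw [G.SL_mul, G.SL_mul, G.mB01, G.mB11, b11, t01, t10]; ring
      calc (q * FrL.dg τ)⁻¹ * ρ (mB O1) * (q * FrL.dg τ)⁻¹⁻¹
          = (FrL.dg τ)⁻¹ * (q⁻¹ * ρ (mB O1) * q * FrL.dg τ) := by group
        _ = mB K := by rw [← hB', h4, inv_mul_cancel_left]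
    rw [h3]
    rfl

theorem p_nf : S_nf := by
  intro K _ _ h2 ρ hI
  have hE := nf_neg h2 ρ hI
  obtain ⟨C, w, hw, hL, hB⟩ := nf_LB h2 ρ hE
  obtain ⟨σ, hσ⟩ : ∃ σ : GG →* SL2 K, σ = (MulAut.conj C).toMonoidHom.comp ρ := ⟨_, rfl⟩
  have hσ' : ∀ g, σ g = C * ρ g * C⁻¹ := by
    intro g; rw [hσ]; rfl
  have hσE : σ (-1) = -1 := by
    rw [hσ', hE, mul_neg, neg_mul, mul_one, mul_inv_cancel]
  rw [← hσ'] at hL hB
  have hw0 : w ≠ 0 := by
    rintro rfl
    rw [mul_zero] at hw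
    exact one_ne_zero (neg_eq_zero.1 hw.symm)
  have L00 : (σ mL).val 0 0 = w := by rw [hL]; rfl
  have L01 : (σ mL).val 0 1 = 0 := by rw [hL]; rfl
  have L10 : (σ mL).val 1 0 = 0 := by rw [hL]; rfl
  have L11 : (σ mL).val 1 1 = -w := by rw [hL]; rfl
  have B00 : (σ (mB O1)).val 0 0 = 0 := by rw [hB]; rfl
  have B01 : (σ (mB O1)).val 0 1 = -1 := by rw [hB]; rfl
  have B10 : (σ (mB O1)).val 1 0 = 1 := by rw [hB]; rfl
  have B11 : (σ (mB O1)).val 1 1 = 0 := by rw [hB]; rfl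
  -- the diagonals of `T`, `U`
  have hT1 : (σ tt).val 1 1 = (σ tt).val 0 0 := by
    have h3 := nf_sq_neg h2 (σ tt * σ mL) (by rw [← map_mul, ← map_mul, nf_r4, hσE])
    rw [tr_eq, G.SL_mul, G.SL_mul, L00, L01, L10, L11] at h3
    apply mul_left_cancel₀ hw0
    linear_combination (-1) * h3
  have hU1 : (σ uu).val 1 1 = (σ uu).val 0 0 := by
    have h3 := nf_sq_neg h2 (σ uu * σ mL) (by rw [← map_mul, ← map_mul, nf_r5, hσE])
    rw [tr_eq, G.SL_mul, G.SL_mul, L00, L01, L10, L11] at h3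
    apply mul_left_cancel₀ hw0
    linear_combination (-1) * h3
  obtain ⟨p, hp⟩ : ∃ p, p = (σ tt).val 0 0 := ⟨_, rfl⟩
  obtain ⟨x, hx⟩ : ∃ x, x = (σ tt).val 0 1 := ⟨_, rfl⟩
  obtain ⟨y, hy⟩ : ∃ y, y = (σ tt).val 1 0 := ⟨_, rfl⟩
  obtain ⟨q, hq⟩ : ∃ q, q = (σ uu).val 0 0 := ⟨_, rfl⟩
  obtain ⟨x', hx'⟩ : ∃ x', x' = (σ uu).val 0 1 := ⟨_, rfl⟩
  obtain ⟨y', hy'⟩ : ∃ y', y' = (σ uu).val 1 0 := ⟨_, rfl⟩
  have hdT := G.SL_det (σ tt)
  have hdU := G.SL_det (σ uu)
  rw [hT1, ← hp, ← hx, ← hy] at hdT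
  rw [hU1, ← hq, ← hx', ← hy'] at hdU
  -- commutation
  have hcom : x * y' = x' * y := by
    have h3 : (σ tt * σ uu).val 0 0 = (σ uu * σ tt).val 0 0 := by
      rw [← map_mul, ← map_mul, nf_r8]
    rw [G.SL_mul, G.SL_mul, ← hp, ← hx, ← hy, ← hq, ← hx', ← hy'] at h3
    linear_combination h3
  -- the cubes
  have hTB : x - y = 1 ∨ (x = -1 ∧ y = 1) := by
    rcases nf_cu_neg h2 (σ tt * σ (mB O1)) (by
      rw [← map_mul, ← map_mul, ← map_mul, nf_r6, hσE]) with h3 | h3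
    · left
      rw [tr_eq, G.SL_mul, G.SL_mul, B00, B01, B10, B11, ← hx, ← hy] at h3
      linear_combination h3
    · right
      constructor
      · have h4 : (σ tt * σ (mB O1)).val 0 0 = (-1 : SL2 K).val 0 0 := by rw [h3]
        rw [G.SL_mul, B00, B10, ← hx, G.SL_neg, G.one00] at h4
        linear_combination h4
      · have h4 : (σ tt * σ (mB O1)).val 1 1 = (-1 : SL2 K).val 1 1 := by rw [h3]
        rw [G.SL_mul, B01, B11, ← hy, G.SL_neg, G.one11] at h4
        linear_combination (-1) * h4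
  have hUBL : w * (x' + y') = -1 ∨ (w * x' = 1 ∧ w * y' = 1) := by
    rcases nf_cu_one h2 (σ uu * σ (mB O1) * σ mL) (by
      rw [← map_mul, ← map_mul, ← map_mul, ← map_mul, nf_r7, map_one]) with h3 | h3
    · left
      rw [tr_eq, G.SL_mul, G.SL_mul, G.SL_mul, G.SL_mul, G.SL_mul, G.SL_mul, L00, L01, L10, L11,
        B00, B01, B10, B11, ← hx', ← hy'] at h3
      linear_combination h3
    · right
      constructor
      · have h4 : (σ uu * σ (mB O1) * σ mL).val 0 0 = (1 : SL2 K).val 0 0 := by rw [h3]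
        rw [G.SL_mul, G.SL_mul, G.SL_mul, L00, L10, B00, B10, B01, B11, ← hx', G.one00] at h4
        linear_combination h4
      · have h4 : (σ uu * σ (mB O1) * σ mL).val 1 1 = (1 : SL2 K).val 1 1 := by rw [h3]
        rw [G.SL_mul, G.SL_mul, G.SL_mul, L01, L11, B00, B10, B01, B11, ← hy', G.one11] at h4
        linear_combination h4
  have hxy : x - y = 1 := by
    rcases hTB with h3 | ⟨h3, h4⟩
    · exact h3
    · exfalso
      rw [h3, h4] at hcom
      rcases hUBL with h5 | ⟨h5, h6⟩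
      · have h7 : x' + y' = 0 := by linear_combination (-1) * hcom
        rw [h7, mul_zero] at h5
        exact one_ne_zero (neg_eq_zero.1 h5.symm)
      · apply h2
        linear_combination (-1) * h5 - h6 - w * hcom
  have hxy' : w * (x' + y') = -1 := by
    rcases hUBL with h3 | ⟨h3, h4⟩
    · exact h3
    · exfalso
      have h5 : x = y := by
        linear_combination x * h4 * (-1) + y * h3 + w * hcom
      rw [h5, sub_self] at hxy
      exact zero_ne_one hxy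
  obtain ⟨s, hs⟩ : ∃ s, s = x + y := ⟨_, rfl⟩
  obtain ⟨l, hl⟩ : ∃ l, l = x' - y' := ⟨_, rfl⟩
  have hlx : x' = l * x := by rw [hl]; linear_combination (-x') * hxy + hcom
  have hly : y' = l * y := by rw [hl]; linear_combination (-y') * hxy + hcom
  have hls : w * l * s = -1 := by
    rw [hs]; rw [hlx, hly] at hxy'; linear_combination hxy'
  have hs0 : s ≠ 0 := by
    rintro rfl
    rw [mul_zero] at hls
    exact one_ne_zero (neg_eq_zero.1 hls.symm)
  have hl' : l = w / s := by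
    rw [eq_div_iff hs0]
    linear_combination (-w) * hls + (l * s) * hw
  have hx1 : x = (s + 1) / 2 := by
    rw [eq_div_iff h2, hs]; linear_combination hxy
  have hy1 : y = (s - 1) / 2 := by
    rw [eq_div_iff h2, hs]; linear_combination (-1) * hxy
  refine ⟨C, w, s, p, q, ?_⟩
  rw [← hσ]
  have h2x : 2 * x = s + 1 := by rw [hs]; linear_combination hxy
  have h2y : 2 * y = s - 1 := by rw [hs]; linear_combination (-1) * hxy
  refine ⟨hw, hs0, ?_, ?_, hL, hB, ?_, ?_⟩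
  · linear_combination 4 * hdT + 2 * y * h2x + (s + 1) * h2y
  · rw [hlx, hly] at hdU
    have h5 : (l * s) ^ 2 = -1 := by
      linear_combination (-(w * l * s - 1)) * hls + (l * s) ^ 2 * hw
    have h6 : 4 * (x * y) = s ^ 2 - 1 := by
      linear_combination 2 * y * h2x + (s + 1) * h2y
    linear_combination 4 * s ^ 2 * hdU + 4 * (x * y) * h5 - h6
  · apply Matrix.ext
    intro i j
    fin_cases i <;> fin_cases j
    · exact hp.symm
    · show (σ tt).val 0 1 = (s + 1) / 2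
      rw [← hx, hx1]
    · show (σ tt).val 1 0 = (s - 1) / 2
      rw [← hy, hy1]
    · show (σ tt).val 1 1 = p
      rw [hT1, hp]
  · apply Matrix.ext
    intro i j
    fin_cases i <;> fin_cases j
    · exact hq.symm
    · show (σ uu).val 0 1 = w / s * ((s + 1) / 2)
      rw [← hx', hlx, hl', hx1]
    · show (σ uu).val 1 0 = w / s * ((s - 1) / 2)
      rw [← hy', hly, hl', hy1]
    · show (σ uu).val 1 1 = q
      rw [hU1, hq]

end Pool.Agent.F8.PIC
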