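import Pool.Agent.Lib.MP_305fdd_al.F8.PIC.Stm

/-!
# MP_305fdd_al, the Picard group: piece sp
-/

set_option autoImplicit false

namespace Pool.Agent.F8.PIC

open Pool.Agent.MP_305fdd_al Pool.Agent.Lib.MP_305fdd_al Pool.Agent.F2X Pool.Agent.F8
  Pool.Agent.F8.HN Pool.Agent.F8.AB Pool.Agent.F8.D1

/-- an element of `R` with a prescribed nonzero value in `X` is not killed -/
theorem sp_key {K k : Type} [Field K] [Field k] {R : Subring K} {π : R →+* k} {G : Type} [Group G]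
    {T : Set (G →* Q2 K)} {X : Set K} (hS : SpR π T X) (r : R) (x : K) (hr : (r : K) = x)
    (hx : x ∈ X) (h0 : x ≠ 0) : π r ≠ 0 := by
  subst hr
  exact hS.ne (r : K) r.2 hx h0

/-- the trace of a specialised representation -/
theorem sp_tr {K G : Type} [Field K] [Group G] {R : Subring K} (ρ : G →* SL2 K) (ρ' : G →* SL2 R)
    (h : (SLm R.subtype).comp ρ' = ρ) (g : G) : ((tr (ρ' g) : R) : K) = tr (ρ g) := by
  rw [← h]
  exact (tr_map R.subtype _).symm

/-- base change from a subring is injective -/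
theorem sp_inj {K : Type} [Field K] (R : Subring K) (x y : SL2 R)
    (h : SLm R.subtype x = SLm R.subtype y) : x = y := by
  apply Subtype.ext
  apply Matrix.ext
  intro i j
  apply Subtype.val_injective
  have h1 := congrArg (fun z : SL2 K => z.val i j) h
  exact h1

/-- the specialisation of the data -/
theorem sp_core (hwm : S_wm) (Λ : Type) [Group Λ] (P : Subgroup Λ) (K : Type) [Field K]
    (h2 : (2 : K) ≠ 0) (N : ℕ) (hG : GdP P K N) :
    ∃ (T : Set (Λ × P →* Q2 K)) (X : Set K), T.Finite ∧ X.Finite ∧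
      ∀ (k : Type) [Field k] (R : Subring K) (π : R →+* k), SpR π T X →
      (2 : k) ≠ 0 ∧ GdP P k N := by
  obtain ⟨ρ, hP, hd⟩ := hG
  choose hI hE using hP
  choose a b hab using hI
  choose Θ hm ht hN using hE
  choose c d hcd using hN
  have hcd' : ∀ i, ∃ s, Q2.W (Θ i (c i)) (Θ i (d i)) s ≠ 0 := fun i => by
    by_contra hc
    push Not at hc
    exact hcd i (funext hc)
  choose s hs using hcd'
  have hd' : ∀ p : Fin N × Fin N, ∃ g, p.1 ≠ p.2 → tr (ρ p.1 g) ≠ tr (ρ p.2 g) := fun p => by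
    by_cases hp : p.1 = p.2
    · exact ⟨1, fun h => absurd hp h⟩
    · obtain ⟨g, hg⟩ := hd p.1 p.2 hp
      exact ⟨g, fun _ => hg⟩
  choose g hg using hd'
  refine ⟨Set.range (fun i => (q0 (ρ i)).comp (MonoidHom.fst Λ P)) ∪
      Set.range (fun i => (Θ i).comp (MonoidHom.snd Λ P)),
    ({2} ∪ Set.range (fun i => Q2.W (Θ i (c i)) (Θ i (d i)) (s i))) ∪
      (Set.range (fun i => tr (((ρ i).comp P.subtype) (a i * b i * (a i)⁻¹ * (b i)⁻¹)) - 2) ∪
        Set.range (fun p : Fin N × Fin N => tr (ρ p.1 (g p)) - tr (ρ p.2 (g p)))), ?_, ?_, ?_⟩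
  · exact (Set.finite_range _).union (Set.finite_range _)
  · exact ((Set.finite_singleton _).union (Set.finite_range _)).union
      ((Set.finite_range _).union (Set.finite_range _))
  intro k _ R π hS
  have hρ : ∀ i, ∃ ρ' : Λ →* SL2 R, (SLm R.subtype).comp ρ' = ρ i := by
    intro i
    obtain ⟨Θ', h⟩ := hS.hom _ (Or.inl ⟨i, rfl⟩)
    refine ⟨(Q2.mH.comp Θ').comp (MonoidHom.inl _ _), ?_⟩
    ext1 x
    have h3 := congrArg Q2.m (DFunLike.congr_fun h (MonoidHom.inl Λ P x))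
    exact h3
  have hΘ : ∀ i, ∃ Θ' : P →* Q2 R, (Q2.map R.subtype).comp Θ' = Θ i := by
    intro i
    obtain ⟨Θ', h⟩ := hS.hom _ (Or.inr ⟨i, rfl⟩)
    refine ⟨Θ'.comp (MonoidHom.inr _ _), ?_⟩
    ext1 x
    have h3 := DFunLike.congr_fun h (MonoidHom.inr Λ P x)
    exact h3
  choose ρ' hρ' using hρ
  choose Θ' hΘ' using hΘ
  constructor
  · have h1 := sp_key hS 2 2 rfl (Or.inl (Or.inl rfl)) h2
    rwa [map_ofNat] at h1
  refine ⟨fun i => (SLm π).comp (ρ' i), fun i => ⟨?_, ?_⟩, fun i j hij => ?_⟩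
  · refine ⟨a i, b i, fun h0 => ?_⟩
    have e1 := sp_tr (ρ i) (ρ' i) (hρ' i) (P.subtype (a i * b i * (a i)⁻¹ * (b i)⁻¹))
    refine sp_key hS (tr (ρ' i (P.subtype (a i * b i * (a i)⁻¹ * (b i)⁻¹))) - 2)
      (tr (((ρ i).comp P.subtype) (a i * b i * (a i)⁻¹ * (b i)⁻¹)) - 2) ?_
      (Or.inr (Or.inl ⟨i, rfl⟩)) (fun h3 => hab i (sub_eq_zero.1 h3)) ?_
    · have e2 : (((tr (ρ' i (P.subtype (a i * b i * (a i)⁻¹ * (b i)⁻¹))) : R) : K)) - 2 =
          tr (ρ i (P.subtype (a i * b i * (a i)⁻¹ * (b i)⁻¹))) - 2 := by rw [e1]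
      exact e2
    · have h4 : tr (SLm π (ρ' i (P.subtype (a i * b i * (a i)⁻¹ * (b i)⁻¹)))) = 2 := h0
      rw [map_sub, ← tr_map, h4, map_ofNat, sub_self]
  · refine ⟨(Q2.map π).comp (Θ' i), ?_, ?_, c i, d i, fun h0 => ?_⟩
    · ext1 x
      show SLm π (Θ' i x).m = SLm π (ρ' i (P.subtype x))
      have h3 : (Θ' i x).m = ρ' i (P.subtype x) := by
        apply sp_inj R
        have h4 : (Q2.map R.subtype (Θ' i x)).m = (Θ i x).m :=
          congrArg Q2.m (DFunLike.congr_fun (hΘ' i) x)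
        have h5 : SLm R.subtype (ρ' i (P.subtype x)) = ρ i (P.subtype x) :=
          DFunLike.congr_fun (hρ' i) _
        have h6 : (Θ i x).m = ρ i (P.subtype x) := DFunLike.congr_fun (hm i) x
        rw [h5, ← h6, ← h4]
        rfl
      rw [h3]
    · ext1 x
      have h4 : (Q2.map R.subtype (Θ' i x)).t = (Θ i x).t :=
        congrArg Q2.t (DFunLike.congr_fun (hΘ' i) x)
      have h5 : (Θ i x).t = 1 := DFunLike.congr_fun (ht i) x
      have h6 : (Θ' i x).t = 1 := by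
        apply Units.map_injective (f := R.subtype.toMonoidHom) Subtype.val_injective
        rw [map_one, ← h5, ← h4]
        rfl
      show Units.map π.toMonoidHom (Θ' i x).t = 1
      rw [h6, map_one]
    · have hc' := congrFun h0 (s i)
      have hc2 : Q2.W (Q2.map π (Θ' i (c i))) (Q2.map π (Θ' i (d i))) (s i) = 0 := hc'
      rw [hwm] at hc2
      have hK : ((Q2.W (Θ' i (c i)) (Θ' i (d i)) (s i) : R) : K) =
          Q2.W (Θ i (c i)) (Θ i (d i)) (s i) := by
        have := hwm R K R.subtype (Θ' i (c i)) (Θ' i (d i)) (s i)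
        rw [← hΘ' i]
        exact this.symm
      exact sp_key hS _ _ hK (Or.inl (Or.inr ⟨i, rfl⟩)) (hs i) hc2
  · refine ⟨g (i, j), fun h0 => ?_⟩
    have e1 := sp_tr (ρ i) (ρ' i) (hρ' i) (g (i, j))
    have e2 := sp_tr (ρ j) (ρ' j) (hρ' j) (g (i, j))
    refine sp_key hS (tr (ρ' i (g (i, j))) - tr (ρ' j (g (i, j))))
      (tr (ρ i (g (i, j))) - tr (ρ j (g (i, j)))) ?_
      (Or.inr (Or.inr ⟨(i, j), rfl⟩)) (sub_ne_zero.2 (hg (i, j) hij)) ?_
    · rw [← e1, ← e2]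
      rfl
    · have h4 : tr (SLm π (ρ' i (g (i, j)))) = tr (SLm π (ρ' j (g (i, j)))) := h0
      rw [map_sub, ← tr_map, ← tr_map, h4, sub_self]

/-- the piece sp -/
theorem p_sp (hspt : S_spt) (hwm : S_wm) : S_sp := by
  intro Λ _ _ P hPf K _ _ N hG
  obtain ⟨T, X, hT, hX, h⟩ := sp_core hwm Λ P K two_ne_zero N hG
  have hP : Group.FG P := by
    have := hPf
    infer_instance
  have hLP : Group.FG (Λ × P) := inferInstance
  obtain ⟨h1, h2⟩ := hspt K (Λ × P) T X hT hX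
  constructor
  · obtain ⟨k, i1, i2, R, π, hS⟩ := h1
    exact ⟨k, i1, i2, h k R π hS⟩
  · obtain ⟨R, π, hS⟩ := h2 inferInstance
    exact (h (AlgebraicClosure ℚ) R π hS).2

end Pool.Agent.F8.PIC
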