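import Pool.Agent.Lib.MP_305fdd_al.F8.PIC.Stm

/-!
# PIC hl1: a cocycle for permutation modules
-/

set_option autoImplicit false

namespace Pool.Agent.F8.PIC

open Pool.Agent.MP_305fdd_al Pool.Agent.Lib.MP_305fdd_al Pool.Agent.F2X Pool.Agent.F8
  Pool.Agent.F8.HN Pool.Agent.F8.AB Pool.Agent.F8.D1

section

variable {G X Y : Type} [Group G] [Fintype X] [DecidableEq Y] [MulAction G X]
  [MulAction G Y]

theorem hl1_single {Z : Type} [DecidableEq Z] {k : Type} [Field k] (O : Finset Z) (a : Z) :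
    ∑ x ∈ O, (Pi.single a 1 : Z → k) x = if a ∈ O then 1 else 0 := by
  simp only [Pi.single_apply]
  exact Finset.sum_ite_eq' O a _

/-- the functions with fibre sums zero -/
def hl1_W (π : X → Y) (k : Type) [Field k] : Submodule k (X → k) where
  carrier := {f | ∀ y, ∑ x ∈ Finset.univ.filter (fun x => π x = y), f x = 0}
  zero_mem' := by
    intro y
    simp
  add_mem' := by
    intro f g hf hg y
    simp only [Pi.add_apply, Finset.sum_add_distrib]
    rw [hf y, hg y, add_zero]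
  smul_mem' := by
    intro c f hf y
    simp only [Pi.smul_apply, smul_eq_mul]
    rw [← Finset.mul_sum, hf y, mul_zero]

theorem hl1_sum (π : X → Y) (hπ : ∀ (g : G) (x : X), π (g • x) = g • π x) {k : Type} [Field k]
    (g : G) (f : X → k) (y : Y) :
    ∑ x ∈ Finset.univ.filter (fun x => π x = y), f (g⁻¹ • x) =
      ∑ x ∈ Finset.univ.filter (fun x => π x = g⁻¹ • y), f x := by
  refine Finset.sum_bij' (fun x _ => g⁻¹ • x) (fun x _ => g • x) ?_ ?_ ?_ ?_ ?_
  · intro x hx
    have h := (Finset.mem_filter.1 hx).2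
    exact Finset.mem_filter.2 ⟨Finset.mem_univ _, by rw [hπ, h]⟩
  · intro x hx
    have h := (Finset.mem_filter.1 hx).2
    exact Finset.mem_filter.2 ⟨Finset.mem_univ _, by rw [hπ, h, smul_inv_smul]⟩
  · intro x _
    exact smul_inv_smul g x
  · intro x _
    exact inv_smul_smul g x
  · intro x _
    rfl

/-- the action on the functions with fibre sums zero -/
def hl1_s (π : X → Y) (hπ : ∀ (g : G) (x : X), π (g • x) = g • π x) (k : Type) [Field k] :
    G →* Module.End k (hl1_W π k) where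
  toFun g :=
    { toFun := fun f => ⟨fun x => f.1 (g⁻¹ • x), by
        intro y
        rw [hl1_sum π hπ g f.1 y]
        exact f.2 _⟩
      map_add' := by
        intro f h
        rfl
      map_smul' := by
        intro c f
        rfl }
  map_one' := by
    apply LinearMap.ext
    intro f
    apply Subtype.ext
    funext x
    show f.1 ((1 : G)⁻¹ • x) = f.1 x
    rw [inv_one, one_smul]
  map_mul' := by
    intro g h
    apply LinearMap.ext
    intro f
    apply Subtype.ext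
    funext x
    show f.1 ((g * h)⁻¹ • x) = f.1 (h⁻¹ • g⁻¹ • x)
    rw [mul_inv_rev, mul_smul]

theorem hl1_s_apply (π : X → Y) (hπ : ∀ (g : G) (x : X), π (g • x) = g • π x) (k : Type) [Field k]
    (g : G) (f : hl1_W π k) (x : X) : (hl1_s π hπ k g f).1 x = f.1 (g⁻¹ • x) := rfl

/-- the sum over a set -/
def hl1_lam (π : X → Y) (k : Type) [Field k] (O : Finset X) : hl1_W π k →ₗ[k] k where
  toFun f := ∑ x ∈ O, f.1 x
  map_add' := by
    intro f g
    show ∑ x ∈ O, (f.1 x + g.1 x) = _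
    exact Finset.sum_add_distrib
  map_smul' := by
    intro c f
    show ∑ x ∈ O, (c * f.1 x) = c * _
    rw [Finset.mul_sum]

theorem hl1_lam_apply (π : X → Y) (k : Type) [Field k] (O : Finset X) (f : hl1_W π k) :
    hl1_lam π k O f = ∑ x ∈ O, f.1 x := rfl

theorem hl1_inv (π : X → Y) (hπ : ∀ (g : G) (x : X), π (g • x) = g • π x) (k : Type) [Field k]
    (O : Finset X) (g : G) (hO : ∀ x, x ∈ O ↔ g • x ∈ O) (f : hl1_W π k) :
    hl1_lam π k O (hl1_s π hπ k g f) = hl1_lam π k O f := by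
  rw [hl1_lam_apply, hl1_lam_apply]
  refine Finset.sum_bij' (fun x _ => g⁻¹ • x) (fun x _ => g • x) ?_ ?_ ?_ ?_ ?_
  · intro x hx
    rw [hO, smul_inv_smul]
    exact hx
  · intro x hx
    exact (hO x).1 hx
  · intro x _
    exact smul_inv_smul g x
  · intro x _
    exact inv_smul_smul g x
  · intro x _
    rfl

end

theorem p_hl1 (ha : S_ha) : S_hl1 := by
  classical
  intro α hα X Y _ _ _ _ _ π hπ p _ hp2 x₁ x₂ hne hpi hg hP
  obtain ⟨g, hgx⟩ := hg
  set P : Subgroup (GA α) := Subgroup.closure {iA α cc, tA α} with hPdef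
  have hO : ∀ q ∈ P, ∀ x, x ∈ Finset.univ.filter (fun x => ∃ q ∈ P, q • x₁ = x) ↔
      q • x ∈ Finset.univ.filter (fun x => ∃ q ∈ P, q • x₁ = x) := by
    intro q hq x
    simp only [Finset.mem_filter, Finset.mem_univ, true_and]
    constructor
    · rintro ⟨r, hr, rfl⟩
      exact ⟨q * r, P.mul_mem hq hr, by rw [mul_smul]⟩
    · rintro ⟨r, hr, h⟩
      exact ⟨q⁻¹ * r, P.mul_mem (P.inv_mem hq) hr, by rw [mul_smul, h, inv_smul_smul]⟩
  set O : Finset X := Finset.univ.filter (fun x => ∃ q ∈ P, q • x₁ = x) with hOdef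
  have hx1 : x₁ ∈ O := by
    rw [hOdef, Finset.mem_filter]
    exact ⟨Finset.mem_univ _, 1, P.one_mem, one_smul _ _⟩
  have hfib : ∀ x, π x = π x₁ → x ≠ x₁ → x ∉ O := by
    intro x hx hxn hxO
    rw [hOdef, Finset.mem_filter] at hxO
    obtain ⟨_, q, hq, rfl⟩ := hxO
    apply hxn
    apply hP q hq _ x₁ rfl
    rw [← hπ, hx]
  have hgy : g • π x₁ = π x₁ := by rw [← hπ, hgx, hpi]
  have hgy' : g⁻¹ • π x₁ = π x₁ := by rw [inv_smul_eq_iff, hgy]
  have hx3 : π (g⁻¹ • x₁) = π x₁ := by rw [hπ, hgy']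
  have hx3n : g⁻¹ • x₁ ≠ x₁ := by
    intro h
    apply hne
    rw [inv_smul_eq_iff] at h
    rw [← hgx, ← h]
  have hfW : (Pi.single x₁ 1 - Pi.single (g⁻¹ • x₁) 1 : X → ZMod p) ∈ hl1_W π (ZMod p) := by
    intro y
    simp only [Pi.sub_apply, Finset.sum_sub_distrib, hl1_single, Finset.mem_filter,
      Finset.mem_univ, true_and, hx3, sub_self]
  have hl1' : hl1_lam π (ZMod p) O ⟨_, hfW⟩ = 1 := by
    rw [hl1_lam_apply]
    simp only [Pi.sub_apply, Finset.sum_sub_distrib, hl1_single, hx1, if_true]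
    rw [if_neg (hfib _ hx3 hx3n), sub_zero]
  have hl2' : hl1_lam π (ZMod p) O (hl1_s π hπ (ZMod p) g ⟨_, hfW⟩) = -1 := by
    rw [hl1_lam_apply]
    have h1 : ∀ x ∈ O, (hl1_s π hπ (ZMod p) g ⟨_, hfW⟩).1 x =
        (Pi.single x₂ 1 - Pi.single x₁ 1 : X → ZMod p) x := by
      intro x _
      rw [hl1_s_apply]
      simp only [Pi.sub_apply, Pi.single_apply]
      have e1 : (g⁻¹ • x = x₁) ↔ (x = x₂) := by
        rw [inv_smul_eq_iff, hgx]
      have e2 : (g⁻¹ • x = g⁻¹ • x₁) ↔ (x = x₁) := smul_left_cancel_iff _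
      simp only [e1, e2]
    rw [Finset.sum_congr rfl h1]
    simp only [Pi.sub_apply, Finset.sum_sub_distrib, hl1_single, hx1, if_true]
    rw [if_neg (hfib _ hpi.symm hne.symm), zero_sub]
  obtain ⟨z, hz1, hz2⟩ := ha α hα (ZMod p) (hl1_W π (ZMod p)) (hl1_s π hπ (ZMod p))
    (hl1_lam π (ZMod p) O)
    (hl1_inv π hπ (ZMod p) O _ (hO _ (Subgroup.subset_closure (Set.mem_insert _ _))))
    (hl1_inv π hπ (ZMod p) O _ (hO _ (Subgroup.subset_closure
      (Set.mem_insert_of_mem _ (Set.mem_singleton _)))))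
    ⟨g, ⟨_, hfW⟩, by
      rw [hl1', hl2']
      intro h
      apply hp2
      have h2 : ((2 : ℕ) : ZMod p) = 0 := by
        push_cast
        linear_combination -h
      rw [ZMod.natCast_eq_zero_iff] at h2
      have hpp : p.Prime := Fact.out
      exact (Nat.prime_dvd_prime_iff_eq hpp Nat.prime_two).1 h2⟩
  refine ⟨fun g x => (z g).1 x, ?_, ?_, ?_⟩
  · intro g h x
    show (z (g * h)).1 x = _
    rw [hz1 g h]
    rfl
  · intro g y
    exact (z g).2 y
  · rintro ⟨f, hf, hz⟩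
    apply hz2
    refine ⟨⟨f, hf⟩, fun g => ?_⟩
    apply Subtype.ext
    funext x
    exact hz g x

end Pool.Agent.F8.PIC
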