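import Pool.Agent.Lib.MP_305fdd_al.F8.PIC.Stm

/-!
# MP_305fdd_al, the Picard group, piece [PIC hl2]: from a cocycle to the number of homomorphisms
-/

set_option autoImplicit false

namespace Pool.Agent.F8.PIC

open Pool.Agent.MP_305fdd_al Pool.Agent.Lib.MP_305fdd_al Pool.Agent.F2X Pool.Agent.F8
open MulAction

/-- the fibres over the points of the orbit have the same number of elements, and sums over fibres can be translated -/
theorem hl2_sum {G X Y : Type} [Group G] [Fintype X] [DecidableEq Y] [MulAction G X]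
    [MulAction G Y] (π : X → Y) (hπ : ∀ (g : G) (x : X), π (g • x) = g • π x) {M : Type}
    [AddCommMonoid M] (f : X → M) (g : G) (y : Y) :
    ∑ x ∈ Finset.univ.filter (fun x => π x = y), f (g⁻¹ • x) =
      ∑ x ∈ Finset.univ.filter (fun x => π x = g⁻¹ • y), f x := by
  refine Finset.sum_bij (fun x _ => g⁻¹ • x) ?_ ?_ ?_ ?_
  · intro x hx
    rw [Finset.mem_filter] at hx ⊢
    exact ⟨Finset.mem_univ _, by rw [hπ, hx.2]⟩
  · intro a _ b _ h
    exact smul_left_cancel _ h
  · intro b hb
    rw [Finset.mem_filter] at hb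
    refine ⟨g • b, ?_, inv_smul_smul g b⟩
    rw [Finset.mem_filter]
    exact ⟨Finset.mem_univ _, by rw [hπ, hb.2, smul_inv_smul]⟩
  · intro a _
    rfl

theorem hl2_card {G X Y : Type} [Group G] [Fintype X] [DecidableEq Y] [MulAction G X]
    [MulAction G Y] (π : X → Y) (hπ : ∀ (g : G) (x : X), π (g • x) = g • π x) (g : G) (y : Y) :
    (Finset.univ.filter (fun x => π x = g • y)).card =
      (Finset.univ.filter (fun x => π x = y)).card := by
  have h := hl2_sum π hπ (fun _ => (1 : ℕ)) g⁻¹ y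
  rw [inv_inv] at h
  simpa using h.symm

/-- the restriction of homomorphisms to `ℤ / p` is injective if the index is prime to `p` -/
theorem hl2_inj {N : Type} [Group N] (H : Subgroup N) (p : ℕ) [Fact p.Prime]
    (hH : ¬ p ∣ H.index) (χ : N →* Multiplicative (ZMod p)) (h : H ≤ χ.ker) : χ = 1 := by
  by_contra hne
  have hp : p.Prime := Fact.out
  have h1 : χ.ker.index ∣ H.index := Subgroup.index_dvd_of_le h
  have h2 : χ.ker.index = Nat.card χ.range := Subgroup.index_ker χ
  have h3 : Nat.card χ.range ∣ p := by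
    have := Subgroup.card_subgroup_dvd_card χ.range
    rwa [Nat.card_congr Multiplicative.toAdd, Nat.card_zmod] at this
  rcases (Nat.dvd_prime hp).1 h3 with h4 | h4
  · apply hne
    rw [Subgroup.card_eq_one] at h4
    exact MonoidHom.range_eq_bot_iff.1 h4
  · exact hH (by rw [h2, h4] at h1; exact h1)

/-- PIECE hl2 -/
theorem p_hl2 : S_hl2 := by
  intro G _ _ X Y _ _ _ _ _ π hπ p _ x₀ htr hd z hz hz0 hnot
  classical
  set y₀ := π x₀ with hy₀
  have hp : p.Prime := Fact.out
  set d := (Finset.univ.filter (fun x => π x = y₀)).card with hdd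
  have hle : stabilizer G x₀ ≤ stabilizer G y₀ := by
    intro g hg
    rw [mem_stabilizer_iff] at hg ⊢
    rw [hy₀, ← hπ, hg]
  -- the index
  have hind : ((stabilizer G x₀).subgroupOf (stabilizer G y₀)).index = d := by
    have e1 : (stabilizer G x₀).subgroupOf (stabilizer G y₀) =
        stabilizer (stabilizer G y₀) x₀ := by
      ext g; rfl
    have e2 : orbit (stabilizer G y₀) x₀ = {x | π x = y₀} := by
      ext x
      constructor
      · rintro ⟨g, rfl⟩
        show π ((g : G) • x₀) = y₀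
        rw [hπ]; exact mem_stabilizer_iff.1 g.2
      · intro hx
        obtain ⟨g, hg⟩ := htr x
        refine ⟨⟨g, ?_⟩, hg⟩
        rw [mem_stabilizer_iff]
        have : g • π x₀ = π (g • x₀) := (hπ _ _).symm
        rw [hy₀, this, hg]; exact hx
    rw [e1, index_stabilizer, e2, hdd, ← Set.ncard_coe_finset]
    congr 1
    ext x; simp
  have hiH : (stabilizer G x₀).FiniteIndex := by
    constructor
    rw [index_stabilizer]
    exact (Set.ncard_pos (Set.toFinite _)).2 ⟨x₀, mem_orbit_self x₀⟩ |>.ne'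
  have hfg : Group.FG (stabilizer G x₀) := Subgroup.fg_of_index_ne_zero _
  have hfH : Finite (stabilizer G x₀ →* Multiplicative (ZMod p)) := by
    have : Finite (Multiplicative (ZMod p)) := inferInstanceAs (Finite (ZMod p))
    exact finite_hom _ _
  -- the restriction
  let R : (stabilizer G y₀ →* Multiplicative (ZMod p)) → (stabilizer G x₀ →* Multiplicative (ZMod p)) :=
    fun χ => χ.comp (Subgroup.inclusion hle)
  have hR : Function.Injective R := by
    intro χ χ' h
    have h1 : χ * χ'⁻¹ = 1 := by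
      apply hl2_inj ((stabilizer G x₀).subgroupOf (stabilizer G y₀)) p (by rw [hind]; exact hd)
      intro n hn
      have hn' : (n : G) ∈ stabilizer G x₀ := hn
      have h2 := DFunLike.congr_fun h ⟨n, hn'⟩
      have h3 : χ n = χ' n := h2
      rw [MonoidHom.mem_ker, MonoidHom.mul_apply, MonoidHom.inv_apply, h3, mul_inv_cancel]
    rwa [mul_inv_eq_one] at h1
  by_contra hlt
  rw [not_lt] at hlt
  have hbij : Function.Bijective R := hR.bijective_of_nat_card_le hlt
  -- the homomorphism on the stabiliser of `x₀`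
  let ζ : stabilizer G x₀ →* Multiplicative (ZMod p) :=
    MonoidHom.mk' (fun h => Multiplicative.ofAdd (z h x₀)) (by
      intro a b
      have ha : (a : G)⁻¹ • x₀ = x₀ := by
        rw [inv_smul_eq_iff]; exact (mem_stabilizer_iff.1 a.2).symm
      rw [Subgroup.coe_mul, hz, ha, ofAdd_add])
  obtain ⟨χ, hχ⟩ := hbij.2 ζ
  -- extended by zero
  let c : G → ZMod p := fun g => if h : g ∈ stabilizer G y₀ then Multiplicative.toAdd (χ ⟨g, h⟩) else 0
  have hc : ∀ g h : G, g ∈ stabilizer G y₀ → h ∈ stabilizer G y₀ → c (g * h) = c g + c h := by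
    intro g h hg hh
    have hgh : g * h ∈ stabilizer G y₀ := mul_mem hg hh
    show (if h : _ then _ else _) = (if h : _ then _ else _) + (if h : _ then _ else _)
    rw [dif_pos hgh, dif_pos hg, dif_pos hh, ← toAdd_mul, ← map_mul]
    rfl
  have hcH : ∀ g : G, g ∈ stabilizer G x₀ → c g = z g x₀ := by
    intro g hg
    show (if h : _ then _ else _) = _
    rw [dif_pos (hle hg)]
    have h1 := DFunLike.congr_fun hχ ⟨g, hg⟩
    have h2 : χ ⟨g, hle hg⟩ = Multiplicative.ofAdd (z g x₀) := h1
    rw [h2]; rfl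
  -- the choices
  choose s hs using htr
  have hr : ∃ r : Y → G, ∀ x : X, r (π x) • y₀ = π x := by
    refine ⟨fun y => if h : ∃ x, π x = y then s h.choose else 1, fun x => ?_⟩
    have h : ∃ x', π x' = π x := ⟨x, rfl⟩
    show (if h : _ then _ else _) • y₀ = π x
    rw [dif_pos h, hy₀, ← hπ, hs, h.choose_spec]
  obtain ⟨r, hr⟩ := hr
  -- the cocycle `b`
  let b : G → X → ZMod p := fun g x => c ((r (π x))⁻¹ * g * r (g⁻¹ • π x))
  have hmem : ∀ (g : G) (x : X), (r (π x))⁻¹ * g * r (g⁻¹ • π x) ∈ stabilizer G y₀ := by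
    intro g x
    have e1 : g⁻¹ • π x = π (g⁻¹ • x) := (hπ _ _).symm
    rw [mem_stabilizer_iff, mul_smul, mul_smul, e1, hr, ← e1, smul_inv_smul, inv_smul_eq_iff, hr]
  have hb : ∀ g h x, b (g * h) x = b g x + b h (g⁻¹ • x) := by
    intro g h x
    show c _ = c _ + c _
    rw [← hc _ _ (hmem g x) (hmem h (g⁻¹ • x))]
    congr 1
    rw [hπ, mul_inv_rev, mul_smul]
    group
  let z' : G → X → ZMod p := fun g x => z g x - b g x
  have hz' : ∀ g h x, z' (g * h) x = z' g x + z' h (g⁻¹ • x) := by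
    intro g h x
    show z (g * h) x - b (g * h) x = z g x - b g x + (z h (g⁻¹ • x) - b h (g⁻¹ • x))
    rw [hz, hb]; ring
  have hz'0 : ∀ h ∈ stabilizer G x₀, z' h x₀ = 0 := by
    intro h hh
    have h1 : h⁻¹ • y₀ = y₀ := by
      rw [inv_smul_eq_iff]; exact (mem_stabilizer_iff.1 (hle hh)).symm
    have h2 : r y₀ ∈ stabilizer G y₀ := mem_stabilizer_iff.2 (hr x₀)
    show z h x₀ - c ((r y₀)⁻¹ * h * r (h⁻¹ • y₀)) = 0
    rw [h1, hc _ _ (mul_mem (inv_mem h2) (hle hh)) h2, hc _ _ (inv_mem h2) (hle hh), hcH h hh]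
    have h3 : c (r y₀)⁻¹ + c (r y₀) = 0 := by
      rw [← hc _ _ (inv_mem h2) h2, inv_mul_cancel, hcH 1 (one_mem _)]
      have := hz 1 1 x₀
      rw [mul_one, inv_one, one_smul] at this
      have h4 : z 1 x₀ + 0 = z 1 x₀ + z 1 x₀ := by rw [add_zero]; exact this
      exact (add_left_cancel h4).symm
    linear_combination -h3
  let f : X → ZMod p := fun x => z' (s x) x
  have hf : ∀ g x, z' g x = f x - f (g⁻¹ • x) := by
    intro g x
    have h1 : (s x)⁻¹ * (g * s (g⁻¹ • x)) ∈ stabilizer G x₀ := by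
      rw [mem_stabilizer_iff, mul_smul, mul_smul, hs, smul_inv_smul, inv_smul_eq_iff, hs]
    have h2 := hz' (s x) ((s x)⁻¹ * (g * s (g⁻¹ • x))) x
    have h3 : (s x)⁻¹ • x = x₀ := by rw [inv_smul_eq_iff, hs]
    rw [mul_inv_cancel_left, h3, hz'0 _ h1, add_zero, hz'] at h2
    show z' g x = z' (s x) x - z' (s (g⁻¹ • x)) (g⁻¹ • x)
    rw [← h2]; ring
  -- the sums over the fibres
  let S : Y → ZMod p := fun y => ∑ x ∈ Finset.univ.filter (fun x => π x = y), f x
  have hdc : ∀ x : X, ((Finset.univ.filter (fun x' => π x' = π x)).card : ZMod p) = (d : ZMod p) := by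
    intro x
    congr 1
    rw [hdd, ← hl2_card π hπ (s x) y₀, hy₀, ← hπ, hs]
  have hsum : ∀ (g : G) (x : X), (d : ZMod p) * b g x = S (g⁻¹ • π x) - S (π x) := by
    intro g x
    have h1 : ∀ x' ∈ Finset.univ.filter (fun x' => π x' = π x), z g x' =
        (f x' - f (g⁻¹ • x')) + b g x := by
      intro x' hx'
      rw [Finset.mem_filter] at hx'
      have h2 : b g x' = b g x := by
        show c _ = c _
        rw [hx'.2]
      rw [← hf, ← h2]
      show z g x' = z g x' - b g x' + b g x'
      ring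
    have h2 := hz0 g (π x)
    rw [Finset.sum_congr rfl h1, Finset.sum_add_distrib, Finset.sum_sub_distrib, hl2_sum π hπ f,
      Finset.sum_const, nsmul_eq_mul, hdc x] at h2
    show _ = _ - _
    linear_combination h2
  have hd0 : (d : ZMod p) ≠ 0 := by
    intro h
    exact hd ((ZMod.natCast_eq_zero_iff d p).1 h)
  refine hnot ⟨fun x => f x - (d : ZMod p)⁻¹ * S (π x), fun y => ?_, fun g x => ?_⟩
  · by_cases hy : ∃ x, π x = y
    · obtain ⟨x, rfl⟩ := hy
      have h1 : ∀ x' ∈ Finset.univ.filter (fun x' => π x' = π x), f x' - (d : ZMod p)⁻¹ * S (π x') =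
          f x' - (d : ZMod p)⁻¹ * S (π x) := by
        intro x' hx'
        rw [Finset.mem_filter] at hx'
        rw [hx'.2]
      rw [Finset.sum_congr rfl h1, Finset.sum_sub_distrib, Finset.sum_const, nsmul_eq_mul, hdc x]
      show S (π x) - _ = 0
      rw [← mul_assoc, mul_inv_cancel₀ hd0, one_mul, sub_self]
    · rw [Finset.sum_eq_zero]
      intro x hx
      rw [Finset.mem_filter] at hx
      exact absurd ⟨x, hx.2⟩ hy
  · have h1 := hf g x
    have h2 := hsum g x
    have h3 : z g x = z' g x + b g x := by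
      show z g x = z g x - b g x + b g x
      ring
    show z g x = (f x - (d : ZMod p)⁻¹ * S (π x)) - (f (g⁻¹ • x) - (d : ZMod p)⁻¹ * S (π (g⁻¹ • x)))
    have h4 : b g x = (d : ZMod p)⁻¹ * (S (g⁻¹ • π x) - S (π x)) := by
      rw [← h2, ← mul_assoc, inv_mul_cancel₀ hd0, one_mul]
    rw [hπ, h3, h1, h4]
    ring

end Pool.Agent.F8.PIC
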