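import Pool.Agent.Lib.MP_305fdd_al.F8.PIC.Stm

/-!
# MP_305fdd_al, project PIC, piece prd: natural bijections for products with a finite group
-/

set_option autoImplicit false

namespace Pool.Agent.F8.PIC

open Pool.Agent.MP_305fdd_al Pool.Agent.Lib.MP_305fdd_al

/-- homomorphisms on a product are determined by the two restrictions -/
theorem prd_ext {G B Q : Type} [Group G] [Group B] [Group Q] {θ θ' : G × B →* Q}
    (h1 : θ.comp (MonoidHom.inl G B) = θ'.comp (MonoidHom.inl G B))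
    (h2 : θ.comp (MonoidHom.inr G B) = θ'.comp (MonoidHom.inr G B)) : θ = θ' := by
  apply MonoidHom.ext
  rintro ⟨g, b⟩
  have e : ((g, b) : G × B) = (g, 1) * (1, b) := by
    rw [Prod.mk_mul_mk, mul_one, one_mul]
  rw [e, map_mul, map_mul]
  have a1 : θ (g, 1) = θ' (g, 1) := DFunLike.congr_fun h1 g
  have a2 : θ (1, b) = θ' (1, b) := DFunLike.congr_fun h2 b
  rw [a1, a2]

/-- the elements commute -/
theorem prd_comm {G Λ B : Type} [Group G] [Group Λ] [Group B] (Φ : NatBij G Λ) {Q : Type}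
    [Group Q] [Finite Q] (θ : G × B →* Q) (l : Λ) (b : B) :
    Commute (Φ.toFun Q (θ.comp (MonoidHom.inl G B)) l) ((θ.comp (MonoidHom.inr G B)) b) := by
  have h : Φ.toFun Q (θ.comp (MonoidHom.inl G B)) l ∈ (θ.comp (MonoidHom.inl G B)).range := by
    rw [← Φ.range_eq]
    exact ⟨l, rfl⟩
  obtain ⟨g, hg⟩ := h
  rw [← hg]
  show θ (g, 1) * θ (1, b) = θ (1, b) * θ (g, 1)
  rw [← map_mul, ← map_mul, Prod.mk_mul_mk, Prod.mk_mul_mk, mul_one, one_mul, mul_one, one_mul]

/-- the map of the homomorphisms -/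
def prd_fun {G Λ B : Type} [Group G] [Group Λ] [Group B] (Φ : NatBij G Λ) (Q : Type)
    [Group Q] [Finite Q] (θ : G × B →* Q) : Λ × B →* Q :=
  MonoidHom.noncommCoprod (Φ.toFun Q (θ.comp (MonoidHom.inl G B))) (θ.comp (MonoidHom.inr G B))
    (prd_comm Φ θ)

theorem prd_inl {G Λ B : Type} [Group G] [Group Λ] [Group B] (Φ : NatBij G Λ) (Q : Type)
    [Group Q] [Finite Q] (θ : G × B →* Q) :
    (prd_fun Φ Q θ).comp (MonoidHom.inl Λ B) = Φ.toFun Q (θ.comp (MonoidHom.inl G B)) := by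
  apply MonoidHom.ext
  intro l
  show Φ.toFun Q (θ.comp (MonoidHom.inl G B)) l * θ (1, 1) = _
  rw [show ((1, 1) : G × B) = 1 from rfl, map_one, mul_one]

theorem prd_inr {G Λ B : Type} [Group G] [Group Λ] [Group B] (Φ : NatBij G Λ) (Q : Type)
    [Group Q] [Finite Q] (θ : G × B →* Q) :
    (prd_fun Φ Q θ).comp (MonoidHom.inr Λ B) = θ.comp (MonoidHom.inr G B) := by
  apply MonoidHom.ext
  intro b
  show Φ.toFun Q (θ.comp (MonoidHom.inl G B)) 1 * θ (1, b) = θ (1, b)
  rw [map_one, one_mul]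

theorem prd_inv {G Λ B : Type} [Group G] [Group Λ] [Group B] (Φ : NatBij G Λ) (Q : Type)
    [Group Q] [Finite Q] (θ : G × B →* Q) : prd_fun Φ.symm Q (prd_fun Φ Q θ) = θ := by
  apply prd_ext
  · rw [prd_inl, prd_inl]
    exact Φ.left_inv Q _
  · rw [prd_inr, prd_inr]

/-- the natural family for the product -/
def prd_Psi {G Λ B : Type} [Group G] [Group Λ] [Group B] (Φ : NatBij G Λ) :
    NatBij (G × B) (Λ × B) where
  toFun Q _ _ θ := prd_fun Φ Q θ
  invFun Q _ _ θ := prd_fun Φ.symm Q θ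
  left_inv Q _ _ θ := prd_inv Φ Q θ
  right_inv Q _ _ θ := prd_inv Φ.symm Q θ
  nat := by
    intro Q R _ _ _ _ f θ
    apply prd_ext
    · rw [prd_inl, MonoidHom.comp_assoc, Φ.nat, MonoidHom.comp_assoc, prd_inl]
    · rw [prd_inr, MonoidHom.comp_assoc, MonoidHom.comp_assoc, prd_inr]

theorem p_prd : S_prd := by
  intro G Λ B _ _ _ _ Φ
  refine ⟨prd_Psi Φ, ?_⟩
  intro Q _ _
  constructor
  · intro θ
    show prd_fun Φ Q _ = _
    apply prd_ext
    · rw [prd_inl, MonoidHom.comp_assoc, MonoidHom.comp_assoc, MonoidHom.fst_comp_inl,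
        MonoidHom.fst_comp_inl, MonoidHom.comp_id, MonoidHom.comp_id]
    · rw [prd_inr, MonoidHom.comp_assoc, MonoidHom.comp_assoc, MonoidHom.fst_comp_inr,
        MonoidHom.fst_comp_inr, MonoidHom.comp_one, MonoidHom.comp_one]
  · intro β
    show prd_fun Φ Q _ = _
    apply prd_ext
    · rw [prd_inl, MonoidHom.comp_assoc, MonoidHom.comp_assoc, MonoidHom.snd_comp_inl,
        MonoidHom.snd_comp_inl, MonoidHom.comp_one, MonoidHom.comp_one, Φ.one]
    · rw [prd_inr, MonoidHom.comp_assoc, MonoidHom.comp_assoc, MonoidHom.snd_comp_inr,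
        MonoidHom.snd_comp_inr]

end Pool.Agent.F8.PIC
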