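import Pool.Agent.Lib.MP_305fdd_al.F8.D1.Defs
import Pool.Agent.Lib.MP_305fdd_al.F8.AB.DefsN2
import Pool.Agent.Lib.MP_305fdd_al.F8.StmC
import Pool.Agent.Lib.MP_305fdd_al.F8.StmHN
import Pool.Agent.Lib.MP_305fdd_al.F8.D1.G.Pres
import Pool.Agent.Lib.MP_305fdd_al.F8.Tower
import Pool.Agent.Lib.MP_305fdd_al.F8.StmNT

/-!
# MP_305fdd_al, the Picard group `PSL₂(ℤ[i])` is profinitely rigid: definitions

`GG = SL₂(ℤ[i])`; `tt = mU 1`, `uu = mU i`, `mB O1`, `mL = diag(i, -i)` are generators. `rd m` is the reduction modulo `m`,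
`r5` the reduction modulo `2 + i` (`i ↦ 3`), `GP = Γ₁(2 + i)` the group of the matrices which are upper unipotent
modulo `2 + i`; it is generated by `tt`, `uu`, `yy = [[1, 0], [-(2 + i), 1]]`.
-/

set_option autoImplicit false

namespace Pool.Agent.F8.PIC

open Pool.Agent.MP_305fdd_al Pool.Agent.Lib.MP_305fdd_al Pool.Agent.F2X Pool.Agent.F8
  Pool.Agent.F8.HN Pool.Agent.F8.AB Pool.Agent.F8.D1
open Pool.Agent.F8.D1.PG (mL)
open scoped QuadraticAlgebra

/-- `SL₂(ℤ[i])` -/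
abbrev GG : Type := SL2 O1

/-- `t = [[1, 1], [0, 1]]` -/
def tt : GG := mU 1
/-- `u = [[1, i], [0, 1]]` -/
def uu : GG := mU ⟨0, 1⟩
/-- `y = [[1, 0], [-(2 + i), 1]]` -/
def yy : GG := mx 1 0 ⟨-2, -1⟩ 1 (by decide)

/-- reduction modulo `m` -/
def rd (m : ℕ) : GG →* SL2 (E1 (ZMod m)) := SLm (E1m (Int.castRingHom (ZMod m)))

/-- reduction modulo `2 + i` -/
def r5 : GG →* SL2 (ZMod 5) := SLm (ev1 (Int.castRingHom (ZMod 5)) 3 (by decide))

/-- complex conjugation on `R[i]` -/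
def cj (R : Type) [CommRing R] : E1 R →+* E1 R where
  toFun z := ⟨z.re, -z.im⟩
  map_one' := by
    apply QuadraticAlgebra.ext
    · simp
    · simp
  map_zero' := by
    apply QuadraticAlgebra.ext
    · simp
    · simp
  map_add' x y := by
    apply QuadraticAlgebra.ext
    · simp
    · simp only [QuadraticAlgebra.im_add]; ring
  map_mul' x y := by
    apply QuadraticAlgebra.ext
    · simp only [QuadraticAlgebra.re_mul]; ring
    · simp only [QuadraticAlgebra.im_mul]; ring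

theorem cj_apply {R : Type} [CommRing R] (z : E1 R) : cj R z = ⟨z.re, -z.im⟩ := rfl

theorem cj_cj {R : Type} [CommRing R] (z : E1 R) : cj R (cj R z) = z := by
  rw [cj_apply, cj_apply]
  apply QuadraticAlgebra.ext
  · rfl
  · exact neg_neg _

/-- `x + y i ↦ x + e y i`, `e² = 1` -/
def sge {R : Type} [CommRing R] (e : R) (he : e * e = 1) : E1 R →+* E1 R where
  toFun z := ⟨z.re, e * z.im⟩
  map_one' := by
    apply QuadraticAlgebra.ext
    · simp
    · simp
  map_zero' := by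
    apply QuadraticAlgebra.ext
    · simp
    · simp
  map_add' x y := by
    apply QuadraticAlgebra.ext
    · simp
    · simp only [QuadraticAlgebra.im_add]; ring
  map_mul' x y := by
    apply QuadraticAlgebra.ext
    · simp only [QuadraticAlgebra.re_mul]; linear_combination (x.im * y.im) * he
    · simp only [QuadraticAlgebra.im_mul]; ring

theorem sge_apply {R : Type} [CommRing R] (e : R) (he : e * e = 1) (z : E1 R) :
    sge e he z = ⟨z.re, e * z.im⟩ := rfl

theorem sge_sge {R : Type} [CommRing R] (e : R) (he : e * e = 1) (z : E1 R) :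
    sge e he (sge e he z) = z := by
  rw [sge_apply, sge_apply]
  apply QuadraticAlgebra.ext
  · rfl
  · show e * (e * z.im) = z.im
    rw [← mul_assoc, he, one_mul]

/-- the upper unipotent matrices -/
def UP (R : Type) [CommRing R] : Subgroup (SL2 R) where
  carrier := {g | g.val 0 0 = 1 ∧ g.val 1 0 = 0 ∧ g.val 1 1 = 1}
  one_mem' := ⟨G.one00, G.one10, G.one11⟩
  mul_mem' := by
    rintro g h ⟨a1, a2, a3⟩ ⟨b1, b2, b3⟩
    refine ⟨?_, ?_, ?_⟩
    · rw [G.SL_mul, a1, b1, b2]; ring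
    · rw [G.SL_mul, a2, a3, b2]; ring
    · rw [G.SL_mul, a2, a3, b3]; ring
  inv_mem' := by
    rintro g ⟨a1, a2, a3⟩
    have h : g⁻¹ = mx 1 (-g.val 0 1) 0 1 (by ring) := by
      apply inv_eq_of_mul_eq_one_left
      rw [mx_one]
      apply G.SL_ext
      · rw [G.SL_mul]; simp only [mx_00, mx_01, a1, a2]; ring
      · rw [G.SL_mul]; simp only [mx_00, mx_01, a3]; ring
      · rw [G.SL_mul]; simp only [mx_10, mx_11, a1, a2]; ring
      · rw [G.SL_mul]; simp only [mx_10, mx_11, a3]; ring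
    rw [h]
    exact ⟨rfl, rfl, rfl⟩

/-- `Γ₁(2 + i)` -/
def GP : Subgroup GG := (UP (ZMod 5)).comap r5

/-- the subgroup of `Λ` corresponding to `Γ₁(2 + i)` -/
def LP {Λ : Type} [Group Λ] (Φ : NatBij GG Λ) : Subgroup Λ := (UP (ZMod 5)).comap (Φ.toFun _ r5)

/-! ### Property P -/

/-- Property P of a representation with respect to a subgroup `P`: it is irreducible on `P` and there is a non-trivial
cocycle on `P`. -/
def Pt {L : Type} [Group L] (P : Subgroup L) {K : Type} [CommRing K] (ρ : L →* SL2 K) : Prop :=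
  Irr (ρ.comp P.subtype) ∧ Ex1 (ρ.comp P.subtype) 1

/-- there are `N` representations over `K` with property P and pairwise different characters -/
def GdP {L : Type} [Group L] (P : Subgroup L) (K : Type) [CommRing K] (N : ℕ) : Prop :=
  ∃ ρ : Fin N → (L →* SL2 K), (∀ i, Pt P (ρ i)) ∧ ∀ i j, i ≠ j → ∃ g, tr (ρ i g) ≠ tr (ρ j g)

/-- The normal form of a representation of `SL₂(ℤ[i])`. -/
structure NF {K : Type} [Field K] (ρ : GG →* SL2 K) (w s p q : K) : Prop where
  /-- `w` is a root of `-1` -/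
  hw : w * w = -1
  hs : s ≠ 0
  e1 : 4 * p ^ 2 = s ^ 2 + 3
  e2 : 4 * s ^ 2 * q ^ 2 = 3 * s ^ 2 + 1
  /-- `diag(w, -w)` -/
  L : (ρ mL).val = !![w, 0; 0, -w]
  /-- `[[0, -1], [1, 0]]` -/
  B : (ρ (mB O1)).val = !![0, -1; 1, 0]
  /-- `[[p, (s + 1) / 2], [(s - 1) / 2, p]]` -/
  T : (ρ tt).val = !![p, (s + 1) / 2; (s - 1) / 2, p]
  /-- `[[q, λ (s + 1) / 2], [λ (s - 1) / 2, q]]`, `λ = w / s` -/
  U : (ρ uu).val = !![q, w / s * ((s + 1) / 2); w / s * ((s - 1) / 2), q]

/-! ### The output of the transfer -/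

/-- the data of the `p`-adic representation -/
structure DatP {Λ : Type} [Group Λ] (Φ : NatBij GG Λ) (p : ℕ) [Fact p.Prime]
    (r : Λ →* SL2 (E1 ℤ_[p])) : Prop where
  /-- the reductions -/
  red : ∀ k : ℕ, (SLm (E1m (PadicInt.toZModPow k))).comp r = Φ.toFun _ (rd (p ^ k))
  /-- property P under all homomorphisms to fields -/
  good : ∀ (K : Type) [Field K] [CharZero K] (j : E1 ℤ_[p] →+* K), Pt (LP Φ) ((SLm j).comp r)
  /-- the character is not rational -/
  ne : ∃ g, (tr (r g)).im ≠ 0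

/-- the output of the transfer -/
structure OutP {Λ : Type} [Group Λ] (Φ : NatBij GG Λ) (T : Λ → O1)
    (s : Λ →* SL2 (AlgebraicClosure ℚ)) (w : AlgebraicClosure ℚ) (hw : w * w = -1) : Prop where
  /-- `T` is the character of `s` -/
  char : ∀ g, tr (s g) = ev1 (Int.castRingHom (AlgebraicClosure ℚ)) w hw (T g)
  /-- `s` is irreducible -/
  irr : Irr s
  /-- the reductions of `T` -/
  red : ∀ (p : ℕ) [Fact p.Prime], ∃ c : Bool, (p = 2 → c = false) ∧ ∀ (k : ℕ) (g : Λ),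
    E1m (Int.castRingHom (ZMod (p ^ k))) (if c then cj ℤ (T g) else T g) =
      tr (Φ.toFun _ (rd (p ^ k)) g)

/-! ### The congruence subgroup `G5` -/

/-- conjugation with `diag(1 + 2 i, 1)` modulo `4` -/
def dl : SL2 (E1 (ZMod 4)) →* SL2 (E1 (ZMod 4)) where
  toFun g := mx (g.val 0 0) (⟨1, 2⟩ * g.val 0 1) (⟨1, 2⟩ * g.val 1 0) (g.val 1 1) (by
    have h : (⟨1, 2⟩ : E1 (ZMod 4)) * ⟨1, 2⟩ = 1 := by decide
    linear_combination G.SL_det g - g.val 0 1 * g.val 1 0 * h)
  map_one' := by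
    rw [mx_one]
    apply mx_congr
    · rfl
    · exact mul_zero _
    · exact mul_zero _
    · rfl
  map_mul' g g' := by
    have h : (⟨1, 2⟩ : E1 (ZMod 4)) * ⟨1, 2⟩ = 1 := by decide
    rw [mx_mul]
    apply mx_congr
    · rw [G.SL_mul]; linear_combination (-g.val 0 1 * g'.val 1 0) * h
    · rw [G.SL_mul]; ring
    · rw [G.SL_mul]; ring
    · rw [G.SL_mul]; linear_combination (-g.val 1 0 * g'.val 0 1) * h

/-- the sum of the coordinates -/
def s4 (x : E1 (ZMod 4)) : ZMod 4 := x.re + x.im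

theorem s4_add (x y : E1 (ZMod 4)) : s4 (x + y) = s4 x + s4 y := by
  unfold s4
  rw [QuadraticAlgebra.re_add, QuadraticAlgebra.im_add]; ring

theorem s4_neg (x : E1 (ZMod 4)) : s4 (-x) = -s4 x := by
  unfold s4
  rw [QuadraticAlgebra.re_neg, QuadraticAlgebra.im_neg]; ring

theorem z4_odd : ∀ x : ZMod 4, 2 * x = 2 → ∃ y, x = 1 + 2 * y := by decide

theorem z4_b : ∀ x : ZMod 4, 2 * x = 0 → x = -x := by decide

/-- an odd element: `x = 1 + 2 e` -/
theorem e4_odd (x : E1 (ZMod 4)) (h : 2 * x = 2) : ∃ e, x = 1 + 2 * e := by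
  have h1 : 2 * x.re = 2 := by
    have := congrArg QuadraticAlgebra.re h
    rwa [QuadraticAlgebra.re_mul, show (2 : E1 (ZMod 4)).re = 2 from rfl,
      show (2 : E1 (ZMod 4)).im = 0 from rfl, mul_zero, zero_mul, add_zero] at this
  have h2 : 2 * x.im = 0 := by
    have := congrArg QuadraticAlgebra.im h
    rw [QuadraticAlgebra.im_mul, show (2 : E1 (ZMod 4)).re = 2 from rfl,
      show (2 : E1 (ZMod 4)).im = 0 from rfl] at this
    simpa using this
  obtain ⟨a, ha⟩ := z4_odd _ h1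
  have h3 : ∀ y : ZMod 4, 2 * y = 0 → ∃ b, y = 2 * b := by decide
  obtain ⟨b, hb⟩ := h3 _ h2
  refine ⟨⟨a, b⟩, ?_⟩
  apply QuadraticAlgebra.ext
  · rw [QuadraticAlgebra.re_add, QuadraticAlgebra.re_mul, show (2 : E1 (ZMod 4)).re = 2 from rfl,
      show (2 : E1 (ZMod 4)).im = 0 from rfl, QuadraticAlgebra.re_one, ha]; ring
  · rw [QuadraticAlgebra.im_add, QuadraticAlgebra.im_mul, show (2 : E1 (ZMod 4)).re = 2 from rfl,
      show (2 : E1 (ZMod 4)).im = 0 from rfl, QuadraticAlgebra.im_one, hb]; ring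

/-- `s4 (x b) = s4 b` for odd `x` and even `s4 b` -/
theorem s4_mul (x b : E1 (ZMod 4)) (hx : 2 * x = 2) (hb : 2 * s4 b = 0) : s4 (x * b) = s4 b := by
  obtain ⟨e, rfl⟩ := e4_odd x hx
  have h : (1 + 2 * e) * b = b + (e * b + e * b) := by ring
  rw [h, s4_add, s4_add]
  have h2 : s4 (e * b) + s4 (e * b) = 2 * s4 e * s4 b - 4 * (e.im * b.im) := by
    unfold s4
    rw [QuadraticAlgebra.re_mul, QuadraticAlgebra.im_mul]; ring
  have h4 : (4 : ZMod 4) = 0 := by decide
  rw [h2, h4]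
  linear_combination s4 e * hb

/-- `x c = c` for odd `x` and even `c` -/
theorem e4_mul (x c : E1 (ZMod 4)) (hx : 2 * x = 2) (hc : 2 * c = 0) : x * c = c := by
  obtain ⟨e, rfl⟩ := e4_odd x hx
  linear_combination e * hc

theorem im_two (c : E1 (ZMod 4)) (hc : 2 * c = 0) : 2 * c.im = 0 := by
  have := congrArg QuadraticAlgebra.im hc
  rw [QuadraticAlgebra.im_mul, show (2 : E1 (ZMod 4)).re = 2 from rfl,
    show (2 : E1 (ZMod 4)).im = 0 from rfl] at this
  simpa using this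

/-- the other diagonal entry is odd -/
theorem d_odd (g : SL2 (E1 (ZMod 4))) (ha : 2 * g.val 0 0 = 2) (hc : 2 * g.val 1 0 = 0) :
    2 * g.val 1 1 = 2 := by
  have hd := G.SL_det g
  linear_combination 2 * hd - g.val 1 1 * ha + g.val 0 1 * hc

/-- The matrices `[[a, b], [c, d]]` modulo `4` with `a = 1` modulo `2`, `c = 0` modulo `2`, `re b + im b = im c`
modulo `4`; a group of order `64`. -/
def A5 : Subgroup (SL2 (E1 (ZMod 4))) where
  carrier := {g | 2 * g.val 0 0 = 2 ∧ 2 * g.val 1 0 = 0 ∧ s4 (g.val 0 1) = (g.val 1 0).im}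
  one_mem' := by
    refine ⟨?_, ?_, ?_⟩
    · rw [G.one00]; decide
    · rw [G.one10]; decide
    · rw [G.one01, G.one10]; decide
  mul_mem' := by
    rintro g h ⟨a1, a2, a3⟩ ⟨b1, b2, b3⟩
    have a4 := d_odd g a1 a2
    have b4 := d_odd h b1 b2
    refine ⟨?_, ?_, ?_⟩
    · rw [G.SL_mul]
      linear_combination g.val 0 1 * b2 + h.val 0 0 * a1 + b1
    · rw [G.SL_mul]
      linear_combination h.val 0 0 * a2 + g.val 1 1 * b2
    · rw [G.SL_mul, G.SL_mul, s4_add, s4_mul _ _ a1 (by rw [b3]; exact im_two _ b2), mul_comm (g.val 0 1),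
        s4_mul _ _ b4 (by rw [a3]; exact im_two _ a2), mul_comm (g.val 1 0), e4_mul _ _ b1 a2,
        e4_mul _ _ a4 b2, a3, b3, QuadraticAlgebra.im_add, add_comm]
  inv_mem' := by
    rintro g ⟨a1, a2, a3⟩
    have a4 := d_odd g a1 a2
    have hd := G.SL_det g
    have hi : g⁻¹ = mx (g.val 1 1) (-g.val 0 1) (-g.val 1 0) (g.val 0 0)
        (by linear_combination hd) := by
      apply inv_eq_of_mul_eq_one_left
      rw [mx_one]
      apply G.SL_ext
      · rw [G.SL_mul]; simp only [mx_00, mx_01]; linear_combination hd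
      · rw [G.SL_mul]; simp only [mx_00, mx_01]; ring
      · rw [G.SL_mul]; simp only [mx_10, mx_11]; ring
      · rw [G.SL_mul]; simp only [mx_10, mx_11]; linear_combination hd
    rw [hi]
    refine ⟨?_, ?_, ?_⟩
    · rw [mx_00]; exact a4
    · rw [mx_10]; linear_combination -a2
    · rw [mx_01, mx_10, s4_neg, a3, QuadraticAlgebra.im_neg]

/-- the matrices of `SL₂(ℤ[i])` whose reduction modulo `4` is in `A5` -/
def G5 : Subgroup GG := A5.comap (rd 4)

/-- the corresponding subgroup of `Λ` -/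
def L5 {Λ : Type} [Group Λ] (Φ : NatBij GG Λ) : Subgroup Λ := A5.comap (Φ.toFun _ (rd 4))

/-! ### The group `G1 = F ⋊ ℤ` and `G5` -/

/-- the boundary element `u v⁻¹ u⁻¹ v` -/
def cc : F := ga * gb⁻¹ * ga⁻¹ * gb

theorem al1_cc : al1 cc = cc := by
  unfold cc
  rw [map_mul, map_mul, map_mul, map_inv, map_inv, al1_ga, al1_gb]
  group

/-- the representation of `G1` over `Z1 = ℤ[e, f]` -/
abbrev rz : G1 →* SL2 Z1 := rho1 (D1.ee ℤ) (D1.ff ℤ) (ee_eq ℤ) (ff_eq ℤ)

/-- The properties of the homomorphism `G5 → G1`. -/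
structure Eta (η : G5 →* G1) : Prop where
  /-- the kernel is `±1` -/
  ker : ∀ x, η x = 1 ↔ x.val = 1 ∨ x.val = -1
  /-- the image consists of all the `(w, n)` with `w` of even exponents -/
  sur : ∀ (w : F) (n : ℤ), Even (vec w 0) → Even (vec w 1) → ∃ x, η x = iA al1 w * tA al1 ^ n
  /-- The exponents of `w` modulo `4` and `2 n` modulo `4`, for `η x = (w, n)`. -/
  lab : ∀ (x : G5) (w : F) (n : ℤ), η x = iA al1 w * tA al1 ^ n →
    ((vec w 0 : ℤ) : ZMod 4) = (((x.val.val 1 0).re + (x.val.val 1 0).im : ℤ) : ZMod 4) ∧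
    ((vec w 1 : ℤ) : ZMod 4) = (((x.val.val 1 0).im : ℤ) : ZMod 4) ∧
    ((2 * n : ℤ) : ZMod 4) = (((x.val.val 1 0).re + (x.val.val 1 0).im +
      2 * (x.val.val 0 1).re : ℤ) : ZMod 4)
  /-- the peripheral subgroup -/
  par : ∀ x : G5, η x ∈ Subgroup.closure {iA al1 cc, tA al1} → x.val.val 1 0 = 0

/-- Chains on the graph with the vertices `V` and the edges `(v, i)` from `v` to `x_i⁻¹ v`, `x_false = x0`, `x_true = ga`: `D v g` is
the chain of the path from `v` to `g⁻¹ v` which reads the word `g`. -/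
structure IsD {V : Type} [MulAction F V] (D : V → F → (V × Bool →₀ ℝ)) : Prop where
  one : ∀ v, D v 1 = 0
  mul : ∀ v g h, D v (g * h) = D v g + D (g⁻¹ • v) h
  x : ∀ v, D v x0 = Finsupp.single (v, false) 1
  u : ∀ v, D v ga = Finsupp.single (v, true) 1

/-- what we know about the representation `ρ : Λ → SL₂(ℤ[i])` -/
structure Rho {Λ : Type} [Group Λ] (Φ : NatBij GG Λ) (ρ : Λ →* GG) : Prop where
  /-- the congruence kernels correspond to each other -/
  ker : ∀ (m : ℕ) [NeZero m] (l : Λ), rd m (ρ l) = 1 ↔ Φ.toFun _ (rd m) l = 1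
  /-- the image is dense for the congruence topology -/
  img : ∀ (m : ℕ) [NeZero m] (g : GG), ∃ l, rd m (ρ l) = rd m g
  /-- modulo `4` -/
  four : (∀ l, rd 4 (ρ l) = Φ.toFun _ (rd 4) l) ∨ ∀ l, rd 4 (ρ l) = dl (Φ.toFun _ (rd 4) l)

/-- the image in `G1` of the elements of `ρ(Λ)` in `G5` -/
def H5 {Λ : Type} [Group Λ] (ρ : Λ →* GG) (η : G5 →* G1) : Subgroup G1 :=
  (ρ.range.comap G5.subtype).map η

/-- the sign `(-1) ^ n` -/
def sn (x : G1) : (ZMod 3)ˣ := (-1) ^ Multiplicative.toAdd (nA al1 x)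

/-- the properties of the subgroup `H5` which imply that its index is finite -/
structure Hyp5 (H : Subgroup G1) : Prop where
  /-- finitely generated -/
  fg : H.FG
  /-- the exponents are even -/
  ev : ∀ (w : F) (n : ℤ), iA al1 w * tA al1 ^ n ∈ H → Even (vec w 0) ∧ Even (vec w 1)
  /-- there is an element with odd `n` -/
  odd : ∃ x ∈ H, Odd (Multiplicative.toAdd (nA al1 x))
  /-- there is an element with even `n` and `vec w 0 = 2` modulo `4` -/
  lab : ∃ (w : F) (n : ℤ), iA al1 w * tA al1 ^ n ∈ H ∧ Even n ∧ (4 : ℤ) ∣ vec w 0 - 2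
  /-- no epimorphism to `S₃` with sign `(-1) ^ n` -/
  no3 : ∀ f : H → ZMod 3, (∀ x y : H, f (x * y) = f x + (sn x).val * f y) →
    ∀ x : H, nA al1 x = 1 → f x = 0

end Pool.Agent.F8.PIC
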