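import Pool.Agent.Lib.MP_305fdd_al.F8.PIC.Stm
import Pool.Agent.Lib.MP_305fdd_al.F8.Models

/-!
# MP_305fdd_al, the Picard group: assembly of the pieces
-/

set_option autoImplicit false

namespace Pool.Agent.F8.PIC

open Pool.Agent.MP_305fdd_al Pool.Agent.Lib.MP_305fdd_al Pool.Agent.F2X Pool.Agent.F8
  Pool.Agent.F8.HN Pool.Agent.F8.AB Pool.Agent.F8.D1
open Pool.Agent.F8.D1.PG (mL TP)
open scoped QuadraticAlgebra

noncomputable section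

theorem inf_of (h0 : S_i0) (h2 : S_i1 → S_i2) (h1 : S_i1) (h3 : S_i3) (h4 : S_i4) : S_inf := by
  intro P hP hv w k hk hn
  obtain ⟨D, hD⟩ := h0 (F ⧸ P)
  obtain ⟨ψ, hψ, hsm, A, hA, z, hz, hz2⟩ := h2 h1 P hP hv w k hk hn D hD
  obtain ⟨y, hy, hy0, hAy, hfl⟩ := h3 (F ⧸ P) D hD k hk ψ hψ hsm A hA z hz hz2
  have : Finite (F ⧸ P) := h4 (F ⧸ P) (fun v v' => MulAction.exists_smul_eq F v v') D hD k hk ψ hψ
    hsm A hA _ y (by positivity) hy hy0 hAy hfl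
  exact Subgroup.finiteIndex_of_finite_quotient

theorem fg_GG : Group.FG GG := by
  rw [Group.fg_iff]
  refine ⟨{mU 1, mU ⟨0, 1⟩, mB O1, mL}, ?_, Set.toFinite _⟩
  rw [eq_top_iff]
  intro g _
  refine PG.SL_sub _ ?_ ?_ ?_ ?_ g
  · exact Subgroup.subset_closure (by simp)
  · exact Subgroup.subset_closure (by simp)
  · exact Subgroup.subset_closure (by simp)
  · exact Subgroup.subset_closure (by simp)

/-- block X -/
theorem rho_of (hE : S_E) (hX1 : S_X1) (hX3 : S_X3) (hX4 : S_X4) (Λ : Type) [Group Λ]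
    (Φ : NatBij GG Λ) (T : Λ → O1) (s : Λ →* SL2 (AlgebraicClosure ℚ)) (w : AlgebraicClosure ℚ)
    (hw : w * w = -1) (hO : OutP Φ T s w hw) : ∃ ρ : Λ →* GG, Rho Φ ρ := by
  obtain ⟨ρ, hρ⟩ := hE Λ Φ T s w hw hO
  obtain ⟨r, hr⟩ : ∃ r, r = Φ.toFun _ (rd 4) := ⟨_, rfl⟩
  have h2 : ∀ l, E1m (Int.castRingHom (ZMod 4)) (T l) = tr (r l) := by
    obtain ⟨c, hc, h⟩ := hO.red 2
    have h' := h 2
    rw [hc rfl] at h'
    intro l
    rw [hr]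
    exact h' l
  have h4 : ∀ l, tr ((rd 4).comp ρ l) = tr (r l) := by
    intro l
    rw [← h2, ← hρ]
    exact tr_map _ _
  have hrange : ∀ g, ∃ l, r l = rd 4 g := by
    intro g
    have : rd 4 g ∈ r.range := by
      rw [hr, Φ.range_eq]; exact ⟨g, rfl⟩
    exact this
  obtain ⟨C, D, hCD, hDC, hC⟩ := hX3 Λ r ((rd 4).comp ρ) h4 (by
    obtain ⟨l, hl⟩ := hrange (mU 1)
    refine ⟨l, ?_⟩
    rw [hl]
    apply G.SL_ext <;> decide) (by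
    obtain ⟨l, hl⟩ := hrange (mB _)
    refine ⟨l, ?_⟩
    rw [hl]
    apply G.SL_ext <;> decide)
  obtain ⟨ρ₁, h1, hf⟩ := hX4 Λ ρ r C D hCD hDC hC
  obtain ⟨hk, hi⟩ := hX1 Λ Φ T s w hw hO ρ₁ fun l => by rw [h1, hρ]
  exact ⟨ρ₁, hk, hi, by rw [← hr]; exact hf⟩

/-- `SL₂(ℤ[i])` is profinitely rigid -/
theorem rigid_SL (hout : S_out) (hE : S_E) (hX1 : S_X1) (hX3 : S_X3) (hX4 : S_X4) (hfi : S_fi)
    (hcon : S_con) : ProfinitelyRigid GG := by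
  intro Λ _ hΛ
  obtain ⟨hfg, hrf, hs⟩ := hΛ
  have := hfg
  have := fg_GG
  obtain ⟨Φ⟩ := exists_natBij hs.symm
  obtain ⟨T, s, w, hw, hO⟩ := hout Λ Φ
  obtain ⟨ρ, hρ⟩ := rho_of hE hX1 hX3 hX4 Λ Φ T s w hw hO
  have hsur := hcon Λ Φ ρ hρ (hfi Λ Φ ρ hρ)
  exact ⟨MulEquiv.ofBijective ρ ⟨injective_of_surj hs ρ hsur, hsur⟩⟩

end

end Pool.Agent.F8.PIC
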