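import Pool.Agent.Lib.MP_305fdd_al.F8.PIC.Stm
import Pool.Agent.Lib.MP_305fdd_al.F8.D1.E.Main

/-!
# MP_305fdd_al, project PIC, piece E: from characters to matrices
-/

set_option autoImplicit false

namespace Pool.Agent.F8.PIC

open Pool.Agent.MP_305fdd_al Pool.Agent.Lib.MP_305fdd_al Pool.Agent.F2X Pool.Agent.F8
  Pool.Agent.F8.HN Pool.Agent.F8.AB Pool.Agent.F8.D1
open scoped QuadraticAlgebra

/-- evaluation at a root of `-1` is injective -/
theorem E_inj {K : Type} [Field K] [CharZero K] (w : K) (hw : w * w = -1) :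
    Function.Injective (ev1 (Int.castRingHom K) w hw) := by
  rw [injective_iff_map_eq_zero]
  intro z hz
  rw [ev1_apply, eq_intCast, eq_intCast] at hz
  have h1 : ((z.re * z.re + z.im * z.im : ℤ) : K) = 0 := by
    push_cast
    linear_combination ((z.re : K) - z.im * w) * hz + (z.im : K) * z.im * hw
  have h2 : z.re * z.re + z.im * z.im = 0 := by exact_mod_cast h1
  apply QuadraticAlgebra.ext
  · show z.re = 0
    nlinarith [mul_self_nonneg z.re, mul_self_nonneg z.im]
  · show z.im = 0
    nlinarith [mul_self_nonneg z.re, mul_self_nonneg z.im]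

theorem p_E (hsig : S_sig) : S_E := by
  intro Λ _ Φ T s w hw hO
  exact EG.E_gen PE.leg1 PE.dvd_n1 (ev1 (Int.castRingHom (AlgebraicClosure ℚ)) w hw)
    (E_inj w hw) s T hO.char hO.irr (by
      intro m hm
      have : NeZero m := ⟨hm.ne'⟩
      obtain ⟨e, he, h⟩ := hsig Λ Φ T s w hw hO m
      refine ⟨E1 (ZMod m), inferInstance, E1m (Int.castRingHom (ZMod m)), PE.E1m_surj m,
        PE.E1m_ker m, (SLm (sge e he)).comp (Φ.toFun _ (rd m)), fun l => ?_⟩
      rw [h l]
      exact tr_map _ _)

end Pool.Agent.F8.PIC
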