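import Pool.Agent.Lib.MP_305fdd_al.F8.PIC.Stm

/-!
# MP_305fdd_al, PIC, piece `X1`: the congruence kernels
-/

set_option autoImplicit false

namespace Pool.Agent.F8.PIC

open Pool.Agent.MP_305fdd_al Pool.Agent.Lib.MP_305fdd_al Pool.Agent.F2X Pool.Agent.F8
  Pool.Agent.F8.HN Pool.Agent.F8.AB Pool.Agent.F8.D1

/-- If the traces of `r₂` are the images of the traces of `r₁` under an endomorphism of the ring, then the kernel of `r₁` is
contained in the kernel of `r₂`. -/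
theorem X1_core (hgr : S_gr) {Λ : Type} [Group Λ] {R : Type} [CommRing R] (r₁ r₂ : Λ →* SL2 R)
    (σ : R →+* R) (h : ∀ l, tr (r₂ l) = σ (tr (r₁ l))) (l₁ l₂ : Λ) (h1 : tr (r₁ l₁) = 2)
    (h2 : tr (r₁ l₂) = 2) (h3 : tr (r₁ (l₁ * l₂)) = 3) (l : Λ) (hl : r₁ l = 1) : r₂ l = 1 := by
  have key : ∀ l', (((r₂ l).val - 1) * (r₂ l').val).trace = 0 := by
    intro l'
    have e1 : ((r₂ l).val - 1) * (r₂ l').val = (r₂ (l * l')).val - (r₂ l').val := by
      rw [map_mul, Matrix.SpecialLinearGroup.coe_mul, sub_mul, one_mul]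
    rw [e1, Matrix.trace_sub]
    show tr (r₂ (l * l')) - tr (r₂ l') = 0
    rw [h, h, map_mul, hl, one_mul, sub_self]
  have k := hgr R (r₂ l₁) (r₂ l₂) (by rw [h, h1, map_ofNat]) (by rw [h, h2, map_ofNat])
    (by rw [← map_mul, h, h3, map_ofNat]) ((r₂ l).val - 1)
    (by
      have := key 1
      rwa [map_one, Matrix.SpecialLinearGroup.coe_one, mul_one] at this)
    (key l₁) (key l₂) (by rw [← map_mul]; exact key _)
  apply Subtype.ext
  exact sub_eq_zero.mp k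

/-- `[[1, 0], [1, 1]]` -/
def X1_lo : GG := mx 1 0 1 1 (by ring)

theorem X1_tr_tt : tr tt = 2 := by decide

theorem X1_tr_lo : tr X1_lo = 2 := by decide

theorem X1_tr_mul : tr (tt * X1_lo) = 3 := by decide

theorem X1_tr_rd (m : ℕ) (g : GG) : tr (rd m g) = E1m (Int.castRingHom (ZMod m)) (tr g) :=
  tr_map _ _

theorem p_X1 (hgr : S_gr) (hsig : S_sig) : S_X1 := by
  intro Λ _ Φ T s w hw hO ρ hρ
  have key : ∀ (m : ℕ) [NeZero m] (l : Λ), rd m (ρ l) = 1 ↔ Φ.toFun _ (rd m) l = 1 := by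
    intro m _ l
    obtain ⟨e, he, hT⟩ := hsig Λ Φ T s w hw hO m
    have htr : ∀ l, tr (((rd m).comp ρ) l) = sge e he (tr (Φ.toFun _ (rd m) l)) := by
      intro l
      rw [← hT l, ← hρ l]
      exact X1_tr_rd m (ρ l)
    have hlift : ∀ g : GG, ∃ l, Φ.toFun _ (rd m) l = rd m g := by
      intro g
      have : rd m g ∈ (Φ.toFun _ (rd m)).range := by
        rw [Φ.range_eq]; exact ⟨g, rfl⟩
      exact this
    obtain ⟨l₁, hl₁⟩ := hlift tt
    obtain ⟨l₂, hl₂⟩ := hlift X1_lo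
    have t1 : tr (Φ.toFun _ (rd m) l₁) = 2 := by rw [hl₁, X1_tr_rd, X1_tr_tt, map_ofNat]
    have t2 : tr (Φ.toFun _ (rd m) l₂) = 2 := by rw [hl₂, X1_tr_rd, X1_tr_lo, map_ofNat]
    have t3 : tr (Φ.toFun _ (rd m) (l₁ * l₂)) = 3 := by
      rw [map_mul, hl₁, hl₂, ← map_mul, X1_tr_rd, X1_tr_mul, map_ofNat]
    constructor
    · intro h
      exact X1_core hgr ((rd m).comp ρ) (Φ.toFun _ (rd m)) (sge e he)
        (fun l => by rw [htr, sge_sge]) l₁ l₂ (by rw [htr, t1, map_ofNat])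
        (by rw [htr, t2, map_ofNat]) (by rw [htr, t3, map_ofNat]) l h
    · intro h
      exact X1_core hgr (Φ.toFun _ (rd m)) ((rd m).comp ρ) (sge e he) htr l₁ l₂ t1 t2 t3 l h
  refine ⟨key, ?_⟩
  intro m _ g
  have hker : ((rd m).comp ρ).ker = (Φ.toFun _ (rd m)).ker := by
    ext l
    exact key m l
  have hle : ((rd m).comp ρ).range ≤ (Φ.toFun _ (rd m)).range := by
    rw [Φ.range_eq]
    rintro _ ⟨l, rfl⟩
    exact ⟨ρ l, rfl⟩
  have hcard : Nat.card ((rd m).comp ρ).range = Nat.card (Φ.toFun _ (rd m)).range := by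
    rw [← Subgroup.index_ker, ← Subgroup.index_ker, hker]
  have heq := Subgroup.eq_of_le_of_card_ge hle hcard.ge
  have hg : rd m g ∈ ((rd m).comp ρ).range := by
    rw [heq, Φ.range_eq]; exact ⟨g, rfl⟩
  exact hg

end Pool.Agent.F8.PIC
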