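import Pool.Agent.Lib.MP_305fdd_al.F8.PIC.Stm
import Mathlib.GroupTheory.FreeGroup.NielsenSchreier

/-!
# MP_305fdd_al, PIC, piece afg: the intersection with `F` is finitely generated
-/

set_option autoImplicit false

namespace Pool.Agent.F8.PIC

open Pool.Agent.MP_305fdd_al Pool.Agent.Lib.MP_305fdd_al Pool.Agent.F2X Pool.Agent.F8
  Pool.Agent.F8.HN Pool.Agent.F8.AB Pool.Agent.F8.D1
open scoped QuadraticAlgebra

noncomputable section

/-- the exponent of `t` -/
def afg_N (x : G1) : ℤ := Multiplicative.toAdd (nA al1 x)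

theorem afg_N_mul (x y : G1) : afg_N (x * y) = afg_N x + afg_N y := by
  unfold afg_N; rw [map_mul]; rfl

theorem afg_N_inv (x : G1) : afg_N x⁻¹ = -afg_N x := by
  unfold afg_N; rw [map_inv]; rfl

theorem afg_N_one : afg_N 1 = 0 := by
  unfold afg_N; rw [map_one]; rfl

theorem afg_N_iA (w : F) : afg_N (iA al1 w) = 0 := rfl

theorem afg_N_zpow (x : G1) (m : ℤ) : afg_N (x ^ m) = m * afg_N x := by
  unfold afg_N; rw [map_zpow, toAdd_zpow, smul_eq_mul]

theorem afg_conj (k : ℤ) (x : F) :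
    tA al1 ^ k * iA al1 x * (tA al1 ^ k)⁻¹ = iA al1 ((al1 ^ k) x) := by
  unfold tA iA
  rw [← map_zpow, ← map_inv, ← SemidirectProduct.inl_aut, zpowersHom_apply, toAdd_zpow, toAdd_ofAdd,
    smul_eq_mul, mul_one]

/-- the exponents of the elements of `H` are the multiples of an odd number -/
theorem afg_gen (H : Subgroup G1) (hH : ∃ x ∈ H, Odd (Multiplicative.toAdd (nA al1 x))) :
    ∃ h ∈ H, Odd (afg_N h) ∧ ∀ x ∈ H, ∃ m : ℤ, afg_N x = m * afg_N h := by
  let A : AddSubgroup ℤ :=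
    { carrier := {n | ∃ x ∈ H, afg_N x = n}
      zero_mem' := ⟨1, H.one_mem, afg_N_one⟩
      add_mem' := by
        rintro a b ⟨x, hx, rfl⟩ ⟨y, hy, rfl⟩
        exact ⟨x * y, H.mul_mem hx hy, afg_N_mul x y⟩
      neg_mem' := by
        rintro a ⟨x, hx, rfl⟩
        exact ⟨x⁻¹, H.inv_mem hx, afg_N_inv x⟩ }
  obtain ⟨a, ha⟩ := Int.subgroup_cyclic A
  have h1 : a ∈ A := by rw [ha]; exact AddSubgroup.subset_closure rfl
  obtain ⟨h, hh, hha⟩ := h1
  have h2 : ∀ x ∈ H, ∃ m : ℤ, afg_N x = m * afg_N h := by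
    intro x hx
    have h3 : afg_N x ∈ A := ⟨x, hx, rfl⟩
    rw [ha, AddSubgroup.mem_closure_singleton] at h3
    obtain ⟨m, hm⟩ := h3
    exact ⟨m, by rw [← hm, smul_eq_mul, hha]⟩
  refine ⟨h, hh, ?_, h2⟩
  obtain ⟨x, hx, hodd⟩ := hH
  obtain ⟨m, hm⟩ := h2 x hx
  have h3 : Odd (m * afg_N h) := by rw [← hm]; exact hodd
  exact (Int.odd_mul.1 h3).2

/-- the data of the conjugation with `h` on `P` -/
theorem afg_tau (H : Subgroup G1) (h : G1) (hh : h ∈ H) :
    ∃ τ : H.comap (iA al1) ≃* H.comap (iA al1), ∀ x : H.comap (iA al1),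
      h * iA al1 x.val * h⁻¹ = iA al1 (τ x).val := by
  obtain ⟨w, k, hwk⟩ := GA_cases al1 h
  obtain ⟨β, hβ⟩ : ∃ β : MulAut F, β = MulAut.conj w * al1 ^ k := ⟨_, rfl⟩
  have h1 : ∀ x : F, h * iA al1 x * h⁻¹ = iA al1 (β x) := by
    intro x
    have e1 : h * iA al1 x * h⁻¹ = iA al1 w * (tA al1 ^ k * iA al1 x * (tA al1 ^ k)⁻¹) *
        (iA al1 w)⁻¹ := by rw [hwk]; group
    rw [e1, afg_conj, ← map_inv, ← map_mul, ← map_mul, hβ, MulAut.mul_apply, MulAut.conj_apply]
  have h2 : ∀ x, x ∈ H.comap (iA al1) ↔ β x ∈ H.comap (iA al1) := by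
    intro x
    rw [Subgroup.mem_comap, Subgroup.mem_comap, ← h1]
    constructor
    · intro hx
      exact H.mul_mem (H.mul_mem hh hx) (H.inv_mem hh)
    · intro hx
      have := H.mul_mem (H.mul_mem (H.inv_mem hh) hx) hh
      have e : h⁻¹ * (h * iA al1 x * h⁻¹) * h = iA al1 x := by group
      rwa [e] at this
  refine ⟨{ toFun := fun x => ⟨β x.val, (h2 _).1 x.2⟩
            invFun := fun x => ⟨β⁻¹ x.val, (h2 _).2 (by rw [MulAut.apply_inv_self]; exact x.2)⟩
            left_inv := fun x => Subtype.ext (MulAut.inv_apply_self F β x.val)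
            right_inv := fun x => Subtype.ext (MulAut.apply_inv_self F β x.val)
            map_mul' := fun x y => Subtype.ext (map_mul β x.val y.val) }, fun x => h1 x.val⟩

section

variable {H : Subgroup G1} {h : G1} {τ : MulAut (H.comap (iA al1))}

theorem afg_pow (hτ : ∀ x : H.comap (iA al1), h * iA al1 x.val * h⁻¹ = iA al1 (τ x).val) (m : ℤ) :
    ∀ x : H.comap (iA al1), h ^ m * iA al1 x.val * (h ^ m)⁻¹ = iA al1 ((τ ^ m) x).val := by
  induction m using Int.induction_on with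
  | zero => intro x; simp
  | succ i ih =>
    intro x
    have e : h ^ ((i : ℤ) + 1) * iA al1 x.val * (h ^ ((i : ℤ) + 1))⁻¹ =
        h ^ (i : ℤ) * (h * iA al1 x.val * h⁻¹) * (h ^ (i : ℤ))⁻¹ := by
      rw [zpow_add_one]; group
    rw [e, hτ, ih, zpow_add_one, MulAut.mul_apply]
  | pred i ih =>
    intro x
    have h1 := hτ (τ⁻¹ x)
    rw [MulAut.apply_inv_self] at h1
    have h2 : h⁻¹ * iA al1 x.val * h = iA al1 (τ⁻¹ x).val := by rw [← h1]; group
    have e : h ^ (-(i : ℤ) - 1) * iA al1 x.val * (h ^ (-(i : ℤ) - 1))⁻¹ =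
        h ^ (-(i : ℤ)) * (h⁻¹ * iA al1 x.val * h) * (h ^ (-(i : ℤ)))⁻¹ := by
      rw [zpow_sub_one]; group
    rw [e, h2, ih, zpow_sub_one, MulAut.mul_apply]

theorem afg_K (K : Subgroup (H.comap (iA al1))) (hK : ∀ x ∈ K, τ x ∈ K ∧ τ⁻¹ x ∈ K) (m : ℤ) :
    ∀ x ∈ K, (τ ^ m) x ∈ K := by
  induction m using Int.induction_on with
  | zero => intro x hx; simpa using hx
  | succ i ih =>
    intro x hx
    rw [zpow_add_one, MulAut.mul_apply]
    exact ih _ (hK x hx).1
  | pred i ih =>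
    intro x hx
    rw [zpow_sub_one, MulAut.mul_apply]
    exact ih _ (hK x hx).2

theorem afg_f (f : H.comap (iA al1) →* Multiplicative (ZMod 3)) (hf : ∀ x, f (τ x) = (f x)⁻¹)
    (m : ℤ) : ∀ x, Multiplicative.toAdd (f ((τ ^ m) x)) =
      ((-1 : (ZMod 3)ˣ) ^ m).val * Multiplicative.toAdd (f x) := by
  induction m using Int.induction_on with
  | zero => intro x; simp
  | succ i ih =>
    intro x
    rw [zpow_add_one, MulAut.mul_apply, ih, hf, toAdd_inv, zpow_add_one, Units.val_mul,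
      Units.val_neg, Units.val_one]
    ring
  | pred i ih =>
    intro x
    have h1 := hf (τ⁻¹ x)
    rw [MulAut.apply_inv_self] at h1
    have h2 : Multiplicative.toAdd (f (τ⁻¹ x)) = -Multiplicative.toAdd (f x) := by
      rw [h1, toAdd_inv, neg_neg]
    rw [zpow_sub_one, MulAut.mul_apply, ih, h2, zpow_sub_one, Units.val_mul, inv_neg, inv_one,
      Units.val_neg, Units.val_one]
    ring

/-- uniqueness of the decomposition -/
theorem afg_uni (hodd : Odd (afg_N h)) {p q : F} {m n : ℤ}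
    (e : iA al1 p * h ^ m = iA al1 q * h ^ n) : m = n ∧ p = q := by
  have h1 := congrArg afg_N e
  rw [afg_N_mul, afg_N_mul, afg_N_iA, afg_N_iA, afg_N_zpow, afg_N_zpow, zero_add, zero_add] at h1
  have h0 : afg_N h ≠ 0 := by
    intro h0
    rw [h0] at hodd
    exact absurd hodd (by decide)
  have h2 : m = n := mul_right_cancel₀ h0 h1
  refine ⟨h2, ?_⟩
  rw [h2] at e
  exact iA_injective al1 (mul_right_cancel e)

theorem afg_sn (hodd : Odd (afg_N h)) (p : F) (m : ℤ) :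
    sn (iA al1 p * h ^ m) = (-1 : (ZMod 3)ˣ) ^ m := by
  have h1 : afg_N (iA al1 p * h ^ m) = afg_N h * m := by
    rw [afg_N_mul, afg_N_iA, afg_N_zpow, zero_add, mul_comm]
  show (-1 : (ZMod 3)ˣ) ^ (afg_N (iA al1 p * h ^ m)) = _
  rw [h1, zpow_mul, hodd.neg_one_zpow]

end

/-- [PIC afg] the intersection with `F` is finitely generated. -/
theorem p_afg (hfrg : S_frg) : S_afg := by
  intro H hH
  classical
  obtain ⟨h, hh, hodd, hgen⟩ := afg_gen H hH.odd
  obtain ⟨τ, hτ⟩ := afg_tau H h hh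
  obtain ⟨τ', hττ⟩ : ∃ τ' : MulAut (H.comap (iA al1)), τ' = τ := ⟨τ, rfl⟩
  have hτ' : ∀ x : H.comap (iA al1), h * iA al1 x.val * h⁻¹ = iA al1 (τ' x).val := by
    rw [hττ]; exact hτ
  -- the decomposition
  have dec : ∀ y : H, ∃ (p : H.comap (iA al1)) (m : ℤ), y.val = iA al1 p.val * h ^ m := by
    intro y
    obtain ⟨m, hm⟩ := hgen y.val y.2
    have h1 : nA al1 (y.val * (h ^ m)⁻¹) = 1 := by
      have h2 : afg_N (y.val * (h ^ m)⁻¹) = 0 := by
        rw [afg_N_mul, afg_N_inv, afg_N_zpow, hm, add_neg_cancel]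
      exact Multiplicative.toAdd.injective h2
    obtain ⟨p, hp⟩ := GA_ker al1 _ h1
    have hpH : p ∈ H.comap (iA al1) := by
      rw [Subgroup.mem_comap, ← hp]
      exact H.mul_mem y.2 (H.inv_mem (H.zpow_mem hh m))
    exact ⟨⟨p, hpH⟩, m, by rw [← hp, inv_mul_cancel_right]⟩
  choose pp mm hpm using dec
  have hmul : ∀ (p q : H.comap (iA al1)) (m n : ℤ), iA al1 p.val * h ^ m * (iA al1 q.val * h ^ n) =
      iA al1 (p * (τ' ^ m) q).val * h ^ (m + n) := by
    intro p q m n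
    have e1 : iA al1 p.val * h ^ m * (iA al1 q.val * h ^ n) =
        iA al1 p.val * (h ^ m * iA al1 q.val * (h ^ m)⁻¹) * (h ^ m * h ^ n) := by group
    rw [e1, afg_pow hτ', ← map_mul, ← zpow_add]
    rfl
  have : IsFreeGroup (H.comap (iA al1)) := subgroupIsFreeOfIsFree _
  obtain ⟨T, hT⟩ := hH.fg
  have hTH : ∀ t ∈ T, t ∈ H := by
    intro t ht
    rw [← hT]
    exact Subgroup.subset_closure ht
  rw [← Group.fg_iff_subgroup_fg]
  refine hfrg (H.comap (iA al1)) this τ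
    (T.attach.image (fun t => pp ⟨t.val, hTH t.val t.2⟩)) ?_ ?_
  · intro K hK1 hK2
    have hK3 : ∀ x ∈ K, τ' x ∈ K ∧ τ'⁻¹ x ∈ K := by
      rw [hττ]; exact hK2
    let H' : Subgroup G1 :=
      { carrier := {x | ∃ p ∈ K, ∃ m : ℤ, x = iA al1 p.val * h ^ m}
        one_mem' := ⟨1, K.one_mem, 0, by simp⟩
        mul_mem' := by
          rintro x y ⟨p, hp, m, rfl⟩ ⟨q, hq, n, rfl⟩
          exact ⟨p * (τ' ^ m) q, K.mul_mem hp (afg_K K hK3 m q hq), m + n, hmul p q m n⟩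
        inv_mem' := by
          rintro x ⟨p, hp, m, rfl⟩
          refine ⟨(τ' ^ (-m)) p⁻¹, afg_K K hK3 _ _ (K.inv_mem hp), -m, ?_⟩
          apply inv_eq_of_mul_eq_one_right
          rw [hmul, zpow_neg, MulAut.apply_inv_self, mul_inv_cancel, add_neg_cancel, zpow_zero,
            mul_one]
          exact map_one _ }
    have hHH : H ≤ H' := by
      rw [← hT, Subgroup.closure_le]
      intro t ht
      refine ⟨pp ⟨t, hTH t ht⟩, ?_, mm ⟨t, hTH t ht⟩, hpm ⟨t, hTH t ht⟩⟩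
      apply hK1
      rw [Finset.mem_image]
      exact ⟨⟨t, ht⟩, Finset.mem_attach _ _, rfl⟩
    rw [eq_top_iff]
    intro x _
    obtain ⟨p, hp, m, hm⟩ := hHH x.2
    have h1 : iA al1 x.val * h ^ (0 : ℤ) = iA al1 p.val * h ^ m := by
      rw [zpow_zero, mul_one]; exact hm
    have h2 := (afg_uni hodd h1).2
    rw [show x = p from Subtype.ext h2]
    exact hp
  · intro f hf
    have hf' : ∀ x, f (τ' x) = (f x)⁻¹ := by rw [hττ]; exact hf
    have h1 := hH.no3 (fun y => Multiplicative.toAdd (f (pp y))) (by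
      intro x y
      have e1 : iA al1 (pp (x * y)).val * h ^ (mm (x * y)) =
          iA al1 (pp x * (τ' ^ (mm x)) (pp y)).val * h ^ (mm x + mm y) := by
        rw [← hpm, ← hmul, ← hpm, ← hpm]
        rfl
      have e2 : pp (x * y) = pp x * (τ' ^ (mm x)) (pp y) := Subtype.ext (afg_uni hodd e1).2
      have e3 : sn x.val = (-1 : (ZMod 3)ˣ) ^ (mm x) := by
        rw [hpm x]
        exact afg_sn hodd _ _
      show Multiplicative.toAdd (f (pp (x * y))) = Multiplicative.toAdd (f (pp x)) +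
        (sn x.val).val * Multiplicative.toAdd (f (pp y))
      rw [e2, map_mul, toAdd_mul, afg_f f hf', e3])
    ext1 x
    have h2 := h1 ⟨iA al1 x.val, x.2⟩ rfl
    have h3 : iA al1 x.val * h ^ (0 : ℤ) = iA al1 (pp ⟨iA al1 x.val, x.2⟩).val *
        h ^ (mm ⟨iA al1 x.val, x.2⟩) := by
      rw [← hpm, zpow_zero, mul_one]
    have h4 : x = pp ⟨iA al1 x.val, x.2⟩ := Subtype.ext (afg_uni hodd h3).2
    rw [h4]
    exact Multiplicative.toAdd.injective h2

end

end Pool.Agent.F8.PIC
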