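import Pool.Agent.Lib.MP_305fdd_al.F8.PIC.Stm

/-!
# MP_305fdd_al, [PIC alg] the equations
-/

set_option autoImplicit false

namespace Pool.Agent.F8.PIC

/-- the equations in the variables `P = 1 - p`, `Q = 1 - q` -/
theorem alg_main {K : Type} [Field K] (h2 : (2 : K) ≠ 0) (w s P Q : K) (hw : w * w = -1) (hs : s ≠ 0)
    (f1 : 4 * (P * (P - 2)) = s ^ 2 - 1) (f2 : 4 * (s ^ 2 * (Q * (Q - 2))) = 1 - s ^ 2)
    (f3 : P * (s - w) = w * s * Q * (s + w)) (hP : P ≠ 0) (hQ : Q ≠ 0) :
    s ^ 2 + w * s + 1 = 0 ∧ 2 * P = 3 - w * s ∧ 2 * Q = 2 + w * s := by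
  have hw0 : w ≠ 0 := by
    rintro rfl
    rw [mul_zero] at hw
    have : (1 : K) = 0 := by linear_combination hw
    exact one_ne_zero this
  have hsw : s - w ≠ 0 := by
    intro h
    have h1 : s = w := by linear_combination h
    rw [h1] at f3
    have h3 : 2 * (w * Q) = 0 := by linear_combination f3 + 2 * w * Q * hw
    exact (mul_ne_zero h2 (mul_ne_zero hw0 hQ)) h3
  have f4 : w * (s + w) * P + s * (s - w) * Q = 2 * (s ^ 2 - 1) := by
    have h4 : (4 : K) * (s * Q) ≠ 0 := by
      have : (4 : K) = 2 * 2 := by norm_num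
      rw [this]
      exact mul_ne_zero (mul_ne_zero h2 h2) (mul_ne_zero hs hQ)
    apply mul_left_cancel₀ h4
    linear_combination (s - w) * f1 + (s - w) * f2 - 4 * (P - 2) * f3 + 8 * s * Q * hw
  have f5 : 2 * (s ^ 2 * Q) = w * (s ^ 2 - 1) * (s - w) := by
    apply mul_left_cancel₀ h2
    linear_combination w * (s - w) * f4 - w * w * (s + w) * f3 +
      (4 * s ^ 2 * Q - w * s * Q * (s + w) ^ 2) * hw
  have f6 : 2 * (s * P) = -((s ^ 2 - 1) * (s + w)) := by
    apply mul_left_cancel₀ hsw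
    linear_combination 2 * s * f3 + w * (s + w) * f5 + (s ^ 2 - 1) * (s - w) * (s + w) * hw
  have hs1 : s ^ 2 - 1 ≠ 0 := by
    intro h
    rw [h, zero_mul, neg_zero] at f6
    exact (mul_ne_zero h2 (mul_ne_zero hs hP)) f6
  have f7 : s ^ 2 + w * s + 1 = 0 := by
    have h7 : (s ^ 2 + w * s + 1) ^ 2 = 0 := by
      apply mul_left_cancel₀ hs1
      rw [mul_zero]
      have g1 : (2 * (s * P)) ^ 2 - 4 * s * (2 * (s * P)) = s ^ 2 * (s ^ 2 - 1) := by
        linear_combination s ^ 2 * f1
      rw [f6] at g1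
      linear_combination g1 + (s ^ 2 - 1) * hw * (s ^ 2 - (s ^ 2 - 1))
    exact pow_eq_zero_iff (two_ne_zero) |>.1 h7
  have hs2 : s ^ 2 ≠ 0 := pow_ne_zero 2 hs
  refine ⟨f7, ?_, ?_⟩
  · apply mul_left_cancel₀ hs2
    have h8 : s * (2 * (s * P)) = -(w * s + 2) := by
      rw [f6]
      linear_combination (-(s ^ 2 + w * s) * 1 + 2 + w * s) * f7
    linear_combination h8 + (w * s - 2) * f7 - s ^ 2 * hw
  · apply mul_left_cancel₀ hs2
    linear_combination f5 - f7 + (1 - s ^ 2) * hw

theorem p_alg : S_alg := by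
  intro K _ h2 w s p q hw hs e1 e2 e3
  have f1 : 4 * ((1 - p) * ((1 - p) - 2)) = s ^ 2 - 1 := by linear_combination e1
  have f2 : 4 * (s ^ 2 * ((1 - q) * ((1 - q) - 2))) = 1 - s ^ 2 := by linear_combination e2
  have f3 : (1 - p) * (s - w) = w * s * (1 - q) * (s + w) := by
    have h : s * ((1 - p) * (1 - w / s) + (1 - q) * (1 - w * s)) =
        (1 - p) * (s - w) + (1 - q) * (s - w * s ^ 2) := by
      field_simp
    rw [e3, mul_zero] at h
    linear_combination (-1 : K) * h - s * (1 - q) * hw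
  by_cases hP : 1 - p = 0
  · rw [hP] at f1 f3
    rw [zero_mul] at f3
    have hp : p = 1 := by linear_combination (-1 : K) * hP
    left
    refine ⟨hp, ?_⟩
    by_contra hq
    have hQ : 1 - q ≠ 0 := fun h => hq (by linear_combination (-1 : K) * h)
    have hw0 : w ≠ 0 := by
      rintro rfl
      rw [mul_zero] at hw
      have : (1 : K) = 0 := by linear_combination hw
      exact one_ne_zero this
    have h1 : s + w = 0 := by
      rcases mul_eq_zero.1 f3.symm with h | h
      · exact absurd h (mul_ne_zero (mul_ne_zero hw0 hs) hQ)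
      · exact h
    apply h2
    linear_combination f1 + hw + (s - w) * h1
  · by_cases hQ : 1 - q = 0
    · exfalso
      rw [hQ] at f2 f3
      rw [mul_zero, zero_mul] at f3
      have h1 : s - w = 0 := by
        rcases mul_eq_zero.1 f3 with h | h
        · exact absurd h hP
        · exact h
      apply h2
      linear_combination (-1 : K) * f2 + hw + (s + w) * h1
    · obtain ⟨g1, g2, g3⟩ := alg_main h2 w s (1 - p) (1 - q) hw hs f1 f2 f3 hP hQ
      right
      exact ⟨g1, by linear_combination (-1 : K) * g2, by linear_combination (-1 : K) * g3⟩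

end Pool.Agent.F8.PIC
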