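import Pool.Agent.Lib.MP_305fdd_al.F8.PIC.Stm
import Pool.Agent.Lib.MP_305fdd_al.F8.D1.Lk
import Pool.Agent.Lib.MP_305fdd_al.F8.D1.Dom

/-!
# MP_305fdd_al, the Picard group, piece [PIC con]: surjectivity of `ρ`
-/

set_option autoImplicit false

namespace Pool.Agent.F8.PIC

open Pool.Agent.MP_305fdd_al Pool.Agent.Lib.MP_305fdd_al Pool.Agent.F2X Pool.Agent.F8
  Pool.Agent.F8.HN Pool.Agent.F8.AB Pool.Agent.F8.D1
open MulAction

/-! ### The group `G1` -/

/-- `GA α` is finitely generated -/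
theorem con_fg (α : MulAut F) : Group.FG (GA α) := by
  rw [Group.fg_iff]
  refine ⟨{iA α ga, iA α gb, tA α}, ?_, Set.toFinite _⟩
  rw [eq_top_iff]
  rintro x -
  obtain ⟨w, n, rfl⟩ := GA_cases α x
  have hw : iA α w ∈ Subgroup.closure {iA α ga, iA α gb, tA α} := by
    have hle : (⊤ : Subgroup F) ≤ (Subgroup.closure {iA α ga, iA α gb, tA α}).comap (iA α) := by
      rw [← FreeGroup.closure_range_of, Subgroup.closure_le]
      rintro _ ⟨i, rfl⟩
      fin_cases i
      · exact Subgroup.subset_closure (by left; rfl)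
      · exact Subgroup.subset_closure (by right; left; rfl)
    exact hle (Subgroup.mem_top w)
  exact mul_mem hw (zpow_mem (Subgroup.subset_closure (by right; right; rfl)) _)

/-- the exponent sum modulo two -/
def con_v (a b : ℤ) : F →* Multiplicative (ZMod 2) :=
  MonoidHom.mk' (fun w => Multiplicative.ofAdd (((a * vec w 0 + b * vec w 1 : ℤ)) : ZMod 2)) (by
    intro x y
    rw [vec_mul, Pi.add_apply, Pi.add_apply, ← ofAdd_add, ← Int.cast_add]
    congr 2
    ring)

theorem con_f (w : F) : ch0f (iA al1 w) = Multiplicative.ofAdd ((vec w 0 : ℤ) : ZMod 2) := by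
  have e : ch0f.comp (iA al1) = con_v 1 0 := by
    apply hom_ext
    · show ch0f (iA al1 ga) = _
      rw [ch0f_ga]
      show _ = Multiplicative.ofAdd _
      unfold ga
      rw [vec_of]; rfl
    · show ch0f (iA al1 gb) = _
      rw [ch0f_gb]
      show _ = Multiplicative.ofAdd _
      unfold gb
      rw [vec_of]; rfl
  have h := DFunLike.congr_fun e w
  have h1 : ch0f (iA al1 w) = con_v 1 0 w := h
  rw [h1]
  show Multiplicative.ofAdd _ = _
  congr 2
  ring

theorem con_e (w : F) : ch0e (iA al1 w) = Multiplicative.ofAdd ((vec w 0 + vec w 1 : ℤ) : ZMod 2) := by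
  have e : ch0e.comp (iA al1) = con_v 1 1 := by
    apply hom_ext
    · show ch0e (iA al1 ga) = _
      rw [ch0e_ga]
      show _ = Multiplicative.ofAdd _
      unfold ga
      rw [vec_of]; rfl
    · show ch0e (iA al1 gb) = _
      rw [ch0e_gb]
      show _ = Multiplicative.ofAdd _
      unfold gb
      rw [vec_of]; rfl
  have h := DFunLike.congr_fun e w
  have h1 : ch0e (iA al1 w) = con_v 1 1 w := h
  rw [h1]
  show Multiplicative.ofAdd _ = _
  congr 2
  ring

theorem con_index {η : G5 →* G1} (hη : Eta η) : η.range.FiniteIndex := by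
  have h1 : (ch0f.prod ch0e).ker ≤ η.range := by
    intro x hx
    rw [MonoidHom.mem_ker] at hx
    obtain ⟨w, n, rfl⟩ := GA_cases al1 x
    have hf : ch0f (iA al1 w * tA al1 ^ n) = 1 := congrArg Prod.fst hx
    have he : ch0e (iA al1 w * tA al1 ^ n) = 1 := congrArg Prod.snd hx
    rw [map_mul, map_zpow, ch0f_t, one_zpow, mul_one, con_f] at hf
    rw [map_mul, map_zpow, ch0e_t, one_zpow, mul_one, con_e] at he
    have hf' : ((vec w 0 : ℤ) : ZMod 2) = 0 := hf
    have he' : ((vec w 0 + vec w 1 : ℤ) : ZMod 2) = 0 := he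
    rw [ZMod.intCast_zmod_eq_zero_iff_dvd] at hf' he'
    have e0 : Even (vec w 0) := even_iff_two_dvd.2 (by exact_mod_cast hf')
    have e1 : Even (vec w 1) := by
      have : Even (vec w 0 + vec w 1) := even_iff_two_dvd.2 (by exact_mod_cast he')
      exact (Int.even_add.1 this).1 e0
    exact hη.sur w n e0 e1
  have h2 : (ch0f.prod ch0e).ker.FiniteIndex := Subgroup.finiteIndex_ker _
  exact Subgroup.finiteIndex_of_le h1

/-! ### Matrices congruent to one -/

theorem con_int (m : ℕ) (a b : ℤ) (h : ((a : ℤ) : ZMod m) = (b : ZMod m)) : (m : ℤ) ∣ a - b := by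
  have h1 : (((a - b : ℤ)) : ZMod m) = 0 := by rw [Int.cast_sub, h, sub_self]
  exact (ZMod.intCast_zmod_eq_zero_iff_dvd _ _).1 h1

theorem con_ent {m : ℕ} {g : GG} (h : rd m g = 1) (i j : Fin 2) :
    (m : ℤ) ∣ (g.val i j).re - ((1 : GG).val i j).re ∧
    (m : ℤ) ∣ (g.val i j).im - ((1 : GG).val i j).im := by
  have h1 : rd m g = rd m 1 := by rw [h, map_one]
  have h2 : E1m (Int.castRingHom (ZMod m)) (g.val i j) =
      E1m (Int.castRingHom (ZMod m)) ((1 : GG).val i j) :=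
    congrArg (fun x : SL2 (E1 (ZMod m)) => x.val i j) h1
  rw [E1m_apply, E1m_apply] at h2
  exact ⟨con_int _ _ _ (congrArg QuadraticAlgebra.re h2),
    con_int _ _ _ (congrArg QuadraticAlgebra.im h2)⟩

/-- a matrix which is one modulo `m ≥ 3` is not `-1` -/
theorem con_neg {m : ℕ} (hm : 3 ≤ m) {g : GG} (h : rd m g = 1) : g ≠ -1 := by
  rintro rfl
  have h1 := (con_ent h 0 0).1
  have h2 : ((-1 : GG).val 0 0).re - ((1 : GG).val 0 0).re = -2 := by decide
  rw [h2] at h1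
  have h3 := Int.le_of_dvd (by norm_num) ((dvd_neg).1 h1)
  omega

/-- an integer of absolute value less than `m` divisible by `m` -/
theorem con_sm {m a : ℤ} (h : m ∣ a) (h1 : |a| < m) : a = 0 := Int.eq_zero_of_abs_lt_dvd h h1

/-- a unit of `ℤ[i]` which is one modulo `m ≥ 3` -/
theorem con_unit {m : ℕ} (hm : 3 ≤ m) {a b : O1} (hab : a * b = 1) (h1 : (m : ℤ) ∣ a.re - 1)
    (h2 : (m : ℤ) ∣ a.im) : a = 1 := by
  have h3 : n1 a * n1 b = 1 := by
    rw [← n1_mul, hab]; rfl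
  have ha : 0 ≤ n1 a := by unfold n1; nlinarith [mul_self_nonneg a.re, mul_self_nonneg a.im]
  have h4 : n1 a = 1 := by
    have := Int.isUnit_iff.1 (IsUnit.of_mul_eq_one _ h3)
    rcases this with h | h
    · exact h
    · omega
  unfold n1 at h4
  have hre : |a.re| ≤ 1 := by
    rw [abs_le]; constructor <;> nlinarith [mul_self_nonneg a.im, mul_self_nonneg (a.re - 1), mul_self_nonneg (a.re + 1)]
  have him : |a.im| ≤ 1 := by
    rw [abs_le]; constructor <;> nlinarith [mul_self_nonneg a.re, mul_self_nonneg (a.im - 1), mul_self_nonneg (a.im + 1)]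
  have hm' : (3 : ℤ) ≤ m := by exact_mod_cast hm
  have e2 : a.im = 0 := con_sm h2 (by linarith)
  have e1 : a.re - 1 = 0 := con_sm h1 (by rw [abs_lt]; rw [abs_le] at hre; constructor <;> linarith [hre.1, hre.2])
  exact QuadraticAlgebra.ext (by show a.re = 1; linarith) e2

/-- upper triangular matrices which are one modulo `m` -/
theorem con_up {m : ℕ} (hm : 3 ≤ m) {g : GG} (h : rd m g = 1) (h0 : g.val 1 0 = 0) :
    ∃ b : O1, g = mU (m * b) := by
  have hd := G.SL_det g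
  rw [h0, mul_zero, sub_zero] at hd
  have h00 := con_ent h 0 0
  have h11 := con_ent h 1 1
  have h01 := con_ent h 0 1
  have o1 : ((1 : GG).val 0 0).re = 1 := rfl
  have o2 : ((1 : GG).val 0 0).im = 0 := rfl
  rw [o1, o2, sub_zero] at h00
  have e00 : g.val 0 0 = 1 := con_unit hm hd h00.1 h00.2
  have e11 : g.val 1 1 = 1 := by rwa [e00, one_mul] at hd
  obtain ⟨x, hx⟩ := h01.1
  obtain ⟨y, hy⟩ := h01.2
  refine ⟨⟨x, y⟩, ?_⟩
  apply G.SL_ext
  · rw [e00]; rfl
  · show g.val 0 1 = m * ⟨x, y⟩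
    apply QuadraticAlgebra.ext
    · have : ((m : O1) * ⟨x, y⟩).re = m * x := by
        simp
      rw [this]; simpa using hx
    · have : ((m : O1) * ⟨x, y⟩).im = m * y := by
        simp
      rw [this]; simpa using hy
  · rw [h0]; rfl
  · rw [e11]; rfl

theorem con_pow (b : O1) (k : ℕ) : mU ((k : O1) * b) = mU b ^ k := by
  induction k with
  | zero => rw [Nat.cast_zero, zero_mul, pow_zero, F8.G.mU_zero]
  | succ k ih => rw [Nat.cast_succ, add_mul, one_mul, F8.G.mU_add, ih, pow_succ]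

/-- reduction modulo a divisor -/
theorem con_red {m k : ℕ} (hmk : m ∣ k) {g : GG} (h : rd k g = 1) : rd m g = 1 := by
  have key : ∀ i j, E1m (Int.castRingHom (ZMod m)) (g.val i j) =
      E1m (Int.castRingHom (ZMod m)) ((1 : GG).val i j) := by
    intro i j
    obtain ⟨h1, h2⟩ := con_ent h i j
    have hd : (m : ℤ) ∣ k := by exact_mod_cast hmk
    have c : ∀ a b : ℤ, (k : ℤ) ∣ a - b → Int.castRingHom (ZMod m) a = Int.castRingHom (ZMod m) b := by
      intro a b hab
      have h3 : (((a - b : ℤ)) : ZMod m) = 0 :=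
        (ZMod.intCast_zmod_eq_zero_iff_dvd _ _).2 (hd.trans hab)
      rw [Int.cast_sub, sub_eq_zero] at h3
      exact h3
    rw [E1m_apply, E1m_apply, c _ _ h1, c _ _ h2]
  have h1 : rd m g = rd m 1 := G.SL_ext (key 0 0) (key 0 1) (key 1 0) (key 1 1)
  rw [h1, map_one]

/-! ### Numbers of homomorphisms -/

theorem con_card {G T : Type} [Group G] [Group T] {A B : Subgroup G} (h : A = B) :
    Nat.card (A →* T) = Nat.card (B →* T) := by
  subst h; rfl

theorem con_sur {P Q T : Type} [Group P] [Group Q] [Group T] [Finite (P →* T)] (f : P →* Q)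
    (hf : Function.Surjective f) : Nat.card (Q →* T) ≤ Nat.card (P →* T) := by
  refine Nat.card_le_card_of_injective (fun χ : Q →* T => χ.comp f) ?_
  intro χ χ' h
  exact MonoidHom.cancel_right hf |>.1 h

theorem con_bij {P Q T : Type} [Group P] [Group Q] [Group T] (f : P →* Q)
    (hf : Function.Bijective f) : Nat.card (P →* T) = Nat.card (Q →* T) := by
  let e : P ≃* Q := MulEquiv.ofBijective f hf
  refine Nat.card_congr ⟨fun χ => χ.comp e.symm.toMonoidHom, fun χ => χ.comp e.toMonoidHom, ?_, ?_⟩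
  · intro χ
    ext x
    show χ (e.symm (e x)) = χ x
    rw [e.symm_apply_apply]
  · intro χ
    ext x
    show χ (e (e.symm x)) = χ x
    rw [e.apply_symm_apply]

theorem con_map_index {P Q : Type} [Group P] [Group Q] (f : P →* Q) (hf : f.range.FiniteIndex)
    (A : Subgroup P) (hA : A.FiniteIndex) : (A.map f).FiniteIndex := by
  constructor
  rw [Subgroup.index_map]
  have h1 : (A ⊔ f.ker).FiniteIndex := Subgroup.finiteIndex_of_le le_sup_left
  exact Nat.mul_ne_zero h1.index_ne_zero hf.index_ne_zero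

/-- PIECE con -/
theorem p_con (h_eta : S_eta) (h_hl1 : S_hl1) (h_hl2 : S_hl2) : S_con := by
  intro Λ _ _ Φ ρ hρ hfin
  classical
  obtain ⟨η, hη⟩ := h_eta
  by_contra hns
  obtain ⟨H, hH⟩ : ∃ H, H = ρ.range := ⟨_, rfl⟩
  rw [← hH] at hfin
  obtain ⟨g₀, hg₀⟩ : ∃ g, g ∉ H := by
    by_contra hc
    push Not at hc
    apply hns
    rw [← MonoidHom.range_eq_top, ← hH, eq_top_iff]
    exact fun x _ => hc x
  obtain ⟨k, hk⟩ : ∃ k, k = H.index.factorial := ⟨_, rfl⟩
  have hk0 : 0 < k := by rw [hk]; exact Nat.factorial_pos _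
  have hpow : ∀ x : GG, x ^ k ∈ H := by
    intro x
    refine Subgroup.pow_mem_of_index_ne_zero_of_dvd hfin.index_ne_zero x fun m hm hm' => ?_
    rw [hk]; exact Nat.dvd_factorial hm hm'
  obtain ⟨M, hMk⟩ : ∃ M, M = 8 * k := ⟨_, rfl⟩
  have hM : 3 ≤ M := by omega
  have : NeZero M := ⟨by omega⟩
  obtain ⟨N, hN⟩ : ∃ N, N = (rd M).ker := ⟨_, rfl⟩
  have hNn : N.Normal := by rw [hN]; infer_instance
  have hNm : ∀ x, x ∈ N ↔ rd M x = 1 := by intro x; rw [hN]; rfl
  have hNf : N.FiniteIndex := by rw [hN]; exact Subgroup.finiteIndex_ker _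
  have hNG : N ≤ G5 := by
    intro x hx
    show rd 4 x ∈ A5
    rw [con_red (Dvd.dvd.trans (by norm_num) (Dvd.intro k hMk.symm : 8 ∣ M)) ((hNm x).1 hx)]
    exact one_mem _
  -- an element of `N` not in `H`
  obtain ⟨l₀, hl₀⟩ := hρ.img M g₀
  obtain ⟨n₀, hn₀⟩ : ∃ n₀, n₀ = (ρ l₀)⁻¹ * g₀ := ⟨_, rfl⟩
  have hn₀N : n₀ ∈ N := by
    rw [hNm, hn₀, map_mul, map_inv, hl₀, inv_mul_cancel]
  have hn₀H : n₀ ∉ H := by
    intro h
    apply hg₀
    have h1 : ρ l₀ ∈ H := by rw [hH]; exact ⟨l₀, rfl⟩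
    have h2 := mul_mem h1 h
    rwa [hn₀, mul_inv_cancel_left] at h2
  -- `η` is injective on `N`
  have hinj : ∀ x y : G5, x.val ∈ N → y.val ∈ N → η x = η y → x = y := by
    intro x y hx hy h
    have h1 : η (x⁻¹ * y) = 1 := by rw [map_mul, map_inv, h, inv_mul_cancel]
    rcases (hη.ker _).1 h1 with h2 | h2
    · have h3 : x⁻¹ * y = 1 := Subtype.ext h2
      exact inv_mul_eq_one.1 h3
    · exfalso
      have h3 : (x⁻¹ * y).val ∈ N := mul_mem (inv_mem hx) hy
      exact con_neg hM ((hNm _).1 h3) h2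
  -- the subgroups of `G1`
  obtain ⟨N2, hN2⟩ : ∃ N2, N2 = (N.subgroupOf G5).map η := ⟨_, rfl⟩
  obtain ⟨H2, hH2⟩ : ∃ H2, H2 = ((H ⊓ N).subgroupOf G5).map η := ⟨_, rfl⟩
  have hle : H2 ≤ N2 := by
    rw [hN2, hH2]
    apply Subgroup.map_mono
    intro x hx
    exact hx.2
  have hN2f : N2.FiniteIndex := by
    rw [hN2]; exact con_map_index η (con_index hη) _ inferInstance
  have hH2f : H2.FiniteIndex := by
    rw [hH2]; exact con_map_index η (con_index hη) _ inferInstance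
  have : Finite (G1 ⧸ H2) := Subgroup.finite_quotient_of_finiteIndex
  have : Finite (G1 ⧸ N2) := Subgroup.finite_quotient_of_finiteIndex
  have : Fintype (G1 ⧸ H2) := Fintype.ofFinite _
  have : Fintype (G1 ⧸ N2) := Fintype.ofFinite _
  let π : G1 ⧸ H2 → G1 ⧸ N2 := Subgroup.quotientMapOfLE hle
  have hπm : ∀ g : G1, π (g : G1 ⧸ H2) = (g : G1 ⧸ N2) := fun g => rfl
  have hπ : ∀ (g : G1) (x : G1 ⧸ H2), π (g • x) = g • π x := by
    intro g x
    induction x using QuotientGroup.induction_on with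
    | H z => rfl
  -- the elements
  have hn₀' : η ⟨n₀, hNG hn₀N⟩ ∈ N2 := by
    rw [hN2]; exact ⟨⟨n₀, hNG hn₀N⟩, hn₀N, rfl⟩
  have hne : ((1 : G1) : G1 ⧸ H2) ≠ ((η ⟨n₀, hNG hn₀N⟩ : G1) : G1 ⧸ H2) := by
    intro h
    rw [QuotientGroup.eq, inv_one, one_mul, hH2] at h
    obtain ⟨y, hy, hy2⟩ := h
    have h1 := hinj y ⟨n₀, hNG hn₀N⟩ hy.2 hn₀N hy2
    exact hn₀H (by have := hy.1; rwa [h1] at this)
  have hπ12 : π ((1 : G1) : G1 ⧸ H2) = π ((η ⟨n₀, hNG hn₀N⟩ : G1) : G1 ⧸ H2) := by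
    rw [hπm, hπm, QuotientGroup.eq, inv_one, one_mul]
    exact hn₀'
  have hq : ∀ q ∈ Subgroup.closure {iA al1 cc, tA al1}, q • π ((1 : G1) : G1 ⧸ H2) =
      π ((1 : G1) : G1 ⧸ H2) → ∀ x, π x = π ((1 : G1) : G1 ⧸ H2) → q • x = x := by
    intro q hqc hq1 x hx
    have hq2 : q ∈ N2 := by
      rw [hπm] at hq1
      have h1 : ((q * 1 : G1) : G1 ⧸ N2) = ((1 : G1) : G1 ⧸ N2) := hq1
      rw [mul_one] at h1
      have h2 := QuotientGroup.eq.1 h1.symm
      rwa [inv_one, one_mul] at h2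
    rw [hN2] at hq2
    obtain ⟨y, hy, rfl⟩ := hq2
    have hyN : y.val ∈ N := hy
    obtain ⟨b, hb⟩ := con_up hM ((hNm _).1 hyN) (hη.par y hqc)
    have hb2 : y.val = mU ((8 : O1) * b) ^ k := by
      rw [← con_pow, hb, hMk]
      congr 1
      push_cast
      ring
    induction x using QuotientGroup.induction_on with
    | H a =>
      rw [hπm, hπm] at hx
      have ha : a ∈ N2 := by
        have h2 := QuotientGroup.eq.1 hx.symm
        rwa [inv_one, one_mul] at h2
      rw [hN2] at ha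
      obtain ⟨n, hn, rfl⟩ := ha
      show ((η y * η n : G1) : G1 ⧸ H2) = ((η n : G1) : G1 ⧸ H2)
      rw [QuotientGroup.eq, ← map_mul, ← map_inv, ← map_mul, hH2]
      refine ⟨(y * n)⁻¹ * n, ?_, rfl⟩
      have hnN : n.val ∈ N := hn
      have e1 : ((y * n)⁻¹ * n).val = ((n.val⁻¹ * mU ((8 : O1) * b) * n.val) ^ k)⁻¹ := by
        have e2 : (n.val⁻¹ * mU ((8 : O1) * b) * n.val) ^ k = n.val⁻¹ * mU ((8 : O1) * b) ^ k * n.val := by
          have := conj_pow (a := n.val⁻¹) (b := mU ((8 : O1) * b)) (i := k)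
          rwa [inv_inv] at this
        rw [e2, ← hb2]
        show (y.val * n.val)⁻¹ * n.val = _
        group
      constructor
      · show ((y * n)⁻¹ * n).val ∈ H
        rw [e1]
        exact inv_mem (hpow _)
      · show ((y * n)⁻¹ * n).val ∈ N
        exact mul_mem (inv_mem (mul_mem hyN hnN)) hnN
  -- the prime
  obtain ⟨p, hp1, hp2⟩ := Nat.exists_infinite_primes
    (3 + (Finset.univ.filter (fun x => π x = π ((1 : G1) : G1 ⧸ H2))).card)
  have : Fact p.Prime := ⟨hp2⟩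
  obtain ⟨z, hz1, hz2, hz3⟩ := h_hl1 al1 al1_cc (G1 ⧸ H2) (G1 ⧸ N2) π hπ p (by omega) _ _ hne hπ12
    ⟨η ⟨n₀, hNG hn₀N⟩, by show ((η ⟨n₀, hNG hn₀N⟩ * 1 : G1) : G1 ⧸ H2) = _; rw [mul_one]⟩ hq
  have hfg1 : Group.FG G1 := con_fg al1
  have hlt := h_hl2 G1 (G1 ⧸ H2) (G1 ⧸ N2) π hπ p ((1 : G1) : G1 ⧸ H2) (by
      intro x
      induction x using QuotientGroup.induction_on with
      | H a => exact ⟨a, by show ((a * 1 : G1) : G1 ⧸ H2) = _; rw [mul_one]⟩) (by
      intro hd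
      have h1 : 0 < (Finset.univ.filter (fun x => π x = π ((1 : G1) : G1 ⧸ H2))).card :=
        Finset.card_pos.2 ⟨_, by rw [Finset.mem_filter]; exact ⟨Finset.mem_univ _, rfl⟩⟩
      have h2 := Nat.le_of_dvd h1 hd
      omega) z hz1 hz2 hz3
  rw [hπm, con_card (MulAction.stabilizer_quotient N2), con_card (MulAction.stabilizer_quotient H2)]
    at hlt
  -- comparison
  have hfT : Finite (Multiplicative (ZMod p)) := inferInstanceAs (Finite (ZMod p))
  obtain ⟨Ψ, -⟩ := natBij_ker (π := rd M) Φ rfl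
  have hLf : (Φ.toFun _ (rd M)).ker.FiniteIndex := Subgroup.finiteIndex_ker _
  have hLfg : Group.FG (Φ.toFun _ (rd M)).ker := Subgroup.fg_of_index_ne_zero _
  have hfin' : Finite ((Φ.toFun _ (rd M)).ker →* Multiplicative (ZMod p)) := finite_hom _ _
  have c1 : Nat.card ((rd M).ker →* Multiplicative (ZMod p)) =
      Nat.card ((Φ.toFun _ (rd M)).ker →* Multiplicative (ZMod p)) := Nat.card_congr (Ψ.equiv _)
  have c2 : Nat.card (N →* Multiplicative (ZMod p)) =
      Nat.card ((rd M).ker →* Multiplicative (ZMod p)) := con_card hN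
  have c3 : Nat.card (N →* Multiplicative (ZMod p)) = Nat.card (N2 →* Multiplicative (ZMod p)) := by
    let fN : N →* N2 := (η.comp (Subgroup.inclusion hNG)).codRestrict N2 (fun x => by
      rw [hN2]; exact ⟨⟨x.1, hNG x.2⟩, x.2, rfl⟩)
    refine con_bij fN ⟨?_, ?_⟩
    · intro x y h
      have h1 : η ⟨x.1, hNG x.2⟩ = η ⟨y.1, hNG y.2⟩ := congrArg Subtype.val h
      have h2 := hinj _ _ x.2 y.2 h1
      exact Subtype.ext (congrArg (fun w : G5 => w.val) h2)
    · rintro ⟨x, hx⟩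
      have hx' := hx
      rw [hN2] at hx'
      obtain ⟨y, hy, hy2⟩ := hx'
      exact ⟨⟨y.val, hy⟩, Subtype.ext hy2⟩
  have c4 : Nat.card (H2 →* Multiplicative (ZMod p)) ≤
      Nat.card ((Φ.toFun _ (rd M)).ker →* Multiplicative (ZMod p)) := by
    have hm : ∀ l : (Φ.toFun _ (rd M)).ker, ρ l ∈ N := fun l => (hNm _).2 ((hρ.ker M l).2 l.2)
    let f0 : (Φ.toFun _ (rd M)).ker →* G5 :=
      (ρ.comp (Φ.toFun _ (rd M)).ker.subtype).codRestrict G5 (fun l => hNG (hm l))
    let fL : (Φ.toFun _ (rd M)).ker →* H2 := (η.comp f0).codRestrict H2 (fun l => by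
      rw [hH2]
      exact ⟨f0 l, ⟨by show ρ l ∈ H; rw [hH]; exact ⟨l, rfl⟩, hm l⟩, rfl⟩)
    refine con_sur fL ?_
    rintro ⟨x, hx⟩
    have hx' := hx
    rw [hH2] at hx'
    obtain ⟨y, hy, hy2⟩ := hx'
    have hy1 : y.val ∈ H := hy.1
    rw [hH] at hy1
    obtain ⟨l, hl⟩ := hy1
    have hlN : ρ l ∈ N := by rw [hl]; exact hy.2
    refine ⟨⟨l, (hρ.ker M l).1 ((hNm _).1 hlN)⟩, Subtype.ext ?_⟩
    show η (f0 _) = x
    rw [← hy2]
    congr 1
    exact Subtype.ext hl
  omega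

end Pool.Agent.F8.PIC
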