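import Pool.Agent.Lib.MP_305fdd_al.F8.PIC.Stm
import Pool.Agent.Lib.MP_305fdd_al.F8.P.nz
import Pool.Agent.Lib.MP_305fdd_al.F8.P.lh
import Pool.Agent.Lib.MP_305fdd_al.F8.P.lz
import Pool.Agent.Lib.MP_305fdd_al.F8.P.mt
import Pool.Agent.Lib.MP_305fdd_al.F8.P.wm

/-!
# MP_305fdd_al, the Picard group, piece dat: the `p`-adic representation
-/

set_option autoImplicit false

namespace Pool.Agent.F8.PIC

open Pool.Agent.MP_305fdd_al Pool.Agent.Lib.MP_305fdd_al Pool.Agent.F2X Pool.Agent.F8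
  Pool.Agent.F8.HN Pool.Agent.F8.AB Pool.Agent.F8.D1
open scoped QuadraticAlgebra

noncomputable section

/-- elements of `E1 ℤ_p` are determined by their reductions -/
private theorem dat_ext (p : ℕ) [Fact p.Prime] (x y : E1 ℤ_[p])
    (h : ∀ k : ℕ, E1m (PadicInt.toZModPow k) x = E1m (PadicInt.toZModPow k) y) : x = y := by
  have h1 : ∀ k : ℕ, PadicInt.toZModPow k x.re = PadicInt.toZModPow k y.re := fun k => by
    have := h k
    rw [E1m_apply, E1m_apply] at this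
    exact congrArg (fun z : E1 (ZMod (p ^ k)) => z.re) this
  have h2 : ∀ k : ℕ, PadicInt.toZModPow k x.im = PadicInt.toZModPow k y.im := fun k => by
    have := h k
    rw [E1m_apply, E1m_apply] at this
    exact congrArg (fun z : E1 (ZMod (p ^ k)) => z.im) this
  apply QuadraticAlgebra.ext
  · exact PadicInt.ext_of_toZModPow.1 h1
  · exact PadicInt.ext_of_toZModPow.1 h2

private theorem dat_Q2map {R S T : Type} [CommRing R] [CommRing S] [CommRing T] (f : R →+* S)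
    (g : S →+* T) : (Q2.map g).comp (Q2.map f) = Q2.map (g.comp f) := by
  ext1 x
  apply Q2.ext
  · rfl
  · rfl
  · rfl

private theorem dat_q0 {G R S : Type} [Group G] [CommRing R] [CommRing S] (f : R →+* S)
    (ρ : G →* SL2 R) : (Q2.map f).comp (q0 ρ) = q0 ((SLm f).comp ρ) := by
  ext1 m
  apply Q2.ext
  · show Units.map f.toMonoidHom 1 = 1
    rw [map_one]
  · rfl
  · ext i
    show f 0 = 0
    exact map_zero f

private theorem dat_tz (p k : ℕ) :
    (E1m (tz p k)).comp (E1m (Int.castRingHom (ZMod (p ^ (k + 1))))) =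
      E1m (Int.castRingHom (ZMod (p ^ k))) := by
  have h : (tz p k).comp (Int.castRingHom (ZMod (p ^ (k + 1)))) =
      Int.castRingHom (ZMod (p ^ k)) := RingHom.ext_int _ _
  rw [← h]
  rfl

private theorem dat_one {G H : Type} [Group G] [Group H] (Ψ : NatBij G H) (Q : Type) [Group Q]
    [Finite Q] : Ψ.toFun Q 1 = 1 := by
  have h := Ψ.nat (1 : Q →* Q) 1
  exact h

/-- values of the matched homomorphism -/
private theorem dat_lift {G H : Type} [Group G] [Group H] (Ψ : NatBij G H) {Q : Type} [Group Q]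
    [Finite Q] (θ : G →* Q) (g : G) : ∃ l, Ψ.toFun Q θ l = θ g := by
  have h : θ g ∈ (Ψ.toFun Q θ).range := by rw [Ψ.range_eq]; exact ⟨g, rfl⟩
  exact h

/-- elements with nonzero norm are not in the kernel -/
private theorem dat_ker (p : ℕ) [Fact p.Prime] (K : Type) [Field K] [CharZero K]
    (j : E1 ℤ_[p] →+* K) (z : E1 ℤ_[p]) (hz : z.re ^ 2 + z.im ^ 2 ≠ 0) : j z ≠ 0 := by
  intro h0
  have h1 : z * cj ℤ_[p] z = algebraMap ℤ_[p] (E1 ℤ_[p]) (z.re ^ 2 + z.im ^ 2) := by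
    rw [cj_apply, QuadraticAlgebra.algebraMap_eq]
    apply QuadraticAlgebra.ext
    · rw [QuadraticAlgebra.re_mul]; ring
    · rw [QuadraticAlgebra.im_mul]; ring
  have h2 := nz_base p K (j.comp (algebraMap ℤ_[p] (E1 ℤ_[p]))) _ hz
  apply h2
  rw [RingHom.comp_apply, ← h1, map_mul, h0, zero_mul]

private theorem dat_red (p k : ℕ) [Fact p.Prime] (x : E1 ℤ_[p]) (a b : ℤ)
    (h : E1m (PadicInt.toZModPow k) x = E1m (Int.castRingHom (ZMod (p ^ k))) ⟨a, b⟩) :
    PadicInt.toZModPow k (x.re ^ 2 + x.im ^ 2) = ((a ^ 2 + b ^ 2 : ℤ) : ZMod (p ^ k)) := by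
  rw [E1m_apply, E1m_apply] at h
  have h1 : PadicInt.toZModPow k x.re = (a : ZMod (p ^ k)) :=
    congrArg (fun z : E1 (ZMod (p ^ k)) => z.re) h
  have h2 : PadicInt.toZModPow k x.im = (b : ZMod (p ^ k)) :=
    congrArg (fun z : E1 (ZMod (p ^ k)) => z.im) h
  rw [map_add, map_pow, map_pow, h1, h2]
  push_cast
  rfl

private theorem dat_nd (p k n : ℕ) [Fact p.Prime] (h1 : ¬ 2 ^ k ∣ n) (hn : 0 < n) (h2 : n < 3 ^ k) :
    ((n : ℕ) : ZMod (p ^ k)) ≠ 0 := by
  intro h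
  rw [ZMod.natCast_eq_zero_iff] at h
  have h3 := (Fact.out (p := p.Prime)).two_le
  rcases Nat.eq_or_lt_of_le h3 with h4 | h4
  · rw [← h4] at h; exact h1 h
  · have h5 := Nat.le_of_dvd hn h
    have h6 : 3 ^ k ≤ p ^ k := Nat.pow_le_pow_left h4 k
    omega

/-- the representation -/
private theorem dat_r (hlim : S_lim) (Λ : Type) [Group Λ] (Φ : NatBij GG Λ) (p : ℕ)
    [Fact p.Prime] : ∃ r : Λ →* SL2 (E1 ℤ_[p]),
    ∀ k : ℕ, (SLm (E1m (PadicInt.toZModPow k))).comp r = Φ.toFun _ (rd (p ^ k)) := by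
  have hl : IsLim (E1 ℤ_[p]) (fun k => E1 (ZMod (p ^ k)))
      (fun k => E1m (PadicInt.toZModPow k)) (fun k => E1m (tz p k)) :=
    hlim ℤ_[p] _ _ _ (pf_lz p)
  obtain ⟨Θ', hΘ'⟩ := pf_lh (E1 ℤ_[p]) (fun k => E1 (ZMod (p ^ k))) _ _ hl Λ
    (fun k => Φ.toFun _ (q0 (rd (p ^ k)))) (by
      intro k
      show (Q2.map (E1m (tz p k))).comp (Φ.toFun _ (q0 (rd (p ^ (k + 1))))) =
        Φ.toFun _ (q0 (rd (p ^ k)))
      rw [← Φ.nat, dat_q0]
      have h : (SLm (E1m (tz p k))).comp (rd (p ^ (k + 1))) = rd (p ^ k) := by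
        exact congrArg (fun f => SLm f) (dat_tz p k)
      rw [h])
  refine ⟨Q2.mH.comp Θ', ?_⟩
  intro k
  have h1 := congrArg (fun f => Q2.mH.comp f) (hΘ' k)
  have h2 : Q2.mH.comp (Φ.toFun _ (q0 (rd (p ^ k)))) = Φ.toFun _ (rd (p ^ k)) := by
    rw [← Φ.nat]; rfl
  exact h1.trans h2

/-- [PIC dat] the `p`-adic representation -/
theorem p_dat (htab : S_tab) (hlim : S_lim) : S_dat := by
  intro Λ _ Φ p _
  obtain ⟨r, hr⟩ := dat_r hlim Λ Φ p
  have hl : IsLim (E1 ℤ_[p]) (fun k => E1 (ZMod (p ^ k)))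
      (fun k => E1m (PadicInt.toZModPow k)) (fun k => E1m (tz p k)) :=
    hlim ℤ_[p] _ _ _ (pf_lz p)
  obtain ⟨-, Θ₀, hm, ht, g, h, hW⟩ := htab
  obtain ⟨Ψ, hΨ⟩ := natBij_comap Φ (π := r5) (π' := Φ.toFun _ r5) rfl (UP (ZMod 5))
  change NatBij GP (LP Φ) at Ψ
  change ∀ (R : Type) [Group R] [Finite R] (θ : GG →* R),
      Ψ.toFun R (θ.comp GP.subtype) = (Φ.toFun R θ).comp (LP Φ).subtype at hΨ
  obtain ⟨Θ', hΘ'⟩ := pf_lh (E1 ℤ_[p]) (fun k => E1 (ZMod (p ^ k))) _ _ hl (LP Φ)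
    (fun k => Ψ.toFun _ ((Q2.map (E1m (Int.castRingHom (ZMod (p ^ k))))).comp Θ₀)) (by
      intro k
      show (Q2.map (E1m (tz p k))).comp
        (Ψ.toFun _ ((Q2.map (E1m (Int.castRingHom (ZMod (p ^ (k + 1)))))).comp Θ₀)) =
        Ψ.toFun _ ((Q2.map (E1m (Int.castRingHom (ZMod (p ^ k))))).comp Θ₀)
      rw [← Ψ.nat, ← MonoidHom.comp_assoc, dat_Q2map, dat_tz])
  have hm' : Q2.mH.comp Θ' = r.comp (LP Φ).subtype := by
    ext1 l
    apply Subtype.ext
    ext1 i i'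
    apply dat_ext
    intro k
    have h2 : Q2.mH.comp ((Q2.map (E1m (Int.castRingHom (ZMod (p ^ k))))).comp Θ₀) =
        (rd (p ^ k)).comp GP.subtype := by
      rw [← hm]; rfl
    have h4 : SLm (E1m (PadicInt.toZModPow k)) (Θ' l).m =
        SLm (E1m (PadicInt.toZModPow k)) (r l) := by
      have h5 : SLm (E1m (PadicInt.toZModPow k)) (Θ' l).m = (Q2.mH.comp (Ψ.toFun _
          ((Q2.map (E1m (Int.castRingHom (ZMod (p ^ k))))).comp Θ₀))) l := by
        rw [← hΘ' k]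
        rfl
      rw [h5, (pf_mt _ _ Ψ _ _).2.1, h2, hΨ, ← hr k]
      rfl
    exact congrArg (fun M : SL2 (E1 (ZMod (p ^ k))) => M.val i i') h4
  have ht' : Q2.tH.comp Θ' = 1 := by
    ext1 l
    apply Units.ext
    apply dat_ext
    intro k
    have h2 : Q2.tH.comp ((Q2.map (E1m (Int.castRingHom (ZMod (p ^ k))))).comp Θ₀) = 1 := by
      have h3 : Q2.tH.comp ((Q2.map (E1m (Int.castRingHom (ZMod (p ^ k))))).comp Θ₀) =
        (Units.map (E1m (Int.castRingHom (ZMod (p ^ k)))).toMonoidHom).comp (Q2.tH.comp Θ₀) := rfl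
      rw [h3, ht]
      ext1 g
      simp only [MonoidHom.comp_apply, MonoidHom.one_apply, map_one]
    have h4 : Units.map (E1m (PadicInt.toZModPow k)).toMonoidHom (Θ' l).t = 1 := by
      have h5 : Units.map (E1m (PadicInt.toZModPow k)).toMonoidHom (Θ' l).t =
          (Q2.tH.comp (Ψ.toFun _
            ((Q2.map (E1m (Int.castRingHom (ZMod (p ^ k))))).comp Θ₀))) l := by
        rw [← hΘ' k]
        rfl
      rw [h5, (pf_mt _ _ Ψ _ _).1, h2, dat_one]
      rfl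
    exact (congrArg Units.val h4).trans (map_one (E1m (PadicInt.toZModPow k))).symm
  refine ⟨r, hr, ?_, ?_⟩
  · intro K _ _ j
    refine ⟨?_, (Q2.map j).comp Θ', ?_, ?_, ?_⟩
    · -- irreducible
      have htt : tt ∈ GP := by
        refine ⟨?_, ?_, ?_⟩ <;> decide
      have hyy : yy ∈ GP := by
        refine ⟨?_, ?_, ?_⟩ <;> decide
      obtain ⟨l, hl1⟩ := dat_lift Ψ ((rd (p ^ 3)).comp GP.subtype) ⟨tt, htt⟩
      obtain ⟨l', hl2⟩ := dat_lift Ψ ((rd (p ^ 3)).comp GP.subtype) ⟨yy, hyy⟩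
      rw [hΨ, ← hr 3] at hl1 hl2
      refine ⟨l, l', ?_⟩
      intro hf
      have h1 : E1m (PadicInt.toZModPow 3) (tr (r ((l * l' * l⁻¹ * l'⁻¹ : LP Φ) : Λ)) - 2) =
          E1m (Int.castRingHom (ZMod (p ^ 3))) ⟨3, 4⟩ := by
        have h2 : SLm (E1m (PadicInt.toZModPow 3)) (r ((l * l' * l⁻¹ * l'⁻¹ : LP Φ) : Λ)) =
            rd (p ^ 3) (tt * yy * tt⁻¹ * yy⁻¹) := by
          have h3 : SLm (E1m (PadicInt.toZModPow 3)) (r (l : Λ)) = rd (p ^ 3) tt := hl1
          have h4 : SLm (E1m (PadicInt.toZModPow 3)) (r (l' : Λ)) = rd (p ^ 3) yy := hl2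
          rw [Subgroup.coe_mul, Subgroup.coe_mul, Subgroup.coe_mul, Subgroup.coe_inv,
            Subgroup.coe_inv, map_mul, map_mul, map_mul, map_inv, map_inv, map_mul, map_mul,
            map_mul, map_inv, map_inv, h3, h4, map_mul, map_mul, map_mul, map_inv, map_inv]
        rw [map_sub, ← tr_map, h2]
        unfold rd
        rw [tr_map]
        have h5 : tr (tt * yy * tt⁻¹ * yy⁻¹) = (⟨3, 4⟩ : O1) + 2 := by decide
        rw [h5, map_add, map_ofNat, map_ofNat]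
        ring
      have h2 := dat_red p 3 _ 3 4 h1
      have h6 := dat_ker p K j (tr (r ((l * l' * l⁻¹ * l'⁻¹ : LP Φ) : Λ)) - 2) (by
        intro h0
        rw [h0, map_zero] at h2
        exact dat_nd p 3 25 (by norm_num) (by norm_num) (by norm_num)
          (by rw [show ((25 : ℕ) : ZMod (p ^ 3)) = ((3 ^ 2 + 4 ^ 2 : ℤ) : ZMod (p ^ 3)) by
                push_cast; norm_num]; exact h2.symm))
      apply h6
      have hf' : tr (SLm j (r ((l * l' * l⁻¹ * l'⁻¹ : LP Φ) : Λ))) = 2 := hf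
      rw [tr_map] at hf'
      rw [map_sub, hf', map_ofNat, sub_self]
    · have h1 : Q2.mH.comp ((Q2.map j).comp Θ') = (SLm j).comp (Q2.mH.comp Θ') := rfl
      rw [h1, hm']
      rfl
    · have h1 : Q2.tH.comp ((Q2.map j).comp Θ') =
        (Units.map j.toMonoidHom).comp (Q2.tH.comp Θ') := rfl
      rw [h1, ht']
      ext1 g
      simp only [MonoidHom.comp_apply, MonoidHom.one_apply, map_one]
    · obtain ⟨l, hl1⟩ := dat_lift Ψ ((Q2.map (E1m (Int.castRingHom (ZMod (p ^ 2))))).comp Θ₀) g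
      obtain ⟨l', hl2⟩ := dat_lift Ψ ((Q2.map (E1m (Int.castRingHom (ZMod (p ^ 2))))).comp Θ₀) h
      rw [← hΘ' 2] at hl1 hl2
      refine ⟨l, l', ?_⟩
      have h1 : E1m (PadicInt.toZModPow 2) (Q2.W (Θ' l) (Θ' l') 0) =
          E1m (Int.castRingHom (ZMod (p ^ 2))) ⟨-1, 2⟩ := by
        have h3 : Q2.map (E1m (PadicInt.toZModPow 2)) (Θ' l) =
          Q2.map (E1m (Int.castRingHom (ZMod (p ^ 2)))) (Θ₀ g) := hl1
        have h4 : Q2.map (E1m (PadicInt.toZModPow 2)) (Θ' l') =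
          Q2.map (E1m (Int.castRingHom (ZMod (p ^ 2)))) (Θ₀ h) := hl2
        rw [← pf_wm, h3, h4, pf_wm, hW]
      have h2 := dat_red p 2 _ (-1) 2 h1
      have h6 := dat_ker p K j (Q2.W (Θ' l) (Θ' l') 0) (by
        intro h0
        rw [h0, map_zero] at h2
        exact dat_nd p 2 5 (by norm_num) (by norm_num) (by norm_num)
          (by rw [show ((5 : ℕ) : ZMod (p ^ 2)) = (((-1) ^ 2 + 2 ^ 2 : ℤ) : ZMod (p ^ 2)) by
                push_cast; norm_num]; exact h2.symm))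
      intro h0
      apply h6
      rw [← pf_wm]
      exact congrFun h0 0
  · obtain ⟨l, hl1⟩ := dat_lift Φ (rd (p ^ 1)) (uu * mB O1)
    refine ⟨l, ?_⟩
    intro h0
    have hnt : Nontrivial (ZMod (p ^ 1)) := by
      rw [pow_one]
      exact inferInstance
    rw [← hr 1] at hl1
    have h1 : E1m (PadicInt.toZModPow 1) (tr (r l)) =
        E1m (Int.castRingHom (ZMod (p ^ 1))) ⟨0, 1⟩ := by
      have h3 : SLm (E1m (PadicInt.toZModPow 1)) (r l) = rd (p ^ 1) (uu * mB O1) := hl1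
      rw [← tr_map, h3]
      unfold rd
      rw [tr_map]
      have h5 : tr (uu * mB O1) = (⟨0, 1⟩ : O1) := by decide
      rw [h5]
    have h2 := congrArg (fun z : E1 (ZMod (p ^ 1)) => z.im) h1
    rw [E1m_apply, E1m_apply] at h2
    simp only [h0, map_zero, map_one] at h2
    exact zero_ne_one h2

end

end Pool.Agent.F8.PIC
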