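import Pool.Agent.Lib.MP_305fdd_al.F8.PIC.Stm

/-!
# [PIC det] the determinant
-/

set_option autoImplicit false
set_option linter.unusedVariables false

namespace Pool.Agent.F8.PIC

open Pool.Agent.MP_305fdd_al Pool.Agent.Lib.MP_305fdd_al Pool.Agent.F2X Pool.Agent.F8
  Pool.Agent.F8.HN Pool.Agent.F8.AB Pool.Agent.F8.D1

theorem det_congr {K : Type} {a b c d a' b' c' d' : K} (h1 : a = a') (h2 : b = b') (h3 : c = c')
    (h4 : d = d') : (!![a, b; c, d] : Matrix (Fin 2) (Fin 2) K) = !![a', b'; c', d'] := by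
  subst h1; subst h2; subst h3; subst h4; rfl

theorem det_add2 {K : Type} [CommRing K] (a b c d a' b' c' d' : K) :
    (!![a, b; c, d] + !![a', b'; c', d'] : Matrix (Fin 2) (Fin 2) K) =
      !![a + a', b + b'; c + c', d + d'] := by
  ext i j
  fin_cases i <;> fin_cases j <;> rfl

theorem det_inv {K : Type} [CommRing K] (M : SL2 K) (a b c d : K) (h : M.val = !![a, b; c, d]) :
    (M⁻¹).val = !![d, -b; -c, a] := by
  have h1 : (M⁻¹).val = M.val.adjugate := Matrix.SpecialLinearGroup.coe_inv M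
  rw [h1, h, Matrix.adjugate_fin_two_of]

theorem det_s1 {K : Type} [CommRing K] (w x z p q : K) (hw : w * w = -1)
    (hz : 2 * x * z = x + z) (hp : p * p = x ^ 2 - x + 1) (hq : q * q = z ^ 2 - z + 1) :
    (!![0, -1; 1, 0] * !![p, x; x - 1, p] : Matrix (Fin 2) (Fin 2) K) =
      !![-x + 1, -p; p, x] := by
  rw [Matrix.mul_fin_two]
  apply det_congr
  · ring
  · ring
  · ring
  · ring

theorem det_s2 {K : Type} [CommRing K] (w x z p q : K) (hw : w * w = -1)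
    (hz : 2 * x * z = x + z) (hp : p * p = x ^ 2 - x + 1) (hq : q * q = z ^ 2 - z + 1) :
    (!![-x + 1, -p; p, x] * !![p, x; x - 1, p] : Matrix (Fin 2) (Fin 2) K) =
      !![-2 * x * p + 2 * p, -2 * x ^ 2 + 2 * x - 1; 2 * x ^ 2 - 2 * x + 1, 2 * x * p] := by
  rw [Matrix.mul_fin_two]
  apply det_congr
  · ring
  · linear_combination (-1) * hp
  · linear_combination (1) * hp
  · ring

theorem det_s3 {K : Type} [CommRing K] (w x z p q : K) (hw : w * w = -1)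
    (hz : 2 * x * z = x + z) (hp : p * p = x ^ 2 - x + 1) (hq : q * q = z ^ 2 - z + 1) :
    (!![-2 * x * p + 2 * p, -2 * x ^ 2 + 2 * x - 1; 2 * x ^ 2 - 2 * x + 1, 2 * x * p] * !![q, w * z; -w * z +
      w, q] : Matrix (Fin 2) (Fin 2) K) =
      !![-w * x ^ 2 + w * x * z + w * x - w - 2 * x * p * q + 2 * p * q, -w * x * p + w * z * p - 2 * x ^ 2 *
        q + 2 * x * q - q; w * x * p - w * z * p + 2 * x ^ 2 * q - 2 * x * q + q, w * x ^ 2 + w * x * z - w *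
        x + 2 * x * p * q] := by
  rw [Matrix.mul_fin_two]
  apply det_congr
  · linear_combination (w * x - w) * hz
  · linear_combination (-w * p) * hz
  · linear_combination (-w * p) * hz
  · linear_combination (w * x - w) * hz

theorem det_s4 {K : Type} [CommRing K] (w x z p q : K) (hw : w * w = -1)
    (hz : 2 * x * z = x + z) (hp : p * p = x ^ 2 - x + 1) (hq : q * q = z ^ 2 - z + 1) :
    (!![-w * x ^ 2 + w * x * z + w * x - w - 2 * x * p * q + 2 * p * q, -w * x * p + w * z * p - 2 * x ^ 2 * q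
      + 2 * x * q - q; w * x * p - w * z * p + 2 * x ^ 2 * q - 2 * x * q + q, w * x ^ 2 + w * x * z - w * x +
      2 * x * p * q] * !![0, 1; -1, 0] : Matrix (Fin 2) (Fin 2) K) =
      !![w * x * p - w * z * p + 2 * x ^ 2 * q - 2 * x * q + q, -w * x ^ 2 + w * x * z + w * x - w - 2 * x * p
        * q + 2 * p * q; -w * x ^ 2 + w * x * z - w * z - 2 * x * p * q, w * x * p - w * z * p + 2 * x ^ 2 * q
        - 2 * x * q + q] := by
  rw [Matrix.mul_fin_two]
  apply det_congr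
  · ring
  · ring
  · linear_combination (-w) * hz
  · ring

theorem det_s5 {K : Type} [CommRing K] (w x z p q : K) (hw : w * w = -1)
    (hz : 2 * x * z = x + z) (hp : p * p = x ^ 2 - x + 1) (hq : q * q = z ^ 2 - z + 1) :
    (!![w * x * p - w * z * p + 2 * x ^ 2 * q - 2 * x * q + q, -w * x ^ 2 + w * x * z + w * x - w - 2 * x * p
      * q + 2 * p * q; -w * x ^ 2 + w * x * z - w * z - 2 * x * p * q, w * x * p - w * z * p + 2 * x ^ 2 * q -
      2 * x * q + q] * !![p, x; x - 1, p] : Matrix (Fin 2) (Fin 2) K) =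
      !![w * x ^ 2 - w * x - w * z + w + 2 * x * p * q - p * q, w * x * p - w * p + 2 * x ^ 2 * q - 3 * x * q
        + 2 * q; -w * x * p - 2 * x ^ 2 * q + x * q - q, -w * x ^ 2 + w * x - w * z - 2 * x * p * q + p * q]
        := by
  rw [Matrix.mul_fin_two]
  apply det_congr
  · linear_combination (w * x - w * z) * hp
  · linear_combination (-2 * x * q + 2 * q) * hp
  · linear_combination (-2 * x * q) * hp
  · linear_combination (w * x - w * z) * hp

theorem det_s6 {K : Type} [CommRing K] (w x z p q : K) (hw : w * w = -1)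
    (hz : 2 * x * z = x + z) (hp : p * p = x ^ 2 - x + 1) (hq : q * q = z ^ 2 - z + 1) :
    (!![w * x ^ 2 - w * x - w * z + w + 2 * x * p * q - p * q, w * x * p - w * p + 2 * x ^ 2 * q - 3 * x * q +
      2 * q; -w * x * p - 2 * x ^ 2 * q + x * q - q, -w * x ^ 2 + w * x - w * z - 2 * x * p * q + p * q] *
      !![w * x * p - w * z * p + 2 * x ^ 2 * q - 2 * x * q + q, -w * x ^ 2 + w * x * z + w * x - w - 2 * x * p
      * q + 2 * p * q; -w * x ^ 2 + w * x * z - w * z - 2 * x * p * q, w * x * p - w * z * p + 2 * x ^ 2 * q -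
      2 * x * q + q] : Matrix (Fin 2) (Fin 2) K) =
      !![-w * x * q - w * z * q + w * q - 2 * z ^ 2 * p + 2 * z * p - p, -2 * w * z * p * q + 2 * w * p * q +
        x * z + z ^ 2 - 2 * z + 1; 2 * w * z * p * q + x * z - z ^ 2 - 1, -w * x * q - w * z * q + w * q - 2 *
        z ^ 2 * p + 2 * z * p - p] := by
  rw [Matrix.mul_fin_two]
  apply det_congr
  · linear_combination (-2 * x * z * p + x * p + z ^ 2 * p) * hw + (w * x ^ 2 * q - 3 * w * x * q - w * p ^ 2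
    * q + 2 * w * q + p) * hz + (-p) * hq
  · linear_combination (-x ^ 4 + x ^ 3 * z + 2 * x ^ 3 + x ^ 2 * p ^ 2 - 3 * x ^ 2 - x * z ^ 2 - x * z * p ^ 2
    - x * p ^ 2 + 2 * x + z * p ^ 2 + z - 1) * hw + (2 * w * p * q - x + z) * hz + (-4 * x ^ 2 * q ^ 2 - x ^ 2
    + x * z + 6 * x * q ^ 2 + x - z - 2 * q ^ 2) * hp + (x) * hq
  · linear_combination (x ^ 4 - x ^ 3 * z - x ^ 3 + 3 * x ^ 2 * z - x ^ 2 * p ^ 2 - x * z ^ 2 + x * z * p ^ 2
    - x * z + z ^ 2) * hw + (2 * w * p * q + x ^ 2 - 2 * x + z - p ^ 2) * hz + (4 * x ^ 2 * q ^ 2 + x ^ 2 + x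
    * z - 2 * x * q ^ 2 - x - z) * hp + (x - 1) * hq
  · linear_combination (-2 * x * z * p + x * p + z ^ 2 * p) * hw + (-w * x ^ 2 * q - w * x * q + w * p ^ 2 * q
    + p) * hz + (-p) * hq

theorem det_s7 {K : Type} [CommRing K] (w x z p q : K) (hw : w * w = -1)
    (hz : 2 * x * z = x + z) (hp : p * p = x ^ 2 - x + 1) (hq : q * q = z ^ 2 - z + 1) :
    (!![q, w * z; -w * z + w, q] * !![-w * x * q - w * z * q + w * q - 2 * z ^ 2 * p + 2 * z * p - p, 2 * w *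
      z * p * q - 2 * w * p * q - x * z - z ^ 2 + 2 * z - 1; -2 * w * z * p * q - x * z + z ^ 2 + 1, -w * x *
      q - w * z * q + w * q - 2 * z ^ 2 * p + 2 * z * p - p] : Matrix (Fin 2) (Fin 2) K) =
      !![-w * x + w * z ^ 2 - w * z + w + 2 * z * p * q - p * q, -2 * w * z ^ 2 * p + 3 * w * z * p - 2 * w *
        p + z * q - q; -2 * w * z ^ 2 * p + w * z * p - w * p + z * q, -w * x - w * z ^ 2 + w * z - 2 * z * p
        * q + p * q] := by
  rw [Matrix.mul_fin_two]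
  apply det_congr
  · linear_combination (-2 * z ^ 2 * p * q) * hw + (-w * z) * hz + (-w * x - w * z + w) * hq
  · linear_combination (-x * z * q - z ^ 2 * q + z * q) * hw + (2 * w * z * p - 2 * w * p) * hq
  · linear_combination (x * z * q - x * q + z ^ 2 * q - 2 * z * q + q) * hw + (-q) * hz + (-2 * w * z * p) *
    hq
  · linear_combination (-2 * z ^ 2 * p * q + 4 * z * p * q - 2 * p * q) * hw + (-w * x - w * z + w) * hq

theorem det_s8 {K : Type} [CommRing K] (w x z p q : K) (hw : w * w = -1)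
    (hz : 2 * x * z = x + z) (hp : p * p = x ^ 2 - x + 1) (hq : q * q = z ^ 2 - z + 1) :
    (!![p, x; x - 1, p] * !![w * x * p - w * z * p + 2 * x ^ 2 * q - 2 * x * q + q, -w * x ^ 2 + w * x * z + w
      * x - w - 2 * x * p * q + 2 * p * q; -w * x ^ 2 + w * x * z - w * z - 2 * x * p * q, w * x * p - w * z *
      p + 2 * x ^ 2 * q - 2 * x * q + q] : Matrix (Fin 2) (Fin 2) K) =
      !![-w * x ^ 2 + w * x - w * z - 2 * x * p * q + p * q, w * x * p - w * p + 2 * x ^ 2 * q - 3 * x * q + 2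
        * q; -w * x * p - 2 * x ^ 2 * q + x * q - q, w * x ^ 2 - w * x - w * z + w + 2 * x * p * q - p * q] :=
        by
  rw [Matrix.mul_fin_two]
  apply det_congr
  · linear_combination (w * x - w * z) * hp
  · linear_combination (-2 * x * q + 2 * q) * hp
  · linear_combination (-2 * x * q) * hp
  · linear_combination (w * x - w * z) * hp

theorem det_s9 {K : Type} [CommRing K] (w x z p q : K) (hw : w * w = -1)
    (hz : 2 * x * z = x + z) (hp : p * p = x ^ 2 - x + 1) (hq : q * q = z ^ 2 - z + 1) :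
    (!![-w * x ^ 2 + w * x - w * z - 2 * x * p * q + p * q, w * x * p - w * p + 2 * x ^ 2 * q - 3 * x * q + 2
      * q; -w * x * p - 2 * x ^ 2 * q + x * q - q, w * x ^ 2 - w * x - w * z + w + 2 * x * p * q - p * q] *
      !![p, x; x - 1, p] : Matrix (Fin 2) (Fin 2) K) =
      !![-w * x * p - w * z * p + w * p - 2 * x ^ 2 * q + 2 * x * q - q, -w * x ^ 2 + w * x * z + w * x - w *
        z - w - 2 * x * p * q + 2 * p * q; -w * x ^ 2 + w * x * z - w - 2 * x * p * q, -w * x * p - w * z * p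
        + w * p - 2 * x ^ 2 * q + 2 * x * q - q] := by
  rw [Matrix.mul_fin_two]
  apply det_congr
  · linear_combination (-2 * x * q + q) * hp
  · linear_combination (-w) * hz + (w * x - w) * hp
  · linear_combination (-w) * hz + (-w * x) * hp
  · linear_combination (2 * x * q - q) * hp

theorem det_s10 {K : Type} [CommRing K] (w x z p q : K) (hw : w * w = -1)
    (hz : 2 * x * z = x + z) (hp : p * p = x ^ 2 - x + 1) (hq : q * q = z ^ 2 - z + 1) :
    (!![-w * x * p - w * z * p + w * p - 2 * x ^ 2 * q + 2 * x * q - q, -w * x ^ 2 + w * x * z + w * x - w * z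
      - w - 2 * x * p * q + 2 * p * q; -w * x ^ 2 + w * x * z - w - 2 * x * p * q, -w * x * p - w * z * p + w
      * p - 2 * x ^ 2 * q + 2 * x * q - q] * !![q, -w * z; w * z - w, q] : Matrix (Fin 2) (Fin 2) K) =
      !![-w * p * q - 2 * x ^ 2 + x * z + 2 * x - 2, w * x * q - w * q - 2 * x * p - z * p + 2 * p; -w * x * q
        - 2 * x * p - z * p + p, w * p * q - 2 * x ^ 2 + x * z + x - z - 1] := by
  rw [Matrix.mul_fin_two]
  apply det_congr
  · linear_combination (-x ^ 2 * z + x ^ 2 + x * z ^ 2 - x - z ^ 2 + 1) * hw + (-w * p * q - x * z + x - 1) *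
    hz + (-2 * x ^ 2 + 2 * x - 1) * hq
  · linear_combination (x * z * p + z ^ 2 * p - z * p) * hw + (w * x * q - z * p) * hz + (-2 * x * p + 2 * p)
    * hq
  · linear_combination (-x * z * p + x * p - z ^ 2 * p + 2 * z * p - p) * hw + (-w * x * q + w * q - z * p +
    p) * hz + (-2 * x * p) * hq
  · linear_combination (x ^ 2 * z - x * z ^ 2 + z) * hw + (w * p * q - x * z + z - 1) * hz + (-2 * x ^ 2 + 2 *
    x - 1) * hq

theorem det_s11 {K : Type} [CommRing K] (w x z p q : K) (hw : w * w = -1)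
    (hz : 2 * x * z = x + z) (hp : p * p = x ^ 2 - x + 1) (hq : q * q = z ^ 2 - z + 1) :
    (!![-w * x + w * z ^ 2 - w * z + w + 2 * z * p * q - p * q, -2 * w * z ^ 2 * p + 3 * w * z * p - 2 * w * p
      + z * q - q; -2 * w * z ^ 2 * p + w * z * p - w * p + z * q, -w * x - w * z ^ 2 + w * z - 2 * z * p * q
      + p * q] + !![-w * p * q - 2 * x ^ 2 + x * z + 2 * x - 2, w * x * q - w * q - 2 * x * p - z * p + 2 * p;
      -w * x * q - 2 * x * p - z * p + p, w * p * q - 2 * x ^ 2 + x * z + x - z - 1] : Matrix (Fin 2) (Fin 2)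
      K) =
      !![-w * x + w * z ^ 2 - w * z - w * p * q + w - 2 * x ^ 2 + x * z + 2 * x + 2 * z * p * q - p * q - 2, w
        * x * q - 2 * w * z ^ 2 * p + 3 * w * z * p - 2 * w * p - w * q - 2 * x * p - z * p + z * q + 2 * p -
        q; -w * x * q - 2 * w * z ^ 2 * p + w * z * p - w * p - 2 * x * p - z * p + z * q + p, -w * x - w * z
        ^ 2 + w * z + w * p * q - 2 * x ^ 2 + x * z + x - 2 * z * p * q - z + p * q - 1] := by
  rw [det_add2]
  apply det_congr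
  · ring
  · ring
  · ring
  · ring

theorem det_s12 {K : Type} [CommRing K] (w x z p q : K) (hw : w * w = -1)
    (hz : 2 * x * z = x + z) (hp : p * p = x ^ 2 - x + 1) (hq : q * q = z ^ 2 - z + 1) :
    (!![1, 0; 0, 1] + !![w * x ^ 2 - w * x - w * z + w + 2 * x * p * q - p * q, w * x * p - w * p + 2 * x ^ 2
      * q - 3 * x * q + 2 * q; -w * x * p - 2 * x ^ 2 * q + x * q - q, -w * x ^ 2 + w * x - w * z - 2 * x * p
      * q + p * q] : Matrix (Fin 2) (Fin 2) K) =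
      !![w * x ^ 2 - w * x - w * z + w + 2 * x * p * q - p * q + 1, w * x * p - w * p + 2 * x ^ 2 * q - 3 * x
        * q + 2 * q; -w * x * p - 2 * x ^ 2 * q + x * q - q, -w * x ^ 2 + w * x - w * z - 2 * x * p * q + p *
        q + 1] := by
  rw [det_add2]
  apply det_congr
  · ring
  · ring
  · ring
  · ring

theorem det_s13 {K : Type} [CommRing K] (w x z p q : K) (hw : w * w = -1)
    (hz : 2 * x * z = x + z) (hp : p * p = x ^ 2 - x + 1) (hq : q * q = z ^ 2 - z + 1) :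
    (!![-w * x + w * z ^ 2 - w * z - w * p * q + w - 2 * x ^ 2 + x * z + 2 * x + 2 * z * p * q - p * q - 2, w
      * x * q - 2 * w * z ^ 2 * p + 3 * w * z * p - 2 * w * p - w * q - 2 * x * p - z * p + z * q + 2 * p - q;
      -w * x * q - 2 * w * z ^ 2 * p + w * z * p - w * p - 2 * x * p - z * p + z * q + p, -w * x - w * z ^ 2 +
      w * z + w * p * q - 2 * x ^ 2 + x * z + x - 2 * z * p * q - z + p * q - 1] * !![w * x ^ 2 - w * x - w *
      z + w + 2 * x * p * q - p * q + 1, w * x * p - w * p + 2 * x ^ 2 * q - 3 * x * q + 2 * q; -w * x * p - 2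
      * x ^ 2 * q + x * q - q, -w * x ^ 2 + w * x - w * z - 2 * x * p * q + p * q + 1] : Matrix (Fin 2) (Fin
      2) K) =
      !![-2 * w * x ^ 3 + 3 * w * x ^ 2 + 2 * w * x * p * q - 3 * w * x + w * z ^ 2 - w * p * q + w + 4 * x ^
        2 * p * q - x ^ 2 - 4 * x * p * q + x + 2 * z * p * q - 1, -2 * w * x ^ 2 * p + 2 * w * x ^ 2 * q + 3
        * w * x * p - w * x * q - 2 * w * z ^ 2 * p + 3 * w * z * p - 3 * w * p + 4 * x ^ 3 * q - 8 * x ^ 2 *
        q - x * p + 7 * x * q + z * q - 4 * q; -2 * w * x ^ 2 * p + 2 * w * x ^ 2 * q + w * x * p - 3 * w * x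
        * q - 2 * w * z ^ 2 * p + w * z * p - w * p + w * q + 4 * x ^ 3 * q - 4 * x ^ 2 * q - x * p + 3 * x *
        q + z * q + p, -2 * w * x ^ 3 + 3 * w * x ^ 2 + 2 * w * x * p * q - 3 * w * x - w * z ^ 2 + 2 * w * z
        - w * p * q + 4 * x ^ 2 * p * q - x ^ 2 - 4 * x * p * q + x - 2 * z * p * q + 2 * p * q - 1] := by
  rw [Matrix.mul_fin_two]
  apply det_congr
  · linear_combination (-x ^ 3 + x ^ 2 * z ^ 2 - x ^ 2 * z - 2 * x ^ 2 * p * q + 2 * x ^ 2 + 2 * x * z ^ 2 * p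
    ^ 2 - x * z ^ 2 - 3 * x * z * p ^ 2 + 2 * x * z + 2 * x * p ^ 2 + 2 * x * p * q - 2 * x - z ^ 3 + 2 * z ^
    2 + z * p * q - 2 * z - p * q + 1) * hw + (-2 * w * x ^ 2 * z + 2 * w * x ^ 2 + 2 * w * x * z * p * q + 2
    * w * x * z - w * x * p * q - w * x + w * z * p * q - 2 * w * z - w * p * q + w + 2 * x * p * q - x * q ^
    2 - z * p ^ 2 + 2 * p ^ 2 * q ^ 2 + p ^ 2) * hz + (2 * w * x ^ 2 + w * x * z - 2 * w * x * q ^ 2 - 2 * w *
    x + w * q ^ 2 - x - z ^ 2 + z + q ^ 2) * hp + (-4 * w * x ^ 3 + 6 * w * x ^ 2 - 5 * w * x + 2 * w + 2 * x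
    ^ 2 - 2 * x - z + 2) * hq
  · linear_combination (-x ^ 3 * q + 2 * x ^ 2 * z ^ 2 * p - 3 * x ^ 2 * z * p + x ^ 2 * p + 2 * x ^ 2 * q - x
    * z ^ 2 * p + 2 * x * z * p - x * z * q - x * p ^ 2 * q - x * q + 2 * z ^ 3 * p - 4 * z ^ 2 * p + 3 * z *
    p + z * q + p ^ 2 * q - p) * hw + (-2 * w * x * z * p + w * x * z * q + 2 * w * x * p - w * x * q + 2 * w
    * z * p ^ 2 * q + 2 * w * z * p - w * z * q - w * p ^ 2 * q - w * p + w * q + x ^ 2 * q - x * z * p + 2 *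
    x * p * q ^ 2 + x * p - x * q + z * p + p ^ 2 * q - 3 * p * q ^ 2 - p + q) * hz + (2 * w * x * q - w * q +
    4 * x ^ 2 * q - 4 * x * q + q) * hp + (-4 * w * x ^ 2 * p + 6 * w * x * p - 3 * w * p + 2 * x * p + 2 * z
    * p - 3 * p) * hq
  · linear_combination (-x ^ 3 * q - 2 * x ^ 2 * z ^ 2 * p + x ^ 2 * z * p + x ^ 2 * q + 3 * x * z ^ 2 * p - 2
    * x * z * p + x * z * q - x * p ^ 2 * q + x * p - x * q + 2 * z ^ 3 * p - 3 * z ^ 2 * p + 2 * z * p - p) *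
    hw + (-2 * w * x * z * p + w * x * z * q - 2 * w * z * p ^ 2 * q + w * p ^ 2 * q + w * p - x ^ 2 * q + x *
    z * p + 2 * x * p * q ^ 2 + x * q - p ^ 2 * q + p * q ^ 2 - q) * hz + (-2 * w * x * q + w * q - 4 * x ^ 2
    * q + 4 * x * q - q) * hp + (-4 * w * x ^ 2 * p + 2 * w * x * p - w * p + 2 * x * p + 2 * z * p - p) * hq
  · linear_combination (x ^ 3 + x ^ 2 * z ^ 2 - x ^ 2 * z - 2 * x ^ 2 * p * q - x ^ 2 - 2 * x * z ^ 2 * p ^ 2
    - x * z ^ 2 + x * z * p ^ 2 + 2 * x * z - x * p ^ 2 + 2 * x * p * q + z ^ 3 + 2 * z ^ 2 * p ^ 2 - z ^ 2 -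
    z * p ^ 2 - z * p * q + p ^ 2) * hw + (-2 * w * x ^ 2 * z + w * x ^ 2 - 2 * w * x * z * p * q + 2 * w * x
    * z + w * x * p * q + 3 * w * z * p * q - 2 * w * z - w * p ^ 2 - w * p * q + w - 2 * x * p * q + x * q ^
    2 + z * p ^ 2 + 2 * p ^ 2 * q ^ 2 + 2 * p * q - q ^ 2) * hz + (-2 * w * x ^ 2 + w * x * z - 2 * w * x * q
    ^ 2 + 2 * w * x + w * q ^ 2 - w + x - z ^ 2 + z + q ^ 2 - 1) * hp + (-4 * w * x ^ 3 + 6 * w * x ^ 2 - 5 *
    w * x + w + 2 * x ^ 2 - 2 * x + z + 1) * hq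

theorem det_s14 {K : Type} [CommRing K] (w x z p q : K) (hw : w * w = -1)
    (hz : 2 * x * z = x + z) (hp : p * p = x ^ 2 - x + 1) (hq : q * q = z ^ 2 - z + 1) :
    (!![p, x; x - 1, p] + !![-2 * w * x ^ 3 + 3 * w * x ^ 2 + 2 * w * x * p * q - 3 * w * x + w * z ^ 2 - w *
      p * q + w + 4 * x ^ 2 * p * q - x ^ 2 - 4 * x * p * q + x + 2 * z * p * q - 1, -2 * w * x ^ 2 * p + 2 *
      w * x ^ 2 * q + 3 * w * x * p - w * x * q - 2 * w * z ^ 2 * p + 3 * w * z * p - 3 * w * p + 4 * x ^ 3 *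
      q - 8 * x ^ 2 * q - x * p + 7 * x * q + z * q - 4 * q; -2 * w * x ^ 2 * p + 2 * w * x ^ 2 * q + w * x *
      p - 3 * w * x * q - 2 * w * z ^ 2 * p + w * z * p - w * p + w * q + 4 * x ^ 3 * q - 4 * x ^ 2 * q - x *
      p + 3 * x * q + z * q + p, -2 * w * x ^ 3 + 3 * w * x ^ 2 + 2 * w * x * p * q - 3 * w * x - w * z ^ 2 +
      2 * w * z - w * p * q + 4 * x ^ 2 * p * q - x ^ 2 - 4 * x * p * q + x - 2 * z * p * q + 2 * p * q - 1] :
      Matrix (Fin 2) (Fin 2) K) =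
      !![-2 * w * x ^ 3 + 3 * w * x ^ 2 + 2 * w * x * p * q - 3 * w * x + w * z ^ 2 - w * p * q + w + 4 * x ^
        2 * p * q - x ^ 2 - 4 * x * p * q + x + 2 * z * p * q + p - 1, -2 * w * x ^ 2 * p + 2 * w * x ^ 2 * q
        + 3 * w * x * p - w * x * q - 2 * w * z ^ 2 * p + 3 * w * z * p - 3 * w * p + 4 * x ^ 3 * q - 8 * x ^
        2 * q - x * p + 7 * x * q + x + z * q - 4 * q; -2 * w * x ^ 2 * p + 2 * w * x ^ 2 * q + w * x * p - 3
        * w * x * q - 2 * w * z ^ 2 * p + w * z * p - w * p + w * q + 4 * x ^ 3 * q - 4 * x ^ 2 * q - x * p +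
        3 * x * q + x + z * q + p - 1, -2 * w * x ^ 3 + 3 * w * x ^ 2 + 2 * w * x * p * q - 3 * w * x - w * z
        ^ 2 + 2 * w * z - w * p * q + 4 * x ^ 2 * p * q - x ^ 2 - 4 * x * p * q + x - 2 * z * p * q + 2 * p *
        q + p - 1] := by
  rw [det_add2]
  apply det_congr
  · ring
  · ring
  · ring
  · ring

theorem det_s15 {K : Type} [CommRing K] (w x z p q : K) (hw : w * w = -1)
    (hz : 2 * x * z = x + z) (hp : p * p = x ^ 2 - x + 1) (hq : q * q = z ^ 2 - z + 1) :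
    (!![-2 * w * x ^ 3 + 3 * w * x ^ 2 + 2 * w * x * p * q - 3 * w * x + w * z ^ 2 - w * p * q + w + 4 * x ^ 2
      * p * q - x ^ 2 - 4 * x * p * q + x + 2 * z * p * q + p - 1, -2 * w * x ^ 2 * p + 2 * w * x ^ 2 * q + 3
      * w * x * p - w * x * q - 2 * w * z ^ 2 * p + 3 * w * z * p - 3 * w * p + 4 * x ^ 3 * q - 8 * x ^ 2 * q
      - x * p + 7 * x * q + x + z * q - 4 * q; -2 * w * x ^ 2 * p + 2 * w * x ^ 2 * q + w * x * p - 3 * w * x
      * q - 2 * w * z ^ 2 * p + w * z * p - w * p + w * q + 4 * x ^ 3 * q - 4 * x ^ 2 * q - x * p + 3 * x * q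
      + x + z * q + p - 1, -2 * w * x ^ 3 + 3 * w * x ^ 2 + 2 * w * x * p * q - 3 * w * x - w * z ^ 2 + 2 * w
      * z - w * p * q + 4 * x ^ 2 * p * q - x ^ 2 - 4 * x * p * q + x - 2 * z * p * q + 2 * p * q + p - 1] :
      Matrix (Fin 2) (Fin 2) K).det =
      2 * ((1 - p) * (1 - w * (2 * z - 1)) + (1 - q) * (1 - w * (2 * x - 1))) := by
  rw [Matrix.det_fin_two_of]
  linear_combination (4 * x ^ 6 - 12 * x ^ 5 - 4 * x ^ 4 * p ^ 2 - 4 * x ^ 4 * q ^ 2 + 21 * x ^ 4 - 4 * x ^ 3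
    * z + 8 * x ^ 3 * p ^ 2 + 8 * x ^ 3 * q ^ 2 - 20 * x ^ 3 - 8 * x ^ 2 * z ^ 2 * p ^ 2 + 8 * x ^ 2 * z ^ 2 *
    p * q + 8 * x ^ 2 * z * p ^ 2 - 8 * x ^ 2 * z * p * q + 6 * x ^ 2 * z + 4 * x ^ 2 * p ^ 2 * q ^ 2 - 11 * x
    ^ 2 * p ^ 2 + 2 * x ^ 2 * p * q - 5 * x ^ 2 * q ^ 2 + 12 * x ^ 2 + 8 * x * z ^ 2 * p ^ 2 - 8 * x * z ^ 2 *
    p * q - 6 * x * z * p ^ 2 + 14 * x * z * p * q - 6 * x * z - 4 * x * p ^ 2 * q ^ 2 + 6 * x * p ^ 2 - 5 * x
    * p * q + x * q ^ 2 - 3 * x - 4 * z ^ 4 * p ^ 2 - z ^ 4 + 8 * z ^ 3 * p ^ 2 + 2 * z ^ 3 - 11 * z ^ 2 * p ^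
    2 + 2 * z ^ 2 * p * q - z ^ 2 + 6 * z * p ^ 2 - 5 * z * p * q + 2 * z + p ^ 2 * q ^ 2 - 3 * p ^ 2 + 2 * p
    * q) * hw + (8 * w * x ^ 2 * z * p * q - 4 * w * x ^ 2 * p * q - 8 * w * x * z * p * q + 10 * w * x * p *
    q - 2 * w * x * q ^ 2 - 2 * w * x - 2 * w * z * p ^ 2 + 6 * w * z * p * q + 2 * w * z * p - 2 * w * z + w
    * p ^ 2 - 6 * w * p * q - w * p + w * q ^ 2 + 2 * w - 4 * x ^ 2 * q ^ 2 + 2 * x ^ 2 + 2 * x * z ^ 3 - 3 *
    x * z ^ 2 + 4 * x * z * p ^ 2 - 4 * x * z * p * q - 2 * x * z * q ^ 2 + x * z - 2 * x * p ^ 2 + 2 * x * p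
    * q + 5 * x * q ^ 2 - 2 * x - z ^ 3 + 2 * z ^ 2 - 2 * z * p ^ 2 + 2 * z * p * q + z * q ^ 2 - z + p ^ 2 -
    4 * p * q - 4 * q ^ 2 - q + 2) * hz + (16 * w * x ^ 3 * q ^ 2 - 4 * w * x ^ 3 - 24 * w * x ^ 2 * q ^ 2 + 6
    * w * x ^ 2 + 12 * w * x * q ^ 2 + 4 * w * x * q - 6 * w * x - 2 * w * z - 2 * w * q ^ 2 - 2 * w * q + 3 *
    w + 16 * x ^ 4 * q ^ 2 + 4 * x ^ 4 - 32 * x ^ 3 * q ^ 2 - 8 * x ^ 3 + 20 * x ^ 2 * q ^ 2 + 8 * x ^ 2 * q +
    8 * x ^ 2 - 4 * x * q ^ 2 - 8 * x * q - 4 * x + 4 * z ^ 4 - 8 * z ^ 3 - 4 * z ^ 2 * q ^ 2 + 9 * z ^ 2 + 4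
    * z * q ^ 2 - 5 * z - q ^ 2 + 2 * q + 4) * hp + (-4 * w * x + 2 * w - 4 * x ^ 2 + 4 * x - 4 * z ^ 2 + 4 *
    z - 1) * hq

theorem det_two {K : Type} [Field K] (h2 : (2 : K) ≠ 0) {a b : K} (h : 4 * a = 4 * b) : a = b := by
  have h4 : (4 : K) ≠ 0 := by
    have : (4 : K) = 2 * 2 := by norm_num
    rw [this]
    exact mul_ne_zero h2 h2
  exact mul_left_cancel₀ h4 h

theorem p_det : S_det := by
  intro K _ h2 w s p q hw hs e1 e2 T U B Y hT hU hB hY
  obtain ⟨x, hx⟩ : ∃ x : K, x = (s + 1) / 2 := ⟨_, rfl⟩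
  obtain ⟨z, hzz⟩ : ∃ z : K, z = (s⁻¹ + 1) / 2 := ⟨_, rfl⟩
  have hx2 : 2 * x = s + 1 := by rw [hx]; exact mul_div_cancel₀ _ h2
  have hz2 : 2 * z = s⁻¹ + 1 := by rw [hzz]; exact mul_div_cancel₀ _ h2
  have hst : s * s⁻¹ = 1 := mul_inv_cancel₀ hs
  have hs1 : s = 2 * x - 1 := by rw [hx2]; ring
  have hs2 : s⁻¹ = 2 * z - 1 := by rw [hz2]; ring
  have hz : 2 * x * z = x + z := by
    apply det_two h2
    rw [hs2, hs1] at hst
    have h3 : (2 * x - 1) * (2 * z - 1) = 1 := hst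
    linear_combination 2 * h3
  have hp : p * p = x ^ 2 - x + 1 := by
    apply det_two h2
    rw [hs1] at e1
    linear_combination e1
  have hq : q * q = z ^ 2 - z + 1 := by
    apply det_two h2
    have h4 : 4 * q ^ 2 = 3 + s⁻¹ ^ 2 := by
      linear_combination (s⁻¹ ^ 2) * e2 + (3 - 4 * q ^ 2) * (s * s⁻¹ + 1) * hst
    rw [hs2] at h4
    linear_combination h4
  have hy : (s - 1) / 2 = x - 1 := by
    rw [hs1, div_eq_iff h2]; ring
  have hws : w / s = w * (2 * z - 1) := by rw [div_eq_mul_inv, hs2]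
  have hT' : T.val = !![p, x; x - 1, p] := by rw [hT, ← hx, hy]
  have hU' : U.val = !![q, w * z; -w * z + w, q] := by
    rw [hU, ← hx, hy, hws]
    apply det_congr
    · rfl
    · linear_combination w * hz
    · linear_combination w * hz
    · rfl
  have hBi : (B⁻¹).val = !![0, 1; -1, 0] := by
    rw [det_inv B _ _ _ _ hB]
    apply det_congr
    · rfl
    · ring
    · rfl
    · rfl
  have hYv : Y.val = !![w * x * p - w * z * p + 2 * x ^ 2 * q - 2 * x * q + q, -w * x ^ 2 + w * x * z + w * x - w - 2 * x * p * q + 2 * p * q; -w * x ^ 2 + w * x * z - w * z - 2 * x * p * q, w * x * p - w * z * p + 2 * x ^ 2 * q - 2 * x * q + q] := by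
    rw [hY]
    show B.val * T.val * T.val * U.val * (B⁻¹).val = _
    rw [hBi, hB, hT', hU', det_s1 w x z p q hw hz hp hq, det_s2 w x z p q hw hz hp hq,
      det_s3 w x z p q hw hz hp hq, det_s4 w x z p q hw hz hp hq]
  have hYT : Y.val * T.val = !![w * x ^ 2 - w * x - w * z + w + 2 * x * p * q - p * q, w * x * p - w * p + 2 * x ^ 2 * q - 3 * x * q + 2 * q; -w * x * p - 2 * x ^ 2 * q + x * q - q, -w * x ^ 2 + w * x - w * z - 2 * x * p * q + p * q] := by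
    rw [hYv, hT', det_s5 w x z p q hw hz hp hq]
  have hZ : (Y * T * Y).val = !![-w * x * q - w * z * q + w * q - 2 * z ^ 2 * p + 2 * z * p - p, -2 * w * z * p * q + 2 * w * p * q + x * z + z ^ 2 - 2 * z + 1; 2 * w * z * p * q + x * z - z ^ 2 - 1, -w * x * q - w * z * q + w * q - 2 * z ^ 2 * p + 2 * z * p - p] := by
    show Y.val * T.val * Y.val = _
    rw [hYT, hYv, det_s6 w x z p q hw hz hp hq]
  have hZi : ((Y * T * Y)⁻¹).val = !![-w * x * q - w * z * q + w * q - 2 * z ^ 2 * p + 2 * z * p - p, 2 * w * z * p * q - 2 * w * p * q - x * z - z ^ 2 + 2 * z - 1; -2 * w * z * p * q - x * z + z ^ 2 + 1, -w * x * q - w * z * q + w * q - 2 * z ^ 2 * p + 2 * z * p - p] := by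
    rw [det_inv _ _ _ _ _ hZ]
    apply det_congr <;> ring
  have hUi : (U⁻¹).val = !![q, -w * z; w * z - w, q] := by
    rw [det_inv _ _ _ _ _ hU']
    apply det_congr <;> ring
  have h1 : U.val * (Y * T * Y)⁻¹.val = !![-w * x + w * z ^ 2 - w * z + w + 2 * z * p * q - p * q, -2 * w * z ^ 2 * p + 3 * w * z * p - 2 * w * p + z * q - q; -2 * w * z ^ 2 * p + w * z * p - w * p + z * q, -w * x - w * z ^ 2 + w * z - 2 * z * p * q + p * q] := by
    rw [hZi, hU', det_s7 w x z p q hw hz hp hq]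
  have h2' : T.val * Y.val * T.val * U⁻¹.val = !![-w * p * q - 2 * x ^ 2 + x * z + 2 * x - 2, w * x * q - w * q - 2 * x * p - z * p + 2 * p; -w * x * q - 2 * x * p - z * p + p, w * p * q - 2 * x ^ 2 + x * z + x - z - 1] := by
    rw [hUi, hT', hYv, det_s8 w x z p q hw hz hp hq, det_s9 w x z p q hw hz hp hq,
      det_s10 w x z p q hw hz hp hq]
  have h3 : (1 + Y.val * T.val) = !![w * x ^ 2 - w * x - w * z + w + 2 * x * p * q - p * q + 1, w * x * p - w * p + 2 * x ^ 2 * q - 3 * x * q + 2 * q; -w * x * p - 2 * x ^ 2 * q + x * q - q, -w * x ^ 2 + w * x - w * z - 2 * x * p * q + p * q + 1] := by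
    rw [hYT, Matrix.one_fin_two, det_s12 w x z p q hw hz hp hq]
  rw [h1, h2', h3, hT', det_s11 w x z p q hw hz hp hq, det_s13 w x z p q hw hz hp hq,
    det_s14 w x z p q hw hz hp hq, det_s15 w x z p q hw hz hp hq, hws, hs1]

end Pool.Agent.F8.PIC
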