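import Pool.Agent.Lib.MP_305fdd_al.F8.PIC.Stm

/-!
# MP_305fdd_al, PIC, piece g3: at most two characters
-/

set_option autoImplicit false

namespace Pool.Agent.F8.PIC

open Pool.Agent.MP_305fdd_al Pool.Agent.Lib.MP_305fdd_al Pool.Agent.F2X Pool.Agent.F8
  Pool.Agent.F8.HN Pool.Agent.F8.AB Pool.Agent.F8.D1
open Pool.Agent.F8.D1.PG (mL TP)
open scoped QuadraticAlgebra

noncomputable section

theorem g3_tr_conj {K : Type} [CommRing K] (C g : SL2 K) : tr (C * g * C⁻¹) = tr g := by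
  have h : (C * g * C⁻¹).val = C.val * g.val * C⁻¹.val := rfl
  have h2 : C⁻¹.val * C.val = 1 := by
    have := congrArg Subtype.val (inv_mul_cancel C)
    exact this
  show (C * g * C⁻¹).val.trace = g.val.trace
  rw [h, Matrix.trace_mul_comm, ← mul_assoc, h2, one_mul]

/-- the character of a representation with property P -/
theorem g3_char (hnf : S_nf) (hstd : S_std) (hcoc : S_coc) (hpf : S_pf) {K : Type} [Field K]
    [IsAlgClosed K] (h2 : (2 : K) ≠ 0) (ρ : GG →* SL2 K) (hP : Pt GP ρ) :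
    ∃ (w : K) (hw : w * w = -1), ∀ g, tr (ρ g) = ev1 (Int.castRingHom K) w hw (tr g) := by
  have hirr : Irr ρ := by
    obtain ⟨g, h, e⟩ := hP.1
    exact ⟨g, h, e⟩
  obtain ⟨C, w, s, p, q, hN⟩ := hnf K h2 ρ hirr
  have hP' := hpf.2.2 GG GP K C ρ hP
  obtain ⟨hp, hq⟩ := hcoc K h2 _ w s p q hN hP'
  subst hp
  subst hq
  obtain ⟨w', hw', H⟩ := hstd K h2 _ w s hN
  refine ⟨w', hw', fun g => ?_⟩
  rw [← H g]
  exact (g3_tr_conj C (ρ g)).symm

theorem p_g3 (hnf : S_nf) (hstd : S_std) (hcoc : S_coc) (hpf : S_pf) : S_g3 := by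
  intro k _ h2 hG
  have h2' : (2 : AlgebraicClosure k) ≠ 0 := by
    have h := (map_ne_zero (algebraMap k (AlgebraicClosure k))).mpr h2
    rwa [map_ofNat] at h
  obtain ⟨ρ, hP, hne⟩ := hpf.2.1 GG GP k (AlgebraicClosure k)
    (algebraMap k (AlgebraicClosure k)) 3 hG
  have hc := fun i => g3_char hnf hstd hcoc hpf h2' (ρ i) (hP i)
  choose w hw H using hc
  have key : ∀ i j, i ≠ j → w i ≠ w j := by
    intro i j hij e
    obtain ⟨g, hg⟩ := hne i j hij
    apply hg
    rw [H i g, H j g, ev1_apply, ev1_apply, e]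
  have hs : ∀ i j, w i = w j ∨ w i = -w j := by
    intro i j
    exact mul_self_eq_mul_self_iff.mp ((hw i).trans (hw j).symm)
  have h01 : w 0 = -w 1 := (hs 0 1).resolve_left (key 0 1 (by decide))
  have h21 : w 2 = -w 1 := (hs 2 1).resolve_left (key 2 1 (by decide))
  exact key 0 2 (by decide) (h01.trans h21.symm)

end

end Pool.Agent.F8.PIC
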