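import Pool.Agent.Lib.MP_305fdd_al.F8.PIC.Stm

/-!
# MP_305fdd_al, PIC, piece `gr`: the trace form
-/

set_option autoImplicit false

namespace Pool.Agent.F8.PIC

open Pool.Agent.MP_305fdd_al Pool.Agent.Lib.MP_305fdd_al Pool.Agent.F2X Pool.Agent.F8
  Pool.Agent.F8.HN Pool.Agent.F8.AB Pool.Agent.F8.D1

/-- The case of `x = 1 + X`, `y = 1 + Y` with `X = [[A, b], [c, -A]]`, `Y = [[E, f], [g, -E]]`, `det X = 0`, `tr (X Y) = 1`. -/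
theorem gr_core {R : Type} [CommRing R] (A b c E f g n0 n1 n2 n3 : R) (hP : A ^ 2 + b * c = 0)
    (hT : 2 * A * E + b * g + c * f = 1) (h1 : n0 + n3 = 0)
    (h2 : n0 * A + n1 * c + n2 * b - n3 * A = 0) (h3 : n0 * E + n1 * g + n2 * f - n3 * E = 0)
    (h4 : n0 * (A * E + b * g) + n1 * (c * E - A * g) + n2 * (A * f - b * E) +
      n3 * (c * f + A * E) = 0) : n0 = 0 ∧ n1 = 0 ∧ n2 = 0 ∧ n3 = 0 := by
  refine ⟨?_, ?_, ?_, ?_⟩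
  · linear_combination (A*E*b*g + 3*A*E*c*f - 2*A^2*f*g - 2*E^2*b*c - b*c*f*g + c^2*f^2) * h1 +
      (-2*A*f*g + E*b*g + E*c*f) * h2 + (A*b*g + A*c*f - 2*E*b*c) * h3 + (b*g - c*f) * h4 -
      n0 * (2 * A * E + b * g + c * f + 1) * hT + 4 * n0 * (E ^ 2 + f * g) * hP
  · linear_combination (2*A*E^2*b - A*b*f*g - A*c*f^2 - 2*A^2*E*f + E*b*c*f + E*b^2*g) * h1 +
      (2*A*E*f - 2*E^2*b - b*f*g + c*f^2) * h2 + (2*A*E*b - 2*A^2*f - b*c*f + b^2*g) * h3 +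
      (2*A*f - 2*E*b) * h4 - n1 * (2 * A * E + b * g + c * f + 1) * hT +
      4 * n1 * (E ^ 2 + f * g) * hP
  · linear_combination (-2*A*E^2*c + A*b*g^2 + A*c*f*g + 2*A^2*E*g - E*b*c*g - E*c^2*f) * h1 +
      (2*A*E*g - 2*E^2*c + b*g^2 - c*f*g) * h2 + (2*A*E*c - 2*A^2*g - b*c*g + c^2*f) * h3 +
      (-2*A*g + 2*E*c) * h4 - n2 * (2 * A * E + b * g + c * f + 1) * hT +
      4 * n2 * (E ^ 2 + f * g) * hP
  · linear_combination (3*A*E*b*g + A*E*c*f - 2*A^2*f*g - 2*E^2*b*c - b*c*f*g + b^2*g^2) * h1 +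
      (2*A*f*g - E*b*g - E*c*f) * h2 + (-A*b*g - A*c*f + 2*E*b*c) * h3 + (-b*g + c*f) * h4 -
      n3 * (2 * A * E + b * g + c * f + 1) * hT + 4 * n3 * (E ^ 2 + f * g) * hP

theorem p_gr : S_gr := by
  intro R _ x y hx hy hxy N h1 h2 h3 h4
  rw [tr_eq] at hx hy hxy
  have dx := G.SL_det x
  rw [G.SL_mul, G.SL_mul] at hxy
  rw [Matrix.trace_fin_two] at h1 h2 h3 h4
  rw [Matrix.mul_apply, Matrix.mul_apply, Fin.sum_univ_two, Fin.sum_univ_two] at h2 h3 h4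
  rw [G.SL_mul, G.SL_mul, G.SL_mul, G.SL_mul] at h4
  have e1 : (x.val 0 0 - 1) ^ 2 + x.val 0 1 * x.val 1 0 = 0 := by
    linear_combination (x.val 0 0) * hx - dx
  have e2 : 2 * (x.val 0 0 - 1) * (y.val 0 0 - 1) + x.val 0 1 * y.val 1 0 +
      x.val 1 0 * y.val 0 1 = 1 := by
    linear_combination hxy - y.val 1 1 * hx - (2 - x.val 0 0) * hy
  have e3 : N 0 0 * (x.val 0 0 - 1) + N 0 1 * x.val 1 0 + N 1 0 * x.val 0 1 -
      N 1 1 * (x.val 0 0 - 1) = 0 := by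
    linear_combination h2 - h1 - N 1 1 * hx
  have e4 : N 0 0 * (y.val 0 0 - 1) + N 0 1 * y.val 1 0 + N 1 0 * y.val 0 1 -
      N 1 1 * (y.val 0 0 - 1) = 0 := by
    linear_combination h3 - h1 - N 1 1 * hy
  have e5 : N 0 0 * ((x.val 0 0 - 1) * (y.val 0 0 - 1) + x.val 0 1 * y.val 1 0) +
      N 0 1 * (x.val 1 0 * (y.val 0 0 - 1) - (x.val 0 0 - 1) * y.val 1 0) +
      N 1 0 * ((x.val 0 0 - 1) * y.val 0 1 - x.val 0 1 * (y.val 0 0 - 1)) +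
      N 1 1 * (x.val 1 0 * y.val 0 1 + (x.val 0 0 - 1) * (y.val 0 0 - 1)) = 0 := by
    linear_combination h4 - h1 - (h2 - h1 - N 1 1 * hx) - (h3 - h1 - N 1 1 * hy) -
      N 0 1 * y.val 1 0 * hx - N 1 0 * x.val 0 1 * hy -
      N 1 1 * (y.val 1 1 * hx + (2 - x.val 0 0) * hy)
  obtain ⟨k0, k1, k2, k3⟩ := gr_core _ _ _ _ _ _ _ _ _ _ e1 e2 h1 e3 e4 e5
  ext i j
  fin_cases i <;> fin_cases j
  · exact k0
  · exact k1
  · exact k2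
  · exact k3

end Pool.Agent.F8.PIC
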