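import Pool.Agent.Lib.MP_305fdd_al.F8.PIC.Stm

/-!
# MP_305fdd_al, PIC, piece h5: the subgroup `H5`, first properties
-/

set_option autoImplicit false

namespace Pool.Agent.F8.PIC

open Pool.Agent.MP_305fdd_al Pool.Agent.Lib.MP_305fdd_al Pool.Agent.F2X Pool.Agent.F8
  Pool.Agent.F8.HN Pool.Agent.F8.AB Pool.Agent.F8.D1
open Pool.Agent.F8.D1.PG (mL TP)
open scoped QuadraticAlgebra

noncomputable section

theorem h5_l2 : (2 : E1 (ZMod 4)) * ⟨1, 2⟩ = 2 := by decide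
theorem h5_ll : (⟨1, 2⟩ : E1 (ZMod 4)) * ⟨1, 2⟩ = 1 := by decide

/-- `A5` is invariant under `dl` -/
theorem h5_dl (g : SL2 (E1 (ZMod 4))) : dl g ∈ A5 ↔ g ∈ A5 := by
  have h0 : (dl g).val 0 0 = g.val 0 0 := rfl
  have h1 : (dl g).val 0 1 = ⟨1, 2⟩ * g.val 0 1 := rfl
  have h2 : (dl g).val 1 0 = ⟨1, 2⟩ * g.val 1 0 := rfl
  constructor
  · rintro ⟨a1, a2, a3⟩
    rw [h0] at a1
    rw [h2] at a2 a3
    rw [h1] at a3
    have c2 : 2 * g.val 1 0 = 0 := by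
      linear_combination a2 - g.val 1 0 * h5_l2
    have c3 : (⟨1, 2⟩ : E1 (ZMod 4)) * g.val 1 0 = g.val 1 0 := e4_mul _ _ h5_l2 c2
    rw [c3] at a3
    refine ⟨a1, c2, ?_⟩
    have hb : 2 * s4 ((⟨1, 2⟩ : E1 (ZMod 4)) * g.val 0 1) = 0 := by
      rw [a3]; exact im_two _ c2
    have e := s4_mul _ _ h5_l2 hb
    rw [← mul_assoc, h5_ll, one_mul] at e
    rw [e, a3]
  · rintro ⟨a1, a2, a3⟩
    have c3 : (⟨1, 2⟩ : E1 (ZMod 4)) * g.val 1 0 = g.val 1 0 := e4_mul _ _ h5_l2 a2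
    have hb : 2 * s4 (g.val 0 1) = 0 := by
      rw [a3]; exact im_two _ a2
    refine ⟨?_, ?_, ?_⟩
    · rw [h0]; exact a1
    · rw [h2, c3]; exact a2
    · rw [h2, c3, h1, s4_mul _ _ h5_l2 hb, a3]

theorem h5_iff (Λ : Type) [Group Λ] (Φ : NatBij GG Λ) (ρ : Λ →* GG)
    (hR : Rho Φ ρ) (l : Λ) : l ∈ L5 Φ ↔ ρ l ∈ G5 := by
  show Φ.toFun _ (rd 4) l ∈ A5 ↔ rd 4 (ρ l) ∈ A5
  rcases hR.four with h | h
  · rw [h]
  · rw [h, h5_dl]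

/-- the homomorphism `L5 → G5` -/
def h5_f {Λ : Type} [Group Λ] (Φ : NatBij GG Λ) (ρ : Λ →* GG)
    (hR : Rho Φ ρ) : L5 Φ →* G5 :=
  (ρ.comp (L5 Φ).subtype).codRestrict G5 (fun l => (h5_iff Λ Φ ρ hR l.1).1 l.2)

theorem h5_range {Λ : Type} [Group Λ] (Φ : NatBij GG Λ) (ρ : Λ →* GG)
    (hR : Rho Φ ρ) (η : G5 →* G1) : H5 ρ η = (η.comp (h5_f Φ ρ hR)).range := by
  ext x
  constructor
  · rintro ⟨y, ⟨l, hl⟩, rfl⟩
    have hl' : ρ l = y.1 := hl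
    refine ⟨⟨l, (h5_iff Λ Φ ρ hR l).2 (by rw [hl']; exact y.2)⟩, ?_⟩
    show η _ = η y
    congr 1
    exact Subtype.ext hl'
  · rintro ⟨l, rfl⟩
    exact ⟨h5_f Φ ρ hR l, ⟨l.1, rfl⟩, rfl⟩

/-- the labels depend only on the reduction modulo four -/
theorem h5_lab {η : G5 →* G1} (hη : Eta η) (x y : G5) (hxy : rd 4 x.1 = rd 4 y.1)
    (w : F) (n : ℤ) (hx : η x = iA al1 w * tA al1 ^ n)
    (w' : F) (n' : ℤ) (hy : η y = iA al1 w' * tA al1 ^ n') :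
    ((vec w 0 : ℤ) : ZMod 4) = ((vec w' 0 : ℤ) : ZMod 4) ∧
    ((2 * n : ℤ) : ZMod 4) = ((2 * n' : ℤ) : ZMod 4) := by
  have h1 := hη.lab x w n hx
  have h2 := hη.lab y w' n' hy
  have e : ∀ i k, E1m (Int.castRingHom (ZMod 4)) (x.1.val i k) =
      E1m (Int.castRingHom (ZMod 4)) (y.1.val i k) := by
    intro i k
    have := congrArg (fun g : SL2 (E1 (ZMod 4)) => g.val i k) hxy
    exact this
  have er : ∀ i k, (((x.1.val i k).re : ℤ) : ZMod 4) = (((y.1.val i k).re : ℤ) : ZMod 4) :=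
    fun i k => congrArg QuadraticAlgebra.re (e i k)
  have ei : ∀ i k, (((x.1.val i k).im : ℤ) : ZMod 4) = (((y.1.val i k).im : ℤ) : ZMod 4) :=
    fun i k => congrArg QuadraticAlgebra.im (e i k)
  refine ⟨?_, ?_⟩
  · rw [h1.1, h2.1]
    push_cast
    rw [er, ei]
  · rw [h1.2.2, h2.2.2]
    push_cast
    rw [er 1 0, ei 1 0, er 0 1]

theorem h5_ev {η : G5 →* G1} (hη : Eta η) (x : G5) (w : F) (n : ℤ)
    (hx : η x = iA al1 w * tA al1 ^ n) : Even (vec w 0) ∧ Even (vec w 1) := by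
  have h1 := hη.lab x w n hx
  obtain ⟨_, a2, _⟩ : rd 4 x.1 ∈ A5 := x.2
  have hr : (2 : ZMod 4) * (((x.1.val 1 0).re : ℤ) : ZMod 4) = 0 := by
    have := congrArg QuadraticAlgebra.re a2
    rw [QuadraticAlgebra.re_mul, show (2 : E1 (ZMod 4)).re = 2 from rfl,
      show (2 : E1 (ZMod 4)).im = 0 from rfl, mul_zero, zero_mul, add_zero] at this
    exact this
  have hi : (2 : ZMod 4) * (((x.1.val 1 0).im : ℤ) : ZMod 4) = 0 := im_two _ a2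
  have key : ∀ z : ℤ, (2 : ZMod 4) * ((z : ℤ) : ZMod 4) = 0 → Even z := by
    intro z hz
    have h : ((2 * z : ℤ) : ZMod 4) = 0 := by push_cast; exact hz
    have h4 : ((4 : ℕ) : ℤ) ∣ 2 * z := (ZMod.intCast_zmod_eq_zero_iff_dvd _ 4).1 h
    rw [Int.even_iff]
    omega
  constructor
  · apply key
    rw [h1.1]
    push_cast
    linear_combination hr + hi
  · apply key
    rw [h1.2.1]
    exact hi

theorem p_h5 : S_h5 := by
  intro Λ _ _ Φ ρ hR η hη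
  have hiff := h5_iff Λ Φ ρ hR
  refine ⟨hiff, ?_, ?_, ?_, ?_⟩
  · rw [h5_range Φ ρ hR η]
    have hfi : (L5 Φ).FiniteIndex := by
      refine ⟨?_⟩
      unfold L5
      rw [Subgroup.index_comap]
      intro h0
      have hd := Subgroup.relIndex_dvd_card A5 (Φ.toFun _ (rd 4)).range
      rw [h0, Nat.zero_dvd] at hd
      exact Nat.card_pos.ne' hd
    have hfg : Group.FG (L5 Φ) := inferInstance
    rw [← Group.fg_iff_subgroup_fg]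
    infer_instance
  · rintro w n ⟨x, _, hx⟩
    exact h5_ev hη x w n hx
  · obtain ⟨x, hx⟩ := hη.sur 1 1 (by simp) (by simp)
    obtain ⟨l, hl⟩ := hR.img 4 x.1
    have hm : ρ l ∈ G5 := by
      show rd 4 (ρ l) ∈ A5
      rw [hl]; exact x.2
    refine ⟨η ⟨ρ l, hm⟩, ⟨⟨ρ l, hm⟩, ⟨l, rfl⟩, rfl⟩, ?_⟩
    obtain ⟨w, n, hwn⟩ := GA_cases al1 (η ⟨ρ l, hm⟩)
    have h := (h5_lab hη ⟨ρ l, hm⟩ x hl w n hwn 1 1 hx).2
    have h4 : ((4 : ℕ) : ℤ) ∣ 2 * 1 - 2 * n := (ZMod.intCast_eq_intCast_iff_dvd_sub _ _ 4).1 h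
    rw [hwn, map_mul, nA_iA, map_zpow, nA_tA, one_mul]
    rw [← ofAdd_zsmul]
    show Odd (n • (1 : ℤ))
    rw [smul_eq_mul, mul_one, Int.odd_iff]
    omega
  · have hv0 : vec (ga * ga) 0 = 2 := by
      rw [vec_mul, vec_of]; rfl
    have hv1 : vec (ga * ga) 1 = 0 := by
      rw [vec_mul, vec_of]; rfl
    obtain ⟨x, hx⟩ := hη.sur (ga * ga) 0 (by rw [hv0]; decide) (by rw [hv1]; decide)
    obtain ⟨l, hl⟩ := hR.img 4 x.1
    have hm : ρ l ∈ G5 := by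
      show rd 4 (ρ l) ∈ A5
      rw [hl]; exact x.2
    obtain ⟨w, n, hwn⟩ := GA_cases al1 (η ⟨ρ l, hm⟩)
    obtain ⟨g1, g2⟩ := h5_lab hη ⟨ρ l, hm⟩ x hl w n hwn (ga * ga) 0 hx
    have h4 : ((4 : ℕ) : ℤ) ∣ 2 * 0 - 2 * n := (ZMod.intCast_eq_intCast_iff_dvd_sub _ _ 4).1 g2
    have h5 : ((4 : ℕ) : ℤ) ∣ vec (ga * ga) 0 - vec w 0 :=
      (ZMod.intCast_eq_intCast_iff_dvd_sub _ _ 4).1 g1
    rw [hv0] at h5
    refine ⟨w, n, ⟨⟨ρ l, hm⟩, ⟨l, rfl⟩, hwn⟩, ?_, ?_⟩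
    · rw [Int.even_iff]; omega
    · omega

end

end Pool.Agent.F8.PIC
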