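import Pool.Agent.Lib.MP_305fdd_al.F8.PIC.Stm

/-!
# PIC, piece i0: existence of the chains of the paths in a Schreier graph
-/

set_option autoImplicit false

namespace Pool.Agent.F8.PIC

open Pool.Agent.MP_305fdd_al Pool.Agent.Lib.MP_305fdd_al Pool.Agent.F2X Pool.Agent.F8
  Pool.Agent.F8.HN Pool.Agent.F8.AB Pool.Agent.F8.D1

noncomputable section

/-- the permutation `(v, c) ↦ (g v, c + a v)` -/
def i0_P {V C : Type} [MulAction F V] [AddCommGroup C] (g : F) (a : V → C) :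
    Equiv.Perm (V × C) where
  toFun p := (g • p.1, p.2 + a p.1)
  invFun p := (g⁻¹ • p.1, p.2 - a (g⁻¹ • p.1))
  left_inv := by
    rintro ⟨v, c⟩
    simp
  right_inv := by
    rintro ⟨v, c⟩
    simp

theorem i0_P_apply {V C : Type} [MulAction F V] [AddCommGroup C] (g : F) (a : V → C) (p : V × C) :
    i0_P g a p = (g • p.1, p.2 + a p.1) := rfl

/-- the permutations over the action of `g` -/
def i0_S (V C : Type) [MulAction F V] [AddCommGroup C] (θ : F →* Equiv.Perm (V × C)) :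
    Subgroup F where
  carrier := {g | ∃ κ : V → C, θ g = i0_P g κ}
  one_mem' := ⟨fun _ => 0, by
    ext1 p
    rw [map_one, i0_P_apply, one_smul, add_zero]; rfl⟩
  mul_mem' := by
    rintro g h ⟨κ, hκ⟩ ⟨κ', hκ'⟩
    refine ⟨fun v => κ' v + κ (h • v), ?_⟩
    ext1 p
    rw [map_mul, Equiv.Perm.mul_apply, hκ, hκ', i0_P_apply, i0_P_apply, i0_P_apply, mul_smul]
    show (g • h • p.1, p.2 + κ' p.1 + κ (h • p.1)) = _
    rw [add_assoc]
  inv_mem' := by
    rintro g ⟨κ, hκ⟩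
    refine ⟨fun v => -κ (g⁻¹ • v), ?_⟩
    ext1 p
    rw [map_inv, hκ, i0_P_apply]
    show (g⁻¹ • p.1, p.2 - κ (g⁻¹ • p.1)) = _
    rw [sub_eq_add_neg]

theorem p_i0 : S_i0 := by
  intro V _
  let C := V × Bool →₀ ℝ
  let X : Equiv.Perm (V × C) := i0_P x0 (fun v => Finsupp.single (x0 • v, false) 1)
  let U : Equiv.Perm (V × C) := i0_P ga (fun v => Finsupp.single (ga • v, true) 1)
  let θ : F →* Equiv.Perm (V × C) := liF U (U * X⁻¹)
  have hga : θ ga = U := liF_ga _ _
  have hgb : θ gb = U * X⁻¹ := liF_gb _ _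
  have hx : θ x0 = X := by
    unfold x0
    rw [map_mul, map_inv, hga, hgb]; group
  have mx : x0 ∈ i0_S V C θ := ⟨_, hx⟩
  have mu : ga ∈ i0_S V C θ := ⟨_, hga⟩
  have mb : gb ∈ i0_S V C θ := by
    have : gb = ga * x0⁻¹ := by unfold x0; group
    rw [this]
    exact (i0_S V C θ).mul_mem mu ((i0_S V C θ).inv_mem mx)
  have htop : ∀ g : F, g ∈ i0_S V C θ := by
    intro g
    induction g using FreeGroup.induction_on with
    | C1 => exact one_mem _
    | of i =>
      fin_cases i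
      · exact mu
      · exact mb
    | inv_of i h => exact inv_mem h
    | mul x y hx hy => exact mul_mem hx hy
  choose κ hκ using htop
  have key : ∀ g v, (θ g (v, 0)).2 = κ g v := by
    intro g v
    rw [hκ, i0_P_apply, zero_add]
  refine ⟨fun v g => κ g (g⁻¹ • v), ⟨?_, ?_, ?_, ?_⟩⟩
  · intro v
    show κ 1 ((1 : F)⁻¹ • v) = 0
    rw [← key, map_one]; rfl
  · intro v g h
    show κ (g * h) ((g * h)⁻¹ • v) = κ g (g⁻¹ • v) + κ h (h⁻¹ • g⁻¹ • v)
    rw [← key (g * h), map_mul, Equiv.Perm.mul_apply, hκ h, i0_P_apply, hκ g, i0_P_apply]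
    show 0 + κ h ((g * h)⁻¹ • v) + κ g (h • (g * h)⁻¹ • v) = _
    rw [zero_add, mul_inv_rev, mul_smul, smul_inv_smul, add_comm]
  · intro v
    show κ x0 (x0⁻¹ • v) = _
    rw [← key, hx]
    show 0 + Finsupp.single (x0 • x0⁻¹ • v, false) 1 = _
    rw [zero_add, smul_inv_smul]
  · intro v
    show κ ga (ga⁻¹ • v) = _
    rw [← key, hga]
    show 0 + Finsupp.single (ga • ga⁻¹ • v, true) 1 = _
    rw [zero_add, smul_inv_smul]

end

end Pool.Agent.F8.PIC
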