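import Pool.Agent.Lib.MP_305fdd_al.F8.PIC.Stm

/-!
# PIC, piece i1: the induced linear map on the chains
-/

set_option autoImplicit false

namespace Pool.Agent.F8.PIC

open Pool.Agent.MP_305fdd_al Pool.Agent.Lib.MP_305fdd_al Pool.Agent.F2X Pool.Agent.F8
  Pool.Agent.F8.HN Pool.Agent.F8.AB Pool.Agent.F8.D1

noncomputable section

theorem i1_inv {V : Type} [MulAction F V] {D : V → F → (V × Bool →₀ ℝ)} (hD : IsD D) (v : V)
    (g : F) : D v g⁻¹ = -D (g • v) g := by
  have h := hD.mul v g⁻¹ g
  rw [inv_mul_cancel, hD.one, inv_inv] at h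
  exact eq_neg_of_add_eq_zero_left h.symm

/-- a subgroup with `x0`, `ga` is everything -/
theorem i1_top (S : Subgroup F) (hx : x0 ∈ S) (hu : ga ∈ S) (g : F) : g ∈ S := by
  have hb : gb ∈ S := by
    have : gb = ga * x0⁻¹ := by unfold x0; group
    rw [this]
    exact S.mul_mem hu (S.inv_mem hx)
  induction g using FreeGroup.induction_on with
  | C1 => exact one_mem _
  | of i =>
    fin_cases i
    · exact hu
    · exact hb
  | inv_of i h => exact inv_mem h
  | mul x y hx hy => exact mul_mem hx hy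

theorem p_i1 : S_i1 := by
  intro V _ D hD β ψ hψ
  let A : (V × Bool →₀ ℝ) →ₗ[ℝ] (V × Bool →₀ ℝ) :=
    Finsupp.linearCombination ℝ (fun e : V × Bool => D (ψ e.1) (β (lt e.2)))
  have hA : ∀ e : V × Bool, A (Finsupp.single e 1) = D (ψ e.1) (β (lt e.2)) := by
    intro e
    show Finsupp.linearCombination ℝ _ _ = _
    rw [Finsupp.linearCombination_single, one_smul]
  have hinv : ∀ (g : F) (v : V), ψ (g⁻¹ • v) = (β g)⁻¹ • ψ v := by
    intro g v
    rw [hψ, map_inv]
  let S : Subgroup F :=
    { carrier := {g | ∀ v, A (D v g) = D (ψ v) (β g)}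
      one_mem' := by
        intro v
        rw [hD.one, map_zero, map_one, hD.one]
      mul_mem' := by
        intro g h hg hh v
        rw [hD.mul, map_add, hg, hh, map_mul, hD.mul, hinv]
      inv_mem' := by
        intro g hg v
        rw [i1_inv hD, map_neg, hg, map_inv, i1_inv hD, hψ] }
  refine ⟨A, fun v g => ?_⟩
  refine i1_top S ?_ ?_ g v
  · intro v
    rw [hD.x, hA]; rfl
  · intro v
    rw [hD.u, hA]; rfl

end

end Pool.Agent.F8.PIC
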