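import Pool.Agent.Lib.MP_305fdd_al.F8.PIC.Stm

set_option autoImplicit false

namespace Pool.Agent.F8.PIC

open Pool.Agent.MP_305fdd_al Pool.Agent.Lib.MP_305fdd_al Pool.Agent.F2X Pool.Agent.F8
  Pool.Agent.F8.HN Pool.Agent.F8.AB Pool.Agent.F8.D1
open scoped QuadraticAlgebra

theorem p_lim : S_lim := by
  intro R _ Rk _ π p h
  obtain ⟨h1, h2⟩ := h
  refine ⟨?_, ?_⟩
  · intro k
    apply RingHom.ext
    intro z
    apply QuadraticAlgebra.ext
    · show p k (π (k + 1) z.re) = π k z.re
      exact DFunLike.congr_fun (h1 k) z.re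
    · show p k (π (k + 1) z.im) = π k z.im
      exact DFunLike.congr_fun (h1 k) z.im
  · intro x hx
    obtain ⟨a, ha, ha'⟩ := h2 (fun k => (x k).re) (fun k => by
      have := congrArg QuadraticAlgebra.re (hx k)
      exact this)
    obtain ⟨b, hb, hb'⟩ := h2 (fun k => (x k).im) (fun k => by
      have := congrArg QuadraticAlgebra.im (hx k)
      exact this)
    refine ⟨⟨a, b⟩, ?_, ?_⟩
    · intro k
      apply QuadraticAlgebra.ext
      · exact ha k
      · exact hb k
    · intro y hy
      apply QuadraticAlgebra.ext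
      · apply ha'
        intro k
        exact congrArg QuadraticAlgebra.re (hy k)
      · apply hb'
        intro k
        exact congrArg QuadraticAlgebra.im (hy k)

end Pool.Agent.F8.PIC
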