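import Pool.Agent.Lib.MP_305fdd_al.F8.PIC.Stm

/-!
# MP_305fdd_al, PIC, piece m3: no cocycle modulo 3 on the subgroup
-/

set_option autoImplicit false

namespace Pool.Agent.F8.PIC

open Pool.Agent.MP_305fdd_al Pool.Agent.Lib.MP_305fdd_al Pool.Agent.F2X Pool.Agent.F8
  Pool.Agent.F8.HN Pool.Agent.F8.AB Pool.Agent.F8.D1

/-- the label of a matrix modulo `4` -/
private def m3_L (g : SL2 (E1 (ZMod 4))) : ZMod 4 := s4 (g.val 1 0) + 2 * (g.val 0 1).re

private theorem m3_two_re (b : E1 (ZMod 4)) : 2 * b.re = (2 * b).re := by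
  rw [QuadraticAlgebra.re_mul, show (2 : E1 (ZMod 4)).re = 2 from rfl,
    show (2 : E1 (ZMod 4)).im = 0 from rfl, mul_zero, zero_mul, add_zero]

private theorem m3_L_mul (g h : SL2 (E1 (ZMod 4))) (hg : g ∈ A5) (hh : h ∈ A5) :
    m3_L (g * h) = m3_L g + m3_L h := by
  obtain ⟨a1, a2, -⟩ := hg
  obtain ⟨b1, b2, -⟩ := hh
  have a4 := d_odd g a1 a2
  have b4 := d_odd h b1 b2
  have e1 : (g * h).val 1 0 = g.val 1 0 + h.val 1 0 := by
    rw [G.SL_mul, mul_comm (g.val 1 0), e4_mul _ _ b1 a2, e4_mul _ _ a4 b2]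
  have e2 : 2 * (g * h).val 0 1 = 2 * h.val 0 1 + 2 * g.val 0 1 := by
    rw [G.SL_mul]
    linear_combination h.val 0 1 * a1 + g.val 0 1 * b4
  unfold m3_L
  rw [e1, s4_add, m3_two_re ((g * h).val 0 1), e2, QuadraticAlgebra.re_add, ← m3_two_re,
    ← m3_two_re]
  ring

private theorem m3_L_two (g : SL2 (E1 (ZMod 4))) (hg : g ∈ A5) : 2 * m3_L g = 0 := by
  obtain ⟨-, a2, -⟩ := hg
  unfold m3_L
  have h1 := im_two _ a2
  have h2 : 2 * (g.val 1 0).re = 0 := by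
    rw [m3_two_re, a2]
    rfl
  have h4 : (4 : ZMod 4) = 0 := by decide
  unfold s4
  linear_combination h1 + h2 + (g.val 0 1).re * h4

private theorem m3_L_dl (g : SL2 (E1 (ZMod 4))) (hg : g ∈ A5) : m3_L (dl g) = m3_L g := by
  obtain ⟨-, a2, -⟩ := hg
  have e1 : (dl g).val 1 0 = g.val 1 0 := by
    show (⟨1, 2⟩ : E1 (ZMod 4)) * g.val 1 0 = g.val 1 0
    exact e4_mul _ _ (by decide) a2
  have e2 : 2 * (dl g).val 0 1 = 2 * g.val 0 1 := by
    show 2 * ((⟨1, 2⟩ : E1 (ZMod 4)) * g.val 0 1) = 2 * g.val 0 1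
    rw [← mul_assoc]
    congr 1
  unfold m3_L
  rw [e1, m3_two_re, e2, ← m3_two_re]

/-- the sign of a residue class -/
private def m3_s (a : ZMod 4) : (ZMod 3)ˣ := if a = 0 then 1 else -1

private theorem m3_s_add : ∀ a b : ZMod 4, 2 * a = 0 → 2 * b = 0 →
    m3_s (a + b) = m3_s a * m3_s b := by
  unfold m3_s
  decide

/-- the sign character on `A5` -/
private def m3_lam : A5 →* (ZMod 3)ˣ where
  toFun g := m3_s (m3_L g.1)
  map_one' := by
    have h : m3_L ((1 : A5) : SL2 (E1 (ZMod 4))) = 0 := by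
      have h1 := m3_L_mul 1 1 (one_mem _) (one_mem _)
      rw [mul_one] at h1
      exact left_eq_add.1 h1
    rw [h]
    exact if_pos rfl
  map_mul' g h := by
    rw [Subgroup.coe_mul, m3_L_mul _ _ g.2 h.2]
    exact m3_s_add _ _ (m3_L_two _ g.2) (m3_L_two _ h.2)

private theorem m3_lam_apply (g : A5) : m3_lam g = m3_s (m3_L g.1) := rfl

private theorem m3_sn_mul (x y : G1) : sn (x * y) = sn x * sn y := by
  unfold sn
  rw [map_mul, toAdd_mul, zpow_add]

private theorem m3_s_two (n : ℤ) : m3_s ((2 * n : ℤ) : ZMod 4) = (-1) ^ n := by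
  rcases Int.even_or_odd n with hn | hn
  · obtain ⟨m, rfl⟩ := hn
    rw [Even.neg_one_zpow ⟨m, rfl⟩]
    apply if_pos
    rw [ZMod.intCast_zmod_eq_zero_iff_dvd]
    exact ⟨m, by push_cast; ring⟩
  · obtain ⟨m, rfl⟩ := hn
    rw [Odd.neg_one_zpow ⟨m, rfl⟩]
    apply if_neg
    intro h
    have h2 : ((2 * (2 * m + 1) : ℤ) : ZMod 4) = 2 := by
      have h4 : (4 : ZMod 4) = 0 := by decide
      push_cast
      linear_combination (m : ZMod 4) * h4
    rw [h2] at h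
    exact absurd h (by decide)

private theorem m3_sn_eq (η : G5 →* G1) (hη : Eta η) (x : G5) :
    sn (η x) = m3_s (m3_L (rd 4 x.1)) := by
  obtain ⟨w, n, hwn⟩ := GA_cases al1 (η x)
  have h1 := (hη.lab x w n hwn).2.2
  have h2 : m3_L (rd 4 x.1) = (((x.val.val 1 0).re + (x.val.val 1 0).im +
      2 * (x.val.val 0 1).re : ℤ) : ZMod 4) := by
    push_cast
    rfl
  rw [h2, ← h1, m3_s_two]
  unfold sn
  rw [hwn, map_mul, nA_iA, one_mul, map_zpow, nA_tA, ← ofAdd_zsmul]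
  simp

theorem p_m3 (hn3 : S_n3) : S_m3 := by
  intro Λ _ Φ ρ hρ η hη hL f hf x hx
  -- the homomorphisms
  let φ : L5 Φ →* G5 := (ρ.comp (L5 Φ).subtype).codRestrict G5 fun l => (hL l).1 l.2
  have hφ : ∀ l : L5 Φ, (φ l : GG) = ρ l := fun l => rfl
  let h : L5 Φ →* H5 ρ η := (η.comp φ).codRestrict (H5 ρ η) fun l => ⟨φ l, ⟨l, rfl⟩, rfl⟩
  have hh : ∀ l : L5 Φ, (h l : G1) = η (φ l) := fun l => rfl
  have hf1 : f 1 = 0 := by
    have h1 := hf 1 1
    have h2 : sn ((1 : H5 ρ η) : G1) = 1 := by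
      have h3 := m3_sn_mul 1 1
      rw [mul_one] at h3
      exact left_eq_mul.1 h3
    rw [h2, mul_one, Units.val_one, one_mul] at h1
    exact left_eq_add.1 h1
  let κ : L5 Φ →* Q2 (ZMod 3) :=
    { toFun := fun l => ⟨sn (h l), 1, ![f (h l), 0]⟩
      map_one' := by
        apply Q2.ext
        · show sn ((h 1 : H5 ρ η) : G1) = 1
          rw [map_one]
          have h3 := m3_sn_mul 1 1
          rw [mul_one] at h3
          exact left_eq_mul.1 h3
        · rfl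
        · show ![f (h 1), 0] = 0
          rw [map_one, hf1]
          ext i
          fin_cases i <;> rfl
      map_mul' := by
        intro a b
        apply Q2.ext
        · show sn ((h (a * b) : H5 ρ η) : G1) = sn (h a) * sn (h b)
          rw [map_mul, Subgroup.coe_mul, m3_sn_mul]
        · exact (one_mul _).symm
        · rw [Q2.mul_v]
          show ![f (h (a * b)), 0] = ![f (h a), 0] +
            (sn (h a)).val • (1 : SL2 (ZMod 3)).val.mulVec ![f (h b), 0]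
          rw [map_mul, hf]
          ext i
          fin_cases i
          · simp
          · simp }
  obtain ⟨Ψ, hΨ⟩ := natBij_comap Φ (rfl : Φ.toFun _ (rd 4) = Φ.toFun _ (rd 4)) A5
  change NatBij G5 (L5 Φ) at Ψ
  let κ' : G5 →* Q2 (ZMod 3) := Ψ.invFun _ κ
  have hκ' : Ψ.toFun _ κ' = κ := Ψ.right_inv _ κ
  -- the matrix part
  have hm : Q2.mH.comp κ' = 1 := by
    apply Ψ.injective
    rw [Ψ.nat, hκ', Ψ.one]
    rfl
  -- the scalar part
  let rG : G5 →* A5 := ((rd 4).comp G5.subtype).codRestrict A5 fun y => y.2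
  have hrG : A5.subtype.comp rG = (rd 4).comp G5.subtype := rfl
  have hrL : ∀ l : L5 Φ, ((Ψ.toFun _ rG l : A5) : SL2 (E1 (ZMod 4))) = Φ.toFun _ (rd 4) l := by
    intro l
    have h1 := Ψ.nat A5.subtype rG
    rw [hrG] at h1
    have h2 := hΨ _ (rd 4)
    have h3 : A5.subtype.comp (Ψ.toFun _ rG) = (Φ.toFun _ (rd 4)).comp (L5 Φ).subtype := by
      rw [← h1]
      exact h2
    exact DFunLike.congr_fun h3 l
  have ht : Q2.tH.comp κ' = m3_lam.comp rG := by
    apply Ψ.injective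
    rw [Ψ.nat, hκ', Ψ.nat]
    refine DFunLike.ext _ _ fun l => ?_
    show sn (η (φ l)) = m3_lam (Ψ.toFun _ rG l)
    rw [m3_sn_eq η hη, m3_lam_apply, hrL, hφ]
    rcases hρ.four with h4 | h4
    · rw [h4]
    · rw [h4, m3_L_dl _ l.2]
  have ht' : ∀ y, (κ' y).t = sn (η y) := by
    intro y
    have h1 := DFunLike.congr_fun ht y
    rw [m3_sn_eq η hη]
    exact h1
  have hfin := hn3 η hη κ' hm ht'
  -- the conclusion
  obtain ⟨x, y, ⟨l, hl⟩, rfl⟩ := x
  have hl' : ρ l = (y : GG) := hl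
  have hlm : l ∈ L5 Φ := (hL l).2 (by rw [hl']; exact y.2)
  have hφl : φ ⟨l, hlm⟩ = y := Subtype.ext hl'
  have hmem : κ ⟨l, hlm⟩ ∈ κ'.range := by
    rw [← Ψ.range_eq κ', hκ']
    exact ⟨_, rfl⟩
  obtain ⟨z, hz⟩ := hmem
  have h1 : (κ ⟨l, hlm⟩).t = 1 := by
    show sn (η (φ ⟨l, hlm⟩)) = 1
    rw [hφl]
    unfold sn
    rw [show nA al1 (η y) = 1 from hx]
    rfl
  have h2 : κ ⟨l, hlm⟩ = 1 := by
    rw [← hz]
    apply hfin
    rw [hz]
    exact h1
  have h3 : f (h ⟨l, hlm⟩) = 0 := congrFun (congrArg Q2.v h2) 0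
  have h4 : h ⟨l, hlm⟩ = ⟨η y, ⟨y, ⟨l, hl⟩, rfl⟩⟩ := Subtype.ext (by rw [hh, hφl])
  rw [h4] at h3
  exact h3

end Pool.Agent.F8.PIC
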