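import Pool.Agent.Lib.MP_305fdd_al.F8.PIC.Stm

/-!
# MP_305fdd_al, PIC, piece n3: no cocycle modulo `3` on `G5`
-/

set_option autoImplicit false

namespace Pool.Agent.F8.PIC

open Pool.Agent.MP_305fdd_al Pool.Agent.Lib.MP_305fdd_al Pool.Agent.F2X Pool.Agent.F8
  Pool.Agent.F8.HN Pool.Agent.F8.AB Pool.Agent.F8.D1
open Pool.Agent.F8.D1.PG (mL TP)
open scoped QuadraticAlgebra

noncomputable section

/-- the five generators -/
def n3_y1 : F := ga * ga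
def n3_y2 : F := gb * gb
def n3_y3 : F := gb * ga * gb⁻¹ * ga⁻¹
def n3_y4 : F := ga * gb * gb * ga⁻¹
def n3_y5 : F := ga * gb * ga * gb⁻¹

theorem n3_a1 : al1 n3_y1 = n3_y4⁻¹ * n3_y5 * n3_y3 * n3_y5 * n3_y1 * n3_y1 * n3_y2⁻¹ * n3_y3 *
    n3_y5 * n3_y3 * n3_y1 * n3_y1 := by
  unfold n3_y1 n3_y2 n3_y3 n3_y4 n3_y5
  simp only [map_mul, al1_ga]
  simp [mul_assoc]

theorem n3_a2 : al1 n3_y2 = n3_y4⁻¹ * n3_y5 * n3_y3 * n3_y5 * n3_y3 * n3_y1 * n3_y1 := by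
  unfold n3_y1 n3_y2 n3_y3 n3_y4 n3_y5
  simp only [map_mul, al1_gb]
  simp [mul_assoc]

theorem n3_a3 : al1 n3_y3 = n3_y4⁻¹ * n3_y5 * n3_y3 * n3_y5 * n3_y3 * n3_y5⁻¹ * n3_y3⁻¹ *
    n3_y5⁻¹ * n3_y4 := by
  unfold n3_y3 n3_y4 n3_y5
  simp only [map_mul, map_inv, al1_ga, al1_gb]
  simp [mul_assoc]

theorem n3_a4 : al1 n3_y4 = n3_y4⁻¹ * n3_y5 * n3_y3 * n3_y5 * n3_y1 * n3_y1 * n3_y2⁻¹ * n3_y3 *
    n3_y4 := by
  unfold n3_y1 n3_y2 n3_y3 n3_y4 n3_y5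
  simp only [map_mul, map_inv, al1_ga, al1_gb]
  simp [mul_assoc]

theorem n3_a5 : al1 n3_y5 = n3_y4⁻¹ * n3_y5 * n3_y3 * n3_y5 * n3_y1 * n3_y1 * n3_y2⁻¹ * n3_y3 *
    n3_y5 * n3_y3 * n3_y5 * n3_y1 := by
  unfold n3_y1 n3_y2 n3_y3 n3_y4 n3_y5
  simp only [map_mul, map_inv, al1_ga, al1_gb]
  simp [mul_assoc]

theorem n3_vec : (∀ i : Fin 2, Even (vec n3_y1 i)) ∧ (∀ i : Fin 2, Even (vec n3_y2 i)) ∧
    (∀ i : Fin 2, Even (vec n3_y3 i)) ∧ (∀ i : Fin 2, Even (vec n3_y4 i)) ∧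
    ∀ i : Fin 2, Even (vec n3_y5 i) := by
  unfold n3_y1 n3_y2 n3_y3 n3_y4 n3_y5
  refine ⟨?_, ?_, ?_, ?_, ?_⟩ <;> intro i <;> fin_cases i <;>
    simp only [vec_mul, vec_inv, vec_of, Pi.add_apply, Pi.neg_apply] <;> decide

/-- translations -/
def n3_T : Subgroup (Q2 (ZMod 3)) where
  carrier := {x | x.t = 1 ∧ x.m = 1}
  one_mem' := ⟨rfl, rfl⟩
  mul_mem' := by
    rintro x y ⟨a, b⟩ ⟨c, d⟩
    exact ⟨by rw [Q2.mul_t, a, c, one_mul], by rw [Q2.mul_m, b, d, one_mul]⟩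
  inv_mem' := by
    rintro x ⟨a, b⟩
    exact ⟨by rw [Q2.inv_t, a, inv_one], by rw [Q2.inv_m, b, inv_one]⟩

theorem n3_mul {x y : Q2 (ZMod 3)} (hx : x ∈ n3_T) : (x * y).v = x.v + y.v := by
  rw [Q2.mul_v, hx.1, hx.2]
  simp

theorem n3_inv {x : Q2 (ZMod 3)} (hx : x ∈ n3_T) : (x⁻¹).v = -x.v := by
  rw [Q2.inv_v, hx.1, hx.2]
  simp

theorem n3_ext {x y : Q2 (ZMod 3)} (hx : x ∈ n3_T) (hy : y ∈ n3_T) (h : x.v = y.v) : x = y :=
  Q2.ext (hx.1.trans hy.1.symm) (hx.2.trans hy.2.symm) h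

theorem n3_conj {b x : Q2 (ZMod 3)} (hb : b.t = -1) (hb2 : b.m = 1) (hx : x ∈ n3_T) :
    (b * x * b⁻¹).v = -x.v := by
  rw [Q2.mul_v, Q2.mul_v, Q2.inv_v, Q2.mul_t, Q2.mul_m, hx.1, hx.2, hb, hb2]
  simp

theorem n3_lin : ∀ f1 f2 f3 f4 f5 : ZMod 3, -f1 = -f4 + f5 + f3 + f5 + f1 + f1 + -f2 + f3 + f5 +
    f3 + f1 + f1 → -f2 = -f4 + f5 + f3 + f5 + f3 + f1 + f1 →
    -f3 = -f4 + f5 + f3 + f5 + f3 + -f5 + -f3 + -f5 + f4 →
    -f4 = -f4 + f5 + f3 + f5 + f1 + f1 + -f2 + f3 + f4 →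
    -f5 = -f4 + f5 + f3 + f5 + f1 + f1 + -f2 + f3 + f5 + f3 + f5 + f1 →
    f1 = 0 ∧ f2 = 0 ∧ f3 = 0 ∧ f4 = 0 ∧ f5 = 0 := by
  decide +kernel

theorem n3_nA (w : F) (n : ℤ) : nA al1 (iA al1 w * tA al1 ^ n) = Multiplicative.ofAdd n := by
  rw [map_mul, map_zpow, nA_iA, nA_tA, one_mul, ← ofAdd_zsmul]
  simp

theorem n3_neg_one : ((-1 : (ZMod 3)ˣ)) ≠ 1 := by decide

theorem n3_even {n : ℤ} (h : ((-1 : (ZMod 3)ˣ)) ^ n = 1) : Even n := by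
  by_contra hn
  rw [Int.not_even_iff_odd] at hn
  rw [hn.neg_one_zpow] at h
  exact n3_neg_one h

theorem n3_z4 : ∀ x : ZMod 4, 2 * x = 0 → x = 0 ∨ x = 2 := by decide

/-- an integer whose double is zero modulo `4` is even -/
theorem n3_ev {n : ℤ} (h : 2 * ((n : ℤ) : ZMod 4) = 0) : Even n := by
  have h2 : (((2 * n : ℤ)) : ZMod 4) = 0 := by push_cast; exact h
  rw [ZMod.intCast_zmod_eq_zero_iff_dvd] at h2
  obtain ⟨k, hk⟩ := h2
  exact ⟨k, by push_cast at hk; omega⟩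

theorem n3_ev_of {a b : ℤ} (h : ((a : ℤ) : ZMod 4) = ((b : ℤ) : ZMod 4)) (hb : Even b) :
    Even a := by
  obtain ⟨k, hk⟩ := (ZMod.intCast_eq_intCast_iff_dvd_sub a b 4).mp h
  obtain ⟨m, hm⟩ := hb
  exact ⟨m - 2 * k, by push_cast at hk; omega⟩

/-- the lower left entry of an element of `G5` is even -/
theorem n3_c (x : G5) : Even (x.val.val 1 0).re ∧ Even (x.val.val 1 0).im := by
  have h := x.2.2.1
  have h2 : 2 * (E1m (Int.castRingHom (ZMod 4)) (x.val.val 1 0)) = 0 := h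
  rw [E1m_apply] at h2
  constructor
  · have := congrArg QuadraticAlgebra.re h2
    rw [QuadraticAlgebra.re_mul, show (2 : E1 (ZMod 4)).re = 2 from rfl,
      show (2 : E1 (ZMod 4)).im = 0 from rfl, mul_zero, zero_mul, add_zero] at this
    exact n3_ev this
  · have := congrArg QuadraticAlgebra.im h2
    rw [QuadraticAlgebra.im_mul, show (2 : E1 (ZMod 4)).re = 2 from rfl,
      show (2 : E1 (ZMod 4)).im = 0 from rfl] at this
    exact n3_ev (by simpa using this)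

section main

variable {η : G5 →* G1} (hη : Eta η) {κ : G5 →* Q2 (ZMod 3)} (hm : Q2.mH.comp κ = 1)
  (ht : ∀ x, (κ x).t = sn (η x))

include hm in
theorem n3_m (x : G5) : (κ x).m = 1 := by
  have := DFunLike.congr_fun hm x
  exact this

include hm ht in
theorem n3_T_mem {x : G5} {w : F} (h : η x = iA al1 w) : κ x ∈ n3_T := by
  refine ⟨?_, n3_m hm x⟩
  rw [ht, h]
  unfold sn
  rw [nA_iA]
  simp

include ht in
theorem n3_t0 {x : G5} (h : η x = tA al1) : (κ x).t = -1 := by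
  rw [ht, h]
  unfold sn
  rw [nA_tA]
  simp

include hη in
theorem n3_ex0 : ∃ x, η x = tA al1 := by
  obtain ⟨x, hx⟩ := hη.sur 1 1 (by simp) (by simp)
  exact ⟨x, by rw [hx, map_one, one_mul, zpow_one]⟩

include hη in
theorem n3_exi {y : F} (h : ∀ i : Fin 2, Even (vec y i)) : ∃ x, η x = iA al1 y := by
  obtain ⟨x, hx⟩ := hη.sur y 0 (h 0) (h 1)
  exact ⟨x, by rw [hx, zpow_zero, mul_one]⟩

include hη hm ht in
theorem n3_ker {x : G5} (h : η x = 1) : κ x = 1 := by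
  rcases (hη.ker x).mp h with h1 | h1
  · have : x = 1 := Subtype.ext h1
    rw [this, map_one]
  · obtain ⟨x0', h0⟩ := n3_ex0 hη
    have hc : x * x0' = x0' * x := by
      apply Subtype.ext
      show x.val * x0'.val = x0'.val * x.val
      rw [h1]
      simp
    have hT : κ x ∈ n3_T := n3_T_mem hm ht (w := 1) (by rw [h, map_one])
    have e : κ x0' * κ x * (κ x0')⁻¹ = κ x := by
      rw [← map_mul, ← hc, map_mul, mul_inv_cancel_right]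
    have e2 := n3_conj (n3_t0 ht h0) (n3_m hm x0') hT
    rw [e] at e2
    apply n3_ext hT (one_mem _)
    have h3 : ∀ a : ZMod 3, a = -a → a = 0 := by decide
    funext i
    exact h3 _ (congrFun e2 i)

include hη hm ht in
theorem n3_eq {x y : G5} (h : η x = η y) : κ x = κ y := by
  have : κ (x * y⁻¹) = 1 := n3_ker hη hm ht (by rw [map_mul, map_inv, h, mul_inv_cancel])
  rw [map_mul, map_inv] at this
  exact mul_inv_eq_one.mp this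

include hη hm ht in
theorem n3_main (hf5 : S_f5) (w : F) (h0 : Even (vec w 0)) (h1 : Even (vec w 1)) :
    ∃ x, η x = iA al1 w ∧ κ x = 1 := by
  obtain ⟨v1, v2, v3, v4, v5⟩ := n3_vec
  obtain ⟨x0', e0⟩ := n3_ex0 hη
  obtain ⟨x1, e1⟩ := n3_exi hη v1
  obtain ⟨x2, e2⟩ := n3_exi hη v2
  obtain ⟨x3, e3⟩ := n3_exi hη v3
  obtain ⟨x4, e4⟩ := n3_exi hη v4
  obtain ⟨x5, e5⟩ := n3_exi hη v5
  have t1 := n3_T_mem hm ht e1
  have t2 := n3_T_mem hm ht e2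
  have t3 := n3_T_mem hm ht e3
  have t4 := n3_T_mem hm ht e4
  have t5 := n3_T_mem hm ht e5
  have cj : ∀ (x z : G5) (y : F), η x = iA al1 y → κ x ∈ n3_T → η z = iA al1 (al1 y) →
      -(κ x).v = (κ z).v := by
    intro x z y hx hT hz
    rw [← n3_conj (n3_t0 ht e0) (n3_m hm x0') hT, ← map_mul, ← map_inv, ← map_mul]
    congr 1
    apply n3_eq hη hm ht
    rw [map_mul, map_mul, map_inv, hx, e0, hz, tA_conj]
  have c1 := cj x1 (x4⁻¹ * x5 * x3 * x5 * x1 * x1 * x2⁻¹ * x3 * x5 * x3 * x1 * x1) _ e1 t1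
    (by rw [n3_a1]; simp only [map_mul, map_inv, e1, e2, e3, e4, e5])
  have c2 := cj x2 (x4⁻¹ * x5 * x3 * x5 * x3 * x1 * x1) _ e2 t2
    (by rw [n3_a2]; simp only [map_mul, map_inv, e1, e3, e4, e5])
  have c3 := cj x3 (x4⁻¹ * x5 * x3 * x5 * x3 * x5⁻¹ * x3⁻¹ * x5⁻¹ * x4) _ e3 t3
    (by rw [n3_a3]; simp only [map_mul, map_inv, e3, e4, e5])
  have c4 := cj x4 (x4⁻¹ * x5 * x3 * x5 * x1 * x1 * x2⁻¹ * x3 * x4) _ e4 t4
    (by rw [n3_a4]; simp only [map_mul, map_inv, e1, e2, e3, e4, e5])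
  have c5 := cj x5 (x4⁻¹ * x5 * x3 * x5 * x1 * x1 * x2⁻¹ * x3 * x5 * x3 * x5 * x1) _ e5 t5
    (by rw [n3_a5]; simp only [map_mul, map_inv, e1, e2, e3, e4, e5])
  have i2 := inv_mem t2
  have i3 := inv_mem t3
  have i4 := inv_mem t4
  have i5 := inv_mem t5
  simp only [map_mul, map_inv] at c1 c2 c3 c4 c5
  have p1 := mul_mem i4 t5
  have p2 := mul_mem p1 t3
  have p3 := mul_mem p2 t5
  have q4 := mul_mem p3 t1
  have q5 := mul_mem q4 t1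
  have q6 := mul_mem q5 i2
  have q7 := mul_mem q6 t3
  have q8 := mul_mem q7 t5
  have q9 := mul_mem q8 t3
  have q10 := mul_mem q9 t1
  have r10 := mul_mem q9 t5
  have s4 := mul_mem p3 t3
  have s5 := mul_mem s4 t1
  have u5 := mul_mem s4 i5
  have u6 := mul_mem u5 i3
  have u7 := mul_mem u6 i5
  rw [n3_mul q10, n3_mul q9, n3_mul q8, n3_mul q7, n3_mul q6, n3_mul q5, n3_mul q4, n3_mul p3,
    n3_mul p2, n3_mul p1, n3_mul i4, n3_inv t2, n3_inv t4] at c1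
  rw [n3_mul s5, n3_mul s4, n3_mul p3, n3_mul p2, n3_mul p1, n3_mul i4, n3_inv t4] at c2
  rw [n3_mul u7, n3_mul u6, n3_mul u5, n3_mul s4, n3_mul p3, n3_mul p2, n3_mul p1, n3_mul i4,
    n3_inv t4, n3_inv t3, n3_inv t5] at c3
  rw [n3_mul q7, n3_mul q6, n3_mul q5, n3_mul q4, n3_mul p3,
    n3_mul p2, n3_mul p1, n3_mul i4, n3_inv t2, n3_inv t4] at c4
  rw [n3_mul r10, n3_mul q9, n3_mul q8, n3_mul q7, n3_mul q6, n3_mul q5, n3_mul q4, n3_mul p3,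
    n3_mul p2, n3_mul p1, n3_mul i4, n3_inv t2, n3_inv t4] at c5
  have hl := fun i => n3_lin ((κ x1).v i) ((κ x2).v i) ((κ x3).v i) ((κ x4).v i) ((κ x5).v i)
    (congrFun c1 i) (congrFun c2 i) (congrFun c3 i) (congrFun c4 i) (congrFun c5 i)
  have k1 : κ x1 = 1 := n3_ext t1 (one_mem _) (funext fun i => (hl i).1)
  have k2 : κ x2 = 1 := n3_ext t2 (one_mem _) (funext fun i => (hl i).2.1)
  have k3 : κ x3 = 1 := n3_ext t3 (one_mem _) (funext fun i => (hl i).2.2.1)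
  have k4 : κ x4 = 1 := n3_ext t4 (one_mem _) (funext fun i => (hl i).2.2.2.1)
  have k5 : κ x5 = 1 := n3_ext t5 (one_mem _) (funext fun i => (hl i).2.2.2.2)
  have hK := hf5 ((κ.ker.map η).comap (iA al1)) ⟨x1, k1, e1⟩ ⟨x2, k2, e2⟩ ⟨x3, k3, e3⟩
    ⟨x4, k4, e4⟩ ⟨x5, k5, e5⟩ w h0 h1
  obtain ⟨x, hx, hx2⟩ := hK
  exact ⟨x, hx2, hx⟩

end main

theorem p_n3 (hf5 : S_f5) : S_n3 := by
  intro η hη κ hm ht x hx
  obtain ⟨w, n, hw⟩ := GA_cases al1 (η x)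
  have hn : Even n := by
    rw [ht, hw] at hx
    unfold sn at hx
    rw [n3_nA] at hx
    exact n3_even hx
  obtain ⟨l1, l2, -⟩ := hη.lab x w n hw
  obtain ⟨c1, c2⟩ := n3_c x
  have v0 : Even (vec w 0) := n3_ev_of l1 (c1.add c2)
  have v1 : Even (vec w 1) := n3_ev_of l2 c2
  obtain ⟨x1, e1, k1⟩ := n3_main hη hm ht hf5 w v0 v1
  obtain ⟨x0', e0⟩ := n3_ex0 hη
  obtain ⟨m, rfl⟩ := hn
  have h2 : κ x0' * κ x0' = 1 := by
    have hb := n3_t0 ht e0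
    have hb2 := n3_m hm x0'
    apply Q2.ext
    · rw [Q2.mul_t, hb]; simp
    · rw [Q2.mul_m, hb2, one_mul]; rfl
    · rw [Q2.mul_v, hb, hb2]; simp
  have e : η x = η (x1 * x0' ^ (m + m)) := by
    rw [map_mul, map_zpow, e1, e0, hw]
  rw [n3_eq hη hm ht e, map_mul, k1, one_mul, map_zpow, zpow_add,
    ← (Commute.refl (κ x0')).mul_zpow m, h2, one_zpow]

end

end Pool.Agent.F8.PIC
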