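import Pool.Agent.Lib.MP_305fdd_al.F8.PIC.Stm

/-!
# MP_305fdd_al, the Picard group: matching of property P (piece px)
-/

set_option autoImplicit false

namespace Pool.Agent.F8.PIC

open Pool.Agent.MP_305fdd_al Pool.Agent.Lib.MP_305fdd_al Pool.Agent.F2X Pool.Agent.F8
  Pool.Agent.F8.HN Pool.Agent.F8.AB Pool.Agent.F8.D1

private theorem px_one {G H : Type} [Group G] [Group H] (Ψ : NatBij G H) (Q : Type) [Group Q]
    [Finite Q] : Ψ.toFun Q 1 = 1 := by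
  have h := Ψ.nat (1 : Q →* Q) (1 : G →* Q)
  rw [MonoidHom.one_comp, MonoidHom.one_comp] at h
  exact h

theorem p_px (hmt : S_mt) (hmp : S_mp) : S_px := by
  intro Λ _ Φ k _ _ N ⟨ρ, hP, hne⟩
  obtain ⟨Ψ, hΨ⟩ : ∃ Ψ : NatBij GP (LP Φ), ∀ (R : Type) [Group R] [Finite R] (θ : GG →* R),
      Ψ.toFun R (θ.comp GP.subtype) = (Φ.toFun R θ).comp (LP Φ).subtype :=
    natBij_comap Φ (π := r5) (π' := Φ.toFun _ r5) rfl (UP (ZMod 5))
  refine ⟨fun i => Φ.invFun _ (ρ i), fun i => ?_, fun i j hij => ?_⟩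
  · obtain ⟨hirr, Θ, h1, h2, h3⟩ := hP i
    have hΨi : Ψ.toFun _ ((Φ.invFun _ (ρ i)).comp GP.subtype) = (ρ i).comp (LP Φ).subtype := by
      have h := hΨ (SL2 k) (Φ.invFun _ (ρ i))
      rw [Φ.right_inv] at h
      exact h
    obtain ⟨m1, m2, m3, m4⟩ := hmt GP (LP Φ) Ψ k (Ψ.invFun _ Θ)
    rw [Ψ.right_inv] at m1 m2 m3 m4
    have e1 : Q2.mH.comp (Ψ.invFun _ Θ) = (Φ.invFun _ (ρ i)).comp GP.subtype := by
      apply Ψ.injective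
      rw [← m2, h1, hΨi]
    have e2 : Q2.tH.comp (Ψ.invFun _ Θ) = 1 := by
      apply Ψ.injective
      rw [← m1, h2, px_one]
    refine ⟨?_, Ψ.invFun _ Θ, e1, e2, m3.1 h3⟩
    rw [← e1]
    apply m4.1
    rw [h1]
    exact hirr
  · obtain ⟨g, hg⟩ := hne i j hij
    obtain ⟨h5, h6⟩ := hmp GG Λ Φ (SL2 k) (SL2 k) (Φ.invFun _ (ρ i)) (Φ.invFun _ (ρ j))
    rw [Φ.right_inv, Φ.right_inv] at h6
    obtain ⟨g', hg1, hg2⟩ := h6 g
    refine ⟨g', ?_⟩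
    show tr (Φ.invFun _ (ρ i) g') ≠ tr (Φ.invFun _ (ρ j) g')
    rw [← hg1, ← hg2]
    exact hg

end Pool.Agent.F8.PIC
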