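import Pool.Agent.Lib.MP_305fdd_al.F8.PIC.Stm

/-!
# MP_305fdd_al, the Picard group: piece sig

The reductions of the character modulo all `m`.
-/

set_option autoImplicit false

namespace Pool.Agent.F8.PIC

open Pool.Agent.MP_305fdd_al Pool.Agent.Lib.MP_305fdd_al Pool.Agent.F2X Pool.Agent.F8
  Pool.Agent.F8.HN Pool.Agent.F8.AB Pool.Agent.F8.D1
open Pool.Agent.F8.D1.PG (mL TP)
open scoped QuadraticAlgebra

noncomputable section

/-- the statement for one `m` -/
def sig_P {Λ : Type} [Group Λ] (Φ : NatBij GG Λ) (T : Λ → O1) (m : ℕ) [NeZero m] : Prop :=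
  ∃ (e : ZMod m) (he : e * e = 1), ∀ l,
    E1m (Int.castRingHom (ZMod m)) (T l) = sge e he (tr (Φ.toFun _ (rd m) l))

theorem sig_tr {R S : Type} [CommRing R] [CommRing S] (f : R →+* S) (g : SL2 R) :
    tr (SLm f g) = f (tr g) := by
  rw [tr_eq, tr_eq, map_add]
  rfl

theorem sig_E1m_comp {R S U : Type} [CommRing R] [CommRing S] [CommRing U] (f : R →+* S)
    (g : S →+* U) (z : E1 R) : E1m g (E1m f z) = E1m (g.comp f) z := rfl

/-- reduction from `m` to a divisor -/
theorem sig_rd {m a : ℕ} (f : ZMod m →+* ZMod a) : (SLm (E1m f)).comp (rd m) = rd a := by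
  have h : f.comp (Int.castRingHom (ZMod m)) = Int.castRingHom (ZMod a) := Subsingleton.elim _ _
  ext g i j
  · show (E1m f (E1m (Int.castRingHom (ZMod m)) (g.val i j))).re =
      (E1m (Int.castRingHom (ZMod a)) (g.val i j)).re
    rw [sig_E1m_comp, h]
  · show (E1m f (E1m (Int.castRingHom (ZMod m)) (g.val i j))).im =
      (E1m (Int.castRingHom (ZMod a)) (g.val i j)).im
    rw [sig_E1m_comp, h]

theorem sig_red {Λ : Type} [Group Λ] (Φ : NatBij GG Λ) {m a : ℕ} [NeZero m] [NeZero a]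
    (f : ZMod m →+* ZMod a) (l : Λ) :
    E1m f (tr (Φ.toFun _ (rd m) l)) = tr (Φ.toFun _ (rd a) l) := by
  rw [← sig_rd f, Φ.nat]
  exact (sig_tr _ _).symm

theorem sig_T {m a : ℕ} (f : ZMod m →+* ZMod a) (z : O1) :
    E1m f (E1m (Int.castRingHom (ZMod m)) z) = E1m (Int.castRingHom (ZMod a)) z := by
  have h : f.comp (Int.castRingHom (ZMod m)) = Int.castRingHom (ZMod a) := Subsingleton.elim _ _
  rw [sig_E1m_comp, h]

/-- prime powers -/
theorem sig_pow {Λ : Type} [Group Λ] {Φ : NatBij GG Λ} {T : Λ → O1}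
    {s : Λ →* SL2 (AlgebraicClosure ℚ)} {w : AlgebraicClosure ℚ} {hw : w * w = -1}
    (h : OutP Φ T s w hw) (p : ℕ) [Fact p.Prime] (k : ℕ) : sig_P Φ T (p ^ k) := by
  obtain ⟨c, -, hc⟩ := h.red p
  cases c with
  | false =>
    refine ⟨1, one_mul 1, fun l => ?_⟩
    have h1 := hc k l
    simp only [Bool.false_eq_true, if_false] at h1
    rw [← h1, sge_apply]
    apply QuadraticAlgebra.ext
    · rfl
    · exact (one_mul _).symm
  | true =>
    refine ⟨-1, by ring, fun l => ?_⟩
    have h1 := hc k l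
    simp only [if_true] at h1
    rw [← h1, sge_apply, cj_apply, E1m_apply, E1m_apply]
    apply QuadraticAlgebra.ext
    · rfl
    · simp

/-- coprime products -/
theorem sig_mul {Λ : Type} [Group Λ] (Φ : NatBij GG Λ) (T : Λ → O1) (a b : ℕ) [NeZero a] [NeZero b]
    [NeZero (a * b)] (hab : a.Coprime b) (ha : sig_P Φ T a) (hb : sig_P Φ T b) :
    sig_P Φ T (a * b) := by
  obtain ⟨ea, hea, h1⟩ := ha
  obtain ⟨eb, heb, h2⟩ := hb
  let χ : ZMod (a * b) ≃+* ZMod a × ZMod b := ZMod.chineseRemainder hab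
  let fa : ZMod (a * b) →+* ZMod a := (RingHom.fst _ _).comp χ.toRingHom
  let fb : ZMod (a * b) →+* ZMod b := (RingHom.snd _ _).comp χ.toRingHom
  have hx : ∀ x y : ZMod (a * b), fa x = fa y → fb x = fb y → x = y := by
    intro x y k1 k2
    apply χ.injective
    exact Prod.ext k1 k2
  have he1 : fa (χ.symm (ea, eb)) = ea := congrArg Prod.fst (χ.apply_symm_apply (ea, eb))
  have he2 : fb (χ.symm (ea, eb)) = eb := congrArg Prod.snd (χ.apply_symm_apply (ea, eb))
  have he : χ.symm (ea, eb) * χ.symm (ea, eb) = 1 := by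
    apply hx
    · rw [map_mul, map_one, he1, hea]
    · rw [map_mul, map_one, he2, heb]
  refine ⟨χ.symm (ea, eb), he, fun l => ?_⟩
  have k1 := h1 l
  have k2 := h2 l
  rw [← sig_red Φ fa l, ← sig_T fa] at k1
  rw [← sig_red Φ fb l, ← sig_T fb] at k2
  rw [sge_apply] at k1 k2 ⊢
  apply QuadraticAlgebra.ext
  · apply hx
    · exact congrArg QuadraticAlgebra.re k1
    · exact congrArg QuadraticAlgebra.re k2
  · apply hx
    · show _ = fa (χ.symm (ea, eb) * _)
      rw [map_mul, he1]
      exact congrArg QuadraticAlgebra.im k1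
    · show _ = fb (χ.symm (ea, eb) * _)
      rw [map_mul, he2]
      exact congrArg QuadraticAlgebra.im k2

/-- piece sig -/
theorem p_sig : S_sig := by
  intro Λ _ Φ T s w hw h m hm
  suffices H : ∀ n : ℕ, ∀ [NeZero n], sig_P Φ T n from H m
  intro n
  induction n using Nat.recOnPosPrimePosCoprime with
  | prime_pow p n hp hn =>
    intro _
    have : Fact p.Prime := ⟨hp⟩
    exact sig_pow h p n
  | zero =>
    intro h0
    exact absurd rfl h0.out
  | one =>
    intro _
    have : Fact (Nat.Prime 2) := ⟨Nat.prime_two⟩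
    have h3 := sig_pow h 2 0
    exact h3
  | coprime a b ha hb hab iha ihb =>
    intro _
    have : NeZero a := ⟨by omega⟩
    have : NeZero b := ⟨by omega⟩
    exact sig_mul Φ T a b hab iha ihb

end

end Pool.Agent.F8.PIC
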