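import Pool.Agent.Lib.MP_305fdd_al.F8.PIC.Stm

/-!
# MP_305fdd_al, the Picard group: piece tab, the coset table of `Γ₁(2 + i)`
-/

set_option autoImplicit false

namespace Pool.Agent.F8.PIC

open Pool.Agent.MP_305fdd_al Pool.Agent.Lib.MP_305fdd_al Pool.Agent.F2X Pool.Agent.F8
  Pool.Agent.F8.HN Pool.Agent.F8.AB Pool.Agent.F8.D1
open Pool.Agent.F8.D1.PG (mL)
open scoped QuadraticAlgebra

/-! ### The model of `Q2 O1` -/

/-- the model: the entries of the matrix and the translation -/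
abbrev tab_Md : Type := (O1 × O1 × O1 × O1) × O1 × O1

/-- the entries -/
def tab_md (x : Q2 O1) : tab_Md := (PG.o4 x.m, x.v 0, x.v 1)

/-- the multiplication -/
def tab_mul (x y : tab_Md) : tab_Md :=
  (PG.omul x.1 y.1,
    PG.gadd x.2.1 (PG.gadd (PG.gmul x.1.1 y.2.1) (PG.gmul x.1.2.1 y.2.2)),
    PG.gadd x.2.2 (PG.gadd (PG.gmul x.1.2.2.1 y.2.1) (PG.gmul x.1.2.2.2 y.2.2)))

theorem tab_md_mul (x y : Q2 O1) (hx : x.t = 1) :
    tab_md (x * y) = tab_mul (tab_md x) (tab_md y) := by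
  have e : ∀ i : Fin 2, (x * y).v i = x.v i + (x.m.val i 0 * y.v 0 + x.m.val i 1 * y.v 1) := by
    intro i
    rw [Q2.mul_v, hx]
    simp only [Units.val_one, one_smul, Pi.add_apply, Matrix.mulVec, dotProduct,
      Fin.sum_univ_two]
  unfold tab_md tab_mul
  refine Prod.ext ?_ (Prod.ext ?_ ?_)
  · exact PG.o4_mul x.m y.m
  · show (x * y).v 0 = PG.gadd (x.v 0) (PG.gadd (PG.gmul (x.m.val 0 0) (y.v 0))
      (PG.gmul (x.m.val 0 1) (y.v 1)))
    rw [e, PG.gadd_eq, PG.gadd_eq, PG.gmul_eq, PG.gmul_eq]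
  · show (x * y).v 1 = PG.gadd (x.v 1) (PG.gadd (PG.gmul (x.m.val 1 0) (y.v 0))
      (PG.gmul (x.m.val 1 1) (y.v 1)))
    rw [e, PG.gadd_eq, PG.gadd_eq, PG.gmul_eq, PG.gmul_eq]

theorem tab_md_inj {x y : Q2 O1} (hx : x.t = 1) (hy : y.t = 1) (h : tab_md x = tab_md y) :
    x = y := by
  apply Q2.ext
  · rw [hx, hy]
  · exact PG.o4_inj (congrArg Prod.fst h)
  · funext i
    fin_cases i
    · exact congrArg (fun z : tab_Md => z.2.1) h
    · exact congrArg (fun z : tab_Md => z.2.2) h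

/-- letters: the three generators and their inverses -/
inductive tab_Lt
  | t | t' | u | u' | y | y'
  deriving DecidableEq

/-- the value of `t` -/
def tab_T : Q2 O1 := ⟨1, tt, 0⟩
/-- the value of `u` -/
def tab_U : Q2 O1 := ⟨1, uu, ![⟨-1, 2⟩, 0]⟩
/-- the value of `y` -/
def tab_Y : Q2 O1 := ⟨1, yy, ![⟨1, 1⟩, 0]⟩
/-- the inverse of `t` -/
def tab_T' : Q2 O1 := ⟨1, mx 1 ⟨-1, 0⟩ 0 1 (by decide), 0⟩
/-- the inverse of `u` -/
def tab_U' : Q2 O1 := ⟨1, mx 1 ⟨0, -1⟩ 0 1 (by decide), ![⟨1, -2⟩, 0]⟩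
/-- the inverse of `y` -/
def tab_Y' : Q2 O1 := ⟨1, mx 1 0 ⟨2, 1⟩ 1 (by decide), ![⟨-1, -1⟩, ⟨-1, -3⟩]⟩

/-- the value of a letter -/
def tab_val : tab_Lt → Q2 O1
  | .t => tab_T | .t' => tab_T' | .u => tab_U | .u' => tab_U' | .y => tab_Y | .y' => tab_Y'

/-- the entries of a letter -/
def tab_lm : tab_Lt → tab_Md
  | .t => ((⟨1, 0⟩, ⟨1, 0⟩, ⟨0, 0⟩, ⟨1, 0⟩), ⟨0, 0⟩, ⟨0, 0⟩)
  | .t' => ((⟨1, 0⟩, ⟨-1, 0⟩, ⟨0, 0⟩, ⟨1, 0⟩), ⟨0, 0⟩, ⟨0, 0⟩)
  | .u => ((⟨1, 0⟩, ⟨0, 1⟩, ⟨0, 0⟩, ⟨1, 0⟩), ⟨-1, 2⟩, ⟨0, 0⟩)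
  | .u' => ((⟨1, 0⟩, ⟨0, -1⟩, ⟨0, 0⟩, ⟨1, 0⟩), ⟨1, -2⟩, ⟨0, 0⟩)
  | .y => ((⟨1, 0⟩, ⟨0, 0⟩, ⟨-2, -1⟩, ⟨1, 0⟩), ⟨1, 1⟩, ⟨0, 0⟩)
  | .y' => ((⟨1, 0⟩, ⟨0, 0⟩, ⟨2, 1⟩, ⟨1, 0⟩), ⟨-1, -1⟩, ⟨-1, -3⟩)

/-- the entries of `1` -/
def tab_one : tab_Md := ((⟨1, 0⟩, ⟨0, 0⟩, ⟨0, 0⟩, ⟨1, 0⟩), ⟨0, 0⟩, ⟨0, 0⟩)

theorem tab_md_one : tab_md 1 = tab_one := by
  unfold tab_md
  rw [Q2.one_m, mx_one]
  show ((1, 0, 0, 1), 0, 0) = tab_one
  decide +kernel

theorem tab_lm_eq (x : tab_Lt) : tab_md (tab_val x) = tab_lm x := by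
  cases x <;> decide +kernel

theorem tab_val_t (x : tab_Lt) : (tab_val x).t = 1 := by cases x <;> rfl

/-- the inverse letter -/
def tab_il : tab_Lt → tab_Lt
  | .t => .t' | .t' => .t | .u => .u' | .u' => .u | .y => .y' | .y' => .y

theorem tab_il_val (x : tab_Lt) : tab_val (tab_il x) = (tab_val x)⁻¹ := by
  symm
  apply inv_eq_of_mul_eq_one_left
  apply tab_md_inj
  · rw [Q2.mul_t, tab_val_t, tab_val_t, mul_one]
  · rfl
  · rw [tab_md_mul _ _ (tab_val_t _), tab_lm_eq, tab_lm_eq, tab_md_one]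
    cases x <;> decide +kernel

/-- the value of a word -/
def tab_wv : List tab_Lt → Q2 O1
  | [] => 1
  | x :: l => tab_val x * tab_wv l

/-- the entries of a word -/
def tab_wm : List tab_Lt → tab_Md
  | [] => tab_one
  | x :: l => tab_mul (tab_lm x) (tab_wm l)

theorem tab_wm_eq (l : List tab_Lt) : tab_md (tab_wv l) = tab_wm l := by
  induction l with
  | nil => exact tab_md_one
  | cons x l ih =>
    show tab_md (tab_val x * tab_wv l) = tab_mul (tab_lm x) (tab_wm l)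
    rw [tab_md_mul _ _ (tab_val_t x), ih, tab_lm_eq]

theorem tab_wv_t (l : List tab_Lt) : (tab_wv l).t = 1 := by
  induction l with
  | nil => rfl
  | cons x l ih =>
    show (tab_val x * tab_wv l).t = 1
    rw [Q2.mul_t, ih, tab_val_t, mul_one]

theorem tab_wv_append (l l' : List tab_Lt) : tab_wv (l ++ l') = tab_wv l * tab_wv l' := by
  induction l with
  | nil => exact (one_mul _).symm
  | cons x l ih =>
    show tab_val x * tab_wv (l ++ l') = tab_val x * tab_wv l * tab_wv l'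
    rw [ih, mul_assoc]

/-- the inverse word -/
def tab_wi (l : List tab_Lt) : List tab_Lt := (l.map tab_il).reverse

theorem tab_wv_wi (l : List tab_Lt) : tab_wv (tab_wi l) = (tab_wv l)⁻¹ := by
  induction l with
  | nil => exact inv_one.symm
  | cons x l ih =>
    have e : tab_wi (x :: l) = tab_wi l ++ [tab_il x] := by
      unfold tab_wi
      rw [List.map_cons, List.reverse_cons]
    rw [e, tab_wv_append, ih]
    show _ * (tab_val (tab_il x) * 1) = (tab_val x * tab_wv l)⁻¹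
    rw [mul_one, tab_il_val, mul_inv_rev]

/-- the subgroup generated by the three values -/
def tab_C : Subgroup (Q2 O1) := Subgroup.closure {tab_T, tab_U, tab_Y}

theorem tab_T_mem : tab_T ∈ tab_C := Subgroup.subset_closure (Or.inl rfl)
theorem tab_U_mem : tab_U ∈ tab_C := Subgroup.subset_closure (Or.inr (Or.inl rfl))
theorem tab_Y_mem : tab_Y ∈ tab_C := Subgroup.subset_closure (Or.inr (Or.inr rfl))

theorem tab_wv_mem (l : List tab_Lt) : tab_wv l ∈ tab_C := by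
  induction l with
  | nil => exact tab_C.one_mem
  | cons x l ih =>
    refine tab_C.mul_mem ?_ ih
    cases x with
    | t => exact tab_T_mem
    | u => exact tab_U_mem
    | y => exact tab_Y_mem
    | t' =>
      have := tab_il_val .t
      rw [show tab_val .t' = (tab_val .t)⁻¹ from this]
      exact tab_C.inv_mem tab_T_mem
    | u' =>
      have := tab_il_val .u
      rw [show tab_val .u' = (tab_val .u)⁻¹ from this]
      exact tab_C.inv_mem tab_U_mem
    | y' =>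
      have := tab_il_val .y
      rw [show tab_val .y' = (tab_val .y)⁻¹ from this]
      exact tab_C.inv_mem tab_Y_mem

theorem tab_C_le (H : Subgroup (Q2 O1)) (h1 : tab_T ∈ H) (h2 : tab_U ∈ H) (h3 : tab_Y ∈ H) :
    tab_C ≤ H := by
  apply (Subgroup.closure_le H).2
  rintro x (rfl | rfl | rfl)
  · exact h1
  · exact h2
  · exact h3

theorem tab_C_t {x : Q2 O1} (hx : x ∈ tab_C) : x.t = 1 := by
  have h : tab_C ≤ (Q2.tH (R := O1)).ker := tab_C_le _ rfl rfl rfl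
  exact h hx

/-! ### The table -/

/-- the generators of `SL₂(O1)` and inverses -/
inductive tab_Gn
  | A | A' | U | U' | B | L
  deriving DecidableEq

/-- the permutation of `A` -/
def tab_pA : List (Fin 12) := [0, 3, 2, 6, 1, 4, 5, 9, 7, 11, 8, 10]
/-- its inverse -/
def tab_qA : List (Fin 12) := [0, 4, 2, 1, 5, 6, 3, 8, 10, 7, 11, 9]
/-- the permutation of `U` -/
def tab_pU : List (Fin 12) := [0, 5, 2, 4, 6, 3, 1, 10, 11, 8, 9, 7]
/-- its inverse -/
def tab_qU : List (Fin 12) := [0, 6, 2, 5, 3, 1, 4, 11, 9, 10, 7, 8]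
/-- the permutation of `B` -/
def tab_pB : List (Fin 12) := [1, 0, 7, 4, 3, 10, 11, 2, 9, 8, 5, 6]
/-- the permutation of `L` -/
def tab_pL : List (Fin 12) := [2, 7, 0, 8, 9, 11, 10, 1, 3, 4, 6, 5]

/-- the coefficients of `A` -/
def tab_kA : List (List tab_Lt) :=
  [[.t], [], [.t'], [.y], [], [.y], [.u', .y, .t, .y, .u'], [], [], [.y'], [.y', .u],
    [.y', .t', .y', .u]]

/-- the coefficients of `U` -/
def tab_kU : List (List tab_Lt) :=
  [[.u], [], [.u'], [.y], [.u, .y', .t', .y', .u], [.u, .y', .t', .y', .u], [], [.u'],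
    [.u', .y, .t, .y, .u'], [.y'], [.u', .y, .t, .y], []]

/-- the coefficients of `B` -/
def tab_kB : List (List tab_Lt) := [[], [], [], [.t'], [.t], [], [.u'], [], [.t'], [.t], [], [.u]]

/-- the coefficients of `L` -/
def tab_kL : List (List tab_Lt) := [[], [], [], [], [], [], [.u'], [], [], [], [.u], []]

/-- reading a table -/
def tab_rp (l : List (Fin 12)) (i : Fin 12) : Fin 12 := l.getD i.val 0
/-- reading a table -/
def tab_rk (l : List (List tab_Lt)) (i : Fin 12) : List tab_Lt := l.getD i.val []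

/-- the permutations -/
def tab_sg : tab_Gn → Fin 12 → Fin 12
  | .A => tab_rp tab_pA | .A' => tab_rp tab_qA | .U => tab_rp tab_pU | .U' => tab_rp tab_qU
  | .B => tab_rp tab_pB | .L => tab_rp tab_pL

/-- the inverse permutations -/
def tab_si : tab_Gn → Fin 12 → Fin 12
  | .A => tab_rp tab_qA | .A' => tab_rp tab_pA | .U => tab_rp tab_qU | .U' => tab_rp tab_pU
  | .B => tab_rp tab_pB | .L => tab_rp tab_pL

/-- the coefficients -/
def tab_cg : tab_Gn → Fin 12 → List tab_Lt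
  | .A => tab_rk tab_kA
  | .A' => fun i => tab_wi (tab_rk tab_kA (tab_rp tab_qA i))
  | .U => tab_rk tab_kU
  | .U' => fun i => tab_wi (tab_rk tab_kU (tab_rp tab_qU i))
  | .B => tab_rk tab_kB
  | .L => tab_rk tab_kL

theorem tab_s1 : ∀ (x : tab_Gn) (i : Fin 12), tab_si x (tab_sg x i) = i := by
  intro x; cases x <;> decide +kernel
theorem tab_s2 : ∀ (x : tab_Gn) (i : Fin 12), tab_sg x (tab_si x i) = i := by
  intro x; cases x <;> decide +kernel

/-- the action of a word -/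
def tab_act : List tab_Gn → Fin 12 → Fin 12 × List tab_Lt
  | [], i => (i, [])
  | x :: w, i => (tab_sg x (tab_act w i).1, tab_cg x (tab_act w i).1 ++ (tab_act w i).2)

/-- the permutation of a generator -/
def tab_pg (x : tab_Gn) : Equiv.Perm (Fin 12 × Q2 O1) where
  toFun p := (tab_sg x p.1, tab_wv (tab_cg x p.1) * p.2)
  invFun p := (tab_si x p.1, (tab_wv (tab_cg x (tab_si x p.1)))⁻¹ * p.2)
  left_inv p := by
    obtain ⟨i, y⟩ := p
    simp only [tab_s1, inv_mul_cancel_left]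
  right_inv p := by
    obtain ⟨i, y⟩ := p
    simp only [tab_s2, mul_inv_cancel_left]

theorem tab_pg_apply (x : tab_Gn) (i : Fin 12) (y : Q2 O1) :
    tab_pg x (i, y) = (tab_sg x i, tab_wv (tab_cg x i) * y) := rfl

/-- the permutation of a word -/
def tab_pw : List tab_Gn → Equiv.Perm (Fin 12 × Q2 O1)
  | [] => 1
  | x :: w => tab_pg x * tab_pw w

theorem tab_pw_apply (w : List tab_Gn) (i : Fin 12) (y : Q2 O1) :
    tab_pw w (i, y) = ((tab_act w i).1, tab_wv (tab_act w i).2 * y) := by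
  induction w with
  | nil => show (i, y) = (i, 1 * y); rw [one_mul]
  | cons x w ih =>
    show tab_pg x (tab_pw w (i, y)) =
      (tab_sg x (tab_act w i).1, tab_wv (tab_cg x (tab_act w i).1 ++ (tab_act w i).2) * y)
    rw [ih, tab_pg_apply, tab_wv_append, mul_assoc]

/-- two words with the same action -/
def tab_same (w w' : List tab_Gn) : Prop :=
  ∀ i, (tab_act w i).1 = (tab_act w' i).1 ∧ tab_wm (tab_act w i).2 = tab_wm (tab_act w' i).2

instance (w w' : List tab_Gn) : Decidable (tab_same w w') := by unfold tab_same; infer_instance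

theorem tab_pw_eq {w w' : List tab_Gn} (hw : tab_same w w') : tab_pw w = tab_pw w' := by
  apply Equiv.ext
  rintro ⟨i, y⟩
  rw [tab_pw_apply, tab_pw_apply, (hw i).1]
  have h := (hw i).2
  rw [← tab_wm_eq, ← tab_wm_eq] at h
  rw [tab_md_inj (tab_wv_t _) (tab_wv_t _) h]

theorem tab_same1 : tab_same [.A, .U] [.U, .A] := by decide +kernel
theorem tab_same2 : tab_same [.B, .B] [] := by decide +kernel
theorem tab_same3 : tab_same [.L, .L] [] := by decide +kernel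
theorem tab_same4 : tab_same [.A, .B, .A, .B, .A, .B] [] := by decide +kernel
theorem tab_same5 : tab_same [.L, .A, .L] [.A'] := by decide +kernel
theorem tab_same6 : tab_same [.L, .U, .L] [.U'] := by decide +kernel
theorem tab_same7 : tab_same [.B, .L, .B] [.L] := by decide +kernel
theorem tab_same8 : tab_same [.U, .L, .B, .U, .L, .B, .U, .L, .B] [] := by decide +kernel
theorem tab_same9 : tab_same [.A', .A] [] := by decide +kernel
theorem tab_same10 : tab_same [.U', .U] [] := by decide +kernel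

theorem tab_A' : tab_pg .A' = (tab_pg .A)⁻¹ := by
  symm
  apply inv_eq_of_mul_eq_one_left
  have := tab_pw_eq tab_same9
  simpa only [tab_pw, mul_one] using this

theorem tab_U'' : tab_pg .U' = (tab_pg .U)⁻¹ := by
  symm
  apply inv_eq_of_mul_eq_one_left
  have := tab_pw_eq tab_same10
  simpa only [tab_pw, mul_one] using this

theorem tab_rel : PG.Rel (Equiv.Perm (Fin 12 × Q2 O1)) (tab_pg .A) (tab_pg .U) (tab_pg .B)
    (tab_pg .L) where
  c1 := tab_pw_eq tab_same1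
  c2 := tab_pw_eq tab_same2
  c3 := tab_pw_eq tab_same3
  c4 := by
    have := tab_pw_eq tab_same4
    simp only [tab_pw, mul_one, ← mul_assoc] at this
    exact this
  c5 := by
    have := tab_pw_eq tab_same5
    simp only [tab_pw, mul_one, ← mul_assoc] at this
    rw [tab_A'] at this
    exact this
  c6 := by
    have := tab_pw_eq tab_same6
    simp only [tab_pw, mul_one, ← mul_assoc] at this
    rw [tab_U''] at this
    exact this
  c7 := by
    have := tab_pw_eq tab_same7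
    simp only [tab_pw, mul_one, ← mul_assoc] at this
    exact this
  c8 := by
    have := tab_pw_eq tab_same8
    simp only [tab_pw, mul_one, ← mul_assoc] at this
    exact this

/-! ### The representatives -/

/-- the matrices of the generators -/
def tab_gm : tab_Gn → GG
  | .A => mU 1 | .A' => (mU 1)⁻¹ | .U => mU ⟨0, 1⟩ | .U' => (mU ⟨0, 1⟩)⁻¹ | .B => mB O1 | .L => mL

/-- the matrix of a word -/
def tab_gw : List tab_Gn → GG
  | [] => 1
  | x :: l => tab_gm x * tab_gw l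

/-- the entries of the matrices of the generators -/
def tab_go : tab_Gn → O1 × O1 × O1 × O1
  | .A => (⟨1, 0⟩, ⟨1, 0⟩, ⟨0, 0⟩, ⟨1, 0⟩)
  | .A' => (⟨1, 0⟩, ⟨-1, 0⟩, ⟨0, 0⟩, ⟨1, 0⟩)
  | .U => (⟨1, 0⟩, ⟨0, 1⟩, ⟨0, 0⟩, ⟨1, 0⟩)
  | .U' => (⟨1, 0⟩, ⟨0, -1⟩, ⟨0, 0⟩, ⟨1, 0⟩)
  | .B => (⟨0, 0⟩, ⟨-1, 0⟩, ⟨1, 0⟩, ⟨0, 0⟩)
  | .L => (⟨0, 1⟩, ⟨0, 0⟩, ⟨0, 0⟩, ⟨0, -1⟩)

theorem tab_go_eq (x : tab_Gn) : PG.o4 (tab_gm x) = tab_go x := by
  have hinv : ∀ x : O1, (mU x)⁻¹ = mU (-x) := by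
    intro x
    apply inv_eq_of_mul_eq_one_left
    rw [← G.mU_add, neg_add_cancel, G.mU_zero]
  cases x with
  | A => show PG.o4 (mU 1) = _; decide +kernel
  | A' => show PG.o4 (mU 1)⁻¹ = _; rw [hinv]; decide +kernel
  | U => show PG.o4 (mU ⟨0, 1⟩) = _; decide +kernel
  | U' => show PG.o4 (mU ⟨0, 1⟩)⁻¹ = _; rw [hinv]; decide +kernel
  | B => show PG.o4 (mB O1) = _; decide +kernel
  | L => show PG.o4 mL = _; decide +kernel

/-- the entries of the matrix of a word -/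
def tab_ow : List tab_Gn → O1 × O1 × O1 × O1
  | [] => (⟨1, 0⟩, ⟨0, 0⟩, ⟨0, 0⟩, ⟨1, 0⟩)
  | x :: l => PG.omul (tab_go x) (tab_ow l)

theorem tab_ow_eq (l : List tab_Gn) : PG.o4 (tab_gw l) = tab_ow l := by
  induction l with
  | nil =>
    show PG.o4 (1 : SL2 O1) = _
    rw [mx_one]
    decide +kernel
  | cons x l ih =>
    show PG.o4 (tab_gm x * tab_gw l) = PG.omul (tab_go x) (tab_ow l)
    rw [PG.o4_mul, ih, tab_go_eq]

/-- the words of the representatives -/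
def tab_rw0 : List (List tab_Gn) :=
  [[], [.B], [.L], [.A, .B], [.A', .B], [.U, .B], [.U', .B], [.L, .B], [.L, .A, .B],
    [.L, .A', .B], [.B, .U, .B], [.L, .U, .B]]

/-- the words of the representatives -/
def tab_rwd (i : Fin 12) : List tab_Gn := tab_rw0.getD i.val []

/-- the representatives of the cosets -/
def tab_rr (i : Fin 12) : GG := tab_gw (tab_rwd i)

theorem tab_rr_zero : tab_rr 0 = 1 := rfl

/-- the verification of an entry of the table -/
def tab_chk (x : tab_Gn) (i : Fin 12) : Prop :=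
  PG.omul (tab_go x) (tab_ow (tab_rwd i)) =
      PG.omul (tab_ow (tab_rwd (tab_sg x i))) (tab_wm (tab_cg x i)).1 ∨
    PG.omul (tab_go x) (tab_ow (tab_rwd i)) =
      PG.oneg (PG.omul (tab_ow (tab_rwd (tab_sg x i))) (tab_wm (tab_cg x i)).1)

instance (x : tab_Gn) (i : Fin 12) : Decidable (tab_chk x i) := by
  unfold tab_chk; infer_instance

theorem tab_chkA : ∀ i, tab_chk .A i := by decide +kernel
theorem tab_chkU : ∀ i, tab_chk .U i := by decide +kernel
theorem tab_chkB : ∀ i, tab_chk .B i := by decide +kernel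
theorem tab_chkL : ∀ i, tab_chk .L i := by decide +kernel

theorem tab_entry {x : tab_Gn} {i : Fin 12} (h : tab_chk x i) :
    pj O1 (tab_gm x * tab_rr i) = pj O1 (tab_rr (tab_sg x i) * (tab_wv (tab_cg x i)).m) := by
  have e : (tab_wm (tab_cg x i)).1 = PG.o4 (tab_wv (tab_cg x i)).m := by
    rw [← tab_wm_eq]
    rfl
  unfold tab_chk at h
  rw [e, ← tab_go_eq, ← tab_ow_eq, ← tab_ow_eq, ← PG.o4_mul, ← PG.o4_mul, ← PG.o4_neg] at h
  rcases h with h | h
  · rw [show tab_gm x * tab_rr i = tab_rr (tab_sg x i) * (tab_wv (tab_cg x i)).m from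
      PG.o4_inj h]
  · rw [show tab_gm x * tab_rr i = -(tab_rr (tab_sg x i) * (tab_wv (tab_cg x i)).m) from
      PG.o4_inj h, pj_neg]

/-- the value of a pair -/
def tab_V (p : Fin 12 × Q2 O1) : GG ⧸ pm O1 := pj O1 (tab_rr p.1 * p.2.m)

/-- right multiplication -/
def tab_rt (z : Q2 O1) (p : Fin 12 × Q2 O1) : Fin 12 × Q2 O1 := (p.1, p.2 * z)

/-- the subgroup of the elements for which the table is compatible with `V` and `rt` -/
def tab_TT (f : GG →* Equiv.Perm (Fin 12 × Q2 O1)) : Subgroup GG where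
  carrier := {g | (∀ p, pj O1 g * tab_V p = tab_V (f g p)) ∧
    (∀ z p, f g (tab_rt z p) = tab_rt z (f g p)) ∧ ∀ i, (f g (i, 1)).2 ∈ tab_C}
  one_mem' := ⟨fun p => by rw [map_one, map_one, one_mul]; rfl,
    fun z p => by rw [map_one]; rfl, fun i => by rw [map_one]; exact tab_C.one_mem⟩
  mul_mem' := by
    rintro g h ⟨g1, g2, g3⟩ ⟨h1, h2, h3⟩
    refine ⟨fun p => ?_, fun z p => ?_, fun i => ?_⟩
    · rw [map_mul, mul_assoc, h1, g1, map_mul]; rfl
    · rw [map_mul, Equiv.Perm.mul_apply, Equiv.Perm.mul_apply, h2, g2]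
    · rw [map_mul, Equiv.Perm.mul_apply]
      obtain ⟨q, hq⟩ : ∃ q, q = f h (i, 1) := ⟨_, rfl⟩
      have e : f h (i, 1) = tab_rt (f h (i, 1)).2 ((f h (i, 1)).1, 1) := by
        rw [← hq]
        unfold tab_rt
        rw [one_mul]
      rw [e, g2]
      exact tab_C.mul_mem (g3 _) (h3 i)
  inv_mem' := by
    rintro g ⟨g1, g2, g3⟩
    have hi : ∀ p, f g (f g⁻¹ p) = p := by
      intro p
      rw [← Equiv.Perm.mul_apply, ← map_mul, mul_inv_cancel, map_one]; rfl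
    refine ⟨fun p => ?_, fun z p => ?_, fun i => ?_⟩
    · have := g1 (f g⁻¹ p)
      rw [hi] at this
      rw [← this, map_inv, inv_mul_cancel_left]
    · apply (f g).injective
      rw [hi, g2, hi]
    · obtain ⟨q, hq⟩ : ∃ q, q = f g⁻¹ (i, 1) := ⟨_, rfl⟩
      have h1 := hi (i, 1)
      rw [← hq] at h1 ⊢
      have e : q = tab_rt q.2 (q.1, 1) := by
        unfold tab_rt
        rw [one_mul]
      rw [e, g2] at h1
      have h2 : (f g (q.1, 1)).2 * q.2 = 1 := congrArg Prod.snd h1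
      rw [← inv_eq_of_mul_eq_one_right h2]
      exact tab_C.inv_mem (g3 _)

/-- the homomorphism given by the table -/
structure tab_IsT (f : GG →* Equiv.Perm (Fin 12 × Q2 O1)) : Prop where
  fA : f (mU 1) = tab_pg .A
  fU : f (mU ⟨0, 1⟩) = tab_pg .U
  fB : f (mB O1) = tab_pg .B
  fL : f mL = tab_pg .L

theorem tab_exT : ∃ f, tab_IsT f := by
  obtain ⟨f, fU, fB, fL⟩ := PG.pres tab_rel
  refine ⟨f, ?_, ?_, fB, fL⟩
  · rw [fU]
    unfold PG.ee
    rw [QuadraticAlgebra.re_one, QuadraticAlgebra.im_one, zpow_one, zpow_zero, mul_one]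
  · rw [fU]
    show tab_pg .A ^ (0 : ℤ) * tab_pg .U ^ (1 : ℤ) = _
    rw [zpow_zero, one_mul, zpow_one]

variable {f : GG →* Equiv.Perm (Fin 12 × Q2 O1)}

theorem tab_IsT.gm (hf : tab_IsT f) (x : tab_Gn) : f (tab_gm x) = tab_pg x := by
  cases x with
  | A => exact hf.fA
  | A' => show f (mU 1)⁻¹ = _; rw [map_inv, hf.fA, tab_A']
  | U => exact hf.fU
  | U' => show f (mU ⟨0, 1⟩)⁻¹ = _; rw [map_inv, hf.fU, tab_U'']
  | B => exact hf.fB
  | L => exact hf.fL

theorem tab_IsT.gw (hf : tab_IsT f) (w : List tab_Gn) : f (tab_gw w) = tab_pw w := by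
  induction w with
  | nil => exact map_one f
  | cons x w ih =>
    show f (tab_gm x * tab_gw w) = tab_pg x * tab_pw w
    rw [map_mul, ih, hf.gm]

theorem tab_gen (hf : tab_IsT f) (x : tab_Gn) (hx : ∀ i, tab_chk x i) :
    tab_gm x ∈ tab_TT f := by
  refine ⟨?_, ?_, ?_⟩
  · rintro ⟨i, y⟩
    rw [hf.gm, tab_pg_apply]
    show pj O1 (tab_gm x) * pj O1 (tab_rr i * y.m) =
      pj O1 (tab_rr (tab_sg x i) * ((tab_wv (tab_cg x i)).m * y.m))
    rw [← mul_assoc (tab_rr (tab_sg x i)),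
      map_mul (pj O1) (tab_rr (tab_sg x i) * (tab_wv (tab_cg x i)).m) y.m, ← tab_entry (hx i),
      ← map_mul (pj O1) (tab_gm x) (tab_rr i * y.m),
      ← map_mul (pj O1) (tab_gm x * tab_rr i) y.m, mul_assoc]
  · rintro z ⟨i, y⟩
    rw [hf.gm]
    show tab_pg x (i, y * z) = tab_rt z (tab_pg x (i, y))
    rw [tab_pg_apply, tab_pg_apply]
    show _ = (tab_sg x i, tab_wv (tab_cg x i) * y * z)
    rw [mul_assoc]
  · intro i
    rw [hf.gm, tab_pg_apply]
    show tab_wv (tab_cg x i) * 1 ∈ tab_C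
    rw [mul_one]
    exact tab_wv_mem _

theorem tab_IsT.tt (hf : tab_IsT f) (g : GG) : g ∈ tab_TT f := PG.SL_sub (tab_TT f)
  (tab_gen hf .A tab_chkA) (tab_gen hf .U tab_chkU) (tab_gen hf .B tab_chkB)
  (tab_gen hf .L tab_chkL) g

/-! ### The group `Γ₁(2 + i)` -/

/-- the value modulo `2 + i` -/
def tab_e5 (z : O1) : ZMod 5 := (z.re : ZMod 5) + (z.im : ZMod 5) * 3

/-- upper unipotent modulo `2 + i` -/
def tab_up (m : O1 × O1 × O1 × O1) : Prop :=
  tab_e5 m.1 = 1 ∧ tab_e5 m.2.2.1 = 0 ∧ tab_e5 m.2.2.2 = 1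

instance (m : O1 × O1 × O1 × O1) : Decidable (tab_up m) := by unfold tab_up; infer_instance

theorem tab_GP (g : GG) : g ∈ GP ↔ tab_up (PG.o4 g) := Iff.rfl

theorem tab_neg (m : O1 × O1 × O1 × O1) (h1 : tab_up m) (h2 : tab_up (PG.oneg m)) : False := by
  have h3 : tab_e5 (PG.oneg m).1 = -tab_e5 m.1 := by
    unfold tab_e5 PG.oneg PG.gneg
    push_cast
    ring
  have h4 := h2.1
  rw [h3, h1.1] at h4
  revert h4
  decide

theorem tab_rep : ∀ j : Fin 12, tab_up (tab_ow (tab_rwd j)) ∨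
    tab_up (PG.oneg (tab_ow (tab_rwd j))) → j = 0 := by decide +kernel

theorem tab_tt_GP : tt ∈ GP := by
  rw [tab_GP, show PG.o4 tt = tab_go .A from tab_go_eq .A]
  decide +kernel
theorem tab_uu_GP : uu ∈ GP := by
  rw [tab_GP, show PG.o4 uu = tab_go .U from tab_go_eq .U]
  decide +kernel
theorem tab_yy_GP : yy ∈ GP := by
  rw [tab_GP, show PG.o4 yy = (tab_lm .y).1 from congrArg Prod.fst (tab_lm_eq .y)]
  decide +kernel

theorem tab_C_GP {x : Q2 O1} (hx : x ∈ tab_C) : x.m ∈ GP := by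
  have h : tab_C ≤ GP.comap (Q2.mH (R := O1)) := tab_C_le _ tab_tt_GP tab_uu_GP tab_yy_GP
  exact h hx

/-- the key fact -/
theorem tab_IsT.key (hf : tab_IsT f) {g : GG} (hg : g ∈ GP) :
    (f g (0, 1)).1 = 0 ∧ (f g (0, 1)).2 ∈ tab_C ∧ (f g (0, 1)).2.m = g := by
  obtain ⟨h1, -, h3⟩ := hf.tt g
  have hC := h3 0
  have h4 := h1 (0, 1)
  have hV : tab_V (0, 1) = 1 := by
    show pj O1 (tab_rr 0 * 1) = 1
    rw [tab_rr_zero, mul_one, map_one]
  rw [hV, mul_one] at h4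
  obtain ⟨j, hj⟩ : ∃ j, j = (f g (0, 1)).1 := ⟨_, rfl⟩
  obtain ⟨c, hc⟩ : ∃ c, c = (f g (0, 1)).2 := ⟨_, rfl⟩
  have h5 : pj O1 g = pj O1 (tab_rr j * c.m) := by rw [h4, hj, hc]; rfl
  rw [← hj, ← hc]
  rw [← hc] at hC
  have hcm := tab_C_GP hC
  have hj0 : j = 0 := by
    apply tab_rep
    rcases pj_eq h5 with h6 | h6
    · left
      rw [← tab_ow_eq]
      show tab_rr j ∈ GP
      rw [← mul_inv_eq_iff_eq_mul.2 h6]
      exact GP.mul_mem hg (GP.inv_mem hcm)
    · right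
      rw [← tab_ow_eq, ← PG.o4_neg]
      show -tab_rr j ∈ GP
      have h7 : g = -tab_rr j * c.m := by rw [h6, neg_mul]
      rw [← mul_inv_eq_iff_eq_mul.2 h7]
      exact GP.mul_mem hg (GP.inv_mem hcm)
  refine ⟨hj0, hC, ?_⟩
  rw [hj0, tab_rr_zero, one_mul] at h5
  rcases pj_eq h5 with h6 | h6
  · exact h6.symm
  · exfalso
    rw [h6, tab_GP, PG.o4_neg] at hg
    exact tab_neg _ ((tab_GP _).1 hcm) hg

/-- the homomorphism `Θ` -/
def tab_Th (hf : tab_IsT f) : GP →* Q2 O1 where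
  toFun g := (f g.val (0, 1)).2
  map_one' := by
    show (f 1 (0, 1)).2 = 1
    rw [map_one]
    rfl
  map_mul' g h := by
    show (f (g.val * h.val) (0, 1)).2 = (f g.val (0, 1)).2 * (f h.val (0, 1)).2
    rw [map_mul, Equiv.Perm.mul_apply]
    have e : f h.val (0, 1) = tab_rt (f h.val (0, 1)).2 (0, 1) := by
      unfold tab_rt
      rw [one_mul]
      exact Prod.ext (hf.key h.2).1 rfl
    have e2 : f g.val (f h.val (0, 1)) = tab_rt (f h.val (0, 1)).2 (f g.val (0, 1)) := by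
      conv_lhs => rw [e]
      exact (hf.tt g.val).2.1 _ _
    rw [e2]
    rfl

/-- the first coordinate of `W` -/
theorem tab_W (x y : Q2 O1) (hx : x.t = 1) (hy : y.t = 1) : Q2.W x y 0 =
    ((x.m.val 0 0 - 1) * (x.m.val 1 1 - 1) - x.m.val 0 1 * x.m.val 1 0) * y.v 0 -
      ((y.m.val 0 0 - 1) * ((x.m.val 1 1 - 1) * x.v 0 - x.m.val 0 1 * x.v 1) +
        y.m.val 0 1 * ((x.m.val 0 0 - 1) * x.v 1 - x.m.val 1 0 * x.v 0)) := by
  unfold Q2.W Q2.X
  rw [hx, hy]
  simp only [Units.val_one, one_smul, Matrix.det_fin_two, Matrix.adjugate_fin_two, Pi.sub_apply,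
    Pi.smul_apply, smul_eq_mul, Matrix.mulVec, dotProduct, Fin.sum_univ_two, Matrix.sub_apply,
    Matrix.one_apply_eq, Matrix.of_apply, Matrix.cons_val', Matrix.cons_val_zero,
    Matrix.cons_val_one, Matrix.cons_val_fin_one]
  rw [Matrix.one_apply_ne (by decide), Matrix.one_apply_ne (by decide)]
  ring

theorem tab_neg_f (hf : tab_IsT f) (g : GG) : f (-g) = f g := by
  rw [← neg_one_mul g, ← G.BB, map_mul, map_mul, hf.fB, tab_rel.c2, one_mul]

theorem tab_yy_w : yy = -tab_gw [.B, .A, .A, .U, .B] := by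
  apply PG.o4_inj
  rw [PG.o4_neg, tab_ow_eq, show PG.o4 yy = (tab_lm .y).1 from congrArg Prod.fst (tab_lm_eq .y)]
  decide +kernel

theorem tab_act1 : (tab_act [.A, .B, .A, .A, .U, .B] 0).1 = 0 ∧
    tab_wm (tab_act [.A, .B, .A, .A, .U, .B] 0).2 = tab_mul (tab_lm .t) (tab_lm .y) := by
  decide +kernel

theorem tab_act2 : tab_act [.U] 0 = (0, [.u]) := by decide +kernel

theorem tab_val1 (hf : tab_IsT f) : (f (tt * yy) (0, 1)).2 = tab_T * tab_Y := by
  have e : f (tt * yy) = tab_pw [.A, .B, .A, .A, .U, .B] := by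
    rw [map_mul, tab_yy_w, tab_neg_f hf, hf.gw, show f tt = tab_pg .A from hf.fA]
    rfl
  rw [e, tab_pw_apply]
  show tab_wv (tab_act [.A, .B, .A, .A, .U, .B] 0).2 * 1 = _
  rw [mul_one]
  apply tab_md_inj (tab_wv_t _)
  · rfl
  · rw [tab_wm_eq, tab_act1.2, tab_md_mul _ _ rfl]
    rw [show tab_md tab_T = tab_lm .t from tab_lm_eq .t,
      show tab_md tab_Y = tab_lm .y from tab_lm_eq .y]

theorem tab_val2 (hf : tab_IsT f) : (f uu (0, 1)).2 = tab_U := by
  have e : f uu = tab_pw [.U] := by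
    rw [show f uu = tab_pg .U from hf.fU]
    show _ = tab_pg .U * 1
    rw [mul_one]
  rw [e, tab_pw_apply, tab_act2]
  show tab_U * 1 * 1 = _
  rw [mul_one, mul_one]

theorem p_tab : S_tab := by
  obtain ⟨f, hf⟩ := tab_exT
  refine ⟨?_, tab_Th hf, ?_, ?_, ?_⟩
  · intro H h1 h2 h3 g hg
    obtain ⟨-, hC, hm⟩ := hf.key hg
    rw [← hm]
    have h : tab_C ≤ H.comap (Q2.mH (R := O1)) := tab_C_le _ h1 h2 h3
    exact h hC
  · apply MonoidHom.ext
    intro g
    exact (hf.key g.2).2.2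
  · apply MonoidHom.ext
    intro g
    exact tab_C_t (hf.key g.2).2.1
  · refine ⟨⟨tt * yy, GP.mul_mem tab_tt_GP tab_yy_GP⟩, ⟨uu, tab_uu_GP⟩, ?_⟩
    show Q2.W (f (tt * yy) (0, 1)).2 (f uu (0, 1)).2 0 = _
    rw [tab_val1 hf, tab_val2 hf, tab_W _ _ rfl rfl]
    decide +kernel

end Pool.Agent.F8.PIC
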