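import Pool.Agent.Lib.MP_305fdd_al.F8.PIC.Defs
import Mathlib.NumberTheory.Zsqrtd.GaussianInt
import Mathlib.LinearAlgebra.Matrix.ProjectiveSpecialLinearGroup

/-!
# MP_305fdd_al, the Picard group: `SL₂(O1) / ±1` and Mathlib's `PSL₂` of the Gaussian integers
-/

set_option autoImplicit false

namespace Pool.Agent.F8.PIC

open Pool.Agent.MP_305fdd_al Pool.Agent.Lib.MP_305fdd_al Pool.Agent.F2X Pool.Agent.F8
  Pool.Agent.F8.HN Pool.Agent.F8.AB Pool.Agent.F8.D1
open scoped QuadraticAlgebra

/-- the isomorphism of the two models of the Gaussian integers -/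
def gE : O1 ≃+* GaussianInt where
  toFun z := ⟨z.re, z.im⟩
  invFun z := ⟨z.re, z.im⟩
  left_inv _ := rfl
  right_inv _ := rfl
  map_add' x y := by
    apply Zsqrtd.ext
    · exact QuadraticAlgebra.re_add x y
    · exact QuadraticAlgebra.im_add x y
  map_mul' x y := by
    apply Zsqrtd.ext
    · show (x * y).re = x.re * y.re + -1 * x.im * y.im
      rw [QuadraticAlgebra.re_mul]
    · show (x * y).im = x.re * y.im + x.im * y.re
      rw [QuadraticAlgebra.im_mul]; ring

/-- base change along an isomorphism -/
def slE {R S : Type} [CommRing R] [CommRing S] (e : R ≃+* S) : SL2 R ≃* SL2 S :=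
  MonoidHom.toMulEquiv (SLm e.toRingHom) (SLm e.symm.toRingHom)
    (by
      ext g i j
      exact e.symm_apply_apply _)
    (by
      ext g i j
      exact e.apply_symm_apply _)

theorem pm_center : pm O1 = Subgroup.center (SL2 O1) := by
  ext g
  constructor
  · rintro (rfl | rfl)
    · exact Subgroup.one_mem _
    · rw [Subgroup.mem_center_iff]
      intro g
      rw [mul_neg, neg_mul, mul_one, one_mul]
  · intro hg
    rw [Subgroup.mem_center_iff] at hg
    have h1 := hg (mU 1)
    have h2 := hg (mB O1)
    have a1 := congrArg (fun x : SL2 O1 => x.val 0 0) h1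
    have a2 := congrArg (fun x : SL2 O1 => x.val 0 1) h1
    have b1 := congrArg (fun x : SL2 O1 => x.val 0 0) h2
    simp only [G.SL_mul, G.mU00, G.mU01, G.mU10, G.mU11] at a1 a2
    simp only [G.SL_mul, G.mB00, G.mB01, G.mB10, G.mB11] at b1
    have hc : g.val 1 0 = 0 := by linear_combination a1
    have hd : g.val 1 1 = g.val 0 0 := by linear_combination a2
    have hb : g.val 0 1 = 0 := by linear_combination (-1 : O1) * b1 - hc
    have hdet := G.SL_det g
    rw [hc, hd, mul_zero, sub_zero] at hdet
    have e1 := congrArg QuadraticAlgebra.re hdet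
    have e2 := congrArg QuadraticAlgebra.im hdet
    rw [QuadraticAlgebra.re_mul, QuadraticAlgebra.re_one] at e1
    rw [QuadraticAlgebra.im_mul, QuadraticAlgebra.im_one] at e2
    have e3 : (g.val 0 0).re * (g.val 0 0).im = 0 := by linarith
    have him : (g.val 0 0).im = 0 := by
      rcases mul_eq_zero.1 e3 with h | h
      · rw [h] at e1
        nlinarith [sq_nonneg (g.val 0 0).im]
      · exact h
    rw [him] at e1
    have hre : (g.val 0 0).re = 1 ∨ (g.val 0 0).re = -1 := by
      have : ((g.val 0 0).re - 1) * ((g.val 0 0).re + 1) = 0 := by linarith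
      rcases mul_eq_zero.1 this with h | h
      · left; linarith
      · right; linarith
    rcases hre with h | h
    · left
      have h0 : g.val 0 0 = 1 := QuadraticAlgebra.ext h him
      apply G.SL_ext
      · rw [G.one00, h0]
      · rw [G.one01, hb]
      · rw [G.one10, hc]
      · rw [G.one11, hd, h0]
    · right
      have h0 : g.val 0 0 = -1 := QuadraticAlgebra.ext h (by
        rw [him, QuadraticAlgebra.im_neg, QuadraticAlgebra.im_one, neg_zero])
      apply G.SL_ext
      · rw [G.SL_neg, G.one00, h0]
      · rw [G.SL_neg, G.one01, hb, neg_zero]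
      · rw [G.SL_neg, G.one10, hc, neg_zero]
      · rw [G.SL_neg, G.one11, hd, h0]

/-- the two models of `PSL₂(ℤ[i])` -/
noncomputable def pslE : (SL2 O1 ⧸ pm O1) ≃*
    Matrix.ProjectiveSpecialLinearGroup (Fin 2) GaussianInt :=
  QuotientGroup.congr _ _ (slE gE) (by
    rw [pm_center]
    ext x
    rw [Subgroup.mem_map]
    constructor
    · rintro ⟨y, hy, rfl⟩
      rw [Subgroup.mem_center_iff] at hy
      rw [Subgroup.mem_center_iff]
      intro g
      obtain ⟨g, rfl⟩ := (slE gE).surjective g
      show slE gE g * slE gE y = slE gE y * slE gE g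
      rw [← map_mul, ← map_mul, hy]
    · intro hx
      rw [Subgroup.mem_center_iff] at hx
      refine ⟨(slE gE).symm x, ?_, (slE gE).apply_symm_apply x⟩
      rw [Subgroup.mem_center_iff]
      intro g
      apply (slE gE).injective
      rw [map_mul, map_mul, MulEquiv.apply_symm_apply, hx])

end Pool.Agent.F8.PIC
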