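import Pool.Agent.Lib.MP_305fdd_al.F8.MainPT
import Pool.Agent.Lib.MP_305fdd_al.F8.PIC.P_prd
import Pool.Agent.Lib.MP_305fdd_al.F8.PIC.P_psl
import Pool.Agent.Lib.MP_305fdd_al.F8.PIC.P_tab
import Pool.Agent.Lib.MP_305fdd_al.F8.PIC.P_nf
import Pool.Agent.Lib.MP_305fdd_al.F8.PIC.P_std
import Pool.Agent.Lib.MP_305fdd_al.F8.PIC.P_alg
import Pool.Agent.Lib.MP_305fdd_al.F8.PIC.P_det
import Pool.Agent.Lib.MP_305fdd_al.F8.PIC.P_coc
import Pool.Agent.Lib.MP_305fdd_al.F8.PIC.P_pf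
import Pool.Agent.Lib.MP_305fdd_al.F8.PIC.P_g3
import Pool.Agent.Lib.MP_305fdd_al.F8.PIC.P_px
import Pool.Agent.Lib.MP_305fdd_al.F8.PIC.P_sp
import Pool.Agent.Lib.MP_305fdd_al.F8.PIC.P_lim
import Pool.Agent.Lib.MP_305fdd_al.F8.PIC.P_dat
import Pool.Agent.Lib.MP_305fdd_al.F8.PIC.P_d4
import Pool.Agent.Lib.MP_305fdd_al.F8.PIC.P_sq
import Pool.Agent.Lib.MP_305fdd_al.F8.PIC.P_d5
import Pool.Agent.Lib.MP_305fdd_al.F8.PIC.P_d6
import Pool.Agent.Lib.MP_305fdd_al.F8.PIC.P_out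
import Pool.Agent.Lib.MP_305fdd_al.F8.PIC.P_sig
import Pool.Agent.Lib.MP_305fdd_al.F8.PIC.P_E
import Pool.Agent.Lib.MP_305fdd_al.F8.PIC.P_gr
import Pool.Agent.Lib.MP_305fdd_al.F8.PIC.P_X1
import Pool.Agent.Lib.MP_305fdd_al.F8.PIC.P_X3
import Pool.Agent.Lib.MP_305fdd_al.F8.PIC.P_X4
import Pool.Agent.Lib.MP_305fdd_al.F8.PIC.P_f5
import Pool.Agent.Lib.MP_305fdd_al.F8.PIC.P_e1
import Pool.Agent.Lib.MP_305fdd_al.F8.PIC.P_e2
import Pool.Agent.Lib.MP_305fdd_al.F8.PIC.P_eta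
import Pool.Agent.Lib.MP_305fdd_al.F8.PIC.P_n3
import Pool.Agent.Lib.MP_305fdd_al.F8.PIC.P_h5
import Pool.Agent.Lib.MP_305fdd_al.F8.PIC.P_m3
import Pool.Agent.Lib.MP_305fdd_al.F8.PIC.P_frm
import Pool.Agent.Lib.MP_305fdd_al.F8.PIC.P_frg
import Pool.Agent.Lib.MP_305fdd_al.F8.PIC.P_afg
import Pool.Agent.Lib.MP_305fdd_al.F8.PIC.P_i0
import Pool.Agent.Lib.MP_305fdd_al.F8.PIC.P_i1
import Pool.Agent.Lib.MP_305fdd_al.F8.PIC.P_i2
import Pool.Agent.Lib.MP_305fdd_al.F8.PIC.P_i3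
import Pool.Agent.Lib.MP_305fdd_al.F8.PIC.P_i4
import Pool.Agent.Lib.MP_305fdd_al.F8.PIC.P_fin
import Pool.Agent.Lib.MP_305fdd_al.F8.PIC.P_fi
import Pool.Agent.Lib.MP_305fdd_al.F8.PIC.P_ha
import Pool.Agent.Lib.MP_305fdd_al.F8.PIC.P_hl1
import Pool.Agent.Lib.MP_305fdd_al.F8.PIC.P_hl2
import Pool.Agent.Lib.MP_305fdd_al.F8.PIC.P_con
import Pool.Agent.Lib.MP_305fdd_al.F8.PIC.MainOf
import Pool.Agent.Lib.MP_305fdd_al.F8.PIC.Psl

/-!
# MP_305fdd_al, the Picard group: assembly of the pieces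
-/

set_option autoImplicit false

namespace Pool.Agent.F8.PIC

open Pool.Agent.MP_305fdd_al Pool.Agent.Lib.MP_305fdd_al Pool.Agent.F2X Pool.Agent.F8
  Pool.Agent.F8.HN Pool.Agent.F8.AB Pool.Agent.F8.D1
open scoped QuadraticAlgebra

theorem m_prd : S_prd := p_prd
theorem m_psl : S_psl := p_psl m_prd
theorem m_tab : S_tab := p_tab
theorem m_nf : S_nf := p_nf
theorem m_std : S_std := p_std
theorem m_alg : S_alg := p_alg
theorem m_det : S_det := p_det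
theorem m_coc : S_coc := p_coc m_tab m_alg m_det
theorem m_pf : S_pf := p_pf
theorem m_g3 : S_g3 := p_g3 m_nf m_std m_coc m_pf
theorem m_px : S_px := p_px pf_mt pf_mp
theorem m_sp : S_sp := p_sp all_spt pf_wm
theorem m_lim : S_lim := p_lim
theorem m_dat : S_dat := p_dat m_tab m_lim
theorem m_d4 : S_d4 := p_d4 m_pf pf_gal pf_int
theorem m_sq : S_sq1 := p_sq
theorem m_d5 : S_d5 := p_d5
theorem m_d6 : S_d6 := p_d6 m_pf
theorem m_out : S_out := p_out m_g3 m_px m_sp m_dat m_d4 m_sq m_d5 m_d6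
theorem m_sig : S_sig := p_sig
theorem m_E : S_E := p_E m_sig
theorem m_gr : S_gr := p_gr
theorem m_X1 : S_X1 := p_X1 m_gr m_sig
theorem m_X3 : S_X3 := p_X3
theorem m_X4 : S_X4 := p_X4
theorem m_f5 : S_f5 := p_f5
theorem m_e1 : S_e1 := p_e1 m_f5
theorem m_e2 : S_e2 := p_e2 m_e1
theorem m_eta : S_eta := p_eta m_e1 m_e2
theorem m_n3 : S_n3 := p_n3 m_f5
theorem m_h5 : S_h5 := p_h5
theorem m_m3 : S_m3 := p_m3 m_n3
theorem m_frm : S_frm := p_frm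
theorem m_frg : S_frg := p_frg m_frm
theorem m_afg : S_afg := p_afg m_frg
theorem m_i0 : S_i0 := p_i0
theorem m_i1 : S_i1 := p_i1
theorem m_i2 : S_i2 := p_i2 m_i1
theorem m_i3 : S_i3 := p_i3
theorem m_i4 : S_i4 := p_i4
theorem m_ha : S_ha := p_ha
theorem m_hl1 : S_hl1 := p_hl1 m_ha
theorem m_hl2 : S_hl2 := p_hl2
theorem m_con : S_con := p_con m_eta m_hl1 m_hl2
theorem m_inf : S_inf := inf_of m_i0 (fun _ => m_i2) m_i1 m_i3 m_i4
theorem m_fin : S_fin := p_fin m_afg m_inf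
theorem m_fi : S_fi := p_fi m_eta m_h5 m_m3 m_fin

/-- `SL₂(ℤ[i])` is profinitely rigid -/
theorem SL_rigid : ProfinitelyRigid GG := rigid_SL m_out m_E m_X1 m_X3 m_X4 m_fi m_con

/-- the Picard group is profinitely rigid -/
theorem picard : ProfinitelyRigid (Matrix.ProjectiveSpecialLinearGroup (Fin 2) GaussianInt) :=
  rigid_equiv pslE (m_psl SL_rigid)

end Pool.Agent.F8.PIC
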