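import Pool.Agent.Lib.MP_305fdd_al.F8.PIC.Stm

set_option autoImplicit false

namespace Pool.Agent.F8.PIC

open Pool.Agent.MP_305fdd_al Pool.Agent.Lib.MP_305fdd_al Pool.Agent.F2X Pool.Agent.F8
  Pool.Agent.F8.HN Pool.Agent.F8.AB Pool.Agent.F8.D1
open Pool.Agent.F8.D1.PG (mL TP)
open scoped QuadraticAlgebra

private theorem out_root (K : Type) [Field K] [IsAlgClosed K] : ∃ w : K, w * w = -1 := by
  obtain ⟨s, hs⟩ := IsAlgClosed.exists_eq_mul_self (-1 : K)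
  exact ⟨s, hs.symm⟩

private theorem out_irr {L K : Type} [Group L] [CommRing K] {P : Subgroup L} {s : L →* SL2 K}
    (h : Pt P s) : Irr s := by
  obtain ⟨⟨g, g', hg⟩, -⟩ := h
  exact ⟨g, g', hg⟩

private theorem out_red {Λ : Type} [Group Λ] {Φ : NatBij GG Λ} {p : ℕ} [Fact p.Prime]
    {r : Λ →* SL2 (E1 ℤ_[p])} (hD : DatP Φ p r) (k : ℕ) (g : Λ) (x : O1)
    (hx : tr (r g) = E1m (Int.castRingHom ℤ_[p]) x) :
    E1m (Int.castRingHom (ZMod (p ^ k))) x = tr (Φ.toFun _ (rd (p ^ k)) g) := by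
  rw [← hD.red k]
  show _ = tr (SLm (E1m (PadicInt.toZModPow k)) (r g))
  rw [tr_map, hx]
  rw [E1m_apply, E1m_apply, E1m_apply]
  simp

private theorem out_fi {Λ : Type} [Group Λ] (Φ : NatBij GG Λ) : (LP Φ).FiniteIndex := by
  have h1 : (Φ.toFun _ r5).ker ≤ LP Φ := by
    intro x hx
    show Φ.toFun _ r5 x ∈ UP (ZMod 5)
    rw [MonoidHom.mem_ker.1 hx]
    exact one_mem _
  exact Subgroup.finiteIndex_of_le h1

theorem p_out (hg3 : S_g3) (hpx : S_px) (hsp : S_sp) (hdat : S_dat) (hd4 : S_d4)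
    (hsq : S_sq1) (hd5 : S_d5) (hd6 : S_d6) : S_out := by
  intro Λ _ _ Φ
  have hfi : (LP Φ).FiniteIndex := out_fi Φ
  have h3 : ∀ (K : Type) [Field K] [CharZero K], ¬ GdP (LP Φ) K 3 := by
    intro K _ _ h
    obtain ⟨⟨k, _, _, h2, hk⟩, -⟩ := hsp Λ (LP Φ) hfi K 3 h
    exact hg3 k h2 (hpx Λ Φ k 3 hk)
  have hG : GdP (LP Φ) (AlgebraicClosure ℚ) 2 := by
    obtain ⟨r, hr⟩ := hdat Λ Φ 2
    obtain ⟨w, hw⟩ := out_root (Fl 2)
    have hw' : -w * -w = -1 := by rw [neg_mul_neg, hw]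
    refine (hsp Λ (LP Φ) hfi (Fl 2) 2 ⟨![(SLm (ev1 (iz 2) w hw)).comp r,
      (SLm (ev1 (iz 2) (-w) hw')).comp r], ?_, ?_⟩).2
    · intro i
      fin_cases i
      · exact hr.good (Fl 2) (ev1 (iz 2) w hw)
      · exact hr.good (Fl 2) (ev1 (iz 2) (-w) hw')
    · have hne : ∃ g, tr (SLm (ev1 (iz 2) w hw) (r g)) ≠ tr (SLm (ev1 (iz 2) (-w) hw') (r g)) := by
        obtain ⟨g, hg⟩ := hr.ne
        refine ⟨g, fun h => ?_⟩
        rw [tr_map, tr_map, ev1_apply, ev1_apply] at h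
        have hinj : Function.Injective (iz 2) := by
          intro a b hab
          have h1 : algebraMap ℚ_[2] (Fl 2) (a : ℚ_[2]) = algebraMap ℚ_[2] (Fl 2) (b : ℚ_[2]) := hab
          exact Subtype.ext ((algebraMap ℚ_[2] (Fl 2)).injective h1)
        have hw0 : w ≠ 0 := by
          rintro rfl
          rw [mul_zero] at hw
          exact one_ne_zero (neg_eq_zero.1 hw.symm)
        have h1 : iz 2 (tr (r g)).im * (2 * w) = 0 := by linear_combination h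
        rcases mul_eq_zero.1 h1 with h2 | h2
        · exact hg (hinj (by rw [h2, map_zero]))
        · exact (mul_ne_zero two_ne_zero hw0) h2
      intro i j hij
      obtain ⟨g, hg⟩ := hne
      refine ⟨g, ?_⟩
      fin_cases i <;> fin_cases j
      · exact absurd rfl hij
      · exact hg
      · exact hg.symm
      · exact absurd rfl hij
  obtain ⟨w, hw⟩ := out_root (AlgebraicClosure ℚ)
  obtain ⟨ρ, hρ, hne⟩ := hG
  have hne' := hne 0 1 (by decide)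
  have h1 := hρ 0
  have h2 := hρ 1
  generalize ρ 0 = s₁ at *
  generalize ρ 1 = s₂ at *
  have hval : ∀ l : Λ, ∃ T : O1, tr (s₁ l) = ev1 (Int.castRingHom _) w hw T ∧
      tr (s₂ l) = ev1 (Int.castRingHom _) w hw (cj ℤ T) := by
    intro l
    obtain ⟨S, P, hS, hP, hp⟩ := hd4 Λ Φ h3 (fun p _ => hdat Λ Φ p) s₁ s₂ h1 h2 hne' l
    have hm : ∃ m : ℤ, S * S - 4 * P = -4 * (m * m) := by
      apply hsq
      intro p _
      obtain ⟨r, hD⟩ := hdat Λ Φ p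
      obtain ⟨hp1, hp2⟩ := hp p r hD
      refine ⟨(tr (r l)).im, ?_⟩
      push_cast
      rw [hp1, hp2]
      ring
    obtain ⟨m, hm⟩ := hm
    exact hd5 (AlgebraicClosure ℚ) w hw _ _ S P m hS hP hm
  choose T hT using hval
  have hfin : ∀ (s₁ s₂ : Λ →* SL2 (AlgebraicClosure ℚ)) (T : Λ → O1), Pt (LP Φ) s₁ →
      Pt (LP Φ) s₂ → (∃ g, tr (s₁ g) ≠ tr (s₂ g)) →
      (∀ g, tr (s₁ g) = ev1 (Int.castRingHom _) w hw (T g) ∧
        tr (s₂ g) = ev1 (Int.castRingHom _) w hw (cj ℤ (T g))) →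
      (∃ r : Λ →* SL2 (E1 ℤ_[2]), DatP Φ 2 r ∧
        ∀ g, tr (r g) = E1m (Int.castRingHom ℤ_[2]) (T g)) →
      OutP Φ T s₁ w hw := by
    intro s₁ s₂ T h1 h2 hne hT h22
    refine ⟨fun g => (hT g).1, out_irr h1, ?_⟩
    intro p _
    by_cases hp : p = 2
    · subst hp
      obtain ⟨r, hD, hr⟩ := h22
      exact ⟨false, fun _ => rfl, fun k g => out_red hD k g _ (hr g)⟩
    · obtain ⟨r, hD⟩ := hdat Λ Φ p
      rcases hd6 Λ Φ h3 s₁ s₂ h1 h2 hne w hw T hT p r hD with h | h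
      · exact ⟨false, fun _ => rfl, fun k g => out_red hD k g _ (h g)⟩
      · exact ⟨true, fun h => absurd h hp, fun k g => out_red hD k g _ (h g)⟩
  obtain ⟨r, hD⟩ := hdat Λ Φ 2
  rcases hd6 Λ Φ h3 s₁ s₂ h1 h2 hne' w hw T hT 2 r hD with h | h
  · exact ⟨T, _, w, hw, hfin s₁ s₂ T h1 h2 hne' hT ⟨r, hD, h⟩⟩
  · refine ⟨fun g => cj ℤ (T g), _, w, hw, hfin s₂ s₁ (fun g => cj ℤ (T g)) h2 h1 ?_ ?_
      ⟨r, hD, h⟩⟩
    · obtain ⟨g, hg⟩ := hne'
      exact ⟨g, hg.symm⟩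
    · intro g
      rw [cj_cj]
      exact ⟨(hT g).2, (hT g).1⟩

end Pool.Agent.F8.PIC
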