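import Pool.Agent.Lib.MP_305fdd_al.F8.PIC.Stm

/-!
# MP_305fdd_al, the Picard group: piece `pf`, functoriality of property P
-/

set_option autoImplicit false

namespace Pool.Agent.F8.PIC

open Pool.Agent.MP_305fdd_al Pool.Agent.Lib.MP_305fdd_al Pool.Agent.F2X Pool.Agent.F8
  Pool.Agent.F8.HN Pool.Agent.F8.AB Pool.Agent.F8.D1
open scoped QuadraticAlgebra

/-- functoriality of `W` -/
private theorem pf_W {R S : Type} [CommRing R] [CommRing S] (f : R →+* S) (x y : Q2 R)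
    (i : Fin 2) : Q2.W (Q2.map f x) (Q2.map f y) i = f (Q2.W x y i) := by
  unfold Q2.W Q2.X
  simp only [Matrix.det_fin_two, Matrix.adjugate_fin_two]
  fin_cases i <;> simp [Matrix.sub_apply, Matrix.smul_apply, dotProduct, Fin.sum_univ_two]

private theorem pf_map {L : Type} [Group L] (P : Subgroup L) {K K' : Type} [Field K] [Field K']
    (f : K →+* K') (ρ : L →* SL2 K) (h : Pt P ρ) : Pt P ((SLm f).comp ρ) := by
  refine ⟨?_, ?_⟩
  · obtain ⟨g, k, hgk⟩ := h.1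
    refine ⟨g, k, fun h2 => hgk ?_⟩
    apply f.injective
    rw [map_ofNat, ← h2]
    exact (tr_map f _).symm
  · obtain ⟨Θ, h1, h2, g, k, hgk⟩ := h.2
    refine ⟨(Q2.map f).comp Θ, ?_, ?_, g, k, fun h3 => hgk ?_⟩
    · ext1 x
      have h4 : (Θ x).m = ρ x.val := DFunLike.congr_fun h1 x
      show SLm f (Θ x).m = SLm f (ρ x.val)
      rw [h4]
    · ext1 x
      have h4 : (Θ x).t = 1 := DFunLike.congr_fun h2 x
      show Units.map f.toMonoidHom (Θ x).t = 1
      rw [h4, map_one]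
    · funext i
      apply f.injective
      have h4 := pf_W f (Θ g) (Θ k) i
      have h5 := congrFun h3 i
      rw [Pi.zero_apply, map_zero]
      exact h4.symm.trans h5

/-- the element `(1, C, 0)` -/
private def pf_c {R : Type} [CommRing R] (C : SL2 R) : Q2 R := ⟨1, C, 0⟩

private theorem pf_ct {R : Type} [CommRing R] (C : SL2 R) (x : Q2 R) :
    (pf_c C * x * (pf_c C)⁻¹).t = x.t := by
  show 1 * x.t * 1⁻¹ = x.t
  simp

private theorem pf_cm {R : Type} [CommRing R] (C : SL2 R) (x : Q2 R) :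
    (pf_c C * x * (pf_c C)⁻¹).m = C * x.m * C⁻¹ := rfl

private theorem pf_cv {R : Type} [CommRing R] (C : SL2 R) (x : Q2 R) :
    (pf_c C * x * (pf_c C)⁻¹).v = C.val.mulVec x.v := by
  have h : (pf_c C).v = 0 := rfl
  have h1 : (pf_c C).t = 1 := rfl
  have h2 : (pf_c C).m = C := rfl
  rw [Q2.mul_v, Q2.inv_v, Q2.mul_v, h, h1, h2, Matrix.mulVec_zero, smul_zero, neg_zero,
    Matrix.mulVec_zero, smul_zero, Units.val_one, one_smul, zero_add, add_zero]

private theorem pf_cX {R : Type} [CommRing R] (C : SL2 R) (x : Q2 R) :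
    Q2.X (pf_c C * x * (pf_c C)⁻¹) = C.val * Q2.X x * (C⁻¹).val := by
  unfold Q2.X
  rw [pf_ct, pf_cm]
  have h1 : C.val * (C⁻¹).val = 1 := by
    rw [← Matrix.SpecialLinearGroup.coe_mul, mul_inv_cancel, Matrix.SpecialLinearGroup.coe_one]
  rw [Matrix.SpecialLinearGroup.coe_mul, Matrix.SpecialLinearGroup.coe_mul, Matrix.mul_sub,
    Matrix.sub_mul, Matrix.mul_one, h1, Matrix.mul_smul, Matrix.smul_mul]

private theorem pf_cW {R : Type} [CommRing R] (C : SL2 R) (x y : Q2 R) :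
    Q2.W (pf_c C * x * (pf_c C)⁻¹) (pf_c C * y * (pf_c C)⁻¹) = C.val.mulVec (Q2.W x y) := by
  have h1 : (C⁻¹).val * C.val = 1 := by
    rw [← Matrix.SpecialLinearGroup.coe_mul, inv_mul_cancel, Matrix.SpecialLinearGroup.coe_one]
  have h2 : (C.val).adjugate = (C⁻¹).val := (Matrix.SpecialLinearGroup.coe_inv C).symm
  have h3 : ((C⁻¹).val).adjugate = C.val := by
    rw [← Matrix.SpecialLinearGroup.coe_inv, inv_inv]
  have hd : (C.val * Q2.X x * (C⁻¹).val).det = (Q2.X x).det := by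
    rw [Matrix.det_mul, Matrix.det_mul, C.det_coe, (C⁻¹).det_coe, one_mul, mul_one]
  have ha : (C.val * Q2.X x * (C⁻¹).val).adjugate = C.val * (Q2.X x).adjugate * (C⁻¹).val := by
    rw [Matrix.adjugate_mul_distrib, Matrix.adjugate_mul_distrib, h2, h3, Matrix.mul_assoc]
  unfold Q2.W
  rw [pf_cX, pf_cX, pf_cv, pf_cv, hd, ha, Matrix.mulVec_sub, Matrix.mulVec_smul]
  congr 1
  rw [Matrix.mulVec_mulVec, Matrix.mulVec_mulVec, Matrix.mulVec_mulVec, Matrix.mulVec_mulVec]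
  congr 1
  have e1 : C.val * Q2.X y * (C⁻¹).val * (C.val * (Q2.X x).adjugate * (C⁻¹).val) * C.val =
      C.val * Q2.X y * ((C⁻¹).val * C.val) * (Q2.X x).adjugate * ((C⁻¹).val * C.val) := by
    simp only [Matrix.mul_assoc]
  rw [e1, h1, Matrix.mul_one, Matrix.mul_one]

private theorem pf_conj {L : Type} [Group L] (P : Subgroup L) {K : Type} [Field K] (C : SL2 K)
    (ρ : L →* SL2 K) (h : Pt P ρ) : Pt P ((MulAut.conj C).toMonoidHom.comp ρ) := by
  refine ⟨?_, ?_⟩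
  · obtain ⟨g, k, hgk⟩ := h.1
    refine ⟨g, k, fun h2 => hgk ?_⟩
    rw [← h2]
    show tr (ρ _) = tr (C * ρ _ * C⁻¹)
    unfold tr
    show (ρ _).val.trace = (C * ρ _ * C⁻¹).val.trace
    rw [Matrix.SpecialLinearGroup.coe_mul, Matrix.trace_mul_comm,
      ← Matrix.SpecialLinearGroup.coe_mul, inv_mul_cancel_left]
  · obtain ⟨Θ, h1, h2, g, k, hgk⟩ := h.2
    refine ⟨(MulAut.conj (pf_c C)).toMonoidHom.comp Θ, ?_, ?_, g, k, fun h3 => hgk ?_⟩
    · ext1 x
      have h4 : (Θ x).m = ρ x.val := DFunLike.congr_fun h1 x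
      show (pf_c C * Θ x * (pf_c C)⁻¹).m = C * ρ x.val * C⁻¹
      rw [pf_cm, h4]
    · ext1 x
      have h4 : (Θ x).t = 1 := DFunLike.congr_fun h2 x
      show (pf_c C * Θ x * (pf_c C)⁻¹).t = 1
      rw [pf_ct, h4]
    · have h4 : C.val.mulVec (Q2.W (Θ g) (Θ k)) = 0 := (pf_cW C (Θ g) (Θ k)).symm.trans h3
      have h5 : (C⁻¹).val * C.val = 1 := by
        rw [← Matrix.SpecialLinearGroup.coe_mul, inv_mul_cancel,
          Matrix.SpecialLinearGroup.coe_one]
      have h6 := congrArg (C⁻¹).val.mulVec h4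
      rwa [Matrix.mulVec_mulVec, h5, Matrix.one_mulVec, Matrix.mulVec_zero] at h6

theorem p_pf : S_pf := by
  refine ⟨fun L _ P K K' _ _ f ρ h => pf_map P f ρ h, ?_, fun L _ P K _ C ρ h => pf_conj P C ρ h⟩
  intro L _ P K K' _ _ f N h
  obtain ⟨ρ, h1, h2⟩ := h
  refine ⟨fun i => (SLm f).comp (ρ i), fun i => pf_map P f _ (h1 i), fun i j hij => ?_⟩
  obtain ⟨g, hg⟩ := h2 i j hij
  refine ⟨g, fun h3 => hg ?_⟩
  apply f.injective
  rw [← tr_map, ← tr_map]
  exact h3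

end Pool.Agent.F8.PIC
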